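import Mathlib

/-!
# Definitions for theorem A (the points where zeta takes a generic value)
-/

namespace Pool.Agent.Lib.MP_ec260d_ntA

open Complex Set Filter Topology Metric

noncomputable section

/-- the points different from the pole where the derivative of zeta does not vanish -/
def EE : Set ℂ := {z | z ≠ 1 ∧ deriv riemannZeta z ≠ 0}

/-- the local inverses of zeta at `a` through the points `z i` satisfy the relation `P` -/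
def Rel {n : ℕ} (P : MvPolynomial (Option (Fin n)) ℂ) (a : ℂ) (z : Fin n → ℂ) : Prop :=
  ∃ g : Fin n → ℂ → ℂ,
    (∀ i, AnalyticAt ℂ (g i) a ∧ g i a = z i ∧ ∀ᶠ b in 𝓝 a, riemannZeta (g i b) = b) ∧
    ∀ᶠ b in 𝓝 a, MvPolynomial.eval (fun o : Option (Fin n) => o.elim b (fun i => g i b)) P = 0

/-- `w` is near a finite point where zeta is `1` (values of a Puiseux parametrisation) -/
def RR (w : ℂ) : Prop :=
  ∃ (m : ℕ) (r : ℝ) (H : ℂ → ℂ) (u₀ : ℂ), 1 ≤ m ∧ 0 < r ∧ DifferentiableOn ℂ H (ball 0 r) ∧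
    (∀ u ∈ ball (0 : ℂ) r, u ≠ 0 → H u ∈ EE ∧ riemannZeta (H u) = 1 + u ^ m) ∧
    u₀ ∈ ball (0 : ℂ) r ∧ u₀ ≠ 0 ∧ H u₀ = w

/-- the density of the metric -/
def rho (w : ℂ) : ℝ :=
  2 / (Real.sqrt (Real.exp 2 + ‖w‖ ^ 2) * Real.log (Real.exp 2 + ‖w‖ ^ 2))

/-- completely multiplicative weights of modulus at most one with value one at two -/
def CM (χ : ℕ → ℂ) : Prop :=
  χ 1 = 1 ∧ χ 2 = 1 ∧ (∀ m n, m ≠ 0 → n ≠ 0 → χ (m * n) = χ m * χ n) ∧ ∀ n, ‖χ n‖ ≤ 1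

/-- the sum over `n ≥ 2` of `χ n * n ^ (-s)` -/
def ZZ (χ : ℕ → ℂ) (s : ℂ) : ℂ := ∑' n : ℕ, χ (n + 2) * ((n + 2 : ℕ) : ℂ) ^ (-s)

/-- the small solution `E` of `ZZ χ (ξ + E) = 2 ^ (-ξ)` -/
def ef (χ : ℕ → ℂ) (ξ : ℂ) : ℂ := by
  classical exact
    if h : ∃ E : ℂ, ‖E‖ ≤ 1 / 10 ∧ ZZ χ (ξ + E) = (2 : ℂ) ^ (-ξ) then h.choose else 0

/-- the point of the right half plane with parameter `ξ` -/
def SS (ξ : ℂ) : ℂ := ξ + ef (fun _ => 1) ξ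

/-- the periods `2 π i k / log 2` of `2 ^ (-ξ)` -/
def sh (k : ℤ) : ℂ := 2 * Real.pi * I * k / Real.log 2

/-- the weight `n ^ (- sh k)` -/
def chk (k : ℤ) (n : ℕ) : ℂ := if n = 0 then 0 else (n : ℂ) ^ (-(sh k))

/-- the number of prime factors of `n` in `A` (with multiplicity) -/
def OmA (A : ℕ → Prop) (n : ℕ) : ℕ := by
  classical exact (n.primeFactorsList.filter (fun p => decide (A p))).length

/-- the weight `χ` scaled by `u` at the primes of `A` -/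
def lamx (χ : ℕ → ℂ) (A : ℕ → Prop) (u : ℂ) (n : ℕ) : ℂ := χ n * u ^ (OmA A n)

/-- `G` is the maximal lift to `Om` (a subset of a half strip, star-shaped to the left) of the
family of horizontal paths `ζ (z0 + x + i y)` -/
structure LD (z0 : ℂ) (y0 y1 : ℝ) (Om : Set ℂ) (G : ℂ → ℂ) : Prop where
  sub : ∀ ξ ∈ Om, 0 ≤ ξ.re ∧ ξ.im ∈ Ioo y0 y1
  opn : ∀ ξ ∈ Om, ∃ ε : ℝ, 0 < ε ∧ ∀ η : ℂ, ‖η - ξ‖ < ε → 0 ≤ η.re → η ∈ Om
  st : ∀ y ∈ Ioo y0 y1, ((y : ℂ) * I) ∈ Om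
  star : ∀ ξ ∈ Om, ∀ x : ℝ, 0 ≤ x → x ≤ ξ.re → ((x : ℂ) + ξ.im * I) ∈ Om
  val : ∀ ξ ∈ Om, G ξ ∈ EE ∧ riemannZeta (G ξ) = riemannZeta (z0 + ξ)
  cont : ContinuousOn G Om
  max : ∀ y ∈ Ioo y0 y1, ∀ X : ℝ, 0 < X → (∀ x : ℝ, 0 ≤ x → x < X → ((x : ℂ) + y * I) ∈ Om) →
    ∀ w ∈ EE, Tendsto (fun x : ℝ => G ((x : ℂ) + y * I)) (𝓝[<] X) (𝓝 w) → ((X : ℂ) + y * I) ∈ Om

end

end Pool.Agent.Lib.MP_ec260d_ntA
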