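import Mathlib
import Pool.Agent.Lib.MP_ec260d_ntA.Defs
import Pool.Agent.Lib.MP_ec260d_nt.DigammaUnif

/-!
# JOB GamB: two-sided bounds for the Gamma function in a strip (about 180 lines)

Let `z = x + i t`, `1/2 ≤ x ≤ 4`, `|t| ≥ 1`.
(1) `‖Γ (1 + i t)‖² = Γ(1 + i t) Γ(1 - i t) = i t Γ(i t) Γ(1 - i t) = π i t / sin (π i t) = π t / sinh (π t)` (`Complex.Gamma_mul_Gamma_one_sub`, `Complex.Gamma_add_one`, `Complex.Gamma_conj`).  So `c |t|^(1/2) e^(-π|t|/2) ≤ ‖Γ (1 + i t)‖ ≤ C |t|^(1/2) e^(-π|t|/2)` (`sinh y` between `e^y / 4` and `e^y / 2` for `y ≥ 1`).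
(2) `d/dx log ‖Γ(x + i t)‖ = Re ψ(x + i t)`, `ψ = digamma = logDeriv Γ`; by `re_digamma_unif` it is `log |t| + O(1)`.  So `‖Γ (x + i t)‖ = ‖Γ (1 + i t)‖ |t|^(x - 1) e^(O(1))` for `1/2 ≤ x ≤ 4`.  (E.g. the function `x ↦ log ‖Γ(x+it)‖ - (log|t|) x` has derivative bounded by `C`; `norm_image_sub_le_of_norm_deriv_le_segment`, or consider
`‖Γ‖²` as a differentiable function.)
-/

namespace Pool.Agent.Lib.MP_ec260d_ntA

open Complex Set Filter Topology Metric MeasureTheory

private theorem GamB_sq (t : ℝ) (ht : t ≠ 0) :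
    ‖Complex.Gamma (1 + t * I)‖ ^ 2 = Real.pi * |t| / Real.sinh (Real.pi * |t|) := by
  have h1 : Complex.Gamma (t * I) * Complex.Gamma (1 - t * I) = Real.pi / Complex.sin (Real.pi * (t * I)) :=
    Complex.Gamma_mul_Gamma_one_sub _
  have h2 : Complex.Gamma (t * I + 1) = t * I * Complex.Gamma (t * I) :=
    Complex.Gamma_add_one _ (mul_ne_zero (by exact_mod_cast ht) I_ne_zero)
  have h3 : Complex.sin (Real.pi * (t * I)) = (Real.sinh (Real.pi * t) : ℂ) * I := by
    rw [← mul_assoc, Complex.sin_mul_I]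
    push_cast
    rfl
  have h4 : ‖Complex.Gamma (1 - t * I)‖ = ‖Complex.Gamma (1 + t * I)‖ := by
    have : (1 : ℂ) - t * I = (starRingEnd ℂ) (1 + t * I) := by
      simp [sub_eq_add_neg]
    rw [this, Complex.Gamma_conj, RCLike.norm_conj]
  have hs : Real.sinh (Real.pi * t) ≠ 0 := by
    rw [Ne, Real.sinh_eq_zero]
    exact mul_ne_zero Real.pi_ne_zero ht
  have h5 : Complex.Gamma (1 + t * I) * Complex.Gamma (1 - t * I) =
      ((Real.pi * t / Real.sinh (Real.pi * t) : ℝ) : ℂ) := by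
    rw [add_comm (1 : ℂ) (t * I), h2, mul_assoc, h1, h3]
    have hs' : (Real.sinh (Real.pi * t) : ℂ) ≠ 0 := by exact_mod_cast hs
    rw [Complex.ofReal_div, Complex.ofReal_mul]
    field_simp
  have h6 : ‖Complex.Gamma (1 + t * I)‖ ^ 2 = |Real.pi * t / Real.sinh (Real.pi * t)| := by
    calc ‖Complex.Gamma (1 + t * I)‖ ^ 2 = ‖Complex.Gamma (1 + t * I)‖ * ‖Complex.Gamma (1 - t * I)‖ := by
          rw [h4, sq]
      _ = ‖((Real.pi * t / Real.sinh (Real.pi * t) : ℝ) : ℂ)‖ := by rw [← norm_mul, h5]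
      _ = _ := by rw [Complex.norm_real, Real.norm_eq_abs]
  rw [h6, abs_div, abs_mul, abs_of_pos Real.pi_pos]
  congr 1
  rw [Real.abs_sinh, abs_mul, abs_of_pos Real.pi_pos]

private theorem GamB_sinh_le (y : ℝ) : Real.sinh y ≤ Real.exp y / 2 := by
  rw [Real.sinh_eq]
  have := Real.exp_pos (-y)
  linarith

private theorem GamB_le_sinh (y : ℝ) (hy : 1 ≤ y) : Real.exp y / 4 ≤ Real.sinh y := by
  rw [Real.sinh_eq]
  have h1 : Real.exp (-y) ≤ Real.exp (-1) := Real.exp_le_exp.mpr (by linarith)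
  have h2 : Real.exp (-1) ≤ 1 / 2 := by
    rw [Real.exp_neg, ← one_div]
    exact one_div_le_one_div_of_le (by norm_num) (by linarith [Real.add_one_le_exp (1 : ℝ)])
  have h3 : (2 : ℝ) ≤ Real.exp y := by linarith [Real.add_one_le_exp y]
  linarith

private theorem GamB_log_one (t : ℝ) (ht : 1 ≤ |t|) :
    Real.log ‖Complex.Gamma (1 + t * I)‖ =
      (Real.log Real.pi + Real.log |t| - Real.log (Real.sinh (Real.pi * |t|))) / 2 := by
  have hy : 0 < |t| := by linarith
  have ht0 : t ≠ 0 := abs_pos.mp hy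
  have hs : 0 < Real.sinh (Real.pi * |t|) := Real.sinh_pos_iff.mpr (mul_pos Real.pi_pos hy)
  have h1 := congrArg Real.log (GamB_sq t ht0)
  rw [Real.log_pow, Real.log_div (mul_pos Real.pi_pos hy).ne' hs.ne', Real.log_mul Real.pi_ne_zero hy.ne'] at h1
  push_cast at h1
  linarith

private theorem GamB_one_lower (t : ℝ) (ht : 1 ≤ |t|) :
    Real.log |t| / 2 - Real.pi * |t| / 2 ≤ Real.log ‖Complex.Gamma (1 + t * I)‖ := by
  rw [GamB_log_one t ht]
  have hy : 0 < |t| := by linarith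
  have hs : 0 < Real.sinh (Real.pi * |t|) := Real.sinh_pos_iff.mpr (mul_pos Real.pi_pos hy)
  have h1 : Real.log (Real.sinh (Real.pi * |t|)) ≤ Real.pi * |t| - Real.log 2 := by
    have := Real.log_le_log hs (GamB_sinh_le (Real.pi * |t|))
    rw [Real.log_div (Real.exp_pos _).ne' (by norm_num), Real.log_exp] at this
    exact this
  have h2 : 0 ≤ Real.log Real.pi := Real.log_nonneg (by linarith [Real.pi_gt_three])
  have h3 : 0 ≤ Real.log 2 := Real.log_nonneg (by norm_num)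
  linarith

private theorem GamB_one_upper (t : ℝ) (ht : 1 ≤ |t|) :
    Real.log ‖Complex.Gamma (1 + t * I)‖ ≤ Real.log 4 + Real.log |t| / 2 - Real.pi * |t| / 2 := by
  rw [GamB_log_one t ht]
  have hy : 0 < |t| := by linarith
  have h1 : Real.pi * |t| - Real.log 4 ≤ Real.log (Real.sinh (Real.pi * |t|)) := by
    have hp : 1 ≤ Real.pi * |t| := by nlinarith [Real.pi_gt_three]
    have := Real.log_le_log (by positivity) (GamB_le_sinh (Real.pi * |t|) hp)
    rw [Real.log_div (Real.exp_pos _).ne' (by norm_num), Real.log_exp] at this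
    exact this
  have h2 : Real.log Real.pi ≤ Real.log 4 := Real.log_le_log Real.pi_pos (by linarith [Real.pi_lt_four])
  linarith

private theorem GamB_deriv (t x : ℝ) (hx : 0 < x) :
    HasDerivAt (fun x : ℝ => Real.log ‖Complex.Gamma (x + t * I)‖) (Complex.digamma (x + t * I)).re x := by
  have hz : 0 < ((x : ℂ) + t * I).re := by simpa using hx
  have hne : Complex.Gamma ((x : ℂ) + t * I) ≠ 0 := Complex.Gamma_ne_zero_of_re_pos hz
  have hd : DifferentiableAt ℂ Complex.Gamma ((x : ℂ) + t * I) := by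
    apply Complex.differentiableAt_Gamma
    intro m hm
    have := congrArg Complex.re hm
    simp at this
    have hm0 : (0 : ℝ) ≤ m := Nat.cast_nonneg m
    linarith
  have h1 : HasDerivAt (fun w : ℂ => Complex.Gamma (w + t * I)) (deriv Complex.Gamma ((x : ℂ) + t * I)) (x : ℂ) := by
    have h2 := hd.hasDerivAt
    have h3 : HasDerivAt (fun w : ℂ => w + t * I) 1 (x : ℂ) := (hasDerivAt_id _).add_const _
    have h4 := HasDerivAt.comp (x : ℂ) h2 h3
    rw [mul_one] at h4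
    exact h4
  have h5 := h1.comp_ofReal
  have h6 : HasDerivAt (fun x : ℝ => ‖Complex.Gamma (x + t * I)‖ ^ 2)
      (2 * inner ℝ (Complex.Gamma (x + t * I)) (deriv Complex.Gamma ((x : ℂ) + t * I))) x := h5.norm_sq
  have h7 := (h6.log (by positivity)).div_const 2
  have h8 : (fun x : ℝ => Real.log (‖Complex.Gamma (x + t * I)‖ ^ 2) / 2) =
      fun x : ℝ => Real.log ‖Complex.Gamma (x + t * I)‖ := by
    funext u
    rw [Real.log_pow]
    push_cast
    ring
  rw [h8] at h7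
  have h9 : 2 * inner ℝ (Complex.Gamma (x + t * I)) (deriv Complex.Gamma ((x : ℂ) + t * I)) /
      ‖Complex.Gamma (x + t * I)‖ ^ 2 / 2 = (Complex.digamma (x + t * I)).re := by
    rw [Complex.digamma, logDeriv_apply, Complex.inner, Complex.div_re, Complex.mul_re, Complex.conj_re,
      Complex.conj_im, ← Complex.normSq_eq_norm_sq]
    have hN : Complex.normSq (Complex.Gamma (x + t * I)) ≠ 0 := (Complex.normSq_pos.mpr hne).ne'
    field_simp
    ring
  rw [← h9]
  exact h7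

private theorem GamB_cmp (C : ℝ)
    (h : ∀ z : ℂ, 1 / 2 ≤ z.re → z.re ≤ 4 → 1 ≤ |z.im| → |(Complex.digamma z).re - Real.log (|z.im|)| ≤ C)
    (t : ℝ) (ht : 1 ≤ |t|) (x : ℝ) (h1 : 1 / 2 ≤ x) (h2 : x ≤ 4) :
    |(Real.log ‖Complex.Gamma (x + t * I)‖ - Real.log |t| * x) -
      (Real.log ‖Complex.Gamma (1 + t * I)‖ - Real.log |t| * 1)| ≤ 3 * C := by
  have hC : 0 ≤ C := le_trans (abs_nonneg _) (h (1 + t * I) (by norm_num) (by norm_num) (by simpa using ht))
  have hd : ∀ u ∈ Icc (1 / 2 : ℝ) 4,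
      HasDerivWithinAt (fun x : ℝ => Real.log ‖Complex.Gamma (x + t * I)‖ - Real.log |t| * x)
        ((Complex.digamma (u + t * I)).re - Real.log |t|) (Icc (1 / 2 : ℝ) 4) u := by
    intro u hu
    have hu0 : 0 < u := by linarith [hu.1]
    have h3 : HasDerivAt (fun x : ℝ => Real.log |t| * x) (Real.log |t|) u := by
      simpa using (hasDerivAt_id u).const_mul (Real.log |t|)
    exact ((GamB_deriv t u hu0).sub h3).hasDerivWithinAt
  have hb : ∀ u ∈ Icc (1 / 2 : ℝ) 4, ‖(Complex.digamma (u + t * I)).re - Real.log |t|‖ ≤ C := by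
    intro u hu
    have h3 := h (u + t * I) (by simpa using hu.1) (by simpa using hu.2) (by simpa using ht)
    rw [Real.norm_eq_abs]
    simpa using h3
  have h4 := Convex.norm_image_sub_le_of_norm_hasDerivWithin_le hd hb (convex_Icc _ _)
    (x := 1) (y := x) ⟨by norm_num, by norm_num⟩ ⟨h1, h2⟩
  have h5 : ‖x - 1‖ ≤ 3 := by
    rw [Real.norm_eq_abs, abs_le]
    constructor <;> linarith
  have h6 : C * ‖x - 1‖ ≤ 3 * C := by nlinarith
  rw [Real.norm_eq_abs] at h4
  have h7 := le_trans h4 h6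
  simpa using h7

theorem gam_bounds : ∃ c C : ℝ, 0 < c ∧ 0 < C ∧ ∀ z : ℂ, 1 / 2 ≤ z.re → z.re ≤ 4 → 1 ≤ |z.im| →
    c * |z.im| ^ (z.re - 1 / 2) * Real.exp (-(Real.pi * |z.im| / 2)) ≤ ‖Complex.Gamma z‖ ∧
    ‖Complex.Gamma z‖ ≤ C * |z.im| ^ (z.re - 1 / 2) * Real.exp (-(Real.pi * |z.im| / 2)) := by
  obtain ⟨C, hC, h⟩ := Pool.Agent.Lib.MP_ec260d_nt.re_digamma_unif
  refine ⟨Real.exp (-(3 * C)), 4 * Real.exp (3 * C), Real.exp_pos _, by positivity, fun z h1 h2 h3 => ?_⟩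
  have hy : 0 < |z.im| := by linarith
  have ht : z.im ≠ 0 := by
    intro h0
    rw [h0] at h3
    norm_num at h3
  have hG : 0 < ‖Complex.Gamma z‖ :=
    norm_pos_iff.mpr (Complex.Gamma_ne_zero_of_re_pos (by linarith))
  have hG1 : 0 < ‖Complex.Gamma (1 + z.im * I)‖ :=
    norm_pos_iff.mpr (Complex.Gamma_ne_zero_of_re_pos (by simp))
  -- the comparison of logarithms
  have hcmp := GamB_cmp C h z.im h3 z.re h1 h2
  have hz : (z.re : ℂ) + z.im * I = z := Complex.re_add_im z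
  rw [hz] at hcmp
  have hlo := GamB_one_lower z.im h3
  have hup := GamB_one_upper z.im h3
  rw [abs_le] at hcmp
  have hlogG : Real.exp (Real.log ‖Complex.Gamma z‖) = ‖Complex.Gamma z‖ := Real.exp_log hG
  have hpow : |z.im| ^ (z.re - 1 / 2) = Real.exp (Real.log |z.im| * (z.re - 1 / 2)) :=
    Real.rpow_def_of_pos hy _
  constructor
  · rw [← hlogG, hpow, ← Real.exp_add, ← Real.exp_add]
    apply Real.exp_le_exp.mpr
    linarith [hcmp.1]
  · have h4 : (4 : ℝ) = Real.exp (Real.log 4) := (Real.exp_log (by norm_num)).symm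
    rw [← hlogG, hpow, h4, ← Real.exp_add, ← Real.exp_add, ← Real.exp_add]
    apply Real.exp_le_exp.mpr
    linarith [hcmp.2]

end Pool.Agent.Lib.MP_ec260d_ntA
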