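import Mathlib
import Pool.Agent.Lib.MP_ec260d_ntA.Defs

/-!
# JOB AlgT: a polynomial vanishing near a point in all directions of a torus (about 150 lines)

Suppose `q ≠ 0`.  Let `q' (y) = q (x0 + y)` (a nonzero polynomial in `y`: translate the variables), and let `h` be its nonzero homogeneous component of smallest degree `ν`.  For `X` on the torus: `0 = q' (e(X, u))`, `e(X, u) = u v + o(u)`, `v = B X`.  `q' (e) = h(e) + (terms of degree > ν)`, `‖e‖ = O(|u|)`, so dividing by `u^ν` and
letting `u → 0` (`u ≠ 0`): `h(e/u) → h(v)`, the other components: `u^(-ν) q'_d(e) = u^(d-ν) q'_d(e/u) → 0`.  So `h (B X) = 0` for all `X` with `‖X_j‖ = 1`.  The polynomial `h ∘ B` in `X` vanishes on a product of infinite sets, so it is zero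
(`MvPolynomial.funext_set` or `MvPolynomial.eq_zero_of_eval_zero_at_prod_finset`-type lemma), and `B` is invertible, so `h = 0` as a function, contradiction.  (`r = 0`: `q` is a constant, the hypothesis at `u = 0` gives `q = 0`.)
-/

namespace Pool.Agent.Lib.MP_ec260d_ntA

open Complex Set Filter Topology Metric MeasureTheory

private theorem AlgT_scale {r : ℕ} (h : MvPolynomial (Fin r) ℂ) (d : ℕ) (hh : h.IsHomogeneous d)
    (c : ℂ) (y : Fin r → ℂ) :
    MvPolynomial.eval (fun i => c * y i) h = c ^ d * MvPolynomial.eval y h := by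
  rw [MvPolynomial.eval_eq, MvPolynomial.eval_eq, Finset.mul_sum]
  refine Finset.sum_congr rfl fun m hm => ?_
  have h1 : m.degree = d := by
    rw [MvPolynomial.mem_support_iff] at hm
    by_contra hne
    exact hm (hh.coeff_eq_zero hne)
  have h2 : ∏ i ∈ m.support, (c * y i) ^ m i = c ^ d * ∏ i ∈ m.support, y i ^ m i := by
    rw [← h1]
    simp only [mul_pow]
    rw [Finset.prod_mul_distrib, Finset.prod_pow_eq_pow_sum]
    rfl
  rw [h2]
  ring

private theorem AlgT_comp {r : ℕ} (f : Fin r → MvPolynomial (Fin r) ℂ) (y : Fin r → ℂ)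
    (q : MvPolynomial (Fin r) ℂ) :
    MvPolynomial.eval y (MvPolynomial.aeval f q) =
      MvPolynomial.eval (fun i => MvPolynomial.eval y (f i)) q := by
  induction q using MvPolynomial.induction_on with
  | C c => simp
  | add p q hp hq => rw [map_add, map_add, map_add, hp, hq]
  | mul_X p i hp => rw [map_mul, map_mul, map_mul, hp, MvPolynomial.aeval_X, MvPolynomial.eval_X]

theorem algT (r : ℕ) (q : MvPolynomial (Fin r) ℂ) (x0 : Fin r → ℂ) (B : Matrix (Fin r) (Fin r) ℂ)
    (hB : B.det ≠ 0) (e : (Fin r → ℂ) → ℂ → Fin r → ℂ)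
    (he0 : ∀ X, (∀ j, ‖X j‖ = 1) → ∀ i, e X 0 i = 0)
    (hed : ∀ X, (∀ j, ‖X j‖ = 1) → ∀ i, HasDerivAt (fun u => e X u i) (B.mulVec X i) 0)
    (hq : ∀ X, (∀ j, ‖X j‖ = 1) → ∀ᶠ u in 𝓝 (0 : ℂ), MvPolynomial.eval (fun i => x0 i + e X u i) q = 0) :
    q = 0 := by
  classical
  by_contra hne
  -- the translated polynomial
  obtain ⟨q', hq'⟩ : ∃ q' : MvPolynomial (Fin r) ℂ,
      ∀ y, MvPolynomial.eval y q' = MvPolynomial.eval (fun i => x0 i + y i) q := by
    refine ⟨MvPolynomial.aeval (fun i => MvPolynomial.C (x0 i) + MvPolynomial.X i) q, fun y => ?_⟩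
    rw [AlgT_comp]
    simp
  have hq0 : q' ≠ 0 := by
    intro h0
    apply hne
    refine MvPolynomial.funext fun x => ?_
    have h1 := hq' (fun i => x i - x0 i)
    rw [h0, map_zero] at h1
    have h2 : (fun i => x0 i + (x i - x0 i)) = x := by
      funext i
      ring
    rw [h2] at h1
    rw [← h1, map_zero]
  -- the component of smallest degree
  have hex : ∃ d, MvPolynomial.homogeneousComponent d q' ≠ 0 := by
    by_contra hno
    push Not at hno
    apply hq0
    rw [← MvPolynomial.sum_homogeneousComponent q']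
    exact Finset.sum_eq_zero fun i _ => hno i
  obtain ⟨ν, hν, hmin⟩ : ∃ ν, MvPolynomial.homogeneousComponent ν q' ≠ 0 ∧
      ∀ d < ν, MvPolynomial.homogeneousComponent d q' = 0 := by
    refine ⟨Nat.find hex, Nat.find_spec hex, fun d hd => ?_⟩
    by_contra h
    exact Nat.find_min hex hd h
  -- the component vanishes at `B X`
  have key : ∀ X : Fin r → ℂ, (∀ j, ‖X j‖ = 1) →
      MvPolynomial.eval (B.mulVec X) (MvPolynomial.homogeneousComponent ν q') = 0 := by
    intro X hX
    have hw : Tendsto (fun u : ℂ => fun i => u⁻¹ * e X u i) (𝓝[≠] 0) (𝓝 (B.mulVec X)) := by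
      rw [tendsto_pi_nhds]
      intro i
      have h1 := hasDerivAt_iff_tendsto_slope.1 (hed X hX i)
      refine h1.congr fun u => ?_
      rw [slope_def_module, he0 X hX i, sub_zero, sub_zero, smul_eq_mul]
    have hid : Tendsto (fun u : ℂ => u) (𝓝[≠] 0) (𝓝 0) := nhdsWithin_le_nhds
    have ht : Tendsto (fun u : ℂ => ∑ d ∈ Finset.range (q'.totalDegree + 1),
        (if d < ν then 0 else u ^ (d - ν) *
          MvPolynomial.eval (fun i => u⁻¹ * e X u i) (MvPolynomial.homogeneousComponent d q')))
        (𝓝[≠] 0) (𝓝 (∑ d ∈ Finset.range (q'.totalDegree + 1),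
        (if d < ν then 0 else (0 : ℂ) ^ (d - ν) *
          MvPolynomial.eval (B.mulVec X) (MvPolynomial.homogeneousComponent d q')))) := by
      refine tendsto_finsetSum _ fun d _ => ?_
      by_cases hd : d < ν
      · simp only [if_pos hd]
        exact tendsto_const_nhds
      · simp only [if_neg hd]
        exact (hid.pow (d - ν)).mul
          (((MvPolynomial.continuous_eval _).tendsto _).comp hw)
    have hz : ∀ᶠ u : ℂ in 𝓝[≠] 0, ∑ d ∈ Finset.range (q'.totalDegree + 1),
        (if d < ν then 0 else u ^ (d - ν) *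
          MvPolynomial.eval (fun i => u⁻¹ * e X u i) (MvPolynomial.homogeneousComponent d q')) = 0 := by
      have h1 : ∀ᶠ u : ℂ in 𝓝[≠] 0, MvPolynomial.eval (fun i => x0 i + e X u i) q = 0 :=
        nhdsWithin_le_nhds (hq X hX)
      filter_upwards [h1, self_mem_nhdsWithin] with u hu hu0
      have hu0' : u ≠ 0 := hu0
      rw [← hq', ← MvPolynomial.sum_homogeneousComponent q', map_sum] at hu
      have h2 : u ^ ν * (∑ d ∈ Finset.range (q'.totalDegree + 1),
        (if d < ν then 0 else u ^ (d - ν) *
          MvPolynomial.eval (fun i => u⁻¹ * e X u i) (MvPolynomial.homogeneousComponent d q'))) =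
          ∑ d ∈ Finset.range (q'.totalDegree + 1),
            MvPolynomial.eval (fun i => e X u i) (MvPolynomial.homogeneousComponent d q') := by
        rw [Finset.mul_sum]
        refine Finset.sum_congr rfl fun d _ => ?_
        by_cases hd : d < ν
        · rw [if_pos hd, hmin d hd, mul_zero, map_zero]
        · rw [if_neg hd, ← mul_assoc, ← pow_add, Nat.add_sub_cancel' (not_lt.1 hd)]
          have h3 := AlgT_scale (MvPolynomial.homogeneousComponent d q') d
            (MvPolynomial.homogeneousComponent_isHomogeneous d q') u (fun i => u⁻¹ * e X u i)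
          rw [← h3]
          have h4 : (fun i => u * (u⁻¹ * e X u i)) = fun i => e X u i := by
            funext i
            rw [← mul_assoc, mul_inv_cancel₀ hu0', one_mul]
          rw [h4]
      rw [hu] at h2
      rcases mul_eq_zero.1 h2 with h3 | h3
      · exact absurd h3 (pow_ne_zero _ hu0')
      · exact h3
    have hlim := tendsto_nhds_unique (ht.congr' hz) tendsto_const_nhds
    rw [Finset.sum_eq_single ν] at hlim
    · rw [if_neg (lt_irrefl ν), Nat.sub_self, pow_zero, one_mul] at hlim
      exact hlim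
    · intro d _ hd
      by_cases h : d < ν
      · rw [if_pos h]
      · rw [if_neg h, zero_pow (by omega), zero_mul]
    · intro h
      rw [Finset.mem_range, not_lt] at h
      rw [if_neg (lt_irrefl ν), MvPolynomial.homogeneousComponent_eq_zero ν q' (by omega), map_zero,
        mul_zero]
  -- so it vanishes everywhere
  have hall : MvPolynomial.aeval (fun i => ∑ j, MvPolynomial.C (B i j) * MvPolynomial.X j)
      (MvPolynomial.homogeneousComponent ν q') = (0 : MvPolynomial (Fin r) ℂ) := by
    refine MvPolynomial.funext_set (fun _ => sphere (0 : ℂ) 1) (fun _ => ?_) fun X hX => ?_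
    · exact (isPreconnected_sphere (by
        rw [Complex.rank_real_complex]
        exact_mod_cast Nat.one_lt_two) 0 1).infinite_of_nontrivial ⟨1, by simp, -1, by simp, by
        intro h
        have := congrArg Complex.re h
        norm_num at this⟩
    · rw [map_zero, AlgT_comp, ← key X (fun j => by simpa using hX j trivial)]
      have h1 : (fun i => MvPolynomial.eval X (∑ j, MvPolynomial.C (B i j) * MvPolynomial.X j)) =
          B.mulVec X := by
        funext i
        simp [Matrix.mulVec, dotProduct]
      rw [h1]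
  apply hν
  refine MvPolynomial.funext fun y => ?_
  have h1 := congrArg (MvPolynomial.eval (B⁻¹.mulVec y)) hall
  rw [AlgT_comp, map_zero] at h1
  have h2 : (fun i => MvPolynomial.eval (B⁻¹.mulVec y)
      (∑ j, MvPolynomial.C (B i j) * MvPolynomial.X j)) = y := by
    have h3 : (fun i => MvPolynomial.eval (B⁻¹.mulVec y)
      (∑ j, MvPolynomial.C (B i j) * MvPolynomial.X j)) = B.mulVec (B⁻¹.mulVec y) := by
      funext i
      simp [Matrix.mulVec, dotProduct]
    rw [h3, Matrix.mulVec_mulVec, Matrix.mul_nonsing_inv B (isUnit_iff_ne_zero.2 hB), Matrix.one_mulVec]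
  rw [h2] at h1
  rw [h1, map_zero]

end Pool.Agent.Lib.MP_ec260d_ntA
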