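import Mathlib
import Pool.Agent.Lib.MP_ec260d_ntA.Defs

/-!
# JOB AreaF: area formula and Fubini in the complex plane (about 150 lines)

`area_f`: `MeasureTheory.lintegral_image_eq_lintegral_abs_det_fderiv_mul` for `G` on the open set `W`, real derivative of a holomorphic function: `HasDerivAt G (deriv G ξ) ξ` gives `HasFDerivAt G (restrict scalars of smulRight 1 (deriv G ξ)) ξ` over `ℝ`; its real determinant is `‖deriv G ξ‖²` (multiplication by `a + b i` has matrix
`[[a, -b], [b, a]]` in the basis `Complex.basisOneI`; `LinearMap.det`, `Algebra.norm`/`Complex.normSq`; compute with `LinearMap.det_toLin` or `Matrix.det_fin_two`).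
`fubini_c`: `Complex.volume_preserving_equiv_real_prod` and `lintegral_prod_symm` (Tonelli).
`cs_line`: Cauchy-Schwarz for lintegrals on a set of finite measure: `(∫⁻_S f)² ≤ vol S ∫⁻_S f²` (`ENNReal.lintegral_mul_le_Lp_mul_Lq` with `p = q = 2` and `g = 1`).
-/

namespace Pool.Agent.Lib.MP_ec260d_ntA

open Complex Set Filter Topology Metric MeasureTheory

private theorem AreaF_det (z : ℂ) :
    |((ContinuousLinearMap.toSpanSingleton ℂ z : ℂ →L[ℂ] ℂ).restrictScalars ℝ).det| = ‖z‖ ^ 2 := by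
  have h1 : ((ContinuousLinearMap.toSpanSingleton ℂ z : ℂ →L[ℂ] ℂ).restrictScalars ℝ).det =
      Algebra.norm ℝ z := by
    rw [Algebra.norm_apply]
    unfold ContinuousLinearMap.det
    congr 1
    ext x
    simp [mul_comm]
  rw [h1, Algebra.norm_complex_apply, Complex.normSq_eq_norm_sq, abs_of_nonneg (sq_nonneg _)]

theorem area_f (W : Set ℂ) (hW : IsOpen W) (G : ℂ → ℂ) (hG : ∀ ξ ∈ W, DifferentiableAt ℂ G ξ)
    (hinj : InjOn G W) (h : ℂ → ENNReal) :
    ∫⁻ w in G '' W, h w = ∫⁻ ξ in W, ENNReal.ofReal (‖deriv G ξ‖ ^ 2) * h (G ξ) := by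
  have h1 : ∀ ξ ∈ W, HasFDerivWithinAt G
      ((ContinuousLinearMap.toSpanSingleton ℂ (deriv G ξ) : ℂ →L[ℂ] ℂ).restrictScalars ℝ) W ξ := by
    intro ξ hξ
    have h2 := (hG ξ hξ).hasDerivAt.hasFDerivAt
    exact (h2.restrictScalars ℝ).hasFDerivWithinAt
  rw [lintegral_image_eq_lintegral_abs_det_fderiv_mul volume hW.measurableSet h1 hinj h]
  refine lintegral_congr fun ξ => ?_
  rw [AreaF_det]

theorem fubini_c (F : ℂ → ENNReal) (hF : AEMeasurable F) :
    ∫⁻ ξ : ℂ, F ξ = ∫⁻ y : ℝ, ∫⁻ x : ℝ, F ((x : ℂ) + y * I) := by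
  have h1 : ∫⁻ p : ℝ × ℝ, F (measurableEquivRealProd.symm p) = ∫⁻ ξ : ℂ, F ξ :=
    (volume_preserving_equiv_real_prod.symm).lintegral_comp_emb
      measurableEquivRealProd.symm.measurableEmbedding F
  have h2 : AEMeasurable (fun p : ℝ × ℝ => F (measurableEquivRealProd.symm p)) :=
    hF.comp_quasiMeasurePreserving (volume_preserving_equiv_real_prod.symm).quasiMeasurePreserving
  have h3 : ∀ x y : ℝ, measurableEquivRealProd.symm (x, y) = (x : ℂ) + y * I := by
    intro x y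
    apply Complex.ext
    · simp
    · simp
  rw [← h1]
  have h4 : (volume : Measure (ℝ × ℝ)) = (volume : Measure ℝ).prod volume := rfl
  rw [h4, lintegral_prod_symm _ (h4 ▸ h2)]
  refine lintegral_congr fun y => lintegral_congr fun x => ?_
  rw [h3]

theorem cs_line (S : Set ℝ) (hS : MeasurableSet S) (f : ℝ → ENNReal) (hf : AEMeasurable f (volume.restrict S)) :
    (∫⁻ x in S, f x) ^ 2 ≤ volume S * ∫⁻ x in S, f x ^ 2 := by
  have h1 := ENNReal.lintegral_mul_le_Lp_mul_Lq (volume.restrict S) Real.HolderConjugate.two_two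
    (f := f) (g := fun _ => 1) hf aemeasurable_const
  have h2 : ∫⁻ a in S, (f * (fun _ => (1 : ENNReal)) : ℝ → ENNReal) a = ∫⁻ x in S, f x := by
    refine lintegral_congr fun x => ?_
    rw [Pi.mul_apply, mul_one]
  have h3 : ∫⁻ _ in S, (1 : ENNReal) ^ (2 : ℝ) = volume S := by
    rw [ENNReal.one_rpow, lintegral_const, one_mul, Measure.restrict_apply_univ]
  have h4 : ∫⁻ x in S, f x ^ (2 : ℝ) = ∫⁻ x in S, f x ^ 2 := by
    refine lintegral_congr fun x => ?_
    exact ENNReal.rpow_two _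
  rw [h2, h3, h4] at h1
  have h5 : ∀ a : ENNReal, (a ^ (1 / (2 : ℝ))) ^ 2 = a := by
    intro a
    rw [← ENNReal.rpow_two, ← ENNReal.rpow_mul]
    norm_num
  calc (∫⁻ x in S, f x) ^ 2
      ≤ ((∫⁻ x in S, f x ^ 2) ^ (1 / (2 : ℝ)) * (volume S) ^ (1 / (2 : ℝ))) ^ 2 :=
        pow_le_pow_left' h1 2
    _ = volume S * ∫⁻ x in S, f x ^ 2 := by
        rw [mul_pow, h5, h5, mul_comm]

end Pool.Agent.Lib.MP_ec260d_ntA
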