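import Mathlib
import Pool.Agent.Lib.MP_ec260d_ntA.Defs

/-!
# JOB Germ: local inverses of zeta (about 200 lines)

`EE` is open: `ζ` is analytic on `{1}ᶜ` (`differentiableAt_riemannZeta`), so is its derivative.
`germ_exists`: inverse function theorem: `HasStrictDerivAt.localInverse` / `AnalyticAt` inverse (`AnalyticAt.hasStrictDerivAt`, `HasStrictDerivAt.to_localInverse`; analyticity of the inverse: it is differentiable near `ζ z` since `EE` is open and `HasStrictDerivAt.to_localInverse` holds at nearby points, or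
`OpenPartialHomeomorph.contDiffAt_symm`, a `ContDiffAt ℂ ω` or differentiable-near function is analytic: `DifferentiableOn.analyticAt`).
`germ_left`: if `g` is analytic (continuous suffices) at `a`, `g a = z ∈ EE`, `ζ (g b) = b` near `a`, then `g (ζ w) = w` for `w` near `z`: `ζ` is injective on a neighbourhood `N` of `z` (`HasStrictDerivAt` with nonzero derivative); for `w` near `z`, `w ∈ N`, `g (ζ w) ∈ N` (continuity of `g ∘ ζ` at `z`, value `z`) and `ζ (g (ζ w)) = ζ w`.
`germ_unique`: two such germs agree near `a`: `g b, g' b ∈ N` and have the same image.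
-/

namespace Pool.Agent.Lib.MP_ec260d_ntA

open Complex Set Filter Topology Metric MeasureTheory

private theorem germ_an (z : ℂ) (hz : z ≠ 1) : AnalyticAt ℂ riemannZeta z := by
  have h : DifferentiableOn ℂ riemannZeta {w : ℂ | w ≠ 1} := fun w hw =>
    (differentiableAt_riemannZeta hw).differentiableWithinAt
  exact h.analyticAt (isOpen_ne.mem_nhds hz)

theorem EE_open : IsOpen EE := by
  rw [isOpen_iff_mem_nhds]
  intro z hz
  have h1 : ∀ᶠ w in 𝓝 z, w ≠ 1 := isOpen_ne.mem_nhds hz.1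
  have h2 : ∀ᶠ w in 𝓝 z, deriv riemannZeta w ≠ 0 :=
    (germ_an z hz.1).deriv.continuousAt.eventually_ne hz.2
  filter_upwards [h1, h2] with w a b
  exact ⟨a, b⟩

theorem zeta_analytic (z : ℂ) (hz : z ≠ 1) : AnalyticAt ℂ riemannZeta z := germ_an z hz

/-- the local homeomorphism -/
private theorem germ_homeo (z : ℂ) (hz : z ∈ EE) : ∃ e : OpenPartialHomeomorph ℂ ℂ, z ∈ e.source ∧
    ∀ w, e w = riemannZeta w := by
  have h1 := (germ_an z hz.1).hasStrictDerivAt.hasStrictFDerivAt_equiv hz.2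
  refine ⟨h1.toOpenPartialHomeomorph riemannZeta, h1.mem_toOpenPartialHomeomorph_source, fun w => ?_⟩
  rw [h1.toOpenPartialHomeomorph_coe]

private theorem germ_inj (z : ℂ) (hz : z ∈ EE) : ∃ U ∈ 𝓝 z, InjOn riemannZeta U := by
  obtain ⟨e, he, hw⟩ := germ_homeo z hz
  refine ⟨e.source, e.open_source.mem_nhds he, fun a ha b hb hab => ?_⟩
  exact e.injOn ha hb (by rw [hw, hw, hab])

theorem germ_exists (z : ℂ) (hz : z ∈ EE) : ∃ g : ℂ → ℂ, AnalyticAt ℂ g (riemannZeta z) ∧
    g (riemannZeta z) = z ∧ (∀ᶠ b in 𝓝 (riemannZeta z), riemannZeta (g b) = b) ∧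
    ∀ᶠ w in 𝓝 z, g (riemannZeta w) = w := by
  obtain ⟨e, he, hw⟩ := germ_homeo z hz
  have hzt : riemannZeta z ∈ e.target := by
    rw [← hw]
    exact e.map_source he
  have hz1 : e.symm (riemannZeta z) = z := by
    rw [← hw]
    exact e.left_inv he
  have hright : ∀ b ∈ e.target, riemannZeta (e.symm b) = b := by
    intro b hb
    rw [← hw]
    exact e.right_inv hb
  refine ⟨e.symm, ?_, hz1, ?_, ?_⟩
  · have hopen : IsOpen (e.target ∩ e.symm ⁻¹' EE) := e.isOpen_inter_preimage_symm EE_open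
    have hd : DifferentiableOn ℂ e.symm (e.target ∩ e.symm ⁻¹' EE) := by
      intro b hb
      have hE : e.symm b ∈ EE := hb.2
      have h1 : HasDerivAt riemannZeta (deriv riemannZeta (e.symm b)) (e.symm b) :=
        (germ_an _ hE.1).differentiableAt.hasDerivAt
      have h2 : ∀ᶠ y in 𝓝 b, riemannZeta (e.symm y) = y := by
        filter_upwards [e.open_target.mem_nhds hb.1] with y hy
        exact hright y hy
      exact (HasDerivAt.of_local_left_inverse (e.continuousAt_symm hb.1) h1 hE.2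
        h2).differentiableAt.differentiableWithinAt
    refine hd.analyticAt (hopen.mem_nhds ⟨hzt, ?_⟩)
    show e.symm (riemannZeta z) ∈ EE
    rw [hz1]
    exact hz
  · filter_upwards [e.open_target.mem_nhds hzt] with y hy
    exact hright y hy
  · filter_upwards [e.open_source.mem_nhds he] with w hw'
    rw [← hw]
    exact e.left_inv hw'

theorem germ_left (g : ℂ → ℂ) (a : ℂ) (hg : ContinuousAt g a) (hz : g a ∈ EE)
    (h : ∀ᶠ b in 𝓝 a, riemannZeta (g b) = b) : ∀ᶠ w in 𝓝 (g a), g (riemannZeta w) = w := by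
  obtain ⟨U, hU, hinj⟩ := germ_inj (g a) hz
  have ha : riemannZeta (g a) = a := h.self_of_nhds
  have hc : Tendsto riemannZeta (𝓝 (g a)) (𝓝 a) := by
    have := (germ_an (g a) hz.1).continuousAt.tendsto
    rwa [ha] at this
  have h1 : ∀ᶠ w in 𝓝 (g a), g (riemannZeta w) ∈ U := (hg.tendsto.comp hc) hU
  have h2 : ∀ᶠ w in 𝓝 (g a), riemannZeta (g (riemannZeta w)) = riemannZeta w := hc.eventually h
  filter_upwards [h1, h2, hU] with w a1 a2 a3
  exact hinj a1 a3 a2

theorem germ_unique (g g' : ℂ → ℂ) (a : ℂ) (hg : ContinuousAt g a) (hg' : ContinuousAt g' a)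
    (hz : g a ∈ EE) (he : g a = g' a) (h : ∀ᶠ b in 𝓝 a, riemannZeta (g b) = b)
    (h' : ∀ᶠ b in 𝓝 a, riemannZeta (g' b) = b) : ∀ᶠ b in 𝓝 a, g b = g' b := by
  obtain ⟨U, hU, hinj⟩ := germ_inj (g a) hz
  have h1 : ∀ᶠ b in 𝓝 a, g b ∈ U := hg.tendsto hU
  have h2 : ∀ᶠ b in 𝓝 a, g' b ∈ U := by
    rw [he] at hU
    exact hg'.tendsto hU
  filter_upwards [h1, h2, h, h'] with b a1 a2 a3 a4
  exact hinj a1 a2 (a3.trans a4.symm)

/-- zeta is injective near a point of `EE` -/
theorem zeta_locinj (z : ℂ) (hz : z ∈ EE) : ∃ U ∈ 𝓝 z, InjOn riemannZeta U := germ_inj z hz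

/-- two continuous lifts of the same path which are different at the start stay different -/
theorem lift_ne (X : ℝ) (hX : 0 ≤ X) (w w' : ℝ → ℂ) (hw : ContinuousOn w (Icc 0 X))
    (hw' : ContinuousOn w' (Icc 0 X)) (hE : ∀ x ∈ Icc 0 X, w x ∈ EE)
    (he : ∀ x ∈ Icc 0 X, riemannZeta (w x) = riemannZeta (w' x)) (h : w 0 ≠ w' 0) : w X ≠ w' X := by
  intro hXX
  have c1 : Continuous ((Icc (0 : ℝ) X).restrict w) := continuousOn_iff_continuous_restrict.mp hw
  have c2 : Continuous ((Icc (0 : ℝ) X).restrict w') := continuousOn_iff_continuous_restrict.mp hw'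
  have hcl : IsClosed {x : Icc (0 : ℝ) X | w x = w' x} := isClosed_eq c1 c2
  have hop : IsOpen {x : Icc (0 : ℝ) X | w x = w' x} := by
    rw [isOpen_iff_mem_nhds]
    intro x hx
    obtain ⟨U, hU, hinj⟩ := germ_inj (w x) (hE x x.2)
    have h1 : ∀ᶠ y : Icc (0 : ℝ) X in 𝓝 x, w y ∈ U := c1.continuousAt.tendsto hU
    have h2 : ∀ᶠ y : Icc (0 : ℝ) X in 𝓝 x, w' y ∈ U := by
      have hx' : w x = w' x := hx
      rw [hx'] at hU
      exact c2.continuousAt.tendsto hU
    filter_upwards [h1, h2] with y a1 a2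
    exact hinj a1 a2 (he y y.2)
  have : PreconnectedSpace (Icc (0 : ℝ) X) := isPreconnected_iff_preconnectedSpace.mp isPreconnected_Icc
  have huniv := IsClopen.eq_univ ⟨hcl, hop⟩ ⟨(⟨X, hX, le_rfl⟩ : Icc (0 : ℝ) X), hXX⟩
  have h0 : (⟨0, le_rfl, hX⟩ : Icc (0 : ℝ) X) ∈ {x : Icc (0 : ℝ) X | w x = w' x} := by
    rw [huniv]
    exact mem_univ _
  exact h h0

end Pool.Agent.Lib.MP_ec260d_ntA
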