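import Mathlib
import Pool.Agent.Lib.MP_ec260d_ntA.Defs
import Pool.Agent.Lib.MP_ec260d_ntA.Germ

/-!
# JOB LiftHol: the lift is holomorphic (about 80 lines)

Let `ξ ∈ Om`, `Re ξ > 0`.  `Om` is a neighbourhood of `ξ` (`opn`), `G` is continuous at `ξ`, `ζ (G η) = ζ (z0 + η)` near `ξ`.  Let `h` be the local inverse of `ζ` at `G ξ` (`germ_exists`), `h (ζ w) = w` for `w` near `G ξ`; so `G η = h (ζ (G η)) = h (ζ (z0 + η))` for `η` near `ξ`, and the right side is analytic at `ξ`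
(`z0 + ξ ≠ 1` since `Im (z0 + ξ) ≠ 0`; `h` is analytic at `ζ (G ξ) = ζ (z0 + ξ)`).  Also `Om ∩ {Re > 0}` is open.
-/

namespace Pool.Agent.Lib.MP_ec260d_ntA

open Complex Set Filter Topology Metric MeasureTheory

theorem LD.open_pos {z0 : ℂ} {y0 y1 : ℝ} {Om : Set ℂ} {G : ℂ → ℂ} (h : LD z0 y0 y1 Om G) :
    IsOpen (Om ∩ {ξ | 0 < ξ.re}) := by
  rw [Metric.isOpen_iff]
  rintro ξ ⟨hξ, h0⟩
  have h0' : 0 < ξ.re := h0
  obtain ⟨ε, hε, hO⟩ := h.opn ξ hξ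
  refine ⟨min ε ξ.re, lt_min hε h0', ?_⟩
  intro η hη
  rw [Metric.mem_ball, dist_eq_norm] at hη
  have h1 : ‖η - ξ‖ < ε := lt_of_lt_of_le hη (min_le_left _ _)
  have h2 : ‖η - ξ‖ < ξ.re := lt_of_lt_of_le hη (min_le_right _ _)
  have h3 : |(η - ξ).re| ≤ ‖η - ξ‖ := Complex.abs_re_le_norm _
  have h4 : -‖η - ξ‖ ≤ (η - ξ).re := (abs_le.mp h3).1
  have h5 : 0 < η.re := by
    rw [Complex.sub_re] at h4
    linarith
  exact ⟨hO η h1 h5.le, h5⟩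

theorem LD.analytic {z0 : ℂ} {y0 y1 : ℝ} {Om : Set ℂ} {G : ℂ → ℂ} (h : LD z0 y0 y1 Om G)
    (hy : ∀ y ∈ Ioo y0 y1, z0.im + y ≠ 0) (ξ : ℂ) (hξ : ξ ∈ Om) (h0 : 0 < ξ.re) :
    AnalyticAt ℂ G ξ := by
  have hopen := h.open_pos
  have hmem : ξ ∈ Om ∩ {ξ | 0 < ξ.re} := ⟨hξ, h0⟩
  have hnhds : Om ∩ {ξ | 0 < ξ.re} ∈ 𝓝 ξ := hopen.mem_nhds hmem
  have hOm : Om ∈ 𝓝 ξ := Filter.mem_of_superset hnhds inter_subset_left
  have hGc : ContinuousAt G ξ := h.cont.continuousAt hOm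
  obtain ⟨hE, hv⟩ := h.val ξ hξ
  obtain ⟨g, hg1, -, -, hg4⟩ := germ_exists (G ξ) hE
  have hev1 : ∀ᶠ η in 𝓝 ξ, g (riemannZeta (G η)) = G η := hGc.eventually hg4
  have hev2 : ∀ᶠ η in 𝓝 ξ, riemannZeta (G η) = riemannZeta (z0 + η) := by
    filter_upwards [hOm] with η hη
    exact (h.val η hη).2
  have hne : z0 + ξ ≠ 1 := by
    intro he
    have h1 := congrArg Complex.im he
    rw [Complex.add_im, Complex.one_im] at h1
    exact hy ξ.im (h.sub ξ hξ).2 h1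
  have hz : AnalyticAt ℂ riemannZeta (z0 + ξ) := zeta_analytic _ hne
  have hadd : AnalyticAt ℂ (fun η : ℂ => z0 + η) ξ := analyticAt_const.add analyticAt_id
  have hzc : AnalyticAt ℂ (fun η : ℂ => riemannZeta (z0 + η)) ξ := AnalyticAt.fun_comp (g := riemannZeta) (f := fun η : ℂ => z0 + η) hz hadd
  rw [hv] at hg1
  have hcomp : AnalyticAt ℂ (fun η : ℂ => g (riemannZeta (z0 + η))) ξ :=
    AnalyticAt.fun_comp (g := g) (f := fun η : ℂ => riemannZeta (z0 + η)) hg1 hzc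
  refine hcomp.congr ?_
  filter_upwards [hev1, hev2] with η h1 h2
  rw [← h2, h1]

end Pool.Agent.Lib.MP_ec260d_ntA
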