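import Mathlib
import Pool.Agent.Lib.MP_ec260d_ntA.Defs

/-!
# JOB RhoInt: the metric has finite area (about 100 lines)

`rho w ^ 2 = 4 / ((e² + r²) log² (e² + r²))`, `r = ‖w‖`.  Polar coordinates (`Complex.lintegral_comp_polarCoord_symm` or `integral_comp_polarCoord_symm`): the area is `∫_{-π}^{π} ∫_0^∞ 4 r / ((e² + r²) log² (e² + r²)) dr dθ = 2π [ -2 / log (e² + r²) ]_0^∞ = 2π`.
(Improper integral: `integrableOn_Ioi_deriv_of_nonneg` with the function `r ↦ -2 / log (e² + r²)`, derivative `4 r / ((e² + r²) log²)`, limit `0`.)  Any other proof (e.g. dyadic annuli: area `≤ C 4^k`, `rho² ≤ C / (4^k k²)`) is fine.  Only finiteness is needed.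
-/

namespace Pool.Agent.Lib.MP_ec260d_ntA

open Complex Set Filter Topology Metric MeasureTheory

private theorem RhoInt_base (r : ℝ) : 1 < Real.exp 2 + r ^ 2 := by
  have h1 : (1 : ℝ) < Real.exp 2 := by
    rw [← Real.exp_zero]
    exact Real.exp_lt_exp.mpr (by norm_num)
  have h2 : 0 ≤ r ^ 2 := sq_nonneg r
  linarith

private theorem RhoInt_log (r : ℝ) : 0 < Real.log (Real.exp 2 + r ^ 2) :=
  Real.log_pos (RhoInt_base r)

private theorem RhoInt_sqrt (r : ℝ) : 0 < Real.sqrt (Real.exp 2 + r ^ 2) :=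
  Real.sqrt_pos.mpr (lt_trans one_pos (RhoInt_base r))

theorem rho_pos (w : ℂ) : 0 < rho w := by
  unfold rho
  exact div_pos two_pos (mul_pos (RhoInt_sqrt _) (RhoInt_log _))

theorem rho_cont : Continuous rho := by
  have h1 : Continuous (fun w : ℂ => Real.exp 2 + ‖w‖ ^ 2) :=
    continuous_const.add (continuous_norm.pow 2)
  have h2 : Continuous (fun w : ℂ => Real.sqrt (Real.exp 2 + ‖w‖ ^ 2)) :=
    Real.continuous_sqrt.comp h1
  have h3 : Continuous (fun w : ℂ => Real.log (Real.exp 2 + ‖w‖ ^ 2)) :=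
    h1.log (fun w => ne_of_gt (lt_trans one_pos (RhoInt_base ‖w‖)))
  have h4 : Continuous (fun w : ℂ =>
      2 / (Real.sqrt (Real.exp 2 + ‖w‖ ^ 2) * Real.log (Real.exp 2 + ‖w‖ ^ 2))) :=
    continuous_const.div (h2.mul h3)
      (fun w => ne_of_gt (mul_pos (RhoInt_sqrt ‖w‖) (RhoInt_log ‖w‖)))
  exact h4

private theorem RhoInt_deriv (r : ℝ) :
    HasDerivAt (fun r : ℝ => -2 / Real.log (Real.exp 2 + r ^ 2))
      (4 * r / ((Real.exp 2 + r ^ 2) * Real.log (Real.exp 2 + r ^ 2) ^ 2)) r := by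
  have hb := RhoInt_base r
  have hb0 : Real.exp 2 + r ^ 2 ≠ 0 := ne_of_gt (lt_trans one_pos hb)
  have hl0 : Real.log (Real.exp 2 + r ^ 2) ≠ 0 := ne_of_gt (RhoInt_log r)
  have h1 : HasDerivAt (fun r : ℝ => Real.exp 2 + r ^ 2) (2 * r) r := by
    have h := (hasDerivAt_pow 2 r).const_add (Real.exp 2)
    have e : ((2 : ℕ) : ℝ) * r ^ (2 - 1) = 2 * r := by norm_num
    rw [e] at h
    exact h
  have h2 : HasDerivAt (fun r : ℝ => Real.log (Real.exp 2 + r ^ 2))
      (2 * r / (Real.exp 2 + r ^ 2)) r := h1.log hb0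
  have h3 := (hasDerivAt_const r (-2 : ℝ)).div h2 hl0
  have e : (0 * Real.log (Real.exp 2 + r ^ 2) - -2 * (2 * r / (Real.exp 2 + r ^ 2))) /
      Real.log (Real.exp 2 + r ^ 2) ^ 2 =
      4 * r / ((Real.exp 2 + r ^ 2) * Real.log (Real.exp 2 + r ^ 2) ^ 2) := by
    field_simp
    ring
  rw [e] at h3
  exact h3

private theorem RhoInt_tendsto :
    Tendsto (fun r : ℝ => -2 / Real.log (Real.exp 2 + r ^ 2)) atTop (𝓝 0) := by
  have h1 : Tendsto (fun r : ℝ => Real.exp 2 + r ^ 2) atTop atTop :=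
    tendsto_atTop_add_const_left _ _ (tendsto_pow_atTop two_ne_zero)
  have h2 : Tendsto (fun r : ℝ => Real.log (Real.exp 2 + r ^ 2)) atTop atTop :=
    Real.tendsto_log_atTop.comp h1
  exact tendsto_const_nhds.div_atTop h2

private theorem RhoInt_int : IntegrableOn
    (fun r : ℝ => 4 * r / ((Real.exp 2 + r ^ 2) * Real.log (Real.exp 2 + r ^ 2) ^ 2))
    (Ioi 0) volume := by
  refine integrableOn_Ioi_deriv_of_nonneg' (g := fun r : ℝ => -2 / Real.log (Real.exp 2 + r ^ 2))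
    (l := 0) (fun x _ => RhoInt_deriv x) ?_ RhoInt_tendsto
  intro x hx
  have hx' : 0 < x := hx
  have hb := RhoInt_base x
  have hl := RhoInt_log x
  positivity

private theorem RhoInt_sq (w : ℂ) : rho w ^ 2 =
    (fun r : ℝ => 4 / ((Real.exp 2 + r ^ 2) * Real.log (Real.exp 2 + r ^ 2) ^ 2)) ‖w‖ := by
  show rho w ^ 2 = 4 / ((Real.exp 2 + ‖w‖ ^ 2) * Real.log (Real.exp 2 + ‖w‖ ^ 2) ^ 2)
  unfold rho
  rw [div_pow, mul_pow, Real.sq_sqrt (lt_trans one_pos (RhoInt_base ‖w‖)).le]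
  norm_num

theorem rho_area : ∫⁻ w : ℂ, ENNReal.ofReal (rho w ^ 2) < ⊤ := by
  have h1 : Integrable (fun w : ℂ =>
      (fun r : ℝ => 4 / ((Real.exp 2 + r ^ 2) * Real.log (Real.exp 2 + r ^ 2) ^ 2)) ‖w‖)
      volume := by
    rw [integrable_fun_norm_addHaar volume
      (f := fun r : ℝ => 4 / ((Real.exp 2 + r ^ 2) * Real.log (Real.exp 2 + r ^ 2) ^ 2))]
    refine RhoInt_int.congr_fun ?_ measurableSet_Ioi
    intro r _
    show 4 * r / ((Real.exp 2 + r ^ 2) * Real.log (Real.exp 2 + r ^ 2) ^ 2) =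
      r ^ (Module.finrank ℝ ℂ - 1) •
        (4 / ((Real.exp 2 + r ^ 2) * Real.log (Real.exp 2 + r ^ 2) ^ 2))
    rw [Complex.finrank_real_complex, smul_eq_mul]
    norm_num
    ring
  have h2 : Integrable (fun w : ℂ => rho w ^ 2) volume := by
    have e : (fun w : ℂ => rho w ^ 2) = fun w : ℂ =>
      (fun r : ℝ => 4 / ((Real.exp 2 + r ^ 2) * Real.log (Real.exp 2 + r ^ 2) ^ 2)) ‖w‖ :=
      funext RhoInt_sq
    rw [e]
    exact h1
  exact h2.lintegral_lt_top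

end Pool.Agent.Lib.MP_ec260d_ntA
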