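import Mathlib
import Pool.Agent.Lib.MP_ec260d_ntA.Defs
import Pool.Agent.Lib.MP_ec260d_ntA.RhoInt

/-!
# JOB RhoComp: the metric is complete (about 150 lines)

`L(x) = log (log (e² + ‖γ x‖²))`, `L' = 2 Re (conj γ γ') / ((e² + ‖γ‖²) log (e² + ‖γ‖²))`, `|L'| ≤ 2 ‖γ‖ ‖γ'‖ / (...) ≤ rho (γ x) ‖γ' x‖` (`‖γ‖ ≤ sqrt (e² + ‖γ‖²)`).  So for `x0 = X/2 ≤ x < X`: `L(x) - L(x0) = ∫ L' ≤ ∫ rho ‖γ'‖ < ∞` (fundamental theorem of calculus, `L'` continuous on `(0, X)`): `L` is bounded on `[X/2, X)`,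
so `‖γ‖ ≤ R` there, `rho (γ x) ≥ c > 0`, `∫_{X/2}^X ‖γ'‖ ≤ (1/c) ∫ rho ‖γ'‖ < ∞`.  Then `γ' ` is integrable on `(X/2, X)`, `γ x = γ (X/2) + ∫_{X/2}^x γ'`, which converges as `x → X-` (`intervalIntegral` continuity of the primitive, or Cauchy criterion).
-/

namespace Pool.Agent.Lib.MP_ec260d_ntA

open Complex Set Filter Topology Metric MeasureTheory

/-- lower bound of the argument of the logarithm -/
private theorem RhoComp_one (t : ℝ) : 1 < Real.exp 2 + t ^ 2 := by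
  have h1 : (1 : ℝ) < Real.exp 2 := by
    have := Real.add_one_lt_exp (x := 2) (by norm_num)
    linarith
  nlinarith [sq_nonneg t]

private theorem RhoComp_log (t : ℝ) : 1 < Real.log (Real.exp 2 + t ^ 2) := by
  have h1 : Real.exp 1 < Real.exp 2 + t ^ 2 := by
    have := Real.exp_lt_exp.2 (show (1 : ℝ) < 2 by norm_num)
    nlinarith [sq_nonneg t]
  rw [Real.lt_log_iff_exp_lt (by linarith [RhoComp_one t])]
  exact h1

theorem rho_comp (X : ℝ) (hX : 0 < X) (γ γ' : ℝ → ℂ) (hd : ∀ x ∈ Ioo 0 X, HasDerivAt γ (γ' x) x)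
    (hc' : ContinuousOn γ' (Ioo 0 X))
    (hfin : ∫⁻ x in Ioo 0 X, ENNReal.ofReal (rho (γ x) * ‖γ' x‖) < ⊤) :
    ∃ w : ℂ, Tendsto γ (𝓝[<] X) (𝓝 w) := by
  have hcont : ContinuousOn γ (Ioo 0 X) := fun x hx => (hd x hx).continuousAt.continuousWithinAt
  have hF : ContinuousOn (fun x => rho (γ x) * ‖γ' x‖) (Ioo 0 X) :=
    (rho_cont.comp_continuousOn hcont).mul hc'.norm
  have hF0 : ∀ x, 0 ≤ rho (γ x) * ‖γ' x‖ := fun x => mul_nonneg (rho_pos _).le (norm_nonneg _)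
  have hint : IntegrableOn (fun x => rho (γ x) * ‖γ' x‖) (Ioo 0 X) := by
    refine ⟨hF.aestronglyMeasurable measurableSet_Ioo, ?_⟩
    rw [hasFiniteIntegral_iff_ofReal (ae_of_all _ hF0)]
    exact hfin
  have hx0 : X / 2 ∈ Ioo 0 X := ⟨by linarith, by linarith⟩
  -- the function L and its derivative
  let L : ℝ → ℝ := fun x => Real.log (Real.log (Real.exp 2 + ‖γ x‖ ^ 2))
  let L' : ℝ → ℝ := fun x => (2 * inner ℝ (γ x) (γ' x)) / (Real.exp 2 + ‖γ x‖ ^ 2) /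
    Real.log (Real.exp 2 + ‖γ x‖ ^ 2)
  have hL : ∀ x ∈ Ioo 0 X, HasDerivAt L (L' x) x := by
    intro x hx
    have h1 : HasDerivAt (fun x => Real.exp 2 + ‖γ x‖ ^ 2) (2 * inner ℝ (γ x) (γ' x)) x :=
      ((hd x hx).norm_sq).const_add (Real.exp 2)
    have h2 := h1.log (by linarith [RhoComp_one ‖γ x‖])
    have h3 := h2.log (by linarith [RhoComp_log ‖γ x‖])
    exact h3
  have hL'c : ContinuousOn L' (Ioo 0 X) := by
    have h1 : ContinuousOn (fun x => Real.exp 2 + ‖γ x‖ ^ 2) (Ioo 0 X) :=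
      continuousOn_const.add (hcont.norm.pow 2)
    have h2 : ContinuousOn (fun x => Real.log (Real.exp 2 + ‖γ x‖ ^ 2)) (Ioo 0 X) :=
      h1.log fun x _ => by linarith [RhoComp_one ‖γ x‖]
    have h3 : ContinuousOn (fun x => 2 * inner ℝ (γ x) (γ' x)) (Ioo 0 X) :=
      continuousOn_const.mul (ContinuousOn.inner (𝕜 := ℝ) hcont hc')
    exact (h3.div h1 fun x _ => by linarith [RhoComp_one ‖γ x‖]).div h2
      fun x _ => by linarith [RhoComp_log ‖γ x‖]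
  have hL'le : ∀ x, L' x ≤ rho (γ x) * ‖γ' x‖ := by
    intro x
    have h1 := RhoComp_one ‖γ x‖
    have h2 := RhoComp_log ‖γ x‖
    have h3 : inner ℝ (γ x) (γ' x) ≤ ‖γ x‖ * ‖γ' x‖ := real_inner_le_norm _ _
    have hs : 0 < Real.sqrt (Real.exp 2 + ‖γ x‖ ^ 2) := Real.sqrt_pos.2 (by linarith)
    have hss : Real.sqrt (Real.exp 2 + ‖γ x‖ ^ 2) ^ 2 = Real.exp 2 + ‖γ x‖ ^ 2 :=
      Real.sq_sqrt (by linarith)
    have h4 : ‖γ x‖ ≤ Real.sqrt (Real.exp 2 + ‖γ x‖ ^ 2) := by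
      refine Real.le_sqrt_of_sq_le ?_
      have := Real.exp_pos 2
      linarith
    show (2 * inner ℝ (γ x) (γ' x)) / (Real.exp 2 + ‖γ x‖ ^ 2) /
      Real.log (Real.exp 2 + ‖γ x‖ ^ 2) ≤ 2 / (Real.sqrt (Real.exp 2 + ‖γ x‖ ^ 2) *
        Real.log (Real.exp 2 + ‖γ x‖ ^ 2)) * ‖γ' x‖
    have hlog : 0 < Real.log (Real.exp 2 + ‖γ x‖ ^ 2) := by linarith
    rw [div_div, div_mul_eq_mul_div, div_le_div_iff₀ (by positivity) (by positivity)]
    have h5 : inner ℝ (γ x) (γ' x) * Real.sqrt (Real.exp 2 + ‖γ x‖ ^ 2) ≤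
        ‖γ' x‖ * (Real.exp 2 + ‖γ x‖ ^ 2) := by
      calc inner ℝ (γ x) (γ' x) * Real.sqrt (Real.exp 2 + ‖γ x‖ ^ 2)
          ≤ (‖γ x‖ * ‖γ' x‖) * Real.sqrt (Real.exp 2 + ‖γ x‖ ^ 2) :=
            mul_le_mul_of_nonneg_right h3 hs.le
        _ ≤ (Real.sqrt (Real.exp 2 + ‖γ x‖ ^ 2) * ‖γ' x‖) * Real.sqrt (Real.exp 2 + ‖γ x‖ ^ 2) := by
            gcongr
        _ = ‖γ' x‖ * (Real.sqrt (Real.exp 2 + ‖γ x‖ ^ 2) ^ 2) := by ring
        _ = _ := by rw [hss]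
    have h6 := mul_le_mul_of_nonneg_left h5 (show 0 ≤ 2 * Real.log (Real.exp 2 + ‖γ x‖ ^ 2) by positivity)
    nlinarith [h6]
  -- L is bounded
  have hLb : ∀ x ∈ Ico (X / 2) X, L x ≤ L (X / 2) + ∫ x in Ioo 0 X, rho (γ x) * ‖γ' x‖ := by
    intro x hx
    have hsub : uIcc (X / 2) x ⊆ Ioo 0 X := by
      rw [uIcc_of_le hx.1]
      exact fun t ht => ⟨lt_of_lt_of_le hx0.1 ht.1, lt_of_le_of_lt ht.2 hx.2⟩
    have h1 : ∫ t in (X / 2)..x, L' t = L x - L (X / 2) :=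
      intervalIntegral.integral_eq_sub_of_hasDerivAt (fun t ht => hL t (hsub ht))
        ((hL'c.mono hsub).intervalIntegrable)
    have h2 : ∫ t in (X / 2)..x, L' t ≤ ∫ t in (X / 2)..x, rho (γ t) * ‖γ' t‖ :=
      intervalIntegral.integral_mono_on hx.1 ((hL'c.mono hsub).intervalIntegrable)
        ((hF.mono hsub).intervalIntegrable) fun t _ => hL'le t
    have h3 : ∫ t in (X / 2)..x, rho (γ t) * ‖γ' t‖ ≤ ∫ x in Ioo 0 X, rho (γ x) * ‖γ' x‖ := by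
      rw [intervalIntegral.integral_of_le hx.1]
      refine setIntegral_mono_set hint (ae_of_all _ hF0) ?_
      refine LE.le.eventuallyLE ?_
      exact fun t ht => ⟨lt_trans hx0.1 ht.1, lt_of_le_of_lt ht.2 hx.2⟩
    linarith
  set Bd : ℝ := L (X / 2) + ∫ x in Ioo 0 X, rho (γ x) * ‖γ' x‖ with hBd
  have hM : ∀ x ∈ Ico (X / 2) X, Real.exp 2 + ‖γ x‖ ^ 2 ≤ Real.exp (Real.exp Bd) := by
    intro x hx
    have h1 := hLb x hx
    have h2 := RhoComp_log ‖γ x‖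
    have h3 : Real.log (Real.exp 2 + ‖γ x‖ ^ 2) ≤ Real.exp Bd := by
      rw [← Real.log_le_iff_le_exp (by linarith)]
      exact h1
    rw [← Real.log_le_iff_le_exp (by linarith [RhoComp_one ‖γ x‖])]
    exact h3
  -- the density is bounded from below
  have hMpos : 1 < Real.exp (Real.exp Bd) := by
    rw [Real.one_lt_exp_iff]
    exact Real.exp_pos _
  have hc0 : 0 < 2 / (Real.sqrt (Real.exp (Real.exp Bd)) * Real.log (Real.exp (Real.exp Bd))) := by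
    have h1 : 0 < Real.log (Real.exp (Real.exp Bd)) := Real.log_pos hMpos
    positivity
  have hrho : ∀ x ∈ Ico (X / 2) X,
      2 / (Real.sqrt (Real.exp (Real.exp Bd)) * Real.log (Real.exp (Real.exp Bd))) ≤ rho (γ x) := by
    intro x hx
    have h1 := hM x hx
    have h2 := RhoComp_one ‖γ x‖
    have h3 := RhoComp_log ‖γ x‖
    have hs : 0 < Real.sqrt (Real.exp 2 + ‖γ x‖ ^ 2) := Real.sqrt_pos.2 (by linarith)
    have hl : 0 < Real.log (Real.exp 2 + ‖γ x‖ ^ 2) := by linarith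
    unfold rho
    refine div_le_div_of_nonneg_left (by norm_num) (by positivity) ?_
    exact mul_le_mul (Real.sqrt_le_sqrt h1) (Real.log_le_log (by linarith) h1) hl.le
      (Real.sqrt_nonneg _)
  have hint' : IntegrableOn γ' (Ioo (X / 2) X) := by
    have hsub : Ioo (X / 2) X ⊆ Ioo 0 X := fun t ht => ⟨lt_trans hx0.1 ht.1, ht.2⟩
    refine Integrable.mono' ((hint.mono_set hsub).const_mul
      (2 / (Real.sqrt (Real.exp (Real.exp Bd)) * Real.log (Real.exp (Real.exp Bd))))⁻¹)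
      ((hc'.mono hsub).aestronglyMeasurable measurableSet_Ioo) ?_
    refine (ae_restrict_iff' measurableSet_Ioo).2 (ae_of_all _ fun t ht => ?_)
    have h1 := hrho t ⟨ht.1.le, ht.2⟩
    rw [le_inv_mul_iff₀ hc0]
    exact mul_le_mul_of_nonneg_right h1 (norm_nonneg _)
  have hint'' : IntegrableOn γ' (uIcc (X / 2) X) := by
    rw [uIcc_of_le (by linarith), integrableOn_Icc_iff_integrableOn_Ioo]
    exact hint'
  have hprim := intervalIntegral.continuousOn_primitive_interval hint''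
  have hXmem : X ∈ uIcc (X / 2) X := right_mem_uIcc
  have ht := (hprim X hXmem).tendsto
  have hle : 𝓝[Ioo (X / 2) X] X ≤ 𝓝[uIcc (X / 2) X] X := by
    refine nhdsWithin_mono _ ?_
    rw [uIcc_of_le (by linarith)]
    exact Ioo_subset_Icc_self
  have ht2 := (ht.mono_left hle).const_add (γ (X / 2))
  refine ⟨γ (X / 2) + ∫ t in (X / 2)..X, γ' t, ?_⟩
  have hnh : 𝓝[<] X = 𝓝[Ioo (X / 2) X] X := (nhdsWithin_Ioo_eq_nhdsLT (by linarith)).symm
  rw [hnh]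
  refine ht2.congr' ?_
  filter_upwards [self_mem_nhdsWithin] with x hx
  have hsub : uIcc (X / 2) x ⊆ Ioo 0 X := by
    rw [uIcc_of_le hx.1.le]
    exact fun t ht => ⟨lt_of_lt_of_le hx0.1 ht.1, lt_of_le_of_lt ht.2 hx.2⟩
  have h1 : ∫ t in (X / 2)..x, γ' t = γ x - γ (X / 2) :=
    intervalIntegral.integral_eq_sub_of_hasDerivAt (fun t ht => hd t (hsub ht))
      ((hc'.mono hsub).intervalIntegrable)
  rw [h1]
  ring

end Pool.Agent.Lib.MP_ec260d_ntA
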