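import Mathlib
import Pool.Agent.Lib.MP_ec260d_ntA.Defs
import Pool.Agent.Lib.MP_ec260d_ntA.Germ

/-!
# JOB ZetaCrit: countability and the pole (about 120 lines)

`{1}ᶜ` is open and preconnected (`isPreconnected_compl_singleton_of_one_lt_rank` or similar), `ζ` and `ζ'` are analytic there.  `ζ'` is not identically zero (otherwise `ζ` is constant on `{1}ᶜ`, but `ζ 2 ≠ ζ 4`, or `ζ → ∞` at `1`); zeros of a not identically vanishing analytic function on a preconnected open set are isolated, so countable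
(`AnalyticOnNhd.preimage_zero_mem_codiscreteWithin`, `Set.Countable` of a discrete closed subset of a second countable space; or: `{z}` covered by countably many compact sets each containing finitely many zeros).  Same for `ζ - v`.
`zeta_pole`: `(s - 1) ζ s → 1` (`riemannZeta_residue_one`), so `‖ζ s‖ → ∞` as `s → 1`, `s ≠ 1`.
`bad_y`: `y` with `z0 + x + i y = w'` for some `w'` in `φ`-preimages: the set of `w' ≠ 1` with `ζ w' ∈ ζ '' crit` is a countable union of countable fibres; `y = Im w' - Im z0`.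
-/

namespace Pool.Agent.Lib.MP_ec260d_ntA

open Complex Set Filter Topology Metric MeasureTheory

private theorem ZetaCrit_pole : Tendsto (fun s => ‖riemannZeta s‖) (𝓝[≠] 1) atTop := by
  have h1 : Tendsto (fun s : ℂ => ‖(s - 1) * riemannZeta s‖) (𝓝[≠] 1) (𝓝 1) := by
    have h2 := riemannZeta_residue_one.norm
    rw [norm_one] at h2
    exact h2
  have h3 : Tendsto (fun s : ℂ => ‖s - 1‖⁻¹) (𝓝[≠] 1) atTop :=
    (tendsto_norm_sub_self_nhdsNE (1 : ℂ)).inv_tendsto_nhdsGT_zero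
  have h4 := h1.pos_mul_atTop one_pos h3
  refine h4.congr' ?_
  filter_upwards [self_mem_nhdsWithin] with s hs
  have h5 : ‖s - 1‖ ≠ 0 := norm_ne_zero_iff.2 (sub_ne_zero.2 hs)
  rw [norm_mul]
  field_simp

private theorem ZetaCrit_conn : IsPreconnected ({1}ᶜ : Set ℂ) :=
  (isConnected_compl_singleton_of_one_lt_rank (by simp) (1 : ℂ)).isPreconnected

private theorem ZetaCrit_an : AnalyticOnNhd ℂ riemannZeta ({1}ᶜ : Set ℂ) :=
  fun z hz => zeta_analytic z hz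

private theorem ZetaCrit_big (v : ℂ) : ∃ s : ℂ, s ≠ 1 ∧ riemannZeta s ≠ v := by
  have h1 := (ZetaCrit_pole.eventually_gt_atTop ‖v‖).and self_mem_nhdsWithin
  obtain ⟨s, hs1, hs2⟩ := h1.exists
  refine ⟨s, hs2, fun h => ?_⟩
  rw [h] at hs1
  exact lt_irrefl _ hs1

/-- the isolated points property -/
private theorem ZetaCrit_iso (f : ℂ → ℂ) (hf : AnalyticOnNhd ℂ f ({1}ᶜ : Set ℂ))
    (hne : ∃ s : ℂ, s ≠ 1 ∧ f s ≠ 0) (z : ℂ) (hz : z ≠ 1) : ∀ᶠ w in 𝓝[≠] z, f w ≠ 0 := by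
  by_contra hcon
  have h1 : ∃ᶠ w in 𝓝[≠] z, f w = 0 := by
    rw [Filter.Frequently]
    exact hcon
  obtain ⟨s, hs1, hs2⟩ := hne
  exact hs2 (hf.eqOn_zero_of_preconnected_of_frequently_eq_zero ZetaCrit_conn hz h1 hs1)

private theorem ZetaCrit_countable (f : ℂ → ℂ) (hf : AnalyticOnNhd ℂ f ({1}ᶜ : Set ℂ))
    (hne : ∃ s : ℂ, s ≠ 1 ∧ f s ≠ 0) : {w : ℂ | w ≠ 1 ∧ f w = 0}.Countable := by
  have h1 : DiscreteTopology {w : ℂ | w ≠ 1 ∧ f w = 0} := by
    refine discreteTopology_of_noAccPts fun x hx hacc => ?_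
    rw [accPt_iff_frequently_nhdsNE] at hacc
    refine hacc ?_
    filter_upwards [ZetaCrit_iso f hf hne x hx.1] with w hw hw'
    exact hw hw'.2
  have := h1
  exact Set.countable_coe_iff.1 countable_of_Lindelof_of_discrete

theorem crit_countable : {w : ℂ | w ≠ 1 ∧ deriv riemannZeta w = 0}.Countable := by
  refine ZetaCrit_countable (deriv riemannZeta) ZetaCrit_an.deriv ?_
  by_contra hcon
  push Not at hcon
  obtain ⟨a, ha⟩ := IsOpen.exists_is_const_of_deriv_eq_zero (isOpen_compl_singleton)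
    ZetaCrit_conn ZetaCrit_an.differentiableOn (fun s hs => hcon s hs)
  obtain ⟨s, hs1, hs2⟩ := ZetaCrit_big a
  exact hs2 (ha s hs1)

private theorem ZetaCrit_subv (v : ℂ) :
    AnalyticOnNhd ℂ (fun w => riemannZeta w - v) ({1}ᶜ : Set ℂ) :=
  ZetaCrit_an.sub analyticOnNhd_const

private theorem ZetaCrit_subne (v : ℂ) : ∃ s : ℂ, s ≠ 1 ∧ riemannZeta s - v ≠ 0 := by
  obtain ⟨s, hs1, hs2⟩ := ZetaCrit_big v
  exact ⟨s, hs1, sub_ne_zero.2 hs2⟩

theorem fiber_countable (v : ℂ) : {w : ℂ | w ≠ 1 ∧ riemannZeta w = v}.Countable := by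
  have h1 := ZetaCrit_countable _ (ZetaCrit_subv v) (ZetaCrit_subne v)
  exact h1.mono (fun w (hw : w ≠ 1 ∧ riemannZeta w = v) =>
    (⟨hw.1, sub_eq_zero.2 hw.2⟩ : w ≠ 1 ∧ riemannZeta w - v = 0))

theorem zeta_pole : Tendsto (fun s => ‖riemannZeta s‖) (𝓝[≠] 1) atTop := ZetaCrit_pole

/-- finitely many points with value `v` in a disc -/
theorem fiber_finite (v : ℂ) (R : ℝ) : {w : ℂ | w ≠ 1 ∧ riemannZeta w = v ∧ ‖w‖ ≤ R}.Finite := by
  by_contra hcon
  have hinf : {w : ℂ | w ≠ 1 ∧ riemannZeta w = v ∧ ‖w‖ ≤ R}.Infinite := hcon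
  have hsub : {w : ℂ | w ≠ 1 ∧ riemannZeta w = v ∧ ‖w‖ ≤ R} ⊆ closedBall (0 : ℂ) R := by
    intro w hw
    rw [mem_closedBall_zero_iff]
    exact hw.2.2
  obtain ⟨x, hx, hacc⟩ := hinf.exists_accPt_of_subset_isCompact (isCompact_closedBall 0 R) hsub
  rw [accPt_iff_frequently_nhdsNE] at hacc
  refine hacc ?_
  by_cases hx1 : x = 1
  · subst hx1
    filter_upwards [ZetaCrit_pole.eventually_gt_atTop ‖v‖] with w hw hw'
    rw [hw'.2.1] at hw
    exact lt_irrefl _ hw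
  · filter_upwards [ZetaCrit_iso _ (ZetaCrit_subv v) (ZetaCrit_subne v) x hx1] with w hw hw'
    exact hw (sub_eq_zero.2 hw'.2.1)

theorem bad_y (z0 : ℂ) : {y : ℝ | ∃ x : ℝ, z0 + x + y * I ≠ 1 ∧
    riemannZeta (z0 + x + y * I) ∈ riemannZeta '' {w : ℂ | w ≠ 1 ∧ deriv riemannZeta w = 0}}.Countable := by
  have h1 : (⋃ c ∈ {w : ℂ | w ≠ 1 ∧ deriv riemannZeta w = 0},
      {w : ℂ | w ≠ 1 ∧ riemannZeta w = riemannZeta c}).Countable :=
    crit_countable.biUnion fun c _ => fiber_countable (riemannZeta c)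
  refine (h1.image (fun w : ℂ => w.im - z0.im)).mono ?_
  rintro y ⟨x, hx, c, hc, hxc⟩
  refine ⟨z0 + x + y * I, ?_, ?_⟩
  · refine Set.mem_iUnion₂.2 ⟨c, hc, hx, hxc.symm⟩
  · simp

end Pool.Agent.Lib.MP_ec260d_ntA
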