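import Mathlib
import Pool.Agent.Lib.MP_ec260d_ntA.Defs
import Pool.Agent.Lib.MP_ec260d_ntA.LiftHol
import Pool.Agent.Lib.MP_ec260d_ntA.RhoComp
import Pool.Agent.Lib.MP_ec260d_ntA.AreaF
import Pool.Agent.Lib.MP_ec260d_ntA.ZetaCrit

/-!
# JOB FinLen: for almost every `y` the lift converges at the end of a bounded interval (about 250 lines)

`J = Ioo y0 y1`, `φ ξ = ζ (z0 + ξ)`, analytic on the strip `Im ξ ∈ J`.
(1) For an open rectangle `Q = (a, b) × (c, d)` (in the strip) on which `φ` is injective put `W = Om ∩ {Re > 0} ∩ Q`, open, `G` analytic and injective on `W` (`G ξ = G ξ'` implies `φ ξ = φ ξ'`).  `area_f` with `h = ofReal (rho ²)` and `rho_area`: `∫⁻_W ofReal (‖G'‖² rho(G)²) < ∞`.  `fubini_c`: for a.e. `y` the integral over the section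
`W_y = {x : x + i y ∈ W}` of `ofReal (‖G'‖² rho(G)²)` is finite, and `W_y ⊆ (a, b)`, so by `cs_line` `∫⁻_{W_y} ofReal (‖G'‖ rho(G)) < ∞`.
(2) Countably many rectangles with rational corners: the exceptional sets have measure zero together.  Let also `y` be outside of the countable set of the `Im w - Im z0`, `w ≠ 1`, `ζ' w = 0` (`crit_countable`).
(3) For such `y ∈ J` and `X > 0` with `[0, X) × {y} ⊆ Om`: every point of the compact segment `[0, X] × {y}` has a neighbourhood where `φ` is injective (`φ' ≠ 0` there), so lies in a rational rectangle `Q` on which `φ` is injective (contained in the strip); finitely many cover the segment, so `∫⁻_{(0, X)} ofReal (rho (G (x + iy)) ‖G' (x + iy)‖) dx < ∞`.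
(4) `rho_comp` with `γ x = G (x + i y)`, `γ' x = G' (x + i y)` (chain rule; continuous as `G` is analytic).
-/

namespace Pool.Agent.Lib.MP_ec260d_ntA

open Complex Set Filter Topology Metric MeasureTheory

/-- the rectangle with rational corners -/
private def FinLenQ (q : ℚ × ℚ × ℚ × ℚ) : Set ℂ :=
  {ξ | (q.1 : ℝ) < ξ.re ∧ ξ.re < (q.2.1 : ℝ) ∧ (q.2.2.1 : ℝ) < ξ.im ∧ ξ.im < (q.2.2.2 : ℝ)}

private theorem FinLenQ_open (q : ℚ × ℚ × ℚ × ℚ) : IsOpen (FinLenQ q) := by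
  unfold FinLenQ
  exact (isOpen_lt continuous_const continuous_re).inter
    ((isOpen_lt continuous_re continuous_const).inter
      ((isOpen_lt continuous_const continuous_im).inter (isOpen_lt continuous_im continuous_const)))

private theorem FinLenQ_nhds (ξ : ℂ) (U : Set ℂ) (hU : U ∈ 𝓝 ξ) :
    ∃ q : ℚ × ℚ × ℚ × ℚ, ξ ∈ FinLenQ q ∧ FinLenQ q ⊆ U := by
  obtain ⟨ε, hε, hb⟩ := Metric.mem_nhds_iff.1 hU
  obtain ⟨a, ha1, ha2⟩ := exists_rat_btwn (show ξ.re - ε / 4 < ξ.re by linarith)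
  obtain ⟨b, hb1, hb2⟩ := exists_rat_btwn (show ξ.re < ξ.re + ε / 4 by linarith)
  obtain ⟨c, hc1, hc2⟩ := exists_rat_btwn (show ξ.im - ε / 4 < ξ.im by linarith)
  obtain ⟨d, hd1, hd2⟩ := exists_rat_btwn (show ξ.im < ξ.im + ε / 4 by linarith)
  refine ⟨(a, b, c, d), ⟨ha2, hb1, hc2, hd1⟩, fun η hη => hb ?_⟩
  obtain ⟨h1, h2, h3, h4⟩ := hη
  rw [mem_ball, dist_eq_norm]
  have h5 : ‖η - ξ‖ ≤ |(η - ξ).re| + |(η - ξ).im| := norm_le_abs_re_add_abs_im _
  have h6 : |(η - ξ).re| < ε / 2 := by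
    rw [sub_re, abs_lt]
    simp only at h1 h2 h3 h4
    constructor <;> linarith
  have h7 : |(η - ξ).im| < ε / 2 := by
    rw [sub_im, abs_lt]
    simp only at h1 h2 h3 h4
    constructor <;> linarith
  linarith

/-- one rectangle -/
private theorem FinLen_rect {z0 : ℂ} {y0 y1 : ℝ} {Om : Set ℂ} {G : ℂ → ℂ} (h : LD z0 y0 y1 Om G)
    (hy : ∀ y ∈ Ioo y0 y1, z0.im + y ≠ 0) (q : ℚ × ℚ × ℚ × ℚ)
    (hinj : InjOn (fun ξ => riemannZeta (z0 + ξ)) (FinLenQ q)) :
    ∀ᵐ y : ℝ, ∫⁻ x in {x : ℝ | ((x : ℂ) + y * I) ∈ (Om ∩ {ξ | 0 < ξ.re}) ∩ FinLenQ q},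
      ENNReal.ofReal (rho (G ((x : ℂ) + y * I)) * ‖deriv G ((x : ℂ) + y * I)‖) < ⊤ := by
  set W : Set ℂ := (Om ∩ {ξ | 0 < ξ.re}) ∩ FinLenQ q with hWdef
  have hWo : IsOpen W := h.open_pos.inter (FinLenQ_open q)
  have hGa : ∀ ξ ∈ W, AnalyticAt ℂ G ξ := fun ξ hξ => h.analytic hy ξ hξ.1.1 hξ.1.2
  have hGi : InjOn G W := by
    intro ξ hξ ξ' hξ' he
    apply hinj hξ.2 hξ'.2
    show riemannZeta (z0 + ξ) = riemannZeta (z0 + ξ')
    rw [← (h.val ξ hξ.1.1).2, ← (h.val ξ' hξ'.1.1).2, he]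
  have hGc : ContinuousOn G W := fun ξ hξ => (hGa ξ hξ).continuousAt.continuousWithinAt
  have hDc : ContinuousOn (deriv G) W := fun ξ hξ =>
    (hGa ξ hξ).deriv.continuousAt.continuousWithinAt
  set F : ℂ → ENNReal := fun ξ => ENNReal.ofReal (‖deriv G ξ‖ ^ 2 * rho (G ξ) ^ 2) with hF
  have hrc : ContinuousOn (fun ξ => rho (G ξ)) W := rho_cont.comp_continuousOn hGc
  have hFc : ContinuousOn F W := by
    refine ENNReal.continuous_ofReal.comp_continuousOn ?_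
    exact (hDc.norm.pow 2).mul (hrc.pow 2)
  have hFm : Measurable (W.indicator F) := by
    classical
    rw [← Set.piecewise_eq_indicator]
    exact hFc.measurable_piecewise continuousOn_const hWo.measurableSet
  have hfin : ∫⁻ ξ in W, F ξ < ⊤ := by
    have h1 := area_f W hWo G (fun ξ hξ => (hGa ξ hξ).differentiableAt) hGi
      (fun w => ENNReal.ofReal (rho w ^ 2))
    have h2 : ∫⁻ ξ in W, F ξ = ∫⁻ ξ in W, ENNReal.ofReal (‖deriv G ξ‖ ^ 2) *
        ENNReal.ofReal (rho (G ξ) ^ 2) := by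
      refine lintegral_congr fun ξ => ?_
      rw [hF]
      exact ENNReal.ofReal_mul (by positivity)
    rw [h2, ← h1]
    exact lt_of_le_of_lt (setLIntegral_le_lintegral _ _) rho_area
  have hfin2 : ∫⁻ ξ, W.indicator F ξ < ⊤ := by
    rw [lintegral_indicator hWo.measurableSet]
    exact hfin
  rw [fubini_c _ hFm.aemeasurable] at hfin2
  have hmap : Continuous (fun p : ℝ × ℝ => ((p.2 : ℂ) + p.1 * I)) := by fun_prop
  have hmeas : Measurable (fun y : ℝ => ∫⁻ x : ℝ, W.indicator F ((x : ℂ) + y * I)) :=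
    Measurable.lintegral_prod_right' (f := fun p : ℝ × ℝ => W.indicator F ((p.2 : ℂ) + p.1 * I))
      (hFm.comp hmap.measurable)
  filter_upwards [ae_lt_top hmeas hfin2.ne] with y hyy
  set S : Set ℝ := {x : ℝ | ((x : ℂ) + y * I) ∈ W} with hS
  have hline : Continuous (fun x : ℝ => ((x : ℂ) + y * I)) := by fun_prop
  have hSo : IsOpen S := hWo.preimage hline
  have h3 : ∫⁻ x in S, F ((x : ℂ) + y * I) < ⊤ := by
    rw [← lintegral_indicator hSo.measurableSet]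
    refine lt_of_le_of_lt (le_of_eq ?_) hyy
    refine lintegral_congr fun x => ?_
    by_cases hx : x ∈ S
    · rw [indicator_of_mem hx, indicator_of_mem (show ((x : ℂ) + y * I) ∈ W from hx)]
    · rw [indicator_of_notMem hx, indicator_of_notMem (show ((x : ℂ) + y * I) ∉ W from hx)]
  have hfc : ContinuousOn (fun x : ℝ => ENNReal.ofReal (rho (G ((x : ℂ) + y * I)) *
      ‖deriv G ((x : ℂ) + y * I)‖)) S := by
    refine ENNReal.continuous_ofReal.comp_continuousOn ?_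
    have hm : MapsTo (fun x : ℝ => ((x : ℂ) + y * I)) S W := fun x hx => hx
    exact (hrc.comp hline.continuousOn hm).mul ((hDc.norm).comp hline.continuousOn hm)
  have h4 := cs_line S hSo.measurableSet _ (hfc.aemeasurable hSo.measurableSet)
  have h5 : ∫⁻ x in S, (ENNReal.ofReal (rho (G ((x : ℂ) + y * I)) *
      ‖deriv G ((x : ℂ) + y * I)‖)) ^ 2 = ∫⁻ x in S, F ((x : ℂ) + y * I) := by
    refine lintegral_congr fun x => ?_
    rw [← ENNReal.ofReal_pow (mul_nonneg (rho_pos _).le (norm_nonneg _)), mul_pow, mul_comm]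
  rw [h5] at h4
  have hvol : volume S < ⊤ := by
    have h6 : S ⊆ Ioo (q.1 : ℝ) (q.2.1 : ℝ) := by
      intro x hx
      have h7 : ((x : ℂ) + y * I) ∈ FinLenQ q := hx.2
      obtain ⟨h8, h9, -, -⟩ := h7
      simp only [add_re, ofReal_re, mul_re, I_re, mul_zero, ofReal_im, I_im, mul_one, sub_self,
        add_zero] at h8 h9
      exact ⟨h8, h9⟩
    refine lt_of_le_of_lt (measure_mono h6) ?_
    rw [Real.volume_Ioo]
    exact ENNReal.ofReal_lt_top
  have h10 : (∫⁻ x in S, ENNReal.ofReal (rho (G ((x : ℂ) + y * I)) *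
      ‖deriv G ((x : ℂ) + y * I)‖)) ^ 2 < ⊤ := lt_of_le_of_lt h4 (ENNReal.mul_lt_top hvol h3)
  by_contra hcon
  rw [not_lt, top_le_iff] at hcon
  rw [hcon] at h10
  simp at h10

theorem fin_len {z0 : ℂ} {y0 y1 : ℝ} {Om : Set ℂ} {G : ℂ → ℂ} (h : LD z0 y0 y1 Om G)
    (hy : ∀ y ∈ Ioo y0 y1, z0.im + y ≠ 0) :
    ∀ᵐ y : ℝ, y ∈ Ioo y0 y1 → ∀ X : ℝ, 0 < X → (∀ x : ℝ, 0 ≤ x → x < X → ((x : ℂ) + y * I) ∈ Om) →
      ∃ w : ℂ, Tendsto (fun x : ℝ => G ((x : ℂ) + y * I)) (𝓝[<] X) (𝓝 w) := by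
  have hA : ∀ᵐ y : ℝ, ∀ q : ℚ × ℚ × ℚ × ℚ,
      InjOn (fun ξ => riemannZeta (z0 + ξ)) (FinLenQ q) →
      ∫⁻ x in {x : ℝ | ((x : ℂ) + y * I) ∈ (Om ∩ {ξ | 0 < ξ.re}) ∩ FinLenQ q},
        ENNReal.ofReal (rho (G ((x : ℂ) + y * I)) * ‖deriv G ((x : ℂ) + y * I)‖) < ⊤ := by
    rw [ae_all_iff]
    intro q
    by_cases hq : InjOn (fun ξ => riemannZeta (z0 + ξ)) (FinLenQ q)
    · filter_upwards [FinLen_rect h hy q hq] with y hyq _
      exact hyq
    · exact Eventually.of_forall fun y hc => absurd hc hq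
  have hcrit : (((fun w : ℂ => w.im - z0.im)) '' {w : ℂ | w ≠ 1 ∧ deriv riemannZeta w = 0}).Countable :=
    crit_countable.image _
  filter_upwards [hA, hcrit.ae_notMem volume] with y hyA hyc hyJ X hX hOm
  have hEE : ∀ x : ℝ, z0 + ((x : ℂ) + y * I) ∈ EE := by
    intro x
    have him : (z0 + ((x : ℂ) + y * I)).im = z0.im + y := by simp
    have h1 : z0 + ((x : ℂ) + y * I) ≠ 1 := by
      intro hc
      have := congrArg Complex.im hc
      rw [him, one_im] at this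
      exact hy y hyJ this
    refine ⟨h1, fun hc => hyc ⟨z0 + ((x : ℂ) + y * I), ⟨h1, hc⟩, ?_⟩⟩
    show (z0 + ((x : ℂ) + y * I)).im - z0.im = y
    rw [him]
    ring
  have hmain : ∫⁻ x in Icc 0 X ∩ Ioo 0 X,
      ENNReal.ofReal (rho (G ((x : ℂ) + y * I)) * ‖deriv G ((x : ℂ) + y * I)‖) < ⊤ := by
    refine IsCompact.induction_on (s := Icc (0 : ℝ) X) (p := fun s => ∫⁻ x in s ∩ Ioo 0 X,
      ENNReal.ofReal (rho (G ((x : ℂ) + y * I)) * ‖deriv G ((x : ℂ) + y * I)‖) < ⊤)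
      isCompact_Icc ?_ ?_ ?_ ?_
    · simp
    · intro s t hst ht
      exact lt_of_le_of_lt (lintegral_mono_set (inter_subset_inter_left _ hst)) ht
    · intro s t hs ht
      show ∫⁻ x in (s ∪ t) ∩ Ioo 0 X, _ < ⊤
      rw [union_inter_distrib_right]
      exact lt_of_le_of_lt (lintegral_union_le _ _ _) (ENNReal.add_lt_top.2 ⟨hs, ht⟩)
    · intro x hx
      obtain ⟨U, hU, hUi⟩ := zeta_locinj _ (hEE x)
      have hU' : (fun ξ : ℂ => z0 + ξ) ⁻¹' U ∈ 𝓝 ((x : ℂ) + y * I) := by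
        have hc : Continuous (fun ξ : ℂ => z0 + ξ) := by fun_prop
        exact hc.continuousAt.preimage_mem_nhds hU
      obtain ⟨q, hq1, hq2⟩ := FinLenQ_nhds _ _ hU'
      have hqi : InjOn (fun ξ => riemannZeta (z0 + ξ)) (FinLenQ q) := by
        intro ξ hξ ξ' hξ' he
        have := hUi (hq2 hξ) (hq2 hξ') he
        exact add_left_cancel this
      have hline : Continuous (fun x : ℝ => ((x : ℂ) + y * I)) := by fun_prop
      refine ⟨(fun x : ℝ => ((x : ℂ) + y * I)) ⁻¹' (FinLenQ q),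
        mem_nhdsWithin_of_mem_nhds (((FinLenQ_open q).preimage hline).mem_nhds hq1), ?_⟩
      refine lt_of_le_of_lt (lintegral_mono_set ?_) (hyA q hqi)
      intro x' hx'
      refine ⟨⟨hOm x' hx'.2.1.le hx'.2.2, ?_⟩, hx'.1⟩
      show 0 < ((x' : ℂ) + y * I).re
      simpa using hx'.2.1
  have hII : Icc 0 X ∩ Ioo 0 X = Ioo 0 X := inter_eq_right.2 Ioo_subset_Icc_self
  rw [hII] at hmain
  have hGa : ∀ x ∈ Ioo 0 X, AnalyticAt ℂ G ((x : ℂ) + y * I) := by
    intro x hx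
    refine h.analytic hy _ (hOm x hx.1.le hx.2) ?_
    simpa using hx.1
  refine rho_comp X hX (fun x : ℝ => G ((x : ℂ) + y * I)) (fun x : ℝ => deriv G ((x : ℂ) + y * I))
    ?_ ?_ hmain
  · intro x hx
    have h1 : HasDerivAt G (deriv G ((x : ℂ) + y * I)) ((x : ℂ) + y * I) :=
      (hGa x hx).differentiableAt.hasDerivAt
    exact (h1.comp_add_const (x : ℂ) (y * I)).comp_ofReal
  · intro x hx
    have h1 : ContinuousAt (deriv G) ((x : ℂ) + y * I) := (hGa x hx).deriv.continuousAt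
    have h2 : ContinuousAt (fun x : ℝ => ((x : ℂ) + y * I)) x := by fun_prop
    exact (ContinuousAt.comp (f := fun x : ℝ => ((x : ℂ) + y * I)) (g := deriv G) h1 h2).continuousWithinAt

end Pool.Agent.Lib.MP_ec260d_ntA
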