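import Mathlib
import Pool.Agent.Lib.MP_ec260d_ntA.Defs
import Pool.Agent.Lib.MP_ec260d_ntA.FinLen

/-!
# JOB AllX: for almost every `y` the lift exists for all `x ≥ 0` (about 120 lines)

Let `y ∈ J` be outside of the null set of `fin_len` and of the countable set `bad_y z0`.  Let `T = {x ≥ 0 : x + i y ∈ Om}`: it contains `0` (`st`), with `x` all of `[0, x]` (`star`), and it is relatively open in `[0, ∞)` (`opn`).  Suppose `T ≠ [0, ∞)`; then `T = [0, X)` with `X > 0` finite.  By `fin_len` `G (x + i y) → w` as `x → X-`.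
If `w ∈ EE` then `X + i y ∈ Om` (`max`), contradiction.  If `w = 1`: `G (x + i y) ≠ 1` (it is in `EE`) tends to `1`, so `‖ζ (G (x + i y))‖ → ∞` (`zeta_pole`), but it equals `‖ζ (z0 + x + i y)‖`, which tends to `‖ζ (z0 + X + i y)‖` (continuity, `z0 + X + i y ≠ 1` as the imaginary part is not `0`).
Otherwise `w ≠ 1`, `ζ' w = 0`: `ζ (z0 + X + i y) = lim ζ (G (x + i y)) = ζ w`, so `y ∈ bad_y z0`, contradiction.
-/

namespace Pool.Agent.Lib.MP_ec260d_ntA

open Complex Set Filter Topology Metric MeasureTheory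

theorem all_x {z0 : ℂ} {y0 y1 : ℝ} {Om : Set ℂ} {G : ℂ → ℂ} (h : LD z0 y0 y1 Om G)
    (hy : ∀ y ∈ Ioo y0 y1, z0.im + y ≠ 0) :
    ∀ᵐ y : ℝ, y ∈ Ioo y0 y1 → ∀ x : ℝ, 0 ≤ x → ((x : ℂ) + y * I) ∈ Om := by
  filter_upwards [fin_len h hy, (bad_y z0).ae_notMem volume] with y hfl hbad hyI
  by_contra hcon
  push Not at hcon
  obtain ⟨x0, hx0, hx0'⟩ := hcon
  set T : Set ℝ := {x : ℝ | 0 ≤ x ∧ ((x : ℂ) + y * I) ∉ Om} with hT
  have hTne : T.Nonempty := ⟨x0, hx0, hx0'⟩
  have hTbd : BddBelow T := ⟨0, fun x hx => hx.1⟩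
  set X : ℝ := sInf T with hX
  have hX0 : 0 ≤ X := le_csInf hTne fun x hx => hx.1
  have hlt : ∀ x : ℝ, 0 ≤ x → x < X → ((x : ℂ) + y * I) ∈ Om := by
    intro x hx hxX
    by_contra hno
    exact absurd (csInf_le hTbd (show x ∈ T from ⟨hx, hno⟩)) (not_le.2 hxX)
  have hXnot : ((X : ℂ) + y * I) ∉ Om := by
    intro hmem
    obtain ⟨ε, hε, hball⟩ := h.opn _ hmem
    obtain ⟨x, hxT, hxlt⟩ := exists_lt_of_csInf_lt hTne (show sInf T < X + ε by linarith)
    have hxX : X ≤ x := csInf_le hTbd hxT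
    refine hxT.2 (hball _ ?_ ?_)
    · have h1 : ((x : ℂ) + y * I) - ((X : ℂ) + y * I) = ((x - X : ℝ) : ℂ) := by
        push_cast
        ring
      rw [h1, Complex.norm_real, Real.norm_eq_abs, abs_of_nonneg (by linarith)]
      linarith
    · have h2 : ((x : ℂ) + y * I).re = x := by simp
      rw [h2]
      exact hxT.1
  have hXpos : 0 < X := by
    rcases hX0.lt_or_eq with h1 | h1
    · exact h1
    · exfalso
      apply hXnot
      rw [← h1, Complex.ofReal_zero, zero_add]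
      exact h.st y hyI
  obtain ⟨w, hw⟩ := hfl hyI X hXpos hlt
  have hev : ∀ᶠ x : ℝ in 𝓝[<] X, 0 ≤ x ∧ x < X := by
    filter_upwards [Ioo_mem_nhdsLT hXpos] with x hx
    exact ⟨hx.1.le, hx.2⟩
  -- the limit of zeta along the path
  have hne1 : z0 + ((X : ℂ) + y * I) ≠ 1 := by
    intro h1
    have h2 := congrArg Complex.im h1
    simp at h2
    exact hy y hyI h2
  have hlim : Tendsto (fun x : ℝ => riemannZeta (z0 + ((x : ℂ) + y * I))) (𝓝[<] X)
      (𝓝 (riemannZeta (z0 + ((X : ℂ) + y * I)))) := by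
    have h1 : ContinuousAt riemannZeta (z0 + ((X : ℂ) + y * I)) :=
      (zeta_analytic _ hne1).continuousAt
    have h2 : Tendsto (fun x : ℝ => z0 + ((x : ℂ) + y * I)) (𝓝[<] X)
        (𝓝 (z0 + ((X : ℂ) + y * I))) := by
      have h3 : Continuous (fun x : ℝ => z0 + ((x : ℂ) + y * I)) := by fun_prop
      exact (h3.tendsto X).mono_left nhdsWithin_le_nhds
    exact h1.tendsto.comp h2
  have hval : ∀ᶠ x : ℝ in 𝓝[<] X, G ((x : ℂ) + y * I) ∈ EE ∧
      riemannZeta (G ((x : ℂ) + y * I)) = riemannZeta (z0 + ((x : ℂ) + y * I)) := by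
    filter_upwards [hev] with x hx
    exact h.val _ (hlt x hx.1 hx.2)
  have hlim' : Tendsto (fun x : ℝ => riemannZeta (G ((x : ℂ) + y * I))) (𝓝[<] X)
      (𝓝 (riemannZeta (z0 + ((X : ℂ) + y * I)))) := by
    refine hlim.congr' ?_
    filter_upwards [hval] with x hx
    exact hx.2.symm
  by_cases hwE : w ∈ EE
  · exact hXnot (h.max y hyI X hXpos hlt w hwE hw)
  · by_cases hw1 : w = 1
    · subst hw1
      have h1 : Tendsto (fun x : ℝ => G ((x : ℂ) + y * I)) (𝓝[<] X) (𝓝[≠] 1) := by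
        refine tendsto_nhdsWithin_iff.2 ⟨hw, ?_⟩
        filter_upwards [hval] with x hx
        exact hx.1.1
      have h2 : Tendsto (fun x : ℝ => ‖riemannZeta (G ((x : ℂ) + y * I))‖) (𝓝[<] X) atTop :=
        zeta_pole.comp h1
      exact not_tendsto_atTop_of_tendsto_nhds hlim'.norm h2
    · have hder : deriv riemannZeta w = 0 := by
        by_contra hne
        exact hwE ⟨hw1, hne⟩
      have h3 : Tendsto (fun x : ℝ => riemannZeta (G ((x : ℂ) + y * I))) (𝓝[<] X)
          (𝓝 (riemannZeta w)) :=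
        (zeta_analytic w hw1).continuousAt.tendsto.comp hw
      have h4 := tendsto_nhds_unique hlim' h3
      refine hbad ⟨X, ?_, w, ⟨hw1, hder⟩, ?_⟩
      · rw [add_assoc]
        exact hne1
      · rw [add_assoc]
        exact h4.symm

end Pool.Agent.Lib.MP_ec260d_ntA
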