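import Mathlib
import Pool.Agent.Lib.MP_ec260d_ntA.Defs

/-!
# JOB Zb: the series of zeta in the half plane `Re s ≥ 9` (about 150 lines)

`ZZ χ s = ∑_{n ≥ 2} χ n n^(-s)`, `‖χ n‖ ≤ 1`, `χ 2 = 1`.
(1) `zeta_eq`: `riemannZeta s = ∑' n, 1 / (n + 1) ^ s` for `Re s > 1` (`zeta_eq_tsum_one_div_nat_add_one_cpow`), split off the first term.
(2) `ZZ_main`: `ZZ χ s - 2^(-s) = ∑_{n ≥ 3} χ n n^(-s)`, so the norm times `2^(Re s)` is at most `∑_{n≥3} (2/n)^(Re s) ≤ ∑_{n≥3} (2/n)^9`.  Numerically `(2/3)^9 = 0.0260`, `(2/4)^9 = 0.00195`, `(2/5)^9 = 0.00026`, and `∑_{n ≥ 6} (2/n)^9 ≤ 2^9 ∫_5^∞ x^(-9) dx = 512 / (8 * 5^8) < 0.0002`;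
total `< 0.029 ≤ 1/30`.  (Any other proof of the bound `1/30` is fine, e.g. `(2/n)^9 ≤ (2/3)^7 (2/n)^2` and `∑_{n ≥ 3} 4/n^2 ≤ 4 ∑_{n≥3} 1/(n(n-1)) = 2`: `(2/3)^7 * 2 = 0.117` is NOT enough; `(2/n)^9 ≤ (2/4)^7 (2/n)^2` for `n ≥ 4`: `∑_{n≥4} ≤ 2^(-7) * 4/3 = 0.0105`: total `0.0365`, so first split off `n = 3, 4`
and use `(2/n)^9 ≤ (2/5)^7 4/n^2` for `n ≥ 5`: `0.0260 + 0.00196 + (2/5)^7 * 1 < 0.0297`.)
(3) `ZZ_diff`: differentiable for `Re s > 1` (`differentiableOn_tsum_of_summable_norm` on `Re s > 1 + ε`).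
(4) `zeta_deriv_ne`: for `Re s ≥ 9`: by (2) for `χ = 1` on the disc of radius `1/2`... simpler: `deriv ζ s = - ∑_{n≥2} log n n^(-s)` (differentiate the series term by term, `hasDerivAt` of tsum or `LSeries_deriv`), and
`2^(Re s) ∑_{n ≥ 3} log n n^(-Re s) ≤ ∑_{n≥3} (2/n)^9 log n ≤ 0.0287 + 0.0028 + ∑_{n≥5} (2/n)^9 log n < 0.05 < log 2` (`log n ≤ n`, `(2/n)^8 * 2` etc.).  Alternatively by Cauchy's estimate applied to `h(w) = (ζ w - 1) 2^w - 1` on the disc of radius `1/2` around `s`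
(use (2) in the form: `‖h w‖ ≤ C` with `∑_{n≥3} (2/n)^(8.5) < 1/25`): `‖h' s‖ ≤ 2/25 < 1/10`, `ζ' = (h' - (1 + h) log 2) 2^(-s)`, `|1 + h| log 2 ≥ 0.66`.
-/

namespace Pool.Agent.Lib.MP_ec260d_ntA

open Complex Set Filter Topology Metric MeasureTheory

private theorem Zb_norm_le (χ : ℕ → ℂ) (hχ : ∀ n, ‖χ n‖ ≤ 1) (s : ℂ) (n : ℕ) (hn : 0 < n) :
    ‖χ n * (n : ℂ) ^ (-s)‖ ≤ (n : ℝ) ^ (-s.re) := by
  rw [norm_mul, Complex.norm_natCast_cpow_of_pos hn, neg_re]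
  exact mul_le_of_le_one_left (Real.rpow_nonneg (Nat.cast_nonneg n) _) (hχ n)

private theorem Zb_part (k : ℕ) : ∑ i ∈ Finset.range (k + 2), (2 / ((i : ℝ) + 3)) ^ 8 ≤
    256 / 6561 + 1 / 256 + 64 / 15625 * (1 - 4 / ((k : ℝ) + 4)) := by
  induction k with
  | zero =>
    rw [Finset.sum_range_succ, Finset.sum_range_succ, Finset.sum_range_zero]
    norm_num
  | succ k ih =>
    rw [Finset.sum_range_succ]
    have hk : (0 : ℝ) ≤ k := Nat.cast_nonneg k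
    have h1 : (2 / (((k + 2 : ℕ) : ℝ) + 3)) ^ 8 ≤ 64 / 15625 * (4 / ((k : ℝ) + 4) - 4 / ((k : ℝ) + 5)) := by
      have e1 : ((k + 2 : ℕ) : ℝ) + 3 = (k : ℝ) + 5 := by
        push_cast
        ring
      rw [e1]
      have e2 : 4 / ((k : ℝ) + 4) - 4 / ((k : ℝ) + 5) = 4 / (((k : ℝ) + 4) * ((k : ℝ) + 5)) := by
        field_simp
        ring
      rw [e2]
      have e3 : (2 / ((k : ℝ) + 5)) ^ 8 = (2 / ((k : ℝ) + 5)) ^ 6 * (4 / ((k : ℝ) + 5) ^ 2) := by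
        rw [pow_add (2 / ((k : ℝ) + 5)) 6 2, div_pow 2 ((k : ℝ) + 5) 2]
        norm_num
      rw [e3]
      refine mul_le_mul ?_ ?_ (by positivity) (by norm_num)
      · have e4 : (2 / ((k : ℝ) + 5)) ^ 6 ≤ (2 / 5) ^ 6 := by
          refine pow_le_pow_left₀ (by positivity) ?_ 6
          exact div_le_div_of_nonneg_left (by norm_num) (by norm_num) (by linarith)
        refine e4.trans (le_of_eq (by norm_num))
      · refine div_le_div_of_nonneg_left (by norm_num) (by positivity) ?_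
        nlinarith
    have e5 : (((k + 1 : ℕ) : ℝ) + 4) = (k : ℝ) + 5 := by
      push_cast
      ring
    rw [e5]
    calc _ ≤ (256 / 6561 + 1 / 256 + 64 / 15625 * (1 - 4 / ((k : ℝ) + 4))) +
          64 / 15625 * (4 / ((k : ℝ) + 4) - 4 / ((k : ℝ) + 5)) := add_le_add ih h1
      _ = _ := by ring

private theorem Zb_part' (k : ℕ) : ∑ i ∈ Finset.range k, (2 / ((i : ℝ) + 3)) ^ 8 ≤ 1 / 21 := by
  have h1 : ∑ i ∈ Finset.range k, (2 / ((i : ℝ) + 3)) ^ 8 ≤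
      ∑ i ∈ Finset.range (k + 2), (2 / ((i : ℝ) + 3)) ^ 8 :=
    Finset.sum_le_sum_of_subset_of_nonneg (Finset.range_subset_range.2 (by omega))
      fun i _ _ => by positivity
  have h2 := Zb_part k
  have h3 : (0 : ℝ) ≤ 4 / ((k : ℝ) + 4) := by positivity
  have h4 : (256 / 6561 + 1 / 256 + 64 / 15625 : ℝ) ≤ 1 / 21 := by norm_num
  linarith

private theorem Zb_summ : Summable (fun i : ℕ => (2 / ((i : ℝ) + 3)) ^ 8) :=
  summable_of_sum_range_le (fun i => by positivity) Zb_part'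

private theorem Zb_tsum : ∑' i : ℕ, (2 / ((i : ℝ) + 3)) ^ 8 ≤ 1 / 21 :=
  Real.tsum_le_of_sum_range_le (fun i => by positivity) Zb_part'

private theorem Zb_pow {σ N : ℝ} (hσ : 9 ≤ σ) (hN : 3 ≤ N) :
    N ^ (-σ) ≤ (2 : ℝ) ^ (-σ) * (2 / N) ^ 9 := by
  have hN0 : 0 < N := by linarith
  have h1 : N ^ (-σ) = (2 : ℝ) ^ (-σ) * (2 / N) ^ σ := by
    rw [Real.div_rpow (by norm_num) hN0.le, Real.rpow_neg hN0.le, Real.rpow_neg (by norm_num)]
    have h2 : (0 : ℝ) < 2 ^ σ := Real.rpow_pos_of_pos (by norm_num) _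
    field_simp
  rw [h1]
  refine mul_le_mul_of_nonneg_left ?_ (Real.rpow_nonneg (by norm_num) _)
  have h3 : (2 / N) ^ σ ≤ (2 / N) ^ (9 : ℝ) :=
    Real.rpow_le_rpow_of_exponent_ge (by positivity) (by rw [div_le_one hN0]; linarith) hσ
  refine h3.trans (le_of_eq ?_)
  have h4 : (9 : ℝ) = ((9 : ℕ) : ℝ) := by norm_num
  rw [h4, Real.rpow_natCast]

theorem ZZ_summable (χ : ℕ → ℂ) (hχ : ∀ n, ‖χ n‖ ≤ 1) (s : ℂ) (hs : 1 < s.re) :
    Summable (fun n : ℕ => χ (n + 2) * ((n + 2 : ℕ) : ℂ) ^ (-s)) := by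
  refine Summable.of_norm_bounded (g := fun n : ℕ => ((n + 2 : ℕ) : ℝ) ^ (-s.re)) ?_ fun n => ?_
  · exact (summable_nat_add_iff (f := fun n : ℕ => ((n : ℕ) : ℝ) ^ (-s.re)) 2).2
      (Real.summable_nat_rpow.2 (by linarith))
  · exact Zb_norm_le χ hχ s (n + 2) (by omega)

theorem zeta_eq (s : ℂ) (hs : 1 < s.re) : riemannZeta s = 1 + ZZ (fun _ => 1) s := by
  have hsum := ZZ_summable (fun _ => 1) (fun _ => by rw [norm_one]) s hs
  rw [zeta_eq_tsum_one_div_nat_add_one_cpow hs]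
  have h1 : (fun n : ℕ => 1 / ((n : ℂ) + 1) ^ s) = fun n : ℕ => ((n + 1 : ℕ) : ℂ) ^ (-s) := by
    funext n
    rw [Complex.cpow_neg, one_div]
    push_cast
    rfl
  rw [h1]
  have h2 : Summable (fun n : ℕ => ((n + 1 : ℕ) : ℂ) ^ (-s)) := by
    rw [← summable_nat_add_iff 1]
    have h3 : (fun n : ℕ => ((n + 1 + 1 : ℕ) : ℂ) ^ (-s)) =
        fun n : ℕ => (fun _ : ℕ => (1 : ℂ)) (n + 2) * ((n + 2 : ℕ) : ℂ) ^ (-s) := by
      funext n
      rw [one_mul]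
    rw [h3]
    exact hsum
  rw [h2.tsum_eq_zero_add]
  congr 1
  · simp
  · unfold ZZ
    refine tsum_congr fun n => ?_
    rw [one_mul]

theorem ZZ_main (χ : ℕ → ℂ) (hχ : ∀ n, ‖χ n‖ ≤ 1) (h2 : χ 2 = 1) (s : ℂ) (hs : 9 ≤ s.re) :
    ‖ZZ χ s - (2 : ℂ) ^ (-s)‖ ≤ (2 : ℝ) ^ (-s.re) / 30 := by
  have hs1 : 1 < s.re := by linarith
  have hsum := ZZ_summable χ hχ s hs1
  have h1 : ZZ χ s - (2 : ℂ) ^ (-s) = ∑' n : ℕ, χ (n + 3) * ((n + 3 : ℕ) : ℂ) ^ (-s) := by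
    unfold ZZ
    rw [hsum.tsum_eq_zero_add]
    have h3 : χ (0 + 2) * ((0 + 2 : ℕ) : ℂ) ^ (-s) = (2 : ℂ) ^ (-s) := by
      rw [zero_add, h2, one_mul]
      norm_num
    rw [h3, add_sub_cancel_left]
  rw [h1]
  have h4 : Summable (fun i : ℕ => (2 : ℝ) ^ (-s.re) * (2 / 3 * (2 / ((i : ℝ) + 3)) ^ 8)) :=
    (Zb_summ.mul_left _).mul_left _
  have h5 : ∀ n : ℕ, ‖χ (n + 3) * ((n + 3 : ℕ) : ℂ) ^ (-s)‖ ≤
      (2 : ℝ) ^ (-s.re) * (2 / 3 * (2 / ((n : ℝ) + 3)) ^ 8) := by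
    intro n
    refine (Zb_norm_le χ hχ s (n + 3) (by omega)).trans ?_
    have hn : (0 : ℝ) ≤ n := Nat.cast_nonneg n
    have e1 : ((n + 3 : ℕ) : ℝ) = (n : ℝ) + 3 := by push_cast; ring
    rw [e1]
    refine (Zb_pow hs (by linarith)).trans ?_
    refine mul_le_mul_of_nonneg_left ?_ (Real.rpow_nonneg (by norm_num) _)
    rw [pow_succ, mul_comm]
    refine mul_le_mul_of_nonneg_right ?_ (by positivity)
    exact div_le_div_of_nonneg_left (by norm_num) (by norm_num) (by linarith)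
  have h6 := tsum_of_norm_bounded h4.hasSum h5
  refine h6.trans ?_
  rw [tsum_mul_left, tsum_mul_left]
  have h7 : (0 : ℝ) ≤ (2 : ℝ) ^ (-s.re) := Real.rpow_nonneg (by norm_num) _
  have h8 := Zb_tsum
  rw [div_eq_mul_one_div]
  refine mul_le_mul_of_nonneg_left ?_ h7
  linarith

theorem ZZ_diff (χ : ℕ → ℂ) (hχ : ∀ n, ‖χ n‖ ≤ 1) : DifferentiableOn ℂ (ZZ χ) {s | 1 < s.re} := by
  intro s hs
  have hs' : 1 < s.re := hs
  have hopen : IsOpen {w : ℂ | (1 + s.re) / 2 < w.re} := isOpen_lt continuous_const Complex.continuous_re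
  have h1 : DifferentiableOn ℂ (fun w : ℂ => ∑' n : ℕ, χ (n + 2) * ((n + 2 : ℕ) : ℂ) ^ (-w))
      {w : ℂ | (1 + s.re) / 2 < w.re} := by
    refine differentiableOn_tsum_of_summable_norm
      (u := fun n : ℕ => ((n + 2 : ℕ) : ℝ) ^ (-((1 + s.re) / 2))) ?_ (fun n => ?_) hopen (fun n w hw => ?_)
    · exact (summable_nat_add_iff (f := fun n : ℕ => ((n : ℕ) : ℝ) ^ (-((1 + s.re) / 2))) 2).2
        (Real.summable_nat_rpow.2 (by linarith))
    · have hne : ((n + 2 : ℕ) : ℂ) ≠ 0 := by exact_mod_cast (by omega : n + 2 ≠ 0)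
      exact (DifferentiableOn.const_cpow differentiableOn_id.fun_neg (Or.inl hne)).const_mul _
    · refine (Zb_norm_le χ hχ w (n + 2) (by omega)).trans ?_
      have hw' : (1 + s.re) / 2 < w.re := hw
      refine Real.rpow_le_rpow_of_exponent_le ?_ (by linarith)
      exact_mod_cast (by omega : 1 ≤ n + 2)
  have h2 : (1 + s.re) / 2 < s.re := by linarith
  exact ((h1 s h2).differentiableAt (hopen.mem_nhds h2)).differentiableWithinAt

theorem tract_EE (s : ℂ) (hs : 9 ≤ s.re) : s ∈ EE := by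
  refine ⟨fun h1 => ?_, fun h0 => ?_⟩
  · rw [h1, Complex.one_re] at hs
    norm_num at hs
  · have hs1 : 1 < s.re := by linarith
    have habs : LSeries.abscissaOfAbsConv (1 : ℕ → ℂ) < s.re := by
      rw [LSeries.abscissaOfAbsConv_one]
      exact_mod_cast hs1
    have hopen : IsOpen {w : ℂ | 1 < w.re} := isOpen_lt continuous_const Complex.continuous_re
    have h1 : riemannZeta =ᶠ[𝓝 s] LSeries 1 := by
      filter_upwards [hopen.mem_nhds hs1] with w hw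
      exact (LSeries_one_eq_riemannZeta hw).symm
    rw [h1.deriv_eq, LSeries_deriv habs, neg_eq_zero] at h0
    have hsum : Summable (LSeries.term (LSeries.logMul 1) s) := LSeriesSummable_logMul_of_lt_re habs
    have h2 := hsum.sum_add_tsum_nat_add 3
    have h3 : ∑' n : ℕ, LSeries.term (LSeries.logMul 1) s n = 0 := h0
    rw [h3, Finset.sum_range_succ, Finset.sum_range_succ, Finset.sum_range_succ,
      Finset.sum_range_zero] at h2
    have t0 : LSeries.term (LSeries.logMul 1) s 0 = 0 := LSeries.term_zero _ _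
    have t1 : LSeries.term (LSeries.logMul 1) s 1 = 0 := by
      rw [LSeries.term_of_ne_zero one_ne_zero]
      simp [LSeries.logMul]
    have t2 : LSeries.term (LSeries.logMul 1) s 2 = (Real.log 2 : ℝ) * (2 : ℂ) ^ (-s) := by
      rw [LSeries.term_of_ne_zero two_ne_zero, Complex.cpow_neg, div_eq_mul_inv]
      have e1 : LSeries.logMul 1 2 = ((Real.log 2 : ℝ) : ℂ) := by
        unfold LSeries.logMul
        rw [Pi.one_apply, mul_one, Complex.ofReal_log (by norm_num)]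
        norm_num
      rw [e1]
      norm_num
    rw [t0, t1, t2, zero_add, zero_add, zero_add] at h2
    have h4 : Summable (fun i : ℕ => (2 : ℝ) ^ (-s.re) * (2 * (2 / ((i : ℝ) + 3)) ^ 8)) :=
      (Zb_summ.mul_left _).mul_left _
    have h5 : ∀ n : ℕ, ‖LSeries.term (LSeries.logMul 1) s (n + 3)‖ ≤
        (2 : ℝ) ^ (-s.re) * (2 * (2 / ((n : ℝ) + 3)) ^ 8) := by
      intro n
      have hn : (0 : ℝ) ≤ n := Nat.cast_nonneg n
      have e1 : ((n + 3 : ℕ) : ℝ) = (n : ℝ) + 3 := by push_cast; ring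
      rw [LSeries.term_of_ne_zero (by omega), norm_div, Complex.norm_natCast_cpow_of_pos (by omega), e1]
      have e2 : LSeries.logMul 1 (n + 3) = ((Real.log ((n : ℝ) + 3) : ℝ) : ℂ) := by
        unfold LSeries.logMul
        rw [Pi.one_apply, mul_one, Complex.ofReal_log (by linarith)]
        push_cast
        rfl
      have hN : (0 : ℝ) < (n : ℝ) + 3 := by linarith
      have e3 : 0 ≤ Real.log ((n : ℝ) + 3) := Real.log_nonneg (by linarith)
      have e4 : Real.log ((n : ℝ) + 3) ≤ (n : ℝ) + 3 := (Real.log_le_sub_one_of_pos hN).trans (by linarith)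
      rw [e2, Complex.norm_real, Real.norm_of_nonneg e3, div_eq_mul_inv, ← Real.rpow_neg hN.le]
      have e5 := Zb_pow hs (show (3 : ℝ) ≤ (n : ℝ) + 3 by linarith)
      have e6 : 0 ≤ ((n : ℝ) + 3) ^ (-s.re) := Real.rpow_nonneg hN.le _
      calc Real.log ((n : ℝ) + 3) * ((n : ℝ) + 3) ^ (-s.re)
          ≤ ((n : ℝ) + 3) * ((2 : ℝ) ^ (-s.re) * (2 / ((n : ℝ) + 3)) ^ 9) :=
            mul_le_mul e4 e5 e6 hN.le
        _ = (2 : ℝ) ^ (-s.re) * (2 * (2 / ((n : ℝ) + 3)) ^ 8) := by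
            rw [pow_succ]
            field_simp
    have h6 := tsum_of_norm_bounded h4.hasSum h5
    rw [tsum_mul_left, tsum_mul_left] at h6
    have h7 : ((Real.log 2 : ℝ) : ℂ) * (2 : ℂ) ^ (-s) =
        - ∑' n : ℕ, LSeries.term (LSeries.logMul 1) s (n + 3) := eq_neg_of_add_eq_zero_left h2
    have h8 : ‖((Real.log 2 : ℝ) : ℂ) * (2 : ℂ) ^ (-s)‖ = Real.log 2 * (2 : ℝ) ^ (-s.re) := by
      have e1 : ‖(2 : ℂ) ^ (-s)‖ = (2 : ℝ) ^ (-s.re) := by
        have e2 := Complex.norm_natCast_cpow_of_pos (n := 2) (by norm_num) (-s)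
        rw [neg_re] at e2
        exact_mod_cast e2
      rw [norm_mul, e1, Complex.norm_real, Real.norm_of_nonneg (Real.log_nonneg (by norm_num))]
    have h9 : (0 : ℝ) < (2 : ℝ) ^ (-s.re) := Real.rpow_pos_of_pos (by norm_num) _
    rw [h7, norm_neg] at h8
    rw [h8, mul_comm] at h6
    have h10 := le_of_mul_le_mul_left h6 h9
    have h11 := Zb_tsum
    have h12 := Real.log_two_gt_d9
    linarith

end Pool.Agent.Lib.MP_ec260d_ntA
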