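import Mathlib
import Pool.Agent.Lib.MP_ec260d_ntA.Defs
import Pool.Agent.Lib.MP_ec260d_ntA.Zb

/-!
# JOB Ef: the small solution of `ZZ χ (ξ + E) = 2^(-ξ)` (about 200 lines)

Let `Re ξ ≥ 10`, `‖E‖ ≤ 1/10`, `s = ξ + E`, `Re s ≥ 9.9`.  Put `A(E) = 2^s ZZ χ s - 1 = ∑_{n≥3} χ n (n/2)^(-s)`; `‖A(E)‖ ≤ 1/30` (`ZZ_main`, `‖2^s‖ = 2^(Re s)`).  `2^(-s)(1 + A(E)) = 2^(-ξ)` iff `2^(-E) (1 + A(E)) = 1` iff `exp (-E log 2) (1 + A(E)) = 1`
iff `E = log (1 + A(E)) / log 2` (principal logarithm: `‖log (1 + A)‖ ≤ ‖A‖ (1 + small) ≤ 1/25`, so both `E log 2` and `log (1+A)` have imaginary part in `(-π, π)` and `exp` is injective there).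
`Φ(E) = log (1 + A(E)) / log 2` maps the closed disc of radius `1/10` into the disc of radius `(1/25)/0.69 < 0.06` and is a contraction with constant `1/2`: `A` is holomorphic on `Re ξ + Re E > 9`, in particular on the disc of radius `1` around `0` (there `Re s ≥ 9`), bounded there by `1/30`,
so by Cauchy `‖A'(E)‖ ≤ (1/30)/0.9 ≤ 1/25` for `‖E‖ ≤ 1/10`; `‖Φ'‖ ≤ (1/25)/(0.96 * 0.69) < 0.07`.
Banach's fixed point theorem (`ContractingWith`) or the iteration gives the unique fixed point.  `ef χ ξ` is this solution (`Exists.choose_spec`).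
`ef_iter`: for `‖E‖ ≤ 1/10`: `‖Φ(E)‖ ≤ 1/10` and `‖Φ(E) - ef χ ξ‖ ≤ ‖E - ef χ ξ‖ / 2` (mean value inequality on the convex disc).
-/

namespace Pool.Agent.Lib.MP_ec260d_ntA

open Complex Set Filter Topology Metric MeasureTheory

/-- the map whose fixed point is `ef χ ξ` -/
noncomputable def Phi (χ : ℕ → ℂ) (ξ E : ℂ) : ℂ :=
  Complex.log ((2 : ℂ) ^ (ξ + E) * ZZ χ (ξ + E)) / Real.log 2

private theorem Ef_norm_two (s : ℂ) : ‖(2 : ℂ) ^ s‖ = (2 : ℝ) ^ s.re := by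
  have h := Complex.norm_cpow_eq_rpow_re_of_pos (show (0 : ℝ) < 2 by norm_num) s
  simpa using h

private theorem Ef_two_ne : (2 : ℂ) ≠ 0 := by norm_num

private theorem Ef_re (ξ E : ℂ) (hξ : 10 ≤ ξ.re) (hE : ‖E‖ ≤ 1) : 9 ≤ (ξ + E).re := by
  have h := Complex.abs_re_le_norm E
  have h1 := (abs_le.mp (h.trans hE)).1
  rw [Complex.add_re]
  linarith

private theorem Ef_log2 : (0.69 : ℝ) < Real.log 2 := by
  have := Real.log_two_gt_d9
  linarith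

private theorem Ef_log2_le : Real.log 2 < (0.7 : ℝ) := by
  have := Real.log_two_lt_d9
  linarith

private theorem Ef_two_exp (E : ℂ) : (2 : ℂ) ^ E = Complex.exp (E * Real.log 2) := by
  rw [Complex.cpow_def_of_ne_zero Ef_two_ne]
  congr 1
  have h : Complex.log 2 = ((Real.log 2 : ℝ) : ℂ) := by
    rw [Complex.ofReal_log (by norm_num)]
    simp
  rw [h]
  ring

private theorem Ef_prod (ξ E : ℂ) : (2 : ℂ) ^ (ξ + E) * (2 : ℂ) ^ (-ξ) = (2 : ℂ) ^ E := by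
  rw [← Complex.cpow_add _ _ Ef_two_ne]
  congr 1
  ring

private theorem Ef_slit {z : ℂ} (h : ‖z - 1‖ ≤ 1 / 30) : z ∈ Complex.slitPlane := by
  have h1 := (abs_le.mp ((Complex.abs_re_le_norm (z - 1)).trans h)).1
  rw [Complex.sub_re, Complex.one_re] at h1
  left
  linarith

theorem Phi_dom (χ : ℕ → ℂ) (hχ : CM χ) (ξ : ℂ) (hξ : 10 ≤ ξ.re) (E : ℂ) (hE : ‖E‖ ≤ 1) :
    ‖(2 : ℂ) ^ (ξ + E) * ZZ χ (ξ + E) - 1‖ ≤ 1 / 30 := by
  obtain ⟨h1, h2, h3, h4⟩ := hχ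
  have hs : 9 ≤ (ξ + E).re := Ef_re ξ E hξ hE
  have hm := ZZ_main χ h4 h2 (ξ + E) hs
  have e1 : (2 : ℂ) ^ (ξ + E) * ZZ χ (ξ + E) - 1
      = (2 : ℂ) ^ (ξ + E) * (ZZ χ (ξ + E) - (2 : ℂ) ^ (-(ξ + E))) := by
    rw [mul_sub, ← Complex.cpow_add _ _ Ef_two_ne, add_neg_cancel, Complex.cpow_zero]
  rw [e1, norm_mul, Ef_norm_two]
  have hpos : (0 : ℝ) < (2 : ℝ) ^ (ξ + E).re := Real.rpow_pos_of_pos (by norm_num) _
  have hmul : (2 : ℝ) ^ (ξ + E).re * ((2 : ℝ) ^ (-(ξ + E).re) / 30) = 1 / 30 := by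
    rw [← mul_div_assoc, ← Real.rpow_add (by norm_num), add_neg_cancel, Real.rpow_zero]
  calc (2 : ℝ) ^ (ξ + E).re * ‖ZZ χ (ξ + E) - (2 : ℂ) ^ (-(ξ + E))‖
      ≤ (2 : ℝ) ^ (ξ + E).re * ((2 : ℝ) ^ (-(ξ + E).re) / 30) :=
        mul_le_mul_of_nonneg_left hm hpos.le
    _ = 1 / 30 := hmul

theorem Phi_small (χ : ℕ → ℂ) (hχ : CM χ) (ξ : ℂ) (hξ : 10 ≤ ξ.re) (E : ℂ) (hE : ‖E‖ ≤ 1) :
    ‖Phi χ ξ E‖ ≤ 1 / 10 := by
  have hd := Phi_dom χ hχ ξ hξ E hE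
  unfold Phi
  rw [norm_div]
  have hl : ‖((Real.log 2 : ℝ) : ℂ)‖ = Real.log 2 := by
    rw [Complex.norm_real, Real.norm_of_nonneg (by have := Ef_log2; linarith)]
  rw [hl]
  have hlog : ‖Complex.log ((2 : ℂ) ^ (ξ + E) * ZZ χ (ξ + E))‖ ≤ 3 / 2 * (1 / 30) := by
    have h := Complex.norm_log_one_add_half_le_self
      (z := (2 : ℂ) ^ (ξ + E) * ZZ χ (ξ + E) - 1) (by linarith)
    rw [add_sub_cancel] at h
    linarith
  have h2 := Ef_log2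
  rw [div_le_iff₀ (by linarith)]
  linarith

theorem Phi_lip (χ : ℕ → ℂ) (hχ : CM χ) (ξ : ℂ) (hξ : 10 ≤ ξ.re) (E E' : ℂ) (hE : ‖E‖ ≤ 1 / 10)
    (hE' : ‖E'‖ ≤ 1 / 10) : ‖Phi χ ξ E - Phi χ ξ E'‖ ≤ ‖E - E'‖ / 2 := by
  have hdiff : ∀ z : ℂ, ‖z‖ < 1 → DifferentiableAt ℂ (Phi χ ξ) z := by
    intro z hz
    have hd := Phi_dom χ hχ ξ hξ z hz.le
    have hs : 9 ≤ (ξ + z).re := Ef_re ξ z hξ hz.le
    have hopen : IsOpen {s : ℂ | 1 < s.re} := isOpen_lt continuous_const Complex.continuous_re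
    have hZ : DifferentiableAt ℂ (ZZ χ) (ξ + z) := by
      apply (ZZ_diff χ hχ.2.2.2).differentiableAt
      apply hopen.mem_nhds
      show (1 : ℝ) < (ξ + z).re
      linarith
    have hadd : DifferentiableAt ℂ (fun w : ℂ => ξ + w) z :=
      (differentiableAt_const ξ).add differentiableAt_id
    have hZ' : DifferentiableAt ℂ (fun w : ℂ => ZZ χ (ξ + w)) z :=
      DifferentiableAt.comp z hZ hadd
    have hp : DifferentiableAt ℂ (fun w : ℂ => (2 : ℂ) ^ (ξ + w)) z :=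
      hadd.const_cpow (Or.inl Ef_two_ne)
    have hm : DifferentiableAt ℂ (fun w : ℂ => (2 : ℂ) ^ (ξ + w) * ZZ χ (ξ + w)) z := hp.mul hZ'
    have hl := hm.clog (Ef_slit hd)
    exact hl.div_const _
  have hder : ∀ z ∈ Metric.closedBall (0 : ℂ) (1 / 10), ‖deriv (Phi χ ξ) z‖ ≤ 1 / 2 := by
    intro z hz
    rw [Metric.mem_closedBall, dist_zero_right] at hz
    have hnorm : ∀ w ∈ Metric.closedBall z (1 / 2), ‖w‖ < 1 := by
      intro w hw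
      rw [Metric.mem_closedBall, dist_eq_norm] at hw
      have h3 : ‖w‖ ≤ ‖w - z‖ + ‖z‖ := by
        have := norm_add_le (w - z) z
        rwa [sub_add_cancel] at this
      linarith
    have hdc : DiffContOnCl ℂ (Phi χ ξ) (Metric.ball z (1 / 2)) := by
      apply DifferentiableOn.diffContOnCl
      intro w hw
      rw [closure_ball z (by norm_num : (1 / 2 : ℝ) ≠ 0)] at hw
      exact (hdiff w (hnorm w hw)).differentiableWithinAt
    have hb := Complex.norm_deriv_le_of_forall_mem_sphere_norm_le (C := 1 / 10)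
      (by norm_num : (0 : ℝ) < 1 / 2) hdc (fun w hw =>
        Phi_small χ hχ ξ hξ w (hnorm w (Metric.sphere_subset_closedBall hw)).le)
    calc ‖deriv (Phi χ ξ) z‖ ≤ 1 / 10 / (1 / 2) := hb
      _ ≤ 1 / 2 := by norm_num
  have hmem : ∀ z : ℂ, ‖z‖ ≤ 1 / 10 → z ∈ Metric.closedBall (0 : ℂ) (1 / 10) := by
    intro z hz
    rw [Metric.mem_closedBall, dist_zero_right]
    exact hz
  have h := Convex.norm_image_sub_le_of_norm_deriv_le (𝕜 := ℂ) (f := Phi χ ξ) (C := 1 / 2)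
    (s := Metric.closedBall (0 : ℂ) (1 / 10)) (x := E') (y := E)
    (fun z hz => hdiff z (by
      rw [Metric.mem_closedBall, dist_zero_right] at hz
      linarith)) hder (convex_closedBall _ _) (hmem E' hE') (hmem E hE)
  calc ‖Phi χ ξ E - Phi χ ξ E'‖ ≤ 1 / 2 * ‖E - E'‖ := h
    _ = ‖E - E'‖ / 2 := by ring

theorem Phi_fix (χ : ℕ → ℂ) (hχ : CM χ) (ξ : ℂ) (hξ : 10 ≤ ξ.re) (E : ℂ) (hE : ‖E‖ ≤ 1 / 10) :
    ZZ χ (ξ + E) = (2 : ℂ) ^ (-ξ) ↔ Phi χ ξ E = E := by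
  have hE1 : ‖E‖ ≤ 1 := by linarith
  have hd := Phi_dom χ hχ ξ hξ E hE1
  have hz0 : (2 : ℂ) ^ (ξ + E) * ZZ χ (ξ + E) ≠ 0 := Complex.slitPlane_ne_zero (Ef_slit hd)
  have hl0 : ((Real.log 2 : ℝ) : ℂ) ≠ 0 := by
    have := Ef_log2
    exact Complex.ofReal_ne_zero.mpr (by linarith)
  constructor
  · intro h
    unfold Phi
    rw [h, Ef_prod, Ef_two_exp]
    have him : |(E * ((Real.log 2 : ℝ) : ℂ)).im| ≤ 1 / 10 * (0.7 : ℝ) := by
      calc |(E * ((Real.log 2 : ℝ) : ℂ)).im| ≤ ‖E * ((Real.log 2 : ℝ) : ℂ)‖ :=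
            Complex.abs_im_le_norm _
        _ = ‖E‖ * Real.log 2 := by
            rw [norm_mul, Complex.norm_real, Real.norm_of_nonneg (by have := Ef_log2; linarith)]
        _ ≤ 1 / 10 * (0.7 : ℝ) := by
            apply mul_le_mul hE Ef_log2_le.le (by have := Ef_log2; linarith) (by norm_num)
    have him' := abs_le.mp him
    have hpi := Real.pi_gt_three
    rw [Complex.log_exp (by linarith [him'.1]) (by linarith [him'.2])]
    field_simp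
  · intro h
    unfold Phi at h
    rw [div_eq_iff hl0] at h
    have h1 : (2 : ℂ) ^ (ξ + E) * ZZ χ (ξ + E) = (2 : ℂ) ^ E := by
      rw [Ef_two_exp E, ← h, Complex.exp_log hz0]
    have h2 : (2 : ℂ) ^ (ξ + E) * ZZ χ (ξ + E) = (2 : ℂ) ^ (ξ + E) * (2 : ℂ) ^ (-ξ) := by
      rw [h1, Ef_prod]
    have h3 : (2 : ℂ) ^ (ξ + E) ≠ 0 := by
      intro h4
      rw [h4, zero_mul] at hz0
      exact hz0 rfl
    exact mul_left_cancel₀ h3 h2

theorem ef_spec (χ : ℕ → ℂ) (hχ : CM χ) (ξ : ℂ) (hξ : 10 ≤ ξ.re) :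
    ‖ef χ ξ‖ ≤ 1 / 10 ∧ ZZ χ (ξ + ef χ ξ) = (2 : ℂ) ^ (-ξ) := by
  have hex : ∃ E : ℂ, ‖E‖ ≤ 1 / 10 ∧ ZZ χ (ξ + E) = (2 : ℂ) ^ (-ξ) := by
    have hmaps : MapsTo (Phi χ ξ) (Metric.closedBall (0 : ℂ) (1 / 10))
        (Metric.closedBall (0 : ℂ) (1 / 10)) := by
      intro z hz
      rw [Metric.mem_closedBall, dist_zero_right] at hz ⊢
      exact Phi_small χ hχ ξ hξ z (by linarith)
    have hcon : ContractingWith (1 / 2 : NNReal)
        (hmaps.restrict (Phi χ ξ) (Metric.closedBall (0 : ℂ) (1 / 10))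
          (Metric.closedBall (0 : ℂ) (1 / 10))) := by
      refine ⟨by rw [div_lt_one (by norm_num)]; norm_num, ?_⟩
      apply LipschitzWith.of_dist_le_mul
      rintro ⟨z, hz⟩ ⟨w, hw⟩
      rw [Subtype.dist_eq, Subtype.dist_eq, dist_eq_norm, dist_eq_norm]
      rw [Metric.mem_closedBall, dist_zero_right] at hz hw
      have h := Phi_lip χ hχ ξ hξ z w hz hw
      have h2 : (((1 / 2 : NNReal)) : ℝ) = 1 / 2 := by norm_num
      rw [h2]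
      calc ‖Phi χ ξ z - Phi χ ξ w‖ ≤ ‖z - w‖ / 2 := h
        _ = 1 / 2 * ‖z - w‖ := by ring
    obtain ⟨E, hE, hfix, -⟩ := ContractingWith.exists_fixedPoint' (x := (0 : ℂ))
      Metric.isClosed_closedBall.isComplete hmaps hcon
      (Metric.mem_closedBall_self (by norm_num)) (edist_ne_top _ _)
    rw [Metric.mem_closedBall, dist_zero_right] at hE
    exact ⟨E, hE, (Phi_fix χ hχ ξ hξ E hE).mpr hfix⟩
  have hef : ef χ ξ = hex.choose := by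
    unfold ef
    rw [dif_pos hex]
  rw [hef]
  exact hex.choose_spec

theorem ef_unique (χ : ℕ → ℂ) (hχ : CM χ) (ξ : ℂ) (hξ : 10 ≤ ξ.re) (E : ℂ) (hE : ‖E‖ ≤ 1 / 10)
    (h : ZZ χ (ξ + E) = (2 : ℂ) ^ (-ξ)) : E = ef χ ξ := by
  obtain ⟨h1, h2⟩ := ef_spec χ hχ ξ hξ
  have f1 := (Phi_fix χ hχ ξ hξ E hE).mp h
  have f2 := (Phi_fix χ hχ ξ hξ (ef χ ξ) h1).mp h2
  have h3 := Phi_lip χ hχ ξ hξ E (ef χ ξ) hE h1
  rw [f1, f2] at h3
  have h4 : ‖E - ef χ ξ‖ = 0 := by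
    have := norm_nonneg (E - ef χ ξ)
    linarith
  exact sub_eq_zero.mp (norm_eq_zero.mp h4)

end Pool.Agent.Lib.MP_ec260d_ntA
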