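import Mathlib
import Pool.Agent.Lib.MP_ec260d_ntA.Defs
import Pool.Agent.Lib.MP_ec260d_ntA.Ef

/-!
# JOB EfCont: continuity of `ef` (about 150 lines)

(a) `ef_tendsto`: `χ_j → χ` pointwise, all `CM`.  `E_j = ef (χ_j) ξ`, `E = ef χ ξ`.  `‖E_j - E‖ = ‖Phi χ_j ξ E_j - Phi χ ξ E‖ ≤ ‖Phi χ_j ξ E_j - Phi χ_j ξ E‖ + ‖Phi χ_j ξ E - Phi χ ξ E‖ ≤ ‖E_j - E‖ / 2 + δ_j`, so `‖E_j - E‖ ≤ 2 δ_j`, and `δ_j → 0` since
`ZZ χ_j s → ZZ χ s` for fixed `s`, `Re s ≥ 9` (dominated convergence for series, `tendsto_tsum_of_dominated_convergence`) and `log` is continuous at `2^s ZZ χ s` (`Phi_dom`: distance at most `1/30` from `1`).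
(b) `SS_cont`: `ξ ↦ ef χ ξ` is continuous on `Re ξ ≥ 10`: in the same way `‖ef χ ξ' - ef χ ξ‖ ≤ 2 ‖Phi χ ξ' E - Phi χ ξ E‖`, `E = ef χ ξ`, and `s ↦ 2^s ZZ χ s` is continuous (`ZZ_diff`).
(c) `tract_param`: `Re w ≥ 11`.  `2^w ZZ 1 w = 1 + A`, `‖A‖ ≤ 1/30`; put `ξ = w - log (1 + A) / log 2`; `‖w - ξ‖ ≤ 1/10`, `Re ξ ≥ 10`, `2^(-ξ) = 2^(-w) (1 + A) = ZZ 1 w`; so `w - ξ = ef 1 ξ` (`ef_unique`), `SS ξ = w`; `ζ w = 1 + ZZ 1 w` (`zeta_eq`).
(d) `zeta_SS`: `ζ (SS ξ) = 1 + ZZ 1 (SS ξ) = 1 + 2^(-ξ)`.  `SS_re`: `‖ef‖ ≤ 1/10`.  (e) `tract_ne`: for `11 ≤ Re w ≤ 12`: `‖ζ w - 1‖ ≥ 2^(-12) (29/30)` (`ZZ_main`).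
-/

namespace Pool.Agent.Lib.MP_ec260d_ntA

open Complex Set Filter Topology Metric MeasureTheory

private theorem EfCont_CM1 : CM (fun _ => (1 : ℂ)) := by
  refine ⟨rfl, rfl, fun _ _ _ _ => by simp, fun _ => by simp⟩

private theorem EfCont_slit {z : ℂ} (h : ‖z - 1‖ ≤ 1 / 30) : z ∈ Complex.slitPlane := by
  have h1 := (abs_le.mp ((Complex.abs_re_le_norm (z - 1)).trans h)).1
  rw [Complex.sub_re, Complex.one_re] at h1
  left
  linarith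

private theorem EfCont_norm_two (s : ℂ) : ‖(2 : ℂ) ^ s‖ = (2 : ℝ) ^ s.re := by
  have h := Complex.norm_cpow_eq_rpow_re_of_pos (show (0 : ℝ) < 2 by norm_num) s
  simpa using h

private theorem EfCont_key (χ χ' : ℕ → ℂ) (hχ : CM χ) (hχ' : CM χ') (ξ ξ' : ℂ) (hξ : 10 ≤ ξ.re)
    (hξ' : 10 ≤ ξ'.re) :
    ‖ef χ' ξ' - ef χ ξ‖ ≤ 2 * ‖Phi χ' ξ' (ef χ ξ) - Phi χ ξ (ef χ ξ)‖ := by
  obtain ⟨h1, h2⟩ := ef_spec χ hχ ξ hξ
  obtain ⟨h1', h2'⟩ := ef_spec χ' hχ' ξ' hξ'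
  have f1 := (Phi_fix χ hχ ξ hξ (ef χ ξ) h1).mp h2
  have f1' := (Phi_fix χ' hχ' ξ' hξ' (ef χ' ξ') h1').mp h2'
  have hl := Phi_lip χ' hχ' ξ' hξ' (ef χ' ξ') (ef χ ξ) h1' h1
  have ht : ‖ef χ' ξ' - ef χ ξ‖ ≤ ‖Phi χ' ξ' (ef χ' ξ') - Phi χ' ξ' (ef χ ξ)‖
      + ‖Phi χ' ξ' (ef χ ξ) - Phi χ ξ (ef χ ξ)‖ := by
    have e : ef χ' ξ' - ef χ ξ = (Phi χ' ξ' (ef χ' ξ') - Phi χ' ξ' (ef χ ξ))
        + (Phi χ' ξ' (ef χ ξ) - Phi χ ξ (ef χ ξ)) := by
      rw [f1', f1]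
      ring
    calc ‖ef χ' ξ' - ef χ ξ‖ = ‖(Phi χ' ξ' (ef χ' ξ') - Phi χ' ξ' (ef χ ξ))
        + (Phi χ' ξ' (ef χ ξ) - Phi χ ξ (ef χ ξ))‖ := by rw [← e]
      _ ≤ _ := norm_add_le _ _
  linarith

private theorem EfCont_two_ne : (2 : ℂ) ≠ 0 := by norm_num

theorem ef_tendsto {ι : Type*} (l : Filter ι) (X : ι → ℕ → ℂ) (χ : ℕ → ℂ) (hX : ∀ j, CM (X j))
    (hχ : CM χ) (h : ∀ n, Tendsto (fun j => X j n) l (𝓝 (χ n))) (ξ : ℂ) (hξ : 10 ≤ ξ.re) :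
    Tendsto (fun j => ef (X j) ξ) l (𝓝 (ef χ ξ)) := by
  have hn : Tendsto (fun j => ‖ef (X j) ξ - ef χ ξ‖) l (𝓝 0) := by
    have hE := (ef_spec χ hχ ξ hξ).1
    have hs : 9 ≤ (ξ + ef χ ξ).re := by
      have h1 := (abs_le.mp ((Complex.abs_re_le_norm (ef χ ξ)).trans hE)).1
      rw [Complex.add_re]
      linarith
    have hZ : Tendsto (fun j => ZZ (X j) (ξ + ef χ ξ)) l (𝓝 (ZZ χ (ξ + ef χ ξ))) := by
      unfold ZZ
      apply tendsto_tsum_of_dominated_convergence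
        (bound := fun n : ℕ => ‖(fun _ => (1 : ℂ)) (n + 2) * ((n + 2 : ℕ) : ℂ) ^ (-(ξ + ef χ ξ))‖)
      · exact (ZZ_summable (fun _ => 1) (fun _ => by simp) (ξ + ef χ ξ) (by linarith)).norm
      · intro n
        exact (h (n + 2)).mul_const _
      · refine Filter.Eventually.of_forall (fun j n => ?_)
        rw [norm_mul, norm_mul, norm_one]
        exact mul_le_mul_of_nonneg_right ((hX j).2.2.2 _) (norm_nonneg _)
    have hP : Tendsto (fun j => Phi (X j) ξ (ef χ ξ)) l (𝓝 (Phi χ ξ (ef χ ξ))) := by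
      unfold Phi
      apply Filter.Tendsto.div_const
      apply Filter.Tendsto.clog
      · exact hZ.const_mul _
      · exact EfCont_slit (Phi_dom χ hχ ξ hξ (ef χ ξ) (by linarith))
    have hP' : Tendsto (fun j => 2 * ‖Phi (X j) ξ (ef χ ξ) - Phi χ ξ (ef χ ξ)‖) l (𝓝 0) := by
      have := ((hP.sub_const (Phi χ ξ (ef χ ξ))).norm).const_mul 2
      rwa [sub_self, norm_zero, mul_zero] at this
    exact squeeze_zero (fun j => norm_nonneg _)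
      (fun j => EfCont_key χ (X j) hχ (hX j) ξ ξ hξ hξ) hP'
  exact tendsto_iff_norm_sub_tendsto_zero.mpr hn

theorem SS_cont : ContinuousOn SS {ξ | 10 ≤ ξ.re} := by
  intro ξ hξ
  have hξ' : 10 ≤ ξ.re := hξ
  have hCM := EfCont_CM1
  unfold SS
  apply ContinuousWithinAt.add continuousWithinAt_id
  have hE := (ef_spec (fun _ => 1) hCM ξ hξ').1
  set E := ef (fun _ => 1) ξ with hEdef
  have hs : 9 ≤ (ξ + E).re := by
    have h1 := (abs_le.mp ((Complex.abs_re_le_norm E).trans hE)).1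
    rw [Complex.add_re]
    linarith
  have hopen : IsOpen {s : ℂ | 1 < s.re} := isOpen_lt continuous_const Complex.continuous_re
  have hZ : ContinuousAt (ZZ (fun _ => 1)) (ξ + E) := by
    have hd : DifferentiableAt ℂ (ZZ (fun _ => 1)) (ξ + E) := by
      apply (ZZ_diff (fun _ => 1) hCM.2.2.2).differentiableAt
      apply hopen.mem_nhds
      show (1 : ℝ) < (ξ + E).re
      linarith
    exact hd.continuousAt
  have hadd : Tendsto (fun x : ℂ => x + E) (𝓝 ξ) (𝓝 (ξ + E)) :=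
    (continuous_id.add continuous_const).tendsto ξ
  have hZ' : Tendsto (fun x : ℂ => ZZ (fun _ => 1) (x + E)) (𝓝 ξ) (𝓝 (ZZ (fun _ => 1) (ξ + E))) :=
    hZ.tendsto.comp hadd
  have hp : Tendsto (fun x : ℂ => (2 : ℂ) ^ (x + E)) (𝓝 ξ) (𝓝 ((2 : ℂ) ^ (ξ + E))) :=
    hadd.const_cpow (Or.inl EfCont_two_ne)
  have hP : Tendsto (fun x : ℂ => Phi (fun _ => 1) x E) (𝓝 ξ) (𝓝 (Phi (fun _ => 1) ξ E)) := by
    unfold Phi
    apply Filter.Tendsto.div_const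
    apply Filter.Tendsto.clog
    · exact hp.mul hZ'
    · exact EfCont_slit (Phi_dom _ hCM ξ hξ' E (by linarith))
  have hP' : Tendsto (fun x => 2 * ‖Phi (fun _ => 1) x E - Phi (fun _ => 1) ξ E‖)
      (𝓝[{ξ : ℂ | 10 ≤ ξ.re}] ξ) (𝓝 0) := by
    have := ((hP.sub_const (Phi (fun _ => 1) ξ E)).norm).const_mul 2
    rw [sub_self, norm_zero, mul_zero] at this
    exact this.mono_left nhdsWithin_le_nhds
  show Tendsto (fun x => ef (fun _ => 1) x) (𝓝[{ξ : ℂ | 10 ≤ ξ.re}] ξ) (𝓝 (ef (fun _ => 1) ξ))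
  apply tendsto_iff_norm_sub_tendsto_zero.mpr
  refine squeeze_zero' (Filter.Eventually.of_forall (fun x => norm_nonneg _)) ?_ hP'
  filter_upwards [self_mem_nhdsWithin] with x hx
  exact EfCont_key (fun _ => 1) (fun _ => 1) hCM hCM ξ x hξ' hx

theorem zeta_SS (ξ : ℂ) (hξ : 10 ≤ ξ.re) : riemannZeta (SS ξ) = 1 + (2 : ℂ) ^ (-ξ) := by
  have hCM := EfCont_CM1
  obtain ⟨h1, h2⟩ := ef_spec (fun _ => 1) hCM ξ hξ
  have hre : 1 < (SS ξ).re := by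
    have h3 := (abs_le.mp ((Complex.abs_re_le_norm (ef (fun _ => 1) ξ)).trans h1)).1
    unfold SS
    rw [Complex.add_re]
    linarith
  rw [zeta_eq (SS ξ) hre]
  unfold SS
  rw [h2]

theorem SS_re (ξ : ℂ) (hξ : 10 ≤ ξ.re) : ‖SS ξ - ξ‖ ≤ 1 / 10 := by
  have h := (ef_spec (fun _ => 1) EfCont_CM1 ξ hξ).1
  unfold SS
  rwa [add_sub_cancel_left]

theorem SS_EE (ξ : ℂ) (hξ : 10 ≤ ξ.re) : SS ξ ∈ EE := by
  apply tract_EE
  have h := (ef_spec (fun _ => 1) EfCont_CM1 ξ hξ).1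
  have h3 := (abs_le.mp ((Complex.abs_re_le_norm (ef (fun _ => 1) ξ)).trans h)).1
  unfold SS
  rw [Complex.add_re]
  linarith

theorem tract_param (w : ℂ) (hw : 11 ≤ w.re) :
    ∃ ξ : ℂ, 10 ≤ ξ.re ∧ SS ξ = w ∧ riemannZeta w = 1 + (2 : ℂ) ^ (-ξ) := by
  have hCM := EfCont_CM1
  have hl := Real.log_two_gt_d9
  have hl0 : ((Real.log 2 : ℝ) : ℂ) ≠ 0 := Complex.ofReal_ne_zero.mpr (by linarith)
  have hd : ‖(2 : ℂ) ^ w * ZZ (fun _ => 1) w - 1‖ ≤ 1 / 30 := by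
    have := Phi_dom (fun _ => 1) hCM w (by linarith) 0 (by simp)
    rwa [add_zero] at this
  have hz0 : (2 : ℂ) ^ w * ZZ (fun _ => 1) w ≠ 0 := Complex.slitPlane_ne_zero (EfCont_slit hd)
  set L : ℂ := Complex.log ((2 : ℂ) ^ w * ZZ (fun _ => 1) w) / Real.log 2 with hL
  have hLs : ‖L‖ ≤ 1 / 10 := by
    have := Phi_small (fun _ => 1) hCM w (by linarith) 0 (by simp)
    unfold Phi at this
    rwa [add_zero] at this
  have hξ : 10 ≤ (w - L).re := by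
    have h3 := (abs_le.mp ((Complex.abs_re_le_norm L).trans hLs)).2
    rw [Complex.sub_re]
    linarith
  have hL2 : (2 : ℂ) ^ L = (2 : ℂ) ^ w * ZZ (fun _ => 1) w := by
    rw [Complex.cpow_def_of_ne_zero EfCont_two_ne]
    have e : Complex.log 2 = ((Real.log 2 : ℝ) : ℂ) := by
      rw [Complex.ofReal_log (by norm_num)]
      simp
    rw [e, hL, mul_div_cancel₀ _ hl0, Complex.exp_log hz0]
  have hpow : (2 : ℂ) ^ (-(w - L)) = ZZ (fun _ => 1) w := by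
    have e1 : -(w - L) = -w + L := by ring
    rw [e1, Complex.cpow_add _ _ EfCont_two_ne, hL2, ← mul_assoc,
      ← Complex.cpow_add _ _ EfCont_two_ne, neg_add_cancel, Complex.cpow_zero, one_mul]
  have hu : L = ef (fun _ => 1) (w - L) := by
    apply ef_unique (fun _ => 1) hCM (w - L) hξ L hLs
    rw [hpow, sub_add_cancel]
  refine ⟨w - L, hξ, ?_, ?_⟩
  · unfold SS
    rw [← hu, sub_add_cancel]
  · rw [hpow, zeta_eq w (by linarith)]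

theorem tract_low (w : ℂ) (hw : 9 ≤ w.re) :
    (2 : ℝ) ^ (-w.re) * (29 / 30) ≤ ‖riemannZeta w - 1‖ ∧
      ‖riemannZeta w - 1‖ ≤ (2 : ℝ) ^ (-w.re) * (31 / 30) := by
  have hm := ZZ_main (fun _ => 1) (fun _ => by simp) rfl w hw
  have e : riemannZeta w - 1 = ZZ (fun _ => 1) w := by
    rw [zeta_eq w (by linarith)]
    ring
  rw [e]
  have h2 : ‖(2 : ℂ) ^ (-w)‖ = (2 : ℝ) ^ (-w.re) := by
    rw [EfCont_norm_two, Complex.neg_re]
  have h3 : ‖(2 : ℂ) ^ (-w)‖ ≤ ‖ZZ (fun _ => 1) w - (2 : ℂ) ^ (-w)‖ + ‖ZZ (fun _ => 1) w‖ := by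
    have := norm_sub_le (ZZ (fun _ => 1) w) (ZZ (fun _ => 1) w - (2 : ℂ) ^ (-w))
    rw [sub_sub_cancel] at this
    linarith
  have h4 : ‖ZZ (fun _ => 1) w‖ ≤ ‖ZZ (fun _ => 1) w - (2 : ℂ) ^ (-w)‖ + ‖(2 : ℂ) ^ (-w)‖ := by
    have := norm_add_le (ZZ (fun _ => 1) w - (2 : ℂ) ^ (-w)) ((2 : ℂ) ^ (-w))
    rwa [sub_add_cancel] at this
  rw [h2] at h3 h4
  constructor
  · linarith
  · linarith

/-- zeta is injective on the parts of width one of the half plane `Re ≥ 11` -/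
theorem tract_inj (w w' : ℂ) (hw : 11 ≤ w.re) (hw' : 11 ≤ w'.re) (him : |w.im - w'.im| ≤ 2)
    (h : riemannZeta w = riemannZeta w') : w = w' := by
  obtain ⟨ξ, h1, h2, h3⟩ := tract_param w hw
  obtain ⟨ξ', h1', h2', h3'⟩ := tract_param w' hw'
  have hp : (2 : ℂ) ^ (-ξ) = (2 : ℂ) ^ (-ξ') := by
    have := h
    rw [h3, h3'] at this
    exact add_left_cancel this
  have e : Complex.log 2 = ((Real.log 2 : ℝ) : ℂ) := by
    rw [Complex.ofReal_log (by norm_num)]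
    simp
  rw [Complex.cpow_def_of_ne_zero EfCont_two_ne, Complex.cpow_def_of_ne_zero EfCont_two_ne,
    Complex.exp_eq_exp_iff_exists_int] at hp
  obtain ⟨n, hn⟩ := hp
  rw [e] at hn
  have hl := Real.log_two_gt_d9
  have hl' := Real.log_two_lt_d9
  have hpi := Real.pi_gt_three
  have hn2 : (ξ' - ξ) * ((Real.log 2 : ℝ) : ℂ) = (((n : ℝ) * (2 * Real.pi) : ℝ) : ℂ) * I := by
    push_cast
    linear_combination hn
  have hre := congrArg Complex.re hn2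
  have him2 := congrArg Complex.im hn2
  rw [Complex.re_mul_ofReal, Complex.re_ofReal_mul, Complex.I_re, mul_zero, Complex.sub_re] at hre
  rw [Complex.im_mul_ofReal, Complex.im_ofReal_mul, Complex.I_im, mul_one, Complex.sub_im] at him2
  have hS := SS_re ξ h1
  have hS' := SS_re ξ' h1'
  rw [h2] at hS
  rw [h2'] at hS'
  have hi := (Complex.abs_im_le_norm (w - ξ)).trans hS
  have hi' := (Complex.abs_im_le_norm (w' - ξ')).trans hS'
  rw [Complex.sub_im] at hi hi'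
  have hb2 : |ξ'.im - ξ.im| ≤ 2.2 := by
    rw [abs_le] at hi hi' him ⊢
    constructor
    · linarith [hi.1, hi.2, hi'.1, hi'.2, him.1, him.2]
    · linarith [hi.1, hi.2, hi'.1, hi'.2, him.1, him.2]
  have hb : |(ξ'.im - ξ.im) * Real.log 2| ≤ 2.2 * 0.7 := by
    rw [abs_mul, abs_of_pos (by linarith : (0 : ℝ) < Real.log 2)]
    exact mul_le_mul hb2 (by linarith) (by linarith) (by norm_num)
  rw [him2, abs_mul, abs_of_pos (by linarith : (0 : ℝ) < 2 * Real.pi)] at hb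
  have hn0 : n = 0 := by
    by_contra hne
    have h5 : (1 : ℝ) ≤ |(n : ℝ)| := by
      have : (1 : ℤ) ≤ |n| := Int.one_le_abs hne
      exact_mod_cast this
    have h6 : 1 * (2 * Real.pi) ≤ |(n : ℝ)| * (2 * Real.pi) :=
      mul_le_mul_of_nonneg_right h5 (by linarith)
    linarith
  rw [hn0, Int.cast_zero, zero_mul] at him2
  have hlpos : Real.log 2 ≠ 0 := by linarith
  have h7 : ξ = ξ' := by
    apply Complex.ext
    · have := (mul_eq_zero.mp hre).resolve_right hlpos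
      linarith
    · have := (mul_eq_zero.mp him2).resolve_right hlpos
      linarith
  rw [← h2, ← h2', h7]

end Pool.Agent.Lib.MP_ec260d_ntA
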