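import Mathlib
import Pool.Agent.Lib.MP_ec260d_ntA.Defs
import Pool.Agent.Lib.MP_ec260d_ntA.GamB

/-!
# JOB LeftLB: zeta is large in the left half plane (about 250 lines)

`w = 1 - s`, `x = Re s ≥ 2`, `t = Im s`, `riemannZeta_one_sub`: `ζ (1 - s) = 2 (2π)^(-s) Γ(s) cos (π s / 2) ζ(s)` (`s ≠ -n`, `s ≠ 1`), `‖(2π)^(-s)‖ = (2π)^(-x)`.  `‖ζ s‖ ≥ 1/4` for `x ≥ 2`: `‖ζ s - 1‖ ≤ ∑_{n≥2} n^(-2) = π²/6 - 1 < 3/4` (compare `localCount_low` in `MP_ec260d_nt/LocalCount.lean`).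
`‖cos (a + i b)‖² = cos² a + sinh² b`.
`left_lb1`: `|t| ≥ 1`: `‖cos (π s/2)‖ ≥ sinh (π |t| / 2) ≥ e^(π|t|/2) / 4`.  Let `N = ⌊x⌋ - 1 ≥ 1`, `z = s - N`, `1 ≤ Re z < 2`; `Γ(s) = (s - 1)(s - 2)...(s - N) Γ(z)` (`Complex.Gamma_add_one` `N` times), and `‖Γ z‖ ≥ c |t|^(1/2) e^(-π|t|/2)` (`gam_bounds`, `|t| ≥ 1`).  So
`‖ζ w‖ ≥ c' (2π)^(-x) |t|^(1/2) ∏_{j=1}^N ‖s - j‖`.  `‖s - j‖ ≥ |t| ≥ 1`, and `‖s - j‖ ≥ x - j ≥ N + 1 - j`, so the product is at least `N!` and at least `1`.  `(2π)^(-x) N! ≥ (2π)^(-(N+2)) N! → ∞` as `N → ∞` (`FloorSemiring.tendsto_pow_div_factorial_atTop`): choose `N0` such that the bound is `≥ 3` for `N ≥ N0`;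
for `N < N0`: `x ≤ N0 + 2`, bound `c' (2π)^(-(N0+2)) |t|^(1/2) ≥ 3` for `|t| ≥ t0`.  `R0 = N0 + t0 + 10` works: if `‖w‖ ≥ R0` then `|t| ≥ t0` or `x ≥ N0 + 2`.
`left_lb2`: `w = 1 - 2k + i t`, `s = 2k - i t`: `cos (π s / 2) = ± cosh (π t / 2)`, modulus `≥ 1`.  `‖Γ s‖ = ∏_{j=1}^{2k-1} ‖s - j‖ ‖Γ (1 - i t)‖ ≥ (2k-1)! m`, `m = min_{|t| ≤ 1} ‖Γ(1 - i t)‖ > 0` (compactness).  `(2π)^(-2k) (2k-1)! → ∞`.
-/

namespace Pool.Agent.Lib.MP_ec260d_ntA

open Complex Set Filter Topology Metric MeasureTheory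

private theorem leftLB_zeta_low (s : ℂ) (hs : 2 ≤ s.re) : 1 / 4 ≤ ‖riemannZeta s‖ := by
  have hz := zeta_eq_tsum_one_div_nat_add_one_cpow (s := s) (by linarith)
  have hn : ∀ n : ℕ, ‖1 / ((n : ℂ) + 1) ^ s‖ ≤ 1 / (((n + 1 : ℕ) : ℝ)) ^ 2 := by
    intro n
    have e : ((n : ℂ) + 1) = (((n + 1 : ℕ) : ℝ) : ℂ) := by push_cast; ring
    rw [norm_div, norm_one, e, Complex.norm_cpow_eq_rpow_re_of_pos (by positivity)]
    apply one_div_le_one_div_of_le (by positivity)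
    rw [← Real.rpow_two]
    exact Real.rpow_le_rpow_of_exponent_le (by push_cast; linarith [Nat.cast_nonneg (α := ℝ) n]) hs
  have hs2 := hasSum_zeta_two
  have hsh : HasSum (fun n : ℕ => 1 / (((n + 1 : ℕ) : ℝ)) ^ 2) (Real.pi ^ 2 / 6) := by
    have := (hasSum_nat_add_iff' (f := fun n : ℕ => 1 / ((n : ℕ) : ℝ) ^ 2) 1).2 hs2
    simpa using this
  have hsh2 : HasSum (fun n : ℕ => 1 / (((n + 1 + 1 : ℕ) : ℝ)) ^ 2) (Real.pi ^ 2 / 6 - 1) := by
    have := (hasSum_nat_add_iff' (f := fun n : ℕ => 1 / (((n + 1 : ℕ) : ℝ)) ^ 2) 1).2 hsh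
    simpa using this
  have hsum : Summable (fun n : ℕ => 1 / ((n : ℂ) + 1) ^ s) :=
    Summable.of_norm_bounded hsh.summable hn
  rw [hsum.tsum_eq_zero_add] at hz
  have h0 : 1 / (((0 : ℕ) : ℂ) + 1) ^ s = 1 := by simp
  rw [h0] at hz
  have htail : ‖∑' n : ℕ, 1 / (((n + 1 : ℕ) : ℂ) + 1) ^ s‖ ≤ Real.pi ^ 2 / 6 - 1 :=
    tsum_of_norm_bounded hsh2 (fun n => hn (n + 1))
  have hpi : Real.pi ^ 2 ≤ 10 := by
    have := Real.pi_lt_d2
    nlinarith [Real.pi_pos]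
  rw [hz]
  have h3 := norm_sub_le (1 + ∑' n : ℕ, 1 / (((n + 1 : ℕ) : ℂ) + 1) ^ s)
    (∑' n : ℕ, 1 / (((n + 1 : ℕ) : ℂ) + 1) ^ s)
  rw [add_sub_cancel_right, norm_one] at h3
  linarith

private theorem leftLB_gam (z : ℂ) (hz : 1 ≤ z.re) (N : ℕ) :
    (N.factorial : ℝ) * ‖Complex.Gamma z‖ ≤ ‖Complex.Gamma (z + N)‖ := by
  induction N with
  | zero => simp
  | succ N ih =>
    have hre : (z + (N : ℂ)).re = z.re + N := by simp
    have hN : (0 : ℝ) ≤ N := Nat.cast_nonneg N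
    have hne : z + (N : ℂ) ≠ 0 := by
      intro h
      have := congrArg Complex.re h
      rw [hre] at this
      simp at this
      linarith
    have e : z + ((N + 1 : ℕ) : ℂ) = (z + N) + 1 := by push_cast; ring
    rw [e, Complex.Gamma_add_one _ hne, norm_mul, Nat.factorial_succ]
    push_cast
    have h1 : (N : ℝ) + 1 ≤ ‖z + (N : ℂ)‖ := by
      have := Complex.re_le_norm (z + (N : ℂ))
      rw [hre] at this
      linarith
    have h2 : 0 ≤ (N.factorial : ℝ) * ‖Complex.Gamma z‖ := by positivity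
    calc ((N : ℝ) + 1) * (N.factorial : ℝ) * ‖Complex.Gamma z‖
        = ((N : ℝ) + 1) * ((N.factorial : ℝ) * ‖Complex.Gamma z‖) := by ring
      _ ≤ ‖z + (N : ℂ)‖ * ‖Complex.Gamma (z + N)‖ :=
          mul_le_mul h1 ih h2 (norm_nonneg _)

private theorem leftLB_cos (w : ℂ) : Real.sinh |w.im| ≤ ‖Complex.cos w‖ := by
  have hc : Complex.cos w = (Complex.exp (w * I) + Complex.exp (-w * I)) / 2 := rfl
  have e1 : ‖Complex.exp (w * I)‖ = Real.exp (-w.im) := by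
    rw [Complex.norm_exp]; simp
  have e2 : ‖Complex.exp (-w * I)‖ = Real.exp w.im := by
    rw [Complex.norm_exp]; simp
  have h2 : ‖(2 : ℂ)‖ = 2 := by simp
  rw [hc, norm_div, h2, Real.sinh_eq]
  rcases le_total 0 w.im with h | h
  · rw [abs_of_nonneg h]
    have h3 := norm_sub_le (Complex.exp (w * I) + Complex.exp (-w * I)) (Complex.exp (w * I))
    rw [add_sub_cancel_left, e1, e2] at h3
    linarith
  · rw [abs_of_nonpos h, neg_neg]
    have h3 := norm_sub_le (Complex.exp (w * I) + Complex.exp (-w * I)) (Complex.exp (-w * I))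
    rw [add_sub_cancel_right, e1, e2] at h3
    linarith

/-- the functional equation in absolute value, with the trivial bounds -/
private theorem leftLB_fe (s : ℂ) (hs : 2 ≤ s.re) (g c : ℝ) (_ : 0 ≤ g) (hc0 : 0 ≤ c)
    (hg : g ≤ ‖Complex.Gamma s‖) (hc : c ≤ ‖Complex.cos (Real.pi * s / 2)‖) :
    (2 * Real.pi) ^ (-s.re) * g * c / 2 ≤ ‖riemannZeta (1 - s)‖ := by
  have hn : ∀ n : ℕ, s ≠ -n := by
    intro n h
    have := congrArg Complex.re h
    simp at this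
    have h2 : (0 : ℝ) ≤ n := Nat.cast_nonneg n
    linarith
  have h1 : s ≠ 1 := by
    intro h
    rw [h] at hs
    norm_num at hs
  rw [riemannZeta_one_sub hn h1, norm_mul, norm_mul, norm_mul, norm_mul]
  have e2 : ‖(2 : ℂ)‖ = 2 := by simp
  have e3 : ‖(2 * (Real.pi : ℂ)) ^ (-s)‖ = (2 * Real.pi) ^ (-s.re) := by
    have : (2 * (Real.pi : ℂ)) = ((2 * Real.pi : ℝ) : ℂ) := by push_cast; ring
    rw [this, Complex.norm_cpow_eq_rpow_re_of_pos (by positivity)]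
    simp
  rw [e2, e3]
  have hp : 0 < (2 * Real.pi) ^ (-s.re) := by positivity
  have hz := leftLB_zeta_low s hs
  have h5 : g * c ≤ ‖Complex.Gamma s‖ * ‖Complex.cos (Real.pi * s / 2)‖ :=
    mul_le_mul hg hc hc0 (norm_nonneg _)
  have h6 : g * c * (1 / 4) ≤
      ‖Complex.Gamma s‖ * ‖Complex.cos (Real.pi * s / 2)‖ * ‖riemannZeta s‖ :=
    mul_le_mul h5 hz (by norm_num) (by positivity)
  calc (2 * Real.pi) ^ (-s.re) * g * c / 2
      = 2 * (2 * Real.pi) ^ (-s.re) * (g * c * (1 / 4)) := by ring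
    _ ≤ 2 * (2 * Real.pi) ^ (-s.re) *
        (‖Complex.Gamma s‖ * ‖Complex.cos (Real.pi * s / 2)‖ * ‖riemannZeta s‖) :=
        mul_le_mul_of_nonneg_left h6 (by positivity)
    _ = 2 * (2 * Real.pi) ^ (-s.re) * ‖Complex.Gamma s‖ * ‖Complex.cos (Real.pi * s / 2)‖ *
        ‖riemannZeta s‖ := by ring

private theorem leftLB_fact (K : ℝ) : ∃ N0 : ℕ, ∀ N : ℕ, N0 ≤ N →
    K * (2 * Real.pi) ^ N ≤ (N.factorial : ℝ) := by
  have h := FloorSemiring.tendsto_pow_div_factorial_atTop (2 * Real.pi)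
  have hK : 0 < 1 / (|K| + 1) := by positivity
  have h2 := (h.eventually (gt_mem_nhds hK))
  obtain ⟨N0, hN0⟩ := Filter.eventually_atTop.1 h2
  refine ⟨N0, fun N hN => ?_⟩
  have h3 := hN0 N hN
  have hf : (0 : ℝ) < N.factorial := by exact_mod_cast Nat.factorial_pos N
  rw [div_lt_div_iff₀ hf (by positivity), one_mul] at h3
  have hp : 0 < (2 * Real.pi) ^ N := by positivity
  have h4 : K ≤ |K| + 1 := by linarith [le_abs_self K]
  nlinarith

theorem left_lb1 : ∃ R0 : ℝ, ∀ w : ℂ, w.re ≤ -1 → 1 ≤ |w.im| → R0 ≤ ‖w‖ → 3 ≤ ‖riemannZeta w‖ := by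
  obtain ⟨c, C, hc, hC, hgam⟩ := gam_bounds
  have hpi := Real.pi_gt_three
  have h2pi : 1 ≤ 2 * Real.pi := by linarith
  -- the constant
  obtain ⟨A, hA, hAdef⟩ : ∃ A : ℝ, 0 < A ∧ A = c / 8 / (2 * Real.pi) ^ 2 :=
    ⟨c / 8 / (2 * Real.pi) ^ 2, by positivity, rfl⟩
  obtain ⟨N0, hN0⟩ := leftLB_fact (3 / A)
  obtain ⟨T, hT⟩ : ∃ T : ℝ, T = 3 * (2 * Real.pi) ^ N0 / A := ⟨_, rfl⟩
  have hT0 : 0 < T := by rw [hT]; positivity
  refine ⟨N0 + T ^ 2 + 10, fun w hw1 hw2 hw3 => ?_⟩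
  -- the point s
  obtain ⟨s, hs⟩ : ∃ s : ℂ, s = 1 - w := ⟨_, rfl⟩
  have hws : w = 1 - s := by rw [hs]; ring
  have hsre : s.re = 1 - w.re := by rw [hs]; simp
  have hsim : s.im = -w.im := by rw [hs]; simp
  have hx : 2 ≤ s.re := by rw [hsre]; linarith
  have ht : 1 ≤ |s.im| := by rw [hsim, abs_neg]; exact hw2
  obtain ⟨M, hM⟩ : ∃ M : ℕ, M = ⌊s.re⌋₊ := ⟨_, rfl⟩
  have hM1 : (M : ℝ) ≤ s.re := by rw [hM]; exact Nat.floor_le (by linarith)
  have hM2 : s.re < M + 1 := by rw [hM]; exact Nat.lt_floor_add_one _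
  have hM3 : 2 ≤ M := by rw [hM]; exact Nat.le_floor (by exact_mod_cast hx)
  obtain ⟨N, hN⟩ : ∃ N : ℕ, M = N + 1 := ⟨M - 1, by omega⟩
  have hMN : (M : ℝ) = N + 1 := by rw [hN]; push_cast; ring
  -- the point z
  obtain ⟨z, hz⟩ : ∃ z : ℂ, z = s - N := ⟨_, rfl⟩
  have hzre : z.re = s.re - N := by rw [hz]; simp
  have hzim : z.im = s.im := by rw [hz]; simp
  have hzs : z + N = s := by rw [hz]; ring
  have hz1 : 1 ≤ z.re := by rw [hzre]; linarith
  have hz2 : z.re ≤ 2 := by rw [hzre]; linarith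
  have hg := (hgam z (by linarith) (by linarith) (by rw [hzim]; exact ht)).1
  rw [hzim] at hg
  have hg2 : c * |s.im| ^ (1 / 2 : ℝ) * Real.exp (-(Real.pi * |s.im| / 2)) ≤ ‖Complex.Gamma z‖ := by
    refine le_trans ?_ hg
    have : |s.im| ^ (1 / 2 : ℝ) ≤ |s.im| ^ (z.re - 1 / 2) :=
      Real.rpow_le_rpow_of_exponent_le ht (by linarith)
    have h7 : c * |s.im| ^ (1 / 2 : ℝ) ≤ c * |s.im| ^ (z.re - 1 / 2) :=
      mul_le_mul_of_nonneg_left this hc.le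
    exact mul_le_mul_of_nonneg_right h7 (Real.exp_pos _).le
  have hg3 := leftLB_gam z hz1 N
  rw [hzs] at hg3
  have hg4 : (N.factorial : ℝ) *
      (c * |s.im| ^ (1 / 2 : ℝ) * Real.exp (-(Real.pi * |s.im| / 2))) ≤ ‖Complex.Gamma s‖ :=
    le_trans (mul_le_mul_of_nonneg_left hg2 (by positivity)) hg3
  have hc1 : Real.exp (Real.pi * |s.im| / 2) / 4 ≤ ‖Complex.cos (Real.pi * s / 2)‖ := by
    refine le_trans ?_ (leftLB_cos _)
    have him : (Real.pi * s / 2 : ℂ).im = Real.pi * s.im / 2 := by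
      have : (Real.pi * s / 2 : ℂ) = ((Real.pi / 2 : ℝ) : ℂ) * s := by push_cast; ring
      rw [this, Complex.im_ofReal_mul]
      ring
    have him2 : |(Real.pi * s / 2 : ℂ).im| = Real.pi * |s.im| / 2 := by
      rw [him, abs_div, abs_mul, abs_of_pos Real.pi_pos, abs_of_pos (by norm_num : (0 : ℝ) < 2)]
    rw [him2, Real.sinh_eq]
    obtain ⟨y, hy⟩ : ∃ y : ℝ, y = Real.pi * |s.im| / 2 := ⟨_, rfl⟩
    rw [← hy]
    have hy1 : 1 ≤ y := by rw [hy]; nlinarith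
    have h8 : 2 ≤ Real.exp y := by linarith [Real.add_one_le_exp y]
    have h9 : Real.exp (-y) ≤ 1 := by
      rw [Real.exp_le_one_iff]; linarith
    linarith
  have hfe := leftLB_fe s hx _ _ (by positivity) (by positivity) hg4 hc1
  rw [← hws] at hfe
  have hee : Real.exp (-(Real.pi * |s.im| / 2)) * Real.exp (Real.pi * |s.im| / 2) = 1 := by
    rw [← Real.exp_add]; simp
  have hpow : ((2 * Real.pi) ^ (N + 2))⁻¹ ≤ (2 * Real.pi) ^ (-s.re) := by
    rw [Real.rpow_neg (by positivity)]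
    apply inv_anti₀ (by positivity)
    rw [← Real.rpow_natCast]
    apply Real.rpow_le_rpow_of_exponent_le h2pi
    push_cast
    linarith
  have hkey : A * ((N.factorial : ℝ) / (2 * Real.pi) ^ N) * |s.im| ^ (1 / 2 : ℝ) ≤
      ‖riemannZeta w‖ := by
    refine le_trans ?_ hfe
    have e1 : (2 * Real.pi) ^ (-s.re) * ((N.factorial : ℝ) *
        (c * |s.im| ^ (1 / 2 : ℝ) * Real.exp (-(Real.pi * |s.im| / 2)))) *
        (Real.exp (Real.pi * |s.im| / 2) / 4) / 2 =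
        (2 * Real.pi) ^ (-s.re) * ((N.factorial : ℝ) * (c / 8) * |s.im| ^ (1 / 2 : ℝ)) *
        (Real.exp (-(Real.pi * |s.im| / 2)) * Real.exp (Real.pi * |s.im| / 2)) := by ring
    rw [e1, hee, mul_one]
    have e2 : A * ((N.factorial : ℝ) / (2 * Real.pi) ^ N) * |s.im| ^ (1 / 2 : ℝ) =
        ((2 * Real.pi) ^ (N + 2))⁻¹ * ((N.factorial : ℝ) * (c / 8) * |s.im| ^ (1 / 2 : ℝ)) := by
      rw [hAdef]
      have : (2 * Real.pi) ^ N ≠ 0 := by positivity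
      rw [pow_add]
      field_simp
    rw [e2]
    exact mul_le_mul_of_nonneg_right hpow (by positivity)
  refine le_trans ?_ hkey
  have ht2 : 1 ≤ |s.im| ^ (1 / 2 : ℝ) := Real.one_le_rpow ht (by norm_num)
  have hpN : 0 < (2 * Real.pi) ^ N := by positivity
  rcases le_or_gt N0 N with hcase | hcase
  · have h1 := hN0 N hcase
    have h2 : 3 ≤ A * ((N.factorial : ℝ) / (2 * Real.pi) ^ N) := by
      have h3 : 3 / A ≤ (N.factorial : ℝ) / (2 * Real.pi) ^ N := by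
        rw [le_div_iff₀ hpN]; exact h1
      calc (3 : ℝ) = A * (3 / A) := by field_simp
        _ ≤ _ := mul_le_mul_of_nonneg_left h3 hA.le
    nlinarith
  · -- now |t| is large
    have hb : T ^ 2 ≤ |s.im| := by
      have h1 := Complex.norm_le_abs_re_add_abs_im w
      have h2 : |w.re| = s.re - 1 := by
        rw [abs_of_nonpos (by linarith), hsre]; ring
      have h3 : |w.im| = |s.im| := by rw [hsim, abs_neg]
      have h4 : (N : ℝ) + 1 ≤ N0 := by exact_mod_cast hcase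
      rw [h2, h3] at h1
      linarith
    have hb2 : T ≤ |s.im| ^ (1 / 2 : ℝ) := by
      rw [← Real.sqrt_eq_rpow]
      exact Real.le_sqrt_of_sq_le hb
    have h1 : 1 / (2 * Real.pi) ^ N0 ≤ (N.factorial : ℝ) / (2 * Real.pi) ^ N := by
      apply div_le_div₀ (by positivity) _ hpN
      · exact pow_le_pow_right₀ h2pi hcase.le
      · exact_mod_cast Nat.factorial_pos N
    calc (3 : ℝ) = A * (1 / (2 * Real.pi) ^ N0) * T := by
          rw [hT]
          have : (2 * Real.pi) ^ N0 ≠ 0 := by positivity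
          field_simp
      _ ≤ A * ((N.factorial : ℝ) / (2 * Real.pi) ^ N) * |s.im| ^ (1 / 2 : ℝ) := by
          apply mul_le_mul _ hb2 hT0.le (by positivity)
          exact mul_le_mul_of_nonneg_left h1 hA.le

theorem left_lb2 : ∃ k0 : ℕ, ∀ k : ℕ, k0 ≤ k → ∀ t : ℝ, |t| ≤ 1 →
    3 ≤ ‖riemannZeta (1 - 2 * k + t * I)‖ := by
  -- lower bound for Gamma on the segment
  obtain ⟨m, hm, hmin⟩ : ∃ m : ℝ, 0 < m ∧ ∀ t : ℝ, |t| ≤ 1 → m ≤ ‖Complex.Gamma (1 - t * I)‖ := by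
    have hcont : ContinuousOn (fun t : ℝ => ‖Complex.Gamma (1 - t * I)‖) (Icc (-1) 1) := by
      apply ContinuousOn.norm
      intro t _
      have hd : ContinuousAt Complex.Gamma (1 - (t : ℂ) * I) := by
        apply (Complex.differentiableAt_Gamma _ _).continuousAt
        intro n h
        have := congrArg Complex.re h
        simp at this
        have h2 : (0 : ℝ) ≤ n := Nat.cast_nonneg n
        linarith
      have hc : ContinuousAt (fun t : ℝ => (1 - (t : ℂ) * I)) t := by fun_prop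
      exact (ContinuousAt.comp (f := fun t : ℝ => (1 - (t : ℂ) * I)) hd hc).continuousWithinAt
    obtain ⟨t0, _, ht0⟩ := isCompact_Icc.exists_isMinOn (nonempty_Icc.2 (by norm_num)) hcont
    refine ⟨‖Complex.Gamma (1 - t0 * I)‖, ?_, fun t ht => ?_⟩
    · rw [norm_pos_iff]
      apply Complex.Gamma_ne_zero_of_re_pos
      simp
    · exact ht0 (abs_le.1 ht)
  have hpi := Real.pi_gt_three
  obtain ⟨N0, hN0⟩ := leftLB_fact (12 * Real.pi / m)
  refine ⟨N0 + 1, fun k hk t ht => ?_⟩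
  obtain ⟨N, hN⟩ : ∃ N : ℕ, 2 * k = N + 1 := ⟨2 * k - 1, by omega⟩
  have hNN : N0 ≤ N := by omega
  have hkc : 2 * (k : ℂ) = N + 1 := by exact_mod_cast hN
  have hkr : 2 * (k : ℝ) = N + 1 := by exact_mod_cast hN
  obtain ⟨s, hs⟩ : ∃ s : ℂ, s = 2 * k - t * I := ⟨_, rfl⟩
  have hw : (1 - 2 * k + t * I : ℂ) = 1 - s := by rw [hs]; ring
  have hsre : s.re = 2 * k := by rw [hs]; simp
  have hk1 : (1 : ℝ) ≤ k := by exact_mod_cast (by omega : 1 ≤ k)
  have hx : 2 ≤ s.re := by rw [hsre]; linarith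
  have hg : (N.factorial : ℝ) * m ≤ ‖Complex.Gamma s‖ := by
    have h1 := leftLB_gam (1 - t * I) (by simp) N
    have h2 : (1 - t * I + N : ℂ) = s := by rw [hs, hkc]; ring
    rw [h2] at h1
    exact le_trans (mul_le_mul_of_nonneg_left (hmin t ht) (by positivity)) h1
  have hc : (1 : ℝ) ≤ ‖Complex.cos (Real.pi * s / 2)‖ := by
    have e : (Real.pi * s / 2 : ℂ) = k * Real.pi - ((Real.pi * t / 2 : ℝ) : ℂ) * I := by
      rw [hs]; push_cast; ring
    have hck : Complex.cos ((k : ℂ) * Real.pi) = (-1) ^ k := by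
      have := Real.cos_nat_mul_pi k
      have h2 := congrArg (fun x : ℝ => (x : ℂ)) this
      simpa using h2
    have hsk : Complex.sin ((k : ℂ) * Real.pi) = 0 := Complex.sin_nat_mul_pi k
    rw [e, Complex.cos_sub, hck, hsk, zero_mul, add_zero, norm_mul, Complex.cos_mul_I,
      ← Complex.ofReal_cosh, Complex.norm_real, Real.norm_eq_abs]
    have h1 : ‖((-1 : ℂ)) ^ k‖ = 1 := by simp
    rw [h1, one_mul]
    exact le_trans (Real.one_le_cosh _) (le_abs_self _)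
  have hfe := leftLB_fe s hx _ _ (by positivity) (by norm_num) hg hc
  rw [hw]
  refine le_trans ?_ hfe
  have e1 : (2 * Real.pi) ^ (-s.re) = ((2 * Real.pi) ^ (N + 1))⁻¹ := by
    rw [Real.rpow_neg (by positivity), hsre, hkr]
    congr 1
    rw [← Real.rpow_natCast]
    push_cast
    rfl
  rw [e1, mul_one]
  have h1 := hN0 N hNN
  have hpN : 0 < (2 * Real.pi) ^ N := by positivity
  rw [div_mul_eq_mul_div, div_le_iff₀ hm] at h1
  have h2 : ((2 * Real.pi) ^ (N + 1))⁻¹ * ((N.factorial : ℝ) * m) / 2 =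
      ((N.factorial : ℝ) * m) / ((2 * Real.pi) ^ N * (4 * Real.pi)) := by
    rw [pow_succ]
    field_simp
    ring
  rw [h2, le_div_iff₀ (by positivity)]
  linarith

end Pool.Agent.Lib.MP_ec260d_ntA
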