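import Mathlib
import Pool.Agent.Lib.MP_ec260d_ntA.Defs
import Pool.Agent.Lib.MP_ec260d_ntA.LeftLB
import Pool.Agent.Lib.MP_ec260d_ntA.EfCont

/-!
# JOB Alt: a path to infinity on which zeta tends to one (about 200 lines)

For large `x` (say `x ≥ x0`): `‖ζ (w x) - 1‖ < 2^(-12) (29/30)` and `‖w x‖ ≥ R`, `R = R0 + 2 k0 + 10` (`left_lb1`, `left_lb2`).
(1) `w x` is never in `11 ≤ Re ≤ 12` (`tract_low`).  So, by the intermediate value theorem on `[x0, ∞)`, either `Re (w x) > 12` for all `x ≥ x0`, or `Re (w x) < 11` for all `x ≥ x0`.  In the first case we are done.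
(2) Second case.  `‖ζ (w x)‖ < 2 < 3`, so `w x` is not in `{Re ≤ -1, |Im| ≥ 1}` (`left_lb1`).  If `Re (w x) ≤ -1` then `|Im| < 1` and `‖w x‖ ≥ R`, so `Re (w x) ≤ -(R - 1)`.  So `Re (w x) > -1` or `Re (w x) ≤ -(R-1) < -1`: by the intermediate value theorem one of the two holds for all `x ≥ x0` (`Re (w x)` is continuous and never in `(-(R-1), -1]`).
(3) If `Re (w x) ≤ -(R-1)` for all `x ≥ x0`: `|Im| < 1`, `‖w x‖ → ∞`, so `Re (w x) → -∞`, and it takes the value `1 - 2k` for some `k ≥ k0` (intermediate value theorem); there `‖ζ (w x)‖ ≥ 3` by `left_lb2`, contradiction.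
(4) So `-1 < Re (w x) < 11` for `x ≥ x0`; as `‖w x‖ → ∞`, `|Im (w x)| → ∞`.
-/

namespace Pool.Agent.Lib.MP_ec260d_ntA

open Complex Set Filter Topology Metric MeasureTheory

private theorem alt_dich (u : ℝ → ℝ) (x0 c : ℝ) (hu : ContinuousOn u (Ici x0))
    (h : ∀ x, x0 ≤ x → u x ≠ c) : (∀ x, x0 ≤ x → u x < c) ∨ (∀ x, x0 ≤ x → c < u x) := by
  by_contra hcon
  rw [not_or] at hcon
  obtain ⟨h1, h2⟩ := hcon
  push Not at h1 h2
  obtain ⟨a, ha, ha'⟩ := h1
  obtain ⟨b, hb, hb'⟩ := h2
  have h3 := (isPreconnected_Ici (a := x0)).intermediate_value (mem_Ici.2 hb) (mem_Ici.2 ha) hu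
  obtain ⟨y, hy, hyc⟩ := h3 ⟨hb', ha'⟩
  exact h y hy hyc

theorem alt (w : ℝ → ℂ) (hw : ContinuousOn w (Ici 0))
    (h : Tendsto (fun x => riemannZeta (w x)) atTop (𝓝 1))
    (hinf : Tendsto (fun x => ‖w x‖) atTop atTop) :
    (∀ᶠ x in atTop, 12 ≤ (w x).re) ∨
      ((∀ᶠ x in atTop, -1 ≤ (w x).re ∧ (w x).re ≤ 11) ∧
        Tendsto (fun x => |(w x).im|) atTop atTop) := by
  obtain ⟨R0, hR0⟩ := left_lb1
  obtain ⟨k0, hk0⟩ := left_lb2
  have hε : (0 : ℝ) < (2 : ℝ) ^ (-(12 : ℝ)) * (29 / 30) := by positivity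
  have e1 : ∀ᶠ x in atTop, ‖riemannZeta (w x) - 1‖ < (2 : ℝ) ^ (-(12 : ℝ)) * (29 / 30) := by
    have h1 := Metric.tendsto_nhds.1 h _ hε
    filter_upwards [h1] with x hx
    rwa [dist_eq_norm] at hx
  have e2 : ∀ᶠ x in atTop, max R0 3 ≤ ‖w x‖ := hinf.eventually_ge_atTop _
  obtain ⟨x0, hx0⟩ := (e1.and (e2.and (eventually_ge_atTop (0 : ℝ)))).exists_forall_of_atTop
  have hx00 : 0 ≤ x0 := (hx0 x0 le_rfl).2.2
  have hz2 : ∀ x, x0 ≤ x → ‖riemannZeta (w x)‖ < 3 := by
    intro x hx
    have h1 := (hx0 x hx).1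
    have h2 : ‖riemannZeta (w x)‖ ≤ ‖riemannZeta (w x) - 1‖ + 1 := by
      have := norm_add_le (riemannZeta (w x) - 1) 1
      simpa using this
    have h3 : (2 : ℝ) ^ (-(12 : ℝ)) ≤ 1 := by
      rw [Real.rpow_neg (by norm_num)]
      refine inv_le_one_of_one_le₀ ?_
      exact Real.one_le_rpow (by norm_num) (by norm_num)
    nlinarith
  have hcw : ContinuousOn w (Ici x0) := hw.mono (Ici_subset_Ici.2 hx00)
  have hu : ContinuousOn (fun x => (w x).re) (Ici x0) := Complex.continuous_re.comp_continuousOn hcw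
  -- not in 9 ≤ re ≤ 12
  have hgap : ∀ x, x0 ≤ x → 9 ≤ (w x).re → 12 < (w x).re := by
    intro x hx h9
    by_contra hcon
    push Not at hcon
    have h1 := (tract_low (w x) h9).1
    have h2 := (hx0 x hx).1
    have h3 : (2 : ℝ) ^ (-(12 : ℝ)) ≤ (2 : ℝ) ^ (-(w x).re) :=
      Real.rpow_le_rpow_of_exponent_le (by norm_num) (by linarith)
    have h4 := mul_le_mul_of_nonneg_right h3 (by norm_num : (0 : ℝ) ≤ 29 / 30)
    exact absurd (lt_of_le_of_lt (h4.trans h1) h2) (lt_irrefl _)
  rcases alt_dich _ x0 10 hu (fun x hx h10 => by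
    have h10' : (w x).re = 10 := h10
    have := hgap x hx (by linarith)
    linarith) with hlt | hgt
  · right
    rcases alt_dich _ x0 (-1) hu (fun x hx hm => by
      have hm' : (w x).re = -1 := hm
      rcases le_or_gt 1 |(w x).im| with h1 | h1
      · have h2 := hR0 (w x) (by linarith) h1 ((le_max_left _ _).trans (hx0 x hx).2.1)
        linarith [hz2 x hx]
      · have h2 := Complex.norm_le_abs_re_add_abs_im (w x)
        rw [hm'] at h2
        have h3 : (3 : ℝ) ≤ ‖w x‖ := (le_max_right _ _).trans (hx0 x hx).2.1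
        have h4 : |(-1 : ℝ)| = 1 := by norm_num
        linarith) with hm | hm
    · exfalso
      have him : ∀ x, x0 ≤ x → |(w x).im| < 1 := by
        intro x hx
        by_contra hcon
        push Not at hcon
        have h2 := hR0 (w x) (hm x hx).le hcon ((le_max_left _ _).trans (hx0 x hx).2.1)
        linarith [hz2 x hx]
      have hre : ∀ x, x0 ≤ x → (w x).re ≤ -(‖w x‖ - 1) := by
        intro x hx
        have h2 := Complex.norm_le_abs_re_add_abs_im (w x)
        have h3 := him x hx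
        have h4 : |(w x).re| = -(w x).re := abs_of_neg (by
          have h5 : (w x).re < -1 := hm x hx
          linarith)
        linarith
      obtain ⟨k1, hk1⟩ := exists_nat_ge (-(w x0).re)
      set k : ℕ := k0 + k1 + 1 with hk
      obtain ⟨x1, hx1, hx1'⟩ :=
        ((hinf.eventually_ge_atTop (2 * (k : ℝ))).and (eventually_ge_atTop x0)).exists
      have hkr : (k : ℝ) = k0 + k1 + 1 := by rw [hk]; push_cast; ring
      have h1 : (w x1).re ≤ 1 - 2 * (k : ℝ) := by
        have := hre x1 hx1'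
        linarith
      have h2 : 1 - 2 * (k : ℝ) ≤ (w x0).re := by
        rw [hkr]
        have h5 : (0 : ℝ) ≤ k0 := Nat.cast_nonneg k0
        have h6 : (0 : ℝ) ≤ k1 := Nat.cast_nonneg k1
        linarith
      obtain ⟨y, hy, hyc⟩ := (isPreconnected_Ici (a := x0)).intermediate_value
        (mem_Ici.2 hx1') (mem_Ici.2 (le_refl x0)) hu ⟨h1, h2⟩
      have hyc' : (w y).re = 1 - 2 * (k : ℝ) := hyc
      have h3 := hk0 k (by omega) (w y).im (him y hy).le
      have h4 : (1 - 2 * (k : ℂ) + ((w y).im : ℂ) * I) = w y := by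
        apply Complex.ext
        · simp [hyc']
        · simp
      rw [h4] at h3
      linarith [hz2 y hy]
    · have hb : ∀ x, x0 ≤ x → -1 ≤ (w x).re ∧ (w x).re ≤ 9 := by
        intro x hx
        refine ⟨(hm x hx).le, ?_⟩
        by_contra hcon
        push Not at hcon
        have h1 := hgap x hx hcon.le
        have h2 : (w x).re < 10 := hlt x hx
        linarith
      refine ⟨?_, ?_⟩
      · filter_upwards [eventually_ge_atTop x0] with x hx
        exact ⟨(hb x hx).1, by linarith [(hb x hx).2]⟩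
      · have h1 : Tendsto (fun x => ‖w x‖ + (-9)) atTop atTop :=
          tendsto_atTop_add_const_right _ _ hinf
        refine tendsto_atTop_mono' _ ?_ h1
        filter_upwards [eventually_ge_atTop x0] with x hx
        have h2 := Complex.norm_le_abs_re_add_abs_im (w x)
        have h3 : |(w x).re| ≤ 9 := abs_le.2 ⟨by linarith [(hb x hx).1], (hb x hx).2⟩
        linarith
  · left
    filter_upwards [eventually_ge_atTop x0] with x hx
    have h1 : 10 < (w x).re := hgt x hx
    exact (hgap x hx (by linarith)).le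

end Pool.Agent.Lib.MP_ec260d_ntA
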