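import Mathlib
import Pool.Agent.Lib.MP_ec260d_ntA.Defs
import Pool.Agent.Lib.MP_ec260d_ntA.GamB
import Pool.Agent.Lib.MP_ec260d_nt.LocalCount

/-!
# JOB Growth: polynomial growth of zeta in a vertical strip (about 150 lines)

`-3 ≤ Re w ≤ 30`, `|Im w| ≥ 1`.  (i) `Re w ≥ 2`: `‖ζ w‖ ≤ π²/6 ≤ 2`.  (ii) `1/10 ≤ Re w ≤ 39/10`: `localCount_up` (in `MP_ec260d_nt/LocalCount.lean`): `‖ζ₁ w‖ ≤ 1000 (2 + |t|)²` with `riemannZeta₁ w = (w - 1) ζ w` for `w ≠ 1` and `‖w - 1‖ ≥ |Im w| ≥ 1` (`w - (2 + i t)` is real with `t = Im w`).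
(iii) `-3 ≤ Re w ≤ 1/10`: `s = 1 - w`, `9/10 ≤ Re s ≤ 4`, `ζ w = 2 (2π)^(-s) Γ(s) cos (π s/2) ζ(s)`, `‖cos (π s/2)‖ ≤ e^(π|t|/2)`, `‖Γ s‖ ≤ C |t|^(x - 1/2) e^(-π|t|/2) ≤ C |t|^4 e^(-π |t|/2)` (`gam_bounds`), `‖ζ s‖` from (i), (ii).
-/

namespace Pool.Agent.Lib.MP_ec260d_ntA

open Complex Set Filter Topology Metric MeasureTheory

/-- the half plane `Re w ≥ 2` -/
private theorem growth_right {w : ℂ} (hw : 2 ≤ w.re) : ‖riemannZeta w‖ ≤ 2 := by
  have hz := zeta_eq_tsum_one_div_nat_add_one_cpow (s := w) (by linarith)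
  have hn : ∀ n : ℕ, ‖1 / ((n : ℂ) + 1) ^ w‖ ≤ 1 / (((n + 1 : ℕ) : ℝ)) ^ 2 := by
    intro n
    have e : ((n : ℂ) + 1) = (((n + 1 : ℕ) : ℝ) : ℂ) := by push_cast; ring
    have h1 : (1 : ℝ) ≤ ((n + 1 : ℕ) : ℝ) := by
      push_cast
      linarith [Nat.cast_nonneg (α := ℝ) n]
    rw [norm_div, norm_one, e, Complex.norm_cpow_eq_rpow_re_of_pos (by positivity)]
    apply one_div_le_one_div_of_le (by positivity)
    calc (((n + 1 : ℕ) : ℝ)) ^ 2 = (((n + 1 : ℕ) : ℝ)) ^ (2 : ℝ) := (Real.rpow_natCast _ 2).symm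
      _ ≤ (((n + 1 : ℕ) : ℝ)) ^ w.re := Real.rpow_le_rpow_of_exponent_le h1 hw
  have hsh : HasSum (fun n : ℕ => 1 / (((n + 1 : ℕ) : ℝ)) ^ 2) (Real.pi ^ 2 / 6) := by
    have := (hasSum_nat_add_iff' (f := fun n : ℕ => 1 / ((n : ℕ) : ℝ) ^ 2) 1).2 hasSum_zeta_two
    simpa using this
  have hpi : Real.pi ^ 2 / 6 ≤ 2 := by
    have := Real.pi_lt_d2
    nlinarith [Real.pi_pos]
  rw [hz]
  have hs : Summable (fun n : ℕ => ‖1 / ((n : ℂ) + 1) ^ w‖) :=
    Summable.of_nonneg_of_le (fun n => norm_nonneg _) hn hsh.summable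
  refine (norm_tsum_le_tsum_norm hs).trans ?_
  refine (hs.tsum_le_tsum hn hsh.summable).trans ?_
  rw [hsh.tsum_eq]
  exact hpi

/-- `1/10 ≤ Re w` -/
private theorem growth_mid {w : ℂ} (hw : 1 / 10 ≤ w.re) (ht : 1 ≤ |w.im|) :
    ‖riemannZeta w‖ ≤ 9000 * |w.im| ^ 2 := by
  have ht2 : 1 ≤ |w.im| ^ 2 := one_le_pow₀ ht
  rcases le_total 2 w.re with h | h
  · linarith [growth_right h]
  have hz : ‖w - (2 + w.im * I)‖ ≤ 19 / 10 := by
    have e : w - (2 + w.im * I) = ((w.re - 2 : ℝ) : ℂ) := by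
      apply Complex.ext <;> simp
    rw [e, Complex.norm_real, Real.norm_eq_abs, abs_le]
    constructor <;> linarith
  have h1 := Pool.Agent.Lib.MP_ec260d_nt.localCount_up w.im w hz
  have hne : w ≠ 1 := by
    intro h
    rw [h] at ht
    norm_num at ht
  have hne' : w - 1 ≠ 0 := sub_ne_zero.2 hne
  have h2 : riemannZeta w = (w - 1)⁻¹ * riemannZeta₁ w := by
    grind [riemannZeta₁, riemannZeta₀]
  have h3 : 1 ≤ ‖w - 1‖ := by
    refine ht.trans ?_
    have := Complex.abs_im_le_norm (w - 1)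
    simpa using this
  rw [h2, norm_mul, norm_inv]
  have h4 : ‖w - 1‖⁻¹ ≤ 1 := inv_le_one_of_one_le₀ h3
  calc ‖w - 1‖⁻¹ * ‖riemannZeta₁ w‖ ≤ 1 * ‖riemannZeta₁ w‖ :=
        mul_le_mul_of_nonneg_right h4 (norm_nonneg _)
    _ ≤ 1000 * (2 + |w.im|) ^ 2 := by rw [one_mul]; exact h1
    _ ≤ 9000 * |w.im| ^ 2 := by nlinarith

private theorem growth_cos (z : ℂ) : ‖Complex.cos z‖ ≤ Real.exp |z.im| := by
  have h1 : ‖Complex.exp (z * I)‖ ≤ Real.exp |z.im| := by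
    rw [Complex.norm_exp]
    apply Real.exp_le_exp.2
    simp only [Complex.mul_re, Complex.I_re, mul_zero, Complex.I_im, mul_one, zero_sub]
    exact neg_le_abs _
  have h2 : ‖Complex.exp (-z * I)‖ ≤ Real.exp |z.im| := by
    rw [Complex.norm_exp]
    apply Real.exp_le_exp.2
    simp only [Complex.mul_re, Complex.I_re, mul_zero, Complex.I_im, mul_one, zero_sub,
      Complex.neg_im, Complex.neg_re, neg_neg]
    exact le_abs_self _
  have h3 : Complex.cos z = (Complex.exp (z * I) + Complex.exp (-z * I)) / 2 := rfl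
  rw [h3, norm_div, Complex.norm_two]
  have h4 := norm_add_le (Complex.exp (z * I)) (Complex.exp (-z * I))
  rw [div_le_iff₀ (by norm_num)]
  linarith

theorem growth : ∃ C : ℝ, 1 ≤ C ∧ ∀ w : ℂ, -3 ≤ w.re → w.re ≤ 30 → 1 ≤ |w.im| →
    ‖riemannZeta w‖ ≤ C * |w.im| ^ 8 := by
  obtain ⟨c, C, hc, hC, hG⟩ := gam_bounds
  refine ⟨9000 + 18000 * C, by linarith, fun w hw1 hw2 ht => ?_⟩
  have ht0 : 0 < |w.im| := by linarith
  have ht28 : |w.im| ^ 2 ≤ |w.im| ^ 8 := pow_le_pow_right₀ ht (by norm_num)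
  have ht68 : |w.im| ^ 6 ≤ |w.im| ^ 8 := pow_le_pow_right₀ ht (by norm_num)
  have ht8 : 0 < |w.im| ^ 8 := by positivity
  rcases le_total (1 / 10) w.re with h | h
  · refine (growth_mid h ht).trans ?_
    nlinarith [mul_pos hC ht8]
  have hsre : (1 - w).re = 1 - w.re := by simp
  have hsim : (1 - w).im = -w.im := by simp
  have hsabs : |(1 - w).im| = |w.im| := by rw [hsim, abs_neg]
  have him : w.im ≠ 0 := by
    intro h0
    rw [h0] at ht
    norm_num at ht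
  have hs1 : ∀ n : ℕ, (1 - w) ≠ -n := by
    intro n hn
    have := congrArg Complex.im hn
    rw [hsim] at this
    simp at this
    exact him this
  have hs2 : (1 - w) ≠ 1 := by
    intro hn
    have := congrArg Complex.im hn
    rw [hsim] at this
    simp at this
    exact him this
  have hfe := riemannZeta_one_sub hs1 hs2
  rw [sub_sub_cancel] at hfe
  obtain ⟨_, hG2⟩ := hG (1 - w) (by rw [hsre]; linarith) (by rw [hsre]; linarith) (by rw [hsabs]; exact ht)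
  rw [hsabs] at hG2
  have hG3 : ‖Complex.Gamma (1 - w)‖ ≤ C * |w.im| ^ 4 * Real.exp (-(Real.pi * |w.im| / 2)) := by
    refine hG2.trans ?_
    have h1 : |w.im| ^ ((1 - w).re - 1 / 2) ≤ |w.im| ^ 4 := by
      calc |w.im| ^ ((1 - w).re - 1 / 2) ≤ |w.im| ^ (4 : ℝ) := by
            apply Real.rpow_le_rpow_of_exponent_le ht
            rw [hsre]
            linarith
        _ = |w.im| ^ 4 := Real.rpow_natCast _ 4
    exact mul_le_mul_of_nonneg_right (mul_le_mul_of_nonneg_left h1 hC.le) (Real.exp_pos _).le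
  have hcos : ‖Complex.cos (Real.pi * (1 - w) / 2)‖ ≤ Real.exp (Real.pi * |w.im| / 2) := by
    refine (growth_cos _).trans ?_
    have e : (Real.pi * (1 - w) / 2 : ℂ) = ((Real.pi / 2 : ℝ) : ℂ) * (1 - w) := by
      push_cast
      ring
    rw [e, Complex.im_ofReal_mul, abs_mul, hsabs, abs_of_pos (by positivity : (0 : ℝ) < Real.pi / 2)]
    apply le_of_eq
    congr 1
    ring
  have hpow : ‖((2 : ℂ) * Real.pi) ^ (-(1 - w))‖ ≤ 1 := by
    have e : ((2 : ℂ) * Real.pi) = ((2 * Real.pi : ℝ) : ℂ) := by push_cast; ring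
    rw [e, Complex.norm_cpow_eq_rpow_re_of_pos (by positivity)]
    apply Real.rpow_le_one_of_one_le_of_nonpos
    · linarith [Real.pi_gt_three]
    · simp only [Complex.neg_re, hsre]
      linarith
  have hz := growth_mid (w := 1 - w) (by rw [hsre]; linarith) (by rw [hsabs]; exact ht)
  rw [hsabs] at hz
  rw [hfe, norm_mul, norm_mul, norm_mul, norm_mul, Complex.norm_two]
  have hE : Real.exp (-(Real.pi * |w.im| / 2)) * Real.exp (Real.pi * |w.im| / 2) = 1 := by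
    rw [← Real.exp_add, neg_add_cancel, Real.exp_zero]
  calc 2 * ‖((2 : ℂ) * Real.pi) ^ (-(1 - w))‖ * ‖Complex.Gamma (1 - w)‖ *
        ‖Complex.cos (Real.pi * (1 - w) / 2)‖ * ‖riemannZeta (1 - w)‖
      ≤ 2 * 1 * (C * |w.im| ^ 4 * Real.exp (-(Real.pi * |w.im| / 2))) *
        Real.exp (Real.pi * |w.im| / 2) * (9000 * |w.im| ^ 2) := by
        gcongr
    _ = 18000 * C * |w.im| ^ 6 * (Real.exp (-(Real.pi * |w.im| / 2)) * Real.exp (Real.pi * |w.im| / 2)) := by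
        ring
    _ = 18000 * C * |w.im| ^ 6 := by rw [hE, mul_one]
    _ ≤ 18000 * C * |w.im| ^ 8 := mul_le_mul_of_nonneg_left ht68 (by positivity)
    _ ≤ (9000 + 18000 * C) * |w.im| ^ 8 := by nlinarith

end Pool.Agent.Lib.MP_ec260d_ntA
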