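import Mathlib
import Pool.Agent.Lib.MP_ec260d_ntA.Defs

/-!
# JOB MinMod: minimum modulus on a horizontal segment (about 300 lines)

Let `R1 = (r + R)/2`.  Let `ρ_1..ρ_N` be the zeros of `f` in the open ball `ball w0 R1`, with multiplicity (finitely many: `f` is not identically zero).
(1) Jensen: `N log (R / R1) ≤ 2 B`, so `N ≤ C1 B` (compare `disc_count` in `MP_ec260d_nt/DiscCount.lean`, which is for entire functions; or Mathlib's Jensen formula `MeromorphicOn.circleAverage_log_norm`, or directly: `F(w) = f(w) ∏ (R² - conj (ρ_i - w0)(w - w0)) / (R (w - ρ_i))`, `‖F‖ ≤ e^B` on `‖w - w0‖ = R`, so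
`‖F(w0)‖ ≤ e^B`, `‖F(w0)‖ = ‖f(w0)‖ ∏ R / ‖ρ_i - w0‖ ≥ e^(-B) (R/R1)^N`).
(2) `h(w) = f(w) ∏ (R1² - conj (ρ_i - w0)(w - w0)) / (R1 (w - ρ_i))`: analytic on the closed ball of radius `R1`, no zero in the open ball, `‖h‖ ≤ e^B` on the sphere `‖w - w0‖ = R1` (the factors have modulus `1` there), hence on the ball; `‖h(w0)‖ ≥ ‖f(w0)‖ ≥ e^(-B)`.
(3) On the ball `h = exp F`, `F` holomorphic (`Re F ≤ B`, simply connected: primitive of `h'/h` on the ball; Mathlib: `DifferentiableOn.exists_log`-like or `Complex.IsExactOn`...), `Re F(w0) ≥ -B`.  Borel-Caratheodory (`Complex.borelCaratheodory`, on `ball 0 R`, translate) applied to `F - F(w0)`, whose real part is `≤ 2B`: `‖F(w) - F(w0)‖ ≤ 2 · 2B r / (R1 - r)` for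
`‖w - w0‖ ≤ r`, so `log ‖h(w)‖ = Re F(w) ≥ -B - C2 B`.
(4) `‖f(w)‖ = ‖h(w)‖ ∏ R1 ‖w - ρ_i‖ / ‖R1² - conj (ρ_i - w0)(w - w0)‖ ≥ ‖h(w)‖ ∏ ‖w - ρ_i‖ / (2 R1)`.
(5) There is `t ∈ [0, 1]` with `|w0.im + t - Im ρ_i| ≥ 1/(4 (N+1))` for all `i` (the union of the `N` intervals of length `1/(2(N+1))` has measure `< 1`; or pigeonhole on `2N + 2` points).  For `Im w = w0.im + t`: `‖w - ρ_i‖ ≥ 1/(4(N+1))`, so `‖f(w)‖ ≥ exp (-(1 + C2) B) (1 / (8 R1 (N+1)))^N` if `8 R1 (N + 1) ≥ 1` (replace `R1` by `max R1 1`), and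
`N log (8 R1 (N+1)) ≤ C B (1 + log B)` as `N ≤ C1 B`, `B ≥ 1`.
-/

namespace Pool.Agent.Lib.MP_ec260d_ntA

open Complex Set Filter Topology Metric MeasureTheory

private theorem minMod_dslope (f : ℂ → ℂ) (c w : ℂ) (hc : AnalyticAt ℂ f c)
    (hw : AnalyticAt ℂ f w) : AnalyticAt ℂ (dslope f c) w := by
  rcases eq_or_ne w c with h | h
  · subst h
    obtain ⟨s, hs, hd⟩ := hc.exists_mem_nhds_analyticOnNhd
    have h1 : DifferentiableOn ℂ (dslope f w) s :=
      (Complex.differentiableOn_dslope hs).2 hd.differentiableOn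
    exact h1.analyticAt hs
  · have h1 : dslope f c =ᶠ[𝓝 w] slope f c := dslope_eventuallyEq_slope_of_ne f h
    refine AnalyticAt.congr ?_ h1.symm
    have h2 : slope f c = fun z => (z - c)⁻¹ * (f z - f c) := by
      funext z
      rw [slope_def_field, div_eq_inv_mul]
    rw [h2]
    have h3 : AnalyticAt ℂ (fun z : ℂ => z - c) w := by fun_prop
    exact (h3.inv (sub_ne_zero.2 h)).mul (hw.sub analyticAt_const)

/-- the function with the zeros reflected in the circle of radius `T` -/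
private noncomputable def minMod_H {N : ℕ} (w0 : ℂ) (T : ℝ) (ρ : Fin N → ℂ) (g : ℂ → ℂ) (w : ℂ) : ℂ :=
  (∏ i, (((T : ℂ) ^ 2 - (starRingEnd ℂ) (ρ i - w0) * (w - w0)) / T)) * g w

private theorem minMod_fac (w0 : ℂ) (T : ℝ) (hT : 0 < T) (a z : ℂ) (hz : ‖z - w0‖ = T) :
    ‖((T : ℂ) ^ 2 - (starRingEnd ℂ) (a - w0) * (z - w0)) / T‖ = ‖z - a‖ := by
  have h1 : ((T : ℂ) ^ 2) = (starRingEnd ℂ) (z - w0) * (z - w0) := by
    rw [Complex.conj_mul', hz]
  rw [h1, ← sub_mul, ← map_sub, norm_div, norm_mul, RCLike.norm_conj, hz, Complex.norm_real,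
    Real.norm_of_nonneg hT.le, sub_sub_sub_cancel_right]
  field_simp

private theorem minMod_HA {N : ℕ} (w0 : ℂ) (T : ℝ) (ρ : Fin N → ℂ) (g : ℂ → ℂ) (w : ℂ)
    (hg : AnalyticAt ℂ g w) : AnalyticAt ℂ (minMod_H w0 T ρ g) w := by
  refine AnalyticAt.mul ?_ hg
  refine Finset.analyticAt_fun_prod _ fun i _ => ?_
  refine AnalyticAt.mul ?_ analyticAt_const
  fun_prop

private theorem minMod_le {N : ℕ} (w0 : ℂ) (T M : ℝ) (hT : 0 < T) (ρ : Fin N → ℂ)
    (f g : ℂ → ℂ) (hg : ∀ w ∈ closedBall w0 T, AnalyticAt ℂ g w)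
    (hf : ∀ w ∈ closedBall w0 T, f w = (∏ i, (w - ρ i)) * g w)
    (hM : ∀ w ∈ closedBall w0 T, ‖f w‖ ≤ M) :
    ∀ w ∈ closedBall w0 T, ‖minMod_H w0 T ρ g w‖ ≤ M := by
  intro w hw
  have hd : DifferentiableOn ℂ (minMod_H w0 T ρ g) (closedBall w0 T) := fun z hz =>
    (minMod_HA w0 T ρ g z (hg z hz)).differentiableAt.differentiableWithinAt
  have h1 : DiffContOnCl ℂ (minMod_H w0 T ρ g) (ball w0 T) := by
    refine DifferentiableOn.diffContOnCl ?_
    rw [closure_ball _ hT.ne']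
    exact hd
  refine Complex.norm_le_of_forall_mem_frontier_norm_le isBounded_ball h1 ?_ ?_
  · intro z hz
    rw [frontier_ball _ hT.ne', mem_sphere, dist_eq_norm] at hz
    have hzc : z ∈ closedBall w0 T := by rw [mem_closedBall, dist_eq_norm]; exact hz.le
    refine le_trans (le_of_eq ?_) (hM z hzc)
    rw [minMod_H, hf z hzc, norm_mul, norm_mul, norm_prod, norm_prod]
    congr 1
    refine Finset.prod_congr rfl fun i _ => ?_
    exact minMod_fac w0 T hT (ρ i) z hz
  · rw [closure_ball _ hT.ne']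
    exact hw

private theorem minMod_Hc {N : ℕ} (w0 : ℂ) (T : ℝ) (hT : 0 < T) (ρ : Fin N → ℂ) (g : ℂ → ℂ) :
    ‖minMod_H w0 T ρ g w0‖ = T ^ N * ‖g w0‖ := by
  rw [minMod_H]
  simp only [sub_self, mul_zero, sub_zero]
  rw [norm_mul, norm_prod]
  congr 1
  rw [Finset.prod_const, Finset.card_univ, Fintype.card_fin]
  congr 1
  rw [norm_div, norm_pow, Complex.norm_real, Real.norm_of_nonneg hT.le]
  field_simp

/-- the number of zeros -/
private theorem minMod_count {N : ℕ} (w0 : ℂ) (r R B : ℝ) (hr : 0 < r) (hrR : r < R)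
    (ρ : Fin N → ℂ) (hρ : ∀ i, ‖ρ i - w0‖ ≤ r)
    (f g : ℂ → ℂ) (hg : ∀ w ∈ closedBall w0 R, AnalyticAt ℂ g w)
    (hf : ∀ w ∈ closedBall w0 R, f w = (∏ i, (w - ρ i)) * g w)
    (hM : ∀ w ∈ closedBall w0 R, ‖f w‖ ≤ Real.exp B) (h0 : Real.exp (-B) ≤ ‖f w0‖) :
    N * Real.log (R / r) ≤ 2 * B := by
  have hR : 0 < R := hr.trans hrR
  have hw0 : w0 ∈ closedBall w0 R := mem_closedBall_self hR.le
  have h1 := minMod_le w0 R (Real.exp B) hR ρ f g hg hf hM w0 hw0
  rw [minMod_Hc w0 R hR] at h1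
  have h2 : ‖f w0‖ ≤ r ^ N * ‖g w0‖ := by
    rw [hf w0 hw0, norm_mul, norm_prod]
    refine mul_le_mul_of_nonneg_right ?_ (norm_nonneg _)
    have h3 : ∏ i : Fin N, ‖w0 - ρ i‖ ≤ ∏ _i : Fin N, r :=
      Finset.prod_le_prod (fun _ _ => norm_nonneg _) fun i _ => by
        rw [norm_sub_rev]; exact hρ i
    rwa [Finset.prod_const, Finset.card_univ, Fintype.card_fin] at h3
  have h4 : Real.exp (-B) * R ^ N ≤ r ^ N * Real.exp B := by
    calc Real.exp (-B) * R ^ N ≤ (r ^ N * ‖g w0‖) * R ^ N := by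
          gcongr
          exact h0.trans h2
      _ = r ^ N * (R ^ N * ‖g w0‖) := by ring
      _ ≤ r ^ N * Real.exp B := by gcongr
  have h5 := Real.log_le_log (by positivity) h4
  rw [Real.log_mul (Real.exp_ne_zero _) (by positivity), Real.log_mul (by positivity)
    (Real.exp_ne_zero _), Real.log_exp, Real.log_exp, Real.log_pow, Real.log_pow] at h5
  rw [Real.log_div hR.ne' hr.ne']
  linarith

/-- all the zeros in a smaller ball can be removed -/
private theorem minMod_rem (w0 : ℂ) (r R B : ℝ) (hr : 0 < r) (hrR : r < R)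
    (f : ℂ → ℂ) (ha : ∀ w ∈ closedBall w0 R, AnalyticAt ℂ f w)
    (hM : ∀ w ∈ closedBall w0 R, ‖f w‖ ≤ Real.exp B) (h0 : Real.exp (-B) ≤ ‖f w0‖) :
    ∃ (N : ℕ) (ρ : Fin N → ℂ) (g : ℂ → ℂ), (∀ i, ρ i ∈ ball w0 r) ∧
      (∀ w ∈ closedBall w0 R, AnalyticAt ℂ g w) ∧
      (∀ w ∈ closedBall w0 R, f w = (∏ i, (w - ρ i)) * g w) ∧ (∀ w ∈ ball w0 r, g w ≠ 0) := by
  by_contra hcon
  push Not at hcon
  have key : ∀ N : ℕ, ∃ (ρ : Fin N → ℂ) (g : ℂ → ℂ), (∀ i, ρ i ∈ ball w0 r) ∧
      (∀ w ∈ closedBall w0 R, AnalyticAt ℂ g w) ∧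
      (∀ w ∈ closedBall w0 R, f w = (∏ i, (w - ρ i)) * g w) := by
    intro N
    induction N with
    | zero => exact ⟨Fin.elim0, f, fun i => i.elim0, ha, fun w _ => by simp⟩
    | succ N ih =>
      obtain ⟨ρ, g, h1, h2, h3⟩ := ih
      obtain ⟨a, har, hga⟩ := hcon N ρ g h1 h2 h3
      have haR : a ∈ closedBall w0 R := by
        rw [mem_closedBall]
        rw [mem_ball] at har
        linarith
      refine ⟨Fin.cons a ρ, dslope g a, ?_, ?_, ?_⟩
      · intro i
        refine Fin.cases ?_ ?_ i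
        · simpa using har
        · intro j; simpa using h1 j
      · intro w hw
        exact minMod_dslope g a w (h2 a haR) (h2 w hw)
      · intro w hw
        rw [Fin.prod_univ_succ]
        simp only [Fin.cons_zero, Fin.cons_succ]
        have h4 := sub_smul_dslope g a w
        rw [hga, sub_zero, smul_eq_mul] at h4
        rw [h3 w hw, ← h4]
        ring
  have hlog : 0 < Real.log (R / r) := Real.log_pos (by rwa [one_lt_div hr])
  obtain ⟨N, hN⟩ := exists_nat_gt (2 * B / Real.log (R / r))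
  obtain ⟨ρ, g, h1, h2, h3⟩ := key N
  have h4 := minMod_count w0 r R B hr hrR ρ (fun i => by
    have := h1 i
    rw [mem_ball, dist_eq_norm] at this
    exact this.le) f g h2 h3 hM h0
  rw [div_lt_iff₀ hlog] at hN
  linarith

/-- a lower bound for functions without zeros -/
private theorem minMod_low (w0 : ℂ) (r R B : ℝ) (hr : 0 < r) (hrR : r < R) (hB : 0 < B)
    (h : ℂ → ℂ) (hd : DifferentiableOn ℂ h (ball w0 R)) (hne : ∀ w ∈ ball w0 R, h w ≠ 0)
    (hM : ∀ w ∈ ball w0 R, ‖h w‖ ≤ Real.exp B) (h0 : Real.exp (-B) ≤ ‖h w0‖) :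
    ∀ w ∈ closedBall w0 r, Real.exp (-B - 4 * B * r / (R - r)) ≤ ‖h w‖ := by
  intro w hw
  have hR : 0 < R := hr.trans hrR
  have hd2 : DifferentiableOn ℂ (fun z => deriv h z / h z) (ball w0 R) :=
    (hd.deriv isOpen_ball).div hd hne
  obtain ⟨F, hF⟩ := hd2.isExactOn_ball
  have hFd : DifferentiableOn ℂ F (ball w0 R) := fun z hz =>
    (hF z hz).differentiableAt.differentiableWithinAt
  -- h exp(-F) is constant
  have hconst : ∀ z ∈ ball w0 R, h z * Complex.exp (-F z) = h w0 * Complex.exp (-F w0) := by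
    intro z hz
    have hder : ∀ y ∈ ball w0 R, HasDerivAt (fun z => h z * Complex.exp (-F z)) 0 y := by
      intro y hy
      have e1 : HasDerivAt h (deriv h y) y :=
        (hd.differentiableAt (isOpen_ball.mem_nhds hy)).hasDerivAt
      have e2 := (hF y hy).neg.cexp
      have e3 := e1.mul e2
      have e4 : deriv h y * Complex.exp (-F y) + h y * (Complex.exp (-F y) *
          -(deriv h y / h y)) = 0 := by
        have := hne y hy
        field_simp
        ring
      have e5 : HasDerivAt (fun z => h z * Complex.exp (-F z))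
          (deriv h y * Complex.exp (-F y) + h y * (Complex.exp (-F y) * -(deriv h y / h y))) y := e3
      rw [e4] at e5
      exact e5
    have hdd : DifferentiableOn ℂ (fun z => h z * Complex.exp (-F z)) (ball w0 R) := fun y hy =>
      (hder y hy).differentiableAt.differentiableWithinAt
    have h5 := isOpen_ball.is_const_of_deriv_eq_zero (convex_ball w0 R).isPreconnected hdd
      (fun y hy => (hder y hy).deriv) hz (mem_ball_self hR)
    exact h5
  have hnorm : ∀ z ∈ ball w0 R, ‖h z‖ = ‖h w0‖ * Real.exp ((F z - F w0).re) := by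
    intro z hz
    have h5 := hconst z hz
    have h6 : h z = h w0 * Complex.exp (F z - F w0) := by
      have h7 : h z = h z * Complex.exp (-F z) * Complex.exp (F z) := by
        rw [mul_assoc, ← Complex.exp_add, neg_add_cancel, Complex.exp_zero, mul_one]
      rw [h7, h5, mul_assoc, ← Complex.exp_add]
      congr 2
      ring
    rw [h6, norm_mul, Complex.norm_exp]
  have h0p : 0 < ‖h w0‖ := lt_of_lt_of_le (Real.exp_pos _) h0
  -- apply Borel-Caratheodory
  set G : ℂ → ℂ := fun z => F (w0 + z) - F w0 with hG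
  have hmap : ∀ z ∈ ball (0 : ℂ) R, w0 + z ∈ ball w0 R := by
    intro z hz
    rw [mem_ball_zero_iff] at hz
    rw [mem_ball, dist_eq_norm]
    simpa using hz
  have hGd : DifferentiableOn ℂ G (ball 0 R) := by
    intro z hz
    have h5 : DifferentiableAt ℂ F (w0 + z) := hFd.differentiableAt (isOpen_ball.mem_nhds (hmap z hz))
    have h6 : DifferentiableAt ℂ (fun z : ℂ => F (w0 + z)) z :=
      DifferentiableAt.comp z h5 (by fun_prop)
    exact (h6.sub_const _).differentiableWithinAt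
  have hGre : MapsTo G (ball 0 R) {z | z.re ≤ 2 * B} := by
    intro z hz
    have h5 := hM _ (hmap z hz)
    rw [hnorm _ (hmap z hz)] at h5
    have h6 : Real.exp (-B) * Real.exp ((F (w0 + z) - F w0).re) ≤ Real.exp B :=
      (mul_le_mul_of_nonneg_right h0 (Real.exp_pos _).le).trans h5
    rw [← Real.exp_add, Real.exp_le_exp] at h6
    show (F (w0 + z) - F w0).re ≤ 2 * B
    linarith
  have hw' : ‖w - w0‖ ≤ r := by rwa [mem_closedBall, dist_eq_norm] at hw
  have hwb : w - w0 ∈ ball (0 : ℂ) R := by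
    rw [mem_ball_zero_iff]; linarith
  have hBC := Complex.borelCaratheodory_zero (by linarith : 0 < 2 * B) hGd hGre hR hwb
    (by simp [hG])
  have hGw : G (w - w0) = F w - F w0 := by
    simp [hG]
  rw [hGw] at hBC
  have h7 : 2 * (2 * B) * ‖w - w0‖ / (R - ‖w - w0‖) ≤ 4 * B * r / (R - r) := by
    have h8 : 0 < R - r := by linarith
    have h9 : 2 * (2 * B) * ‖w - w0‖ ≤ 4 * B * r := by
      have h14 := mul_le_mul_of_nonneg_left hw' (by positivity : 0 ≤ 4 * B)
      linarith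
    have h10 : R - r ≤ R - ‖w - w0‖ := by linarith
    have h11 : 0 ≤ 4 * B * r := by positivity
    exact div_le_div₀ h11 h9 h8 h10
  have h12 : -(4 * B * r / (R - r)) ≤ (F w - F w0).re := by
    have h13 := (abs_le.1 (Complex.abs_re_le_norm (F w - F w0))).1
    linarith
  have hwR : w ∈ ball w0 R := by
    rw [mem_ball, dist_eq_norm]; linarith
  rw [hnorm w hwR]
  calc Real.exp (-B - 4 * B * r / (R - r)) = Real.exp (-B) * Real.exp (-(4 * B * r / (R - r))) := by
        rw [← Real.exp_add]; congr 1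
    _ ≤ ‖h w0‖ * Real.exp ((F w - F w0).re) := by
        gcongr

/-- a good height -/
private theorem minMod_pig (N : ℕ) (c : Fin N → ℝ) :
    ∃ t ∈ Icc (0 : ℝ) 1, ∀ i, 1 / (4 * ((N : ℝ) + 1)) ≤ |t - c i| := by
  by_contra hcon
  push Not at hcon
  have hN : (0 : ℝ) < (N : ℝ) + 1 := by positivity
  have h1 : ∀ j : Fin (N + 1), ∃ i : Fin N,
      |((j : ℕ) : ℝ) / ((N : ℝ) + 1) - c i| < 1 / (4 * ((N : ℝ) + 1)) := by
    intro j
    refine hcon _ ⟨by positivity, ?_⟩
    rw [div_le_one hN]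
    have : ((j : ℕ) : ℝ) ≤ N := by exact_mod_cast Nat.lt_succ_iff.1 j.2
    linarith
  choose φ hφ using h1
  have hinj : Function.Injective φ := by
    intro j j' hjj
    have e1 := hφ j
    have e2 := hφ j'
    rw [hjj] at e1
    have e3 : |((j : ℕ) : ℝ) / ((N : ℝ) + 1) - ((j' : ℕ) : ℝ) / ((N : ℝ) + 1)| <
        1 / ((N : ℝ) + 1) := by
      have e4 : ((j : ℕ) : ℝ) / ((N : ℝ) + 1) - ((j' : ℕ) : ℝ) / ((N : ℝ) + 1) =
        (((j : ℕ) : ℝ) / ((N : ℝ) + 1) - c (φ j')) -
          (((j' : ℕ) : ℝ) / ((N : ℝ) + 1) - c (φ j')) := by ring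
      rw [e4]
      refine lt_of_le_of_lt (abs_sub _ _) ?_
      have e5 : 1 / (4 * ((N : ℝ) + 1)) + 1 / (4 * ((N : ℝ) + 1)) ≤ 1 / ((N : ℝ) + 1) := by
        rw [← add_div, div_le_div_iff₀ (by positivity) hN]
        linarith
      linarith
    rw [← sub_div, abs_div, abs_of_pos hN, div_lt_div_iff_of_pos_right hN] at e3
    have e6 : |((j : ℕ) : ℤ) - ((j' : ℕ) : ℤ)| < 1 := by
      have : ((|((j : ℕ) : ℤ) - ((j' : ℕ) : ℤ)| : ℤ) : ℝ) < ((1 : ℤ) : ℝ) := by
        push_cast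
        exact e3
      exact_mod_cast this
    have e7 : ((j : ℕ) : ℤ) - ((j' : ℕ) : ℤ) = 0 := Int.abs_lt_one_iff.1 e6
    exact Fin.ext (by omega)
  have := Fintype.card_le_of_injective φ hinj
  simp at this

theorem min_mod (r R : ℝ) (hr : 0 < r) (hrR : r < R) : ∃ C : ℝ, 0 ≤ C ∧
    ∀ (f : ℂ → ℂ) (w0 : ℂ) (B : ℝ), 1 ≤ B → (∀ w ∈ closedBall w0 R, AnalyticAt ℂ f w) →
      (∀ w ∈ closedBall w0 R, ‖f w‖ ≤ Real.exp B) → Real.exp (-B) ≤ ‖f w0‖ →
      ∃ t ∈ Icc (0 : ℝ) 1, ∀ w ∈ closedBall w0 r, w.im = w0.im + t →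
        Real.exp (-(C * B * (1 + Real.log B))) ≤ ‖f w‖ := by
  set R1 : ℝ := (r + R) / 2 with hR1
  have hrR1 : r < R1 := by rw [hR1]; linarith
  have hR1R : R1 < R := by rw [hR1]; linarith
  have hR1p : 0 < R1 := hr.trans hrR1
  have hR : 0 < R := hr.trans hrR
  have hlog : 0 < Real.log (R / R1) := Real.log_pos (by rwa [one_lt_div hR1p])
  set K : ℝ := 2 / Real.log (R / R1) with hK
  have hKp : 0 < K := by positivity
  set A : ℝ := max R1 1 with hA
  have hA1 : 1 ≤ A := le_max_right _ _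
  have hlA : 0 ≤ Real.log (8 * A) := Real.log_nonneg (by linarith)
  have hlK : 0 ≤ Real.log (K + 1) := Real.log_nonneg (by linarith)
  have hq : 0 ≤ 4 * r / (R1 - r) := by
    have : 0 < R1 - r := by linarith
    positivity
  refine ⟨1 + 4 * r / (R1 - r) + K * (Real.log (8 * A) + Real.log (K + 1) + 1), by positivity, ?_⟩
  intro f w0 B hB ha hM h0
  have hBp : 0 < B := by linarith
  have hlB : 0 ≤ Real.log B := Real.log_nonneg hB
  obtain ⟨N, ρ, g, hρ, hg, hfg, hgne⟩ := minMod_rem w0 R1 R B hR1p hR1R f ha hM h0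
  have hρ' : ∀ i, ‖ρ i - w0‖ < R1 := fun i => by
    have := hρ i
    rwa [mem_ball, dist_eq_norm] at this
  have hcount := minMod_count w0 R1 R B hR1p hR1R ρ (fun i => (hρ' i).le) f g hg hfg hM h0
  have hNK : (N : ℝ) ≤ K * B := by
    rw [hK, div_mul_eq_mul_div, le_div_iff₀ hlog]
    exact hcount
  obtain ⟨t, ht, htc⟩ := minMod_pig N (fun i => (ρ i).im - w0.im)
  refine ⟨t, ht, ?_⟩
  intro w hw him
  have hsub : closedBall w0 R1 ⊆ closedBall w0 R := closedBall_subset_closedBall hR1R.le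
  -- the function h
  have hHle := minMod_le w0 R1 (Real.exp B) hR1p ρ f g (fun w hw => hg w (hsub hw))
    (fun w hw => hfg w (hsub hw)) (fun w hw => hM w (hsub hw))
  have hHne : ∀ w ∈ ball w0 R1, minMod_H w0 R1 ρ g w ≠ 0 := by
    intro z hz
    rw [minMod_H]
    refine mul_ne_zero (Finset.prod_ne_zero_iff.2 fun i _ => ?_) (hgne z hz)
    have hT0 : (R1 : ℂ) ≠ 0 := by exact_mod_cast hR1p.ne'
    refine div_ne_zero ?_ hT0
    intro hcon
    rw [sub_eq_zero] at hcon
    have h1 : ‖(R1 : ℂ) ^ 2‖ = ‖(starRingEnd ℂ) (ρ i - w0) * (z - w0)‖ := by rw [hcon]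
    rw [norm_pow, Complex.norm_real, Real.norm_of_nonneg hR1p.le, norm_mul, RCLike.norm_conj] at h1
    have h2 : ‖z - w0‖ < R1 := by rwa [mem_ball, dist_eq_norm] at hz
    have h3 := hρ' i
    have h4 : ‖ρ i - w0‖ * ‖z - w0‖ < R1 ^ 2 := by
      rw [pow_two]
      exact mul_lt_mul'' h3 h2 (norm_nonneg _) (norm_nonneg _)
    linarith
  have hHd : DifferentiableOn ℂ (minMod_H w0 R1 ρ g) (ball w0 R1) := fun z hz =>
    (minMod_HA w0 R1 ρ g z (hg z (hsub (ball_subset_closedBall hz)))).differentiableAt.differentiableWithinAt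
  have hw0 : w0 ∈ closedBall w0 R := mem_closedBall_self hR.le
  have hH0 : Real.exp (-B) ≤ ‖minMod_H w0 R1 ρ g w0‖ := by
    rw [minMod_Hc w0 R1 hR1p]
    refine h0.trans ?_
    rw [hfg w0 hw0, norm_mul, norm_prod]
    refine mul_le_mul_of_nonneg_right ?_ (norm_nonneg _)
    have h3 : ∏ i : Fin N, ‖w0 - ρ i‖ ≤ ∏ _i : Fin N, R1 :=
      Finset.prod_le_prod (fun _ _ => norm_nonneg _) fun i _ => by
        rw [norm_sub_rev]; exact (hρ' i).le
    rwa [Finset.prod_const, Finset.card_univ, Fintype.card_fin] at h3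
  have hlow := minMod_low w0 r R1 B hr hrR1 hBp (minMod_H w0 R1 ρ g) hHd hHne
    (fun z hz => hHle z (ball_subset_closedBall hz)) hH0 w hw
  have hwr : ‖w - w0‖ ≤ r := by rwa [mem_closedBall, dist_eq_norm] at hw
  have hwR : w ∈ closedBall w0 R := by
    rw [mem_closedBall, dist_eq_norm]; linarith
  -- upper bound of h by g
  have hup : ‖minMod_H w0 R1 ρ g w‖ ≤ (2 * R1) ^ N * ‖g w‖ := by
    rw [minMod_H, norm_mul, norm_prod]
    refine mul_le_mul_of_nonneg_right ?_ (norm_nonneg _)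
    have h3 : ∏ i : Fin N, ‖((R1 : ℂ) ^ 2 - (starRingEnd ℂ) (ρ i - w0) * (w - w0)) / R1‖ ≤
        ∏ _i : Fin N, (2 * R1) := by
      refine Finset.prod_le_prod (fun _ _ => norm_nonneg _) fun i _ => ?_
      rw [norm_div, Complex.norm_real, Real.norm_of_nonneg hR1p.le, div_le_iff₀ hR1p]
      refine (norm_sub_le _ _).trans ?_
      rw [norm_pow, Complex.norm_real, Real.norm_of_nonneg hR1p.le, norm_mul, RCLike.norm_conj]
      have h8 : ‖ρ i - w0‖ * ‖w - w0‖ ≤ R1 * R1 :=
        mul_le_mul (hρ' i).le (by linarith) (norm_nonneg _) hR1p.le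
      linarith
    rwa [Finset.prod_const, Finset.card_univ, Fintype.card_fin] at h3
  set δ : ℝ := 1 / (4 * ((N : ℝ) + 1)) with hδ
  have hδp : 0 < δ := by positivity
  have hfw : δ ^ N * ‖g w‖ ≤ ‖f w‖ := by
    rw [hfg w hwR, norm_mul, norm_prod]
    refine mul_le_mul_of_nonneg_right ?_ (norm_nonneg _)
    have h3 : ∏ _i : Fin N, δ ≤ ∏ i : Fin N, ‖w - ρ i‖ := by
      refine Finset.prod_le_prod (fun _ _ => hδp.le) fun i _ => ?_
      have h5 := htc i
      have h6 := Complex.abs_im_le_norm (w - ρ i)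
      rw [Complex.sub_im, him] at h6
      have h7 : t - ((ρ i).im - w0.im) = w0.im + t - (ρ i).im := by ring
      simp only [h7] at h5
      linarith
    rwa [Finset.prod_const, Finset.card_univ, Fintype.card_fin] at h3
  have hN0 : (0 : ℝ) ≤ N := Nat.cast_nonneg N
  have hcomb : (δ / (2 * R1)) ^ N * Real.exp (-B - 4 * B * r / (R1 - r)) ≤ ‖f w‖ := by
    calc (δ / (2 * R1)) ^ N * Real.exp (-B - 4 * B * r / (R1 - r))
        ≤ (δ / (2 * R1)) ^ N * ((2 * R1) ^ N * ‖g w‖) := by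
          gcongr
          exact hlow.trans hup
      _ = δ ^ N * ‖g w‖ := by
          rw [div_pow]
          field_simp
      _ ≤ ‖f w‖ := hfw
  refine le_trans ?_ hcomb
  -- the final estimate
  have hbase : Real.exp (-(Real.log (8 * A * ((N : ℝ) + 1)))) ≤ δ / (2 * R1) := by
    rw [Real.exp_neg, Real.exp_log (by positivity), hδ, div_div, ← one_div]
    refine one_div_le_one_div_of_le (by positivity) ?_
    have h1 : R1 * ((N : ℝ) + 1) ≤ A * ((N : ℝ) + 1) :=
      mul_le_mul_of_nonneg_right (le_max_left _ _) (by positivity)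
    linarith
  have hpow : Real.exp (-((N : ℝ) * Real.log (8 * A * ((N : ℝ) + 1)))) ≤ (δ / (2 * R1)) ^ N := by
    have h1 : Real.exp (-((N : ℝ) * Real.log (8 * A * ((N : ℝ) + 1)))) =
        (Real.exp (-(Real.log (8 * A * ((N : ℝ) + 1))))) ^ N := by
      rw [← Real.exp_nat_mul]
      congr 1
      ring
    rw [h1]
    exact pow_le_pow_left₀ (Real.exp_pos _).le hbase N
  refine le_trans ?_ (mul_le_mul_of_nonneg_right hpow (Real.exp_pos _).le)
  rw [← Real.exp_add, Real.exp_le_exp]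
  have hlogN : Real.log (8 * A * ((N : ℝ) + 1)) ≤
      Real.log (8 * A) + Real.log (K + 1) + Real.log B := by
    rw [Real.log_mul (by positivity) (by positivity)]
    have h1 : (N : ℝ) + 1 ≤ (K + 1) * B := by
      rw [add_mul, one_mul]
      linarith
    have h2 := Real.log_le_log (by positivity) h1
    rw [Real.log_mul (by positivity) (by positivity)] at h2
    linarith
  have hlogN0 : 0 ≤ Real.log (8 * A) + Real.log (K + 1) + Real.log B := by positivity
  have h1 : (N : ℝ) * Real.log (8 * A * ((N : ℝ) + 1)) ≤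
      K * B * (Real.log (8 * A) + Real.log (K + 1) + Real.log B) := by
    calc (N : ℝ) * Real.log (8 * A * ((N : ℝ) + 1))
        ≤ N * (Real.log (8 * A) + Real.log (K + 1) + Real.log B) :=
          mul_le_mul_of_nonneg_left hlogN hN0
      _ ≤ K * B * (Real.log (8 * A) + Real.log (K + 1) + Real.log B) :=
          mul_le_mul_of_nonneg_right hNK hlogN0
  have h2 : Real.log (8 * A) + Real.log (K + 1) + Real.log B ≤
      (Real.log (8 * A) + Real.log (K + 1) + 1) * (1 + Real.log B) := by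
    have h9 : 0 ≤ (Real.log (8 * A) + Real.log (K + 1)) * Real.log B :=
      mul_nonneg (by linarith) hlB
    have h10 : (Real.log (8 * A) + Real.log (K + 1) + 1) * (1 + Real.log B) =
      Real.log (8 * A) + Real.log (K + 1) + Real.log B + 1 +
        (Real.log (8 * A) + Real.log (K + 1)) * Real.log B := by ring
    rw [h10]
    linarith
  have h3 : K * B * (Real.log (8 * A) + Real.log (K + 1) + Real.log B) ≤
      K * B * ((Real.log (8 * A) + Real.log (K + 1) + 1) * (1 + Real.log B)) :=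
    mul_le_mul_of_nonneg_left h2 (by positivity)
  have h4 : B + 4 * B * r / (R1 - r) ≤ (1 + 4 * r / (R1 - r)) * B * (1 + Real.log B) := by
    have h5 : B + 4 * B * r / (R1 - r) = (1 + 4 * r / (R1 - r)) * B := by ring
    rw [h5]
    have h6 : 0 ≤ (1 + 4 * r / (R1 - r)) * B := by positivity
    have h7 := mul_nonneg h6 hlB
    linarith
  have h8 : (1 + 4 * r / (R1 - r) + K * (Real.log (8 * A) + Real.log (K + 1) + 1)) * B *
      (1 + Real.log B) = (1 + 4 * r / (R1 - r)) * B * (1 + Real.log B) +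
      K * B * ((Real.log (8 * A) + Real.log (K + 1) + 1) * (1 + Real.log B)) := by ring
  rw [h8]
  linarith

end Pool.Agent.Lib.MP_ec260d_ntA
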