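import Mathlib
import Pool.Agent.Lib.MP_ec260d_ntA.Defs
import Pool.Agent.Lib.MP_ec260d_ntA.MinMod
import Pool.Agent.Lib.MP_ec260d_ntA.Growth
import Pool.Agent.Lib.MP_ec260d_ntA.EfCont

/-!
# JOB Barrier: horizontal segments on which `ζ - 1` is not too small (about 120 lines)

`f w = ζ w - 1`, `w0 = 12 + i T`, `T ≥ 20`, `R = 15`, `r = 27/2`.  On the closed ball: `-3 ≤ Re ≤ 27`, `5 ≤ T - 15 ≤ Im ≤ T + 15`, so `f` is analytic and `‖f‖ ≤ 1 + C (T + 15)^8 ≤ exp B`; `‖f w0‖ ≥ 2^(-12) (29/30) ≥ e^(-9)` (`tract_low`).  With `B = log (1 + C (T + 15)^8) + 9` one has `B ≥ 1`, `exp (-B) ≤ ‖f w0‖`.  `min_mod` gives `t ∈ [0, 1]`, `T' = T + t`: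
for `Im w = T'`, `-1 ≤ Re w ≤ 11` (then `‖w - w0‖ ≤ sqrt (13² + 1) ≤ 27/2`): `‖f w‖ ≥ exp (-(C' B (1 + log B))) ≥ exp (- ε T)` for `T ≥ T0(ε)`, since `B = O(log T)`, so `C' B (1 + log B) = o(T)`.
For `Im w = -T'` use `riemannZeta_conj`.
-/

namespace Pool.Agent.Lib.MP_ec260d_ntA

open Complex Set Filter Topology Metric MeasureTheory

private theorem Barrier_B (C C' ε : ℝ) (hC : 1 ≤ C) (hC' : 0 ≤ C') (hε : 0 < ε) :
    ∃ T0 : ℝ, 20 ≤ T0 ∧ ∀ T : ℝ, T0 ≤ T →
      C' * (Real.log (1 + C * (T + 15) ^ 8) + 9) * (1 + Real.log (Real.log (1 + C * (T + 15) ^ 8) + 9))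
        ≤ ε * T := by
  obtain ⟨c, hc0, hc⟩ : ∃ c : ℝ, 0 < c ∧ C' * (81 * c) ≤ ε / 2 := by
    refine ⟨ε / (162 * (C' + 1)), by positivity, ?_⟩
    have h1 : C' * (81 * (ε / (162 * (C' + 1)))) = ε / 2 * (C' / (C' + 1)) := by
      field_simp
      ring
    rw [h1]
    have h2 : C' / (C' + 1) ≤ 1 := by
      rw [div_le_one (by linarith)]
      linarith
    nlinarith
  have h1 : ∀ᶠ u : ℝ in atTop, ‖Real.log u ^ 2‖ ≤ c * ‖u‖ :=
    (Real.isLittleO_pow_log_id_atTop (n := 2)).def hc0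
  have h2 : ∀ᶠ u : ℝ in atTop, Real.log (2 * C) + 9 ≤ Real.log u :=
    Real.tendsto_log_atTop.eventually_ge_atTop _
  obtain ⟨U, hU⟩ := (h1.and h2).exists_forall_of_atTop
  refine ⟨max U 20, le_max_right _ _, ?_⟩
  intro T hT
  have hT1 : U ≤ T := (le_max_left _ _).trans hT
  have hT2 : 20 ≤ T := (le_max_right _ _).trans hT
  obtain ⟨h3, h4⟩ := hU (T + 15) (by linarith)
  have hu : (0 : ℝ) < T + 15 := by linarith
  obtain ⟨u, hudef⟩ : ∃ u : ℝ, u = T + 15 := ⟨_, rfl⟩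
  rw [← hudef] at h3 h4 hu ⊢
  have hu1 : 1 ≤ u := by linarith
  have hlogu : 0 ≤ Real.log u := Real.log_nonneg hu1
  have hup : (1 : ℝ) ≤ u ^ 8 := one_le_pow₀ hu1
  have hCu : 1 ≤ C * u ^ 8 := by nlinarith
  obtain ⟨B, hB⟩ : ∃ B : ℝ, B = Real.log (1 + C * u ^ 8) + 9 := ⟨_, rfl⟩
  rw [← hB]
  have hB9 : 9 ≤ B := by
    rw [hB]
    have : 0 ≤ Real.log (1 + C * u ^ 8) := Real.log_nonneg (by linarith)
    linarith
  have hBle : B ≤ 9 * Real.log u := by
    have h5 : Real.log (1 + C * u ^ 8) ≤ Real.log (2 * C * u ^ 8) :=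
      Real.log_le_log (by linarith) (by linarith)
    have h6 : Real.log (2 * C * u ^ 8) = Real.log (2 * C) + 8 * Real.log u := by
      rw [Real.log_mul (by linarith) (by positivity), Real.log_pow]
      norm_num
    rw [hB]
    linarith
  have hlogB : 1 + Real.log B ≤ B := by
    have := Real.log_le_sub_one_of_pos (show (0 : ℝ) < B by linarith)
    linarith
  have hlog2 : Real.log u ^ 2 ≤ c * u := by
    rw [Real.norm_eq_abs, Real.norm_eq_abs, abs_of_nonneg (by positivity), abs_of_pos hu] at h3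
    exact h3
  have h7 : B * B ≤ 81 * (c * u) := by nlinarith
  have h8 : C' * B * (1 + Real.log B) ≤ C' * (81 * (c * u)) := by
    have h9 : B * (1 + Real.log B) ≤ 81 * (c * u) := by
      refine le_trans ?_ h7
      exact mul_le_mul_of_nonneg_left hlogB (by linarith)
    calc C' * B * (1 + Real.log B) = C' * (B * (1 + Real.log B)) := by ring
      _ ≤ C' * (81 * (c * u)) := mul_le_mul_of_nonneg_left h9 hC'
  have h10 : C' * (81 * (c * u)) ≤ ε / 2 * u := by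
    calc C' * (81 * (c * u)) = C' * (81 * c) * u := by ring
      _ ≤ ε / 2 * u := mul_le_mul_of_nonneg_right hc hu.le
  have h11 : ε / 2 * u ≤ ε * T := by
    have : u ≤ 2 * T := by linarith
    nlinarith
  linarith

private theorem Barrier_exp : Real.exp (-9) ≤ (2 : ℝ) ^ (-(12 : ℝ)) * (29 / 30) := by
  have h1 : (2.7 : ℝ) ≤ Real.exp 1 := by
    have := Real.exp_one_gt_d9
    norm_num at this ⊢
    linarith
  have h2 : Real.exp 9 = Real.exp 1 ^ 9 := by
    rw [← Real.exp_nat_mul]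
    norm_num
  have h3 : (2.7 : ℝ) ^ 9 ≤ Real.exp 9 := by
    rw [h2]
    exact pow_le_pow_left₀ (by norm_num) h1 9
  have h4 : (2 : ℝ) ^ (-(12 : ℝ)) = 1 / 4096 := by
    rw [Real.rpow_neg (by norm_num)]
    have : (2 : ℝ) ^ (12 : ℝ) = 2 ^ (12 : ℕ) := by
      rw [← Real.rpow_natCast]
      norm_num
    rw [this]
    norm_num
  rw [h4, Real.exp_neg, inv_le_comm₀ (Real.exp_pos 9) (by norm_num)]
  refine le_trans ?_ h3
  norm_num

theorem barrier (ε : ℝ) (hε : 0 < ε) : ∃ T0 : ℝ, ∀ T : ℝ, T0 ≤ T → ∃ T' ∈ Icc T (T + 1),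
    ∀ w : ℂ, |w.im| = T' → -1 ≤ w.re → w.re ≤ 11 → Real.exp (-(ε * T)) ≤ ‖riemannZeta w - 1‖ := by
  obtain ⟨C, hC, hgr⟩ := growth
  obtain ⟨C', hC', hmm⟩ := min_mod (27 / 2) 15 (by norm_num) (by norm_num)
  obtain ⟨T0, hT0, hB⟩ := Barrier_B C C' ε hC hC' hε
  refine ⟨T0, ?_⟩
  intro T hT
  have hT20 : 20 ≤ T := hT0.trans hT
  have hBT := hB T hT
  have hup : (1 : ℝ) ≤ (T + 15) ^ 8 := one_le_pow₀ (by linarith)
  have hCu : 1 ≤ C * (T + 15) ^ 8 := by nlinarith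
  obtain ⟨B, hBdef⟩ : ∃ B : ℝ, B = Real.log (1 + C * (T + 15) ^ 8) + 9 := ⟨_, rfl⟩
  rw [← hBdef] at hBT
  have hlog0 : 0 ≤ Real.log (1 + C * (T + 15) ^ 8) := Real.log_nonneg (by linarith)
  have hB1 : 1 ≤ B := by
    rw [hBdef]
    linarith
  obtain ⟨w0, hw0⟩ : ∃ w0 : ℂ, w0 = ⟨12, T⟩ := ⟨_, rfl⟩
  have hre0 : w0.re = 12 := by rw [hw0]
  have him0 : w0.im = T := by rw [hw0]
  have hball : ∀ w ∈ closedBall w0 15, -3 ≤ w.re ∧ w.re ≤ 27 ∧ T - 15 ≤ w.im ∧ w.im ≤ T + 15 := by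
    intro w hw
    rw [mem_closedBall, dist_eq_norm] at hw
    have h1 : |w.re - 12| ≤ 15 := by
      have := (Complex.abs_re_le_norm (w - w0)).trans hw
      rwa [Complex.sub_re, hre0] at this
    have h2 : |w.im - T| ≤ 15 := by
      have := (Complex.abs_im_le_norm (w - w0)).trans hw
      rwa [Complex.sub_im, him0] at this
    rw [abs_le] at h1 h2
    exact ⟨by linarith, by linarith, by linarith, by linarith⟩
  have han : ∀ w ∈ closedBall w0 15, AnalyticAt ℂ (fun w => riemannZeta w - 1) w := by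
    intro w hw
    obtain ⟨_, _, h3, _⟩ := hball w hw
    have hne : w ≠ 1 := by
      intro h0
      rw [h0, Complex.one_im] at h3
      linarith
    have h1 : AnalyticAt ℂ riemannZeta w := by
      have h2 : DifferentiableOn ℂ riemannZeta ({1}ᶜ : Set ℂ) := fun z hz =>
        (differentiableAt_riemannZeta hz).differentiableWithinAt
      exact h2.analyticAt (isOpen_compl_singleton.mem_nhds hne)
    exact h1.sub analyticAt_const
  have hup2 : ∀ w ∈ closedBall w0 15, ‖riemannZeta w - 1‖ ≤ Real.exp B := by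
    intro w hw
    obtain ⟨h1, h2, h3, h4⟩ := hball w hw
    have him : |w.im| = w.im := abs_of_pos (by linarith)
    have h5 := hgr w h1 (by linarith) (by rw [him]; linarith)
    rw [him] at h5
    have h6 : w.im ^ 8 ≤ (T + 15) ^ 8 := pow_le_pow_left₀ (by linarith) h4 8
    have h7 : C * w.im ^ 8 ≤ C * (T + 15) ^ 8 := mul_le_mul_of_nonneg_left h6 (by linarith)
    have h8 : ‖riemannZeta w - 1‖ ≤ ‖riemannZeta w‖ + ‖(1 : ℂ)‖ := norm_sub_le _ _
    rw [norm_one] at h8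
    have h9 : 1 + C * (T + 15) ^ 8 ≤ Real.exp B := by
      rw [← Real.log_le_iff_le_exp (by linarith), hBdef]
      linarith
    linarith
  have hlow : Real.exp (-B) ≤ ‖riemannZeta w0 - 1‖ := by
    have h1 := (tract_low w0 (by rw [hre0]; norm_num)).1
    rw [hre0] at h1
    have h2 : Real.exp (-B) ≤ Real.exp (-9) := by
      rw [Real.exp_le_exp, hBdef]
      linarith
    exact h2.trans (Barrier_exp.trans h1)
  obtain ⟨t, ht, hmin⟩ := hmm (fun w => riemannZeta w - 1) w0 B hB1 han hup2 hlow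
  refine ⟨T + t, ⟨by linarith [ht.1], by linarith [ht.2]⟩, ?_⟩
  have hkey : ∀ w : ℂ, w.im = T + t → -1 ≤ w.re → w.re ≤ 11 →
      Real.exp (-(ε * T)) ≤ ‖riemannZeta w - 1‖ := by
    intro w hw h1 h2
    have h3 : w ∈ closedBall w0 (27 / 2) := by
      rw [mem_closedBall, dist_eq_norm]
      have h4 : ‖w - w0‖ ^ 2 ≤ (27 / 2) ^ 2 := by
        rw [← Complex.normSq_eq_norm_sq, Complex.normSq_apply, Complex.sub_re, Complex.sub_im,
          hre0, him0, hw]
        nlinarith [ht.1, ht.2]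
      exact (pow_le_pow_iff_left₀ (norm_nonneg _) (by norm_num) two_ne_zero).1 h4
    have h5 := hmin w h3 (by rw [him0, hw])
    refine le_trans ?_ h5
    rw [Real.exp_le_exp]
    linarith
  intro w hw h1 h2
  rcases le_or_gt 0 w.im with h3 | h3
  · rw [abs_of_nonneg h3] at hw
    exact hkey w hw h1 h2
  · rw [abs_of_neg h3] at hw
    have h4 := hkey (starRingEnd ℂ w) (by rw [Complex.conj_im]; exact hw)
      (by rw [Complex.conj_re]; exact h1) (by rw [Complex.conj_re]; exact h2)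
    have h5 : riemannZeta (starRingEnd ℂ w) - 1 = starRingEnd ℂ (riemannZeta w - 1) := by
      rw [riemannZeta_conj, map_sub, map_one]
    rw [h5, Complex.norm_conj] at h4
    exact h4

end Pool.Agent.Lib.MP_ec260d_ntA
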