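import Mathlib
import Pool.Agent.Lib.MP_ec260d_ntA.Defs
import Pool.Agent.Lib.MP_ec260d_ntA.ZetaCrit

/-!
# JOB Cluster: a path on which zeta tends to one (about 200 lines)

Suppose `‖w x‖` does not tend to infinity: there is `R > 2` with `‖w x‖ < R` for arbitrarily large `x`.  The set `Z1 = {v ≠ 1 : ζ v = 1}` has finitely many points in the disc of radius `R + 1` (`fiber_finite`), so there is `R' ∈ (R, R + 1)` with no point of `Z1` on the circle `‖v‖ = R'`.
(1) There is `η > 0` with `‖ζ v - 1‖ ≥ η` for `‖v‖ = R'`, (compactness; `R' > 2`, so `v ≠ 1`).  For large `x`: `‖ζ (w x) - 1‖ < η`, so `‖w x‖ ≠ R'`; by the intermediate value theorem and since `‖w x‖ < R < R'` for arbitrarily large `x`: `‖w x‖ < R'` for all large `x`.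
(2) For small `ε > 0` let `K_ε` be the set of `v` with `‖v‖ ≤ R'`, `v ≠ 1`, distance at least `ε` from all the points of `Z1` in the disc.  `inf_{K_ε} ‖ζ v - 1‖ > 0`: near `1` it is large (`zeta_pole`), and outside of a small open disc around `1` use compactness.  So for large `x`, `w x` is in the union of the open discs of radius `ε` around the points
of `Z1 ∩ disc` (finite; nonempty).  For `ε` less than half the minimal distance these discs are disjoint, so by connectedness (`w` continuous on `[x0, ∞)`) `w x` stays in one of them, the disc around `v_ε`.  For `ε' < ε` the point is the same.  So `w x → v`.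
-/

namespace Pool.Agent.Lib.MP_ec260d_ntA

open Complex Set Filter Topology Metric MeasureTheory

theorem cluster (w : ℝ → ℂ) (hw : ContinuousOn w (Ici 0)) (h1 : ∀ x, 0 ≤ x → w x ≠ 1)
    (h : Tendsto (fun x => riemannZeta (w x)) atTop (𝓝 1)) :
    (∃ v : ℂ, v ≠ 1 ∧ riemannZeta v = 1 ∧ Tendsto w atTop (𝓝 v)) ∨
      Tendsto (fun x => ‖w x‖) atTop atTop := by
  by_cases hinf : Tendsto (fun x => ‖w x‖) atTop atTop
  · exact Or.inr hinf
  left
  obtain ⟨R, hR⟩ : ∃ R : ℝ, ¬ ∀ᶠ x in atTop, R ≤ ‖w x‖ := by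
    by_contra hc
    push Not at hc
    exact hinf (tendsto_atTop.2 hc)
  have hfr : ∃ᶠ x in atTop, w x ∈ closedBall (0 : ℂ) R := by
    rw [Filter.not_eventually] at hR
    refine hR.mono fun x hx => ?_
    rw [mem_closedBall_zero_iff]
    exact (not_le.1 hx).le
  obtain ⟨v, -, hv⟩ := (isCompact_closedBall (0 : ℂ) R).exists_mapClusterPt_of_frequently hfr
  have hfre : ∀ U ∈ 𝓝 v, ∃ᶠ x in atTop, w x ∈ U := fun U hU => (mapClusterPt_iff_frequently.1 hv) U hU
  have hev : ∀ η : ℝ, 0 < η → ∀ᶠ x in atTop, ‖riemannZeta (w x) - 1‖ < η := by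
    intro η hη
    have h2 := (Metric.tendsto_nhds.1 h) η hη
    refine h2.mono fun x hx => ?_
    rwa [dist_eq_norm] at hx
  have hvne : v ≠ 1 := by
    intro hv1
    have h3 : ∀ᶠ s in 𝓝[≠] (1 : ℂ), 3 ≤ ‖riemannZeta s‖ := zeta_pole.eventually_ge_atTop 3
    rw [eventually_nhdsWithin_iff] at h3
    rw [hv1] at hfre
    have h4 := hfre _ h3
    obtain ⟨x, hx1, hx2, hx3⟩ := (h4.and_eventually ((hev 1 one_pos).and (eventually_ge_atTop 0))).exists
    have h5 : 3 ≤ ‖riemannZeta (w x)‖ := hx1 (h1 x hx3)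
    have h6 : ‖riemannZeta (w x)‖ ≤ ‖riemannZeta (w x) - 1‖ + ‖(1 : ℂ)‖ := by
      have h7 := norm_add_le (riemannZeta (w x) - 1) 1
      rwa [sub_add_cancel] at h7
    rw [norm_one] at h6
    linarith
  have hcont : ∀ z : ℂ, z ≠ 1 → ContinuousAt riemannZeta z := fun z hz => (differentiableAt_riemannZeta hz).continuousAt
  have hζv : riemannZeta v = 1 := by
    by_contra hne
    have hη : 0 < ‖riemannZeta v - 1‖ / 2 := half_pos (norm_pos_iff.2 (sub_ne_zero.2 hne))
    have h3 : ∀ᶠ z in 𝓝 v, ‖riemannZeta z - riemannZeta v‖ < ‖riemannZeta v - 1‖ / 2 := by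
      have h2 := (Metric.tendsto_nhds.1 (hcont v hvne)) _ hη
      refine h2.mono fun z hz => ?_
      rwa [dist_eq_norm] at hz
    obtain ⟨x, hx1, hx2⟩ := ((hfre _ h3).and_eventually (hev _ hη)).exists
    have hx1' : ‖riemannZeta (w x) - riemannZeta v‖ < ‖riemannZeta v - 1‖ / 2 := hx1
    have h6 := norm_sub_le (riemannZeta (w x) - 1) (riemannZeta (w x) - riemannZeta v)
    have h7 : riemannZeta (w x) - 1 - (riemannZeta (w x) - riemannZeta v) = riemannZeta v - 1 := by ring
    rw [h7] at h6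
    linarith
  -- the point is isolated
  obtain ⟨e0, he0, hiso⟩ : ∃ e0 : ℝ, 0 < e0 ∧ ∀ z : ℂ, ‖z - v‖ < e0 → z ≠ v → z ≠ 1 ∧ riemannZeta z ≠ 1 := by
    have hfin : (({z : ℂ | z ≠ 1 ∧ riemannZeta z = 1 ∧ ‖z‖ ≤ ‖v‖ + 1} \ {v}) ∪ {1}).Finite :=
      ((fiber_finite 1 (‖v‖ + 1)).subset sdiff_subset).union (finite_singleton 1)
    have hnot : v ∉ (({z : ℂ | z ≠ 1 ∧ riemannZeta z = 1 ∧ ‖z‖ ≤ ‖v‖ + 1} \ {v}) ∪ {1}) := by
      rintro (hc | hc)
      · exact hc.2 rfl
      · exact hvne hc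
    have hnhds := hfin.isClosed.isOpen_compl.mem_nhds hnot
    obtain ⟨e, he, hsub⟩ := Metric.mem_nhds_iff.1 hnhds
    refine ⟨min e 1, lt_min he one_pos, ?_⟩
    intro z hz hzv
    have h2 : z ∈ ball v e := by
      rw [mem_ball, dist_eq_norm]
      exact lt_of_lt_of_le hz (min_le_left _ _)
    have h3 := hsub h2
    have hz1 : z ≠ 1 := fun hc => h3 (Or.inr hc)
    refine ⟨hz1, fun hc => h3 (Or.inl ⟨⟨hz1, hc, ?_⟩, hzv⟩)⟩
    have h4 := norm_add_le (z - v) v
    rw [sub_add_cancel] at h4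
    have h5 : ‖z - v‖ < 1 := lt_of_lt_of_le hz (min_le_right _ _)
    linarith
  refine ⟨v, hvne, hζv, ?_⟩
  have hmain : ∀ ε : ℝ, 0 < ε → ε < e0 → ∀ᶠ x in atTop, ‖w x - v‖ < ε := by
    intro ε hε hε0
    have hS : ∀ z ∈ sphere v ε, z ≠ 1 ∧ riemannZeta z ≠ 1 := by
      intro z hz
      rw [mem_sphere, dist_eq_norm] at hz
      refine hiso z (by rw [hz]; exact hε0) ?_
      intro hc
      rw [hc, sub_self, norm_zero] at hz
      linarith
    have hcS : ContinuousOn (fun z => ‖riemannZeta z - 1‖) (sphere v ε) := by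
      intro z hz
      exact ((hcont z (hS z hz).1).sub continuousAt_const).norm.continuousWithinAt
    obtain ⟨η, hη, hηS⟩ := (isCompact_sphere v ε).exists_forall_le' hcS (a := 0)
      (fun z hz => norm_pos_iff.2 (sub_ne_zero.2 (hS z hz).2))
    obtain ⟨x0, hx0⟩ := eventually_atTop.1 (hev η hη)
    obtain ⟨x1, hx1, hx1'⟩ := ((hfre _ (ball_mem_nhds v hε)).and_eventually (eventually_ge_atTop (max x0 0))).exists
    have hx10 : 0 ≤ x1 := le_trans (le_max_right _ _) hx1'
    have hx11 : x0 ≤ x1 := le_trans (le_max_left _ _) hx1'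
    rw [mem_ball, dist_eq_norm] at hx1
    refine eventually_atTop.2 ⟨x1, fun x hx => ?_⟩
    by_contra hc
    push Not at hc
    have hcw : ContinuousOn (fun y => ‖w y - v‖) (Icc x1 x) := by
      refine ContinuousOn.norm (ContinuousOn.sub (hw.mono ?_) continuousOn_const)
      intro y hy
      exact le_trans hx10 hy.1
    obtain ⟨y, hy, hyε⟩ := intermediate_value_Icc hx hcw ⟨hx1.le, hc⟩
    have h2 : w y ∈ sphere v ε := by
      rw [mem_sphere, dist_eq_norm]
      exact hyε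
    have h3 := hηS _ h2
    have h4 := hx0 y (le_trans hx11 hy.1)
    exact absurd h3 (not_le.2 h4)
  rw [Metric.tendsto_nhds]
  intro ε hε
  have h2 := hmain (min ε (e0 / 2)) (lt_min hε (half_pos he0)) (lt_of_le_of_lt (min_le_right _ _) (half_lt_self he0))
  refine h2.mono fun x hx => ?_
  rw [dist_eq_norm]
  exact lt_of_lt_of_le hx (min_le_left _ _)

end Pool.Agent.Lib.MP_ec260d_ntA
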