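import Mathlib
import Pool.Agent.Lib.MP_ec260d_ntA.Defs
import Pool.Agent.Lib.MP_ec260d_ntA.Germ
import Pool.Agent.Lib.MP_ec260d_ntA.ZetaCrit

/-!
# JOB Puis: Puiseux parametrisation at a finite point where zeta is one (about 200 lines)

`ζ - 1` is analytic at `v`, not identically zero near `v` (`fiber_countable`/`fiber_finite`: isolated zeros), of order `m ≥ 1` at `v`: `ζ w - 1 = (w - v)^m k(w)`, `k` analytic, `k v ≠ 0` (`AnalyticAt.analyticOrderAt_eq_natCast` or `AnalyticAt.exists_eventuallyEq_pow_smul_nonzero_iff`).  Near `v` take an analytic `m`-th root `κ` of `k`: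
`κ w = k(v)^(1/m) * exp (log (k w / k v) / m)`.  `ψ w = (w - v) κ w`, `ψ v = 0`, `ψ' v = κ v ≠ 0`, `ζ w - 1 = ψ(w)^m` near `v`.  Local inverse `H` of `ψ` at `0`: analytic on a ball of radius `r`, `H 0 = v`, `ψ (H u) = u`, `H (ψ w) = w` for `w` near `v`.  So `ζ (H u) = 1 + u^m`.  Shrink `r` so that `H u ≠ 1` on the ball.  `H u ∈ EE` for `u ≠ 0`:
differentiate: `ζ' (H u) H' u = m u^(m-1) ≠ 0`.
`puis`: for large `x`, `w x` is near `v`, `u₀ = ψ (w x) ∈ ball 0 r`, `H u₀ = w x`, `u₀ ≠ 0` since `ζ (w x) ≠ 1`.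
`RR_open`: given the data at `w`, `H' u₀ ≠ 0` (same computation), so `H` maps neighbourhoods of `u₀` onto neighbourhoods of `w` (`HasStrictDerivAt.map_nhds_eq_of_equiv` or similar): for `w'` near `w` there is `u₀'` near `u₀` with `H u₀' = w'`.
-/

namespace Pool.Agent.Lib.MP_ec260d_ntA

open Complex Set Filter Topology Metric MeasureTheory

/-- local normal form -/
private theorem Puis_normal (f : ℂ → ℂ) (v : ℂ) (hf : AnalyticAt ℂ f v) (h0 : f v = 0)
    (hn : ¬ ∀ᶠ w in 𝓝 v, f w = 0) :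
    ∃ (m : ℕ) (ψ : ℂ → ℂ), 1 ≤ m ∧ AnalyticAt ℂ ψ v ∧ ψ v = 0 ∧ deriv ψ v ≠ 0 ∧
      ∀ᶠ w in 𝓝 v, f w = ψ w ^ m := by
  have hne : analyticOrderAt f v ≠ ⊤ := fun h => hn (analyticOrderAt_eq_top.1 h)
  obtain ⟨g, hg, hg0, hfg⟩ := hf.analyticOrderAt_ne_top.1 hne
  set m := analyticOrderNatAt f v with hm
  have hm1 : 1 ≤ m := by
    rcases Nat.eq_zero_or_pos m with h | h
    · exfalso
      have h1 := hfg.self_of_nhds
      have h2 : f v = (v - v) ^ m • g v := h1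
      rw [h0, h, pow_zero, one_smul] at h2
      exact hg0 h2.symm
    · exact h
  have hmC : (m : ℂ) ≠ 0 := by exact_mod_cast (by omega : m ≠ 0)
  -- the root
  have ha1 : AnalyticAt ℂ (fun w => g w / g v) v := hg.div analyticAt_const hg0
  have ha2 : AnalyticAt ℂ (fun w => Complex.log (g w / g v)) v := by
    refine ha1.clog ?_
    rw [div_self hg0]
    exact Complex.one_mem_slitPlane
  obtain ⟨c, hc⟩ := IsAlgClosed.exists_pow_nat_eq (g v) (n := m) (by omega)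
  have hc0 : c ≠ 0 := by
    rintro rfl
    rw [zero_pow (by omega)] at hc
    exact hg0 hc.symm
  have ha3 : AnalyticAt ℂ (fun w => c * Complex.exp (Complex.log (g w / g v) / m)) v := by
    refine analyticAt_const.mul ?_
    exact (ha2.div analyticAt_const hmC).cexp
  have hk : ∀ᶠ w in 𝓝 v, (c * Complex.exp (Complex.log (g w / g v) / m)) ^ m = g w := by
    have h1 : ∀ᶠ w in 𝓝 v, g w ≠ 0 := hg.continuousAt.eventually_ne hg0
    filter_upwards [h1] with w hw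
    have h2 : Complex.exp (Complex.log (g w / g v) / m) ^ m = g w / g v := by
      rw [← Complex.exp_nat_mul, mul_div_cancel₀ _ hmC, Complex.exp_log (div_ne_zero hw hg0)]
    rw [mul_pow, hc, h2, mul_div_cancel₀ _ hg0]
  refine ⟨m, fun w => (w - v) * (c * Complex.exp (Complex.log (g w / g v) / m)), hm1, ?_, ?_, ?_, ?_⟩
  · exact (analyticAt_id.sub analyticAt_const).mul ha3
  · simp
  · have h1 : HasDerivAt (fun w => w - v) 1 v := (hasDerivAt_id v).sub_const v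
    have h2 := h1.mul ha3.differentiableAt.hasDerivAt
    have h3 : deriv (fun w => (w - v) * (c * Complex.exp (Complex.log (g w / g v) / m))) v =
        1 * (c * Complex.exp (Complex.log (g v / g v) / m)) +
          (v - v) * deriv (fun w => c * Complex.exp (Complex.log (g w / g v) / m)) v := h2.deriv
    rw [h3, sub_self, zero_mul, add_zero, one_mul]
    exact mul_ne_zero hc0 (Complex.exp_ne_zero _)
  · filter_upwards [hk, hfg] with w hw1 hw2
    rw [hw2, mul_pow, hw1, smul_eq_mul]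

/-- the derivative at the points of the parametrisation -/
private theorem Puis_deriv (m : ℕ) (hm : 1 ≤ m) (r : ℝ) (H : ℂ → ℂ)
    (hH : DifferentiableOn ℂ H (ball 0 r))
    (h : ∀ u ∈ ball (0 : ℂ) r, u ≠ 0 → H u ≠ 1 ∧ riemannZeta (H u) = 1 + u ^ m)
    (u : ℂ) (hu : u ∈ ball (0 : ℂ) r) (hu0 : u ≠ 0) :
    deriv riemannZeta (H u) * deriv H u = m * u ^ (m - 1) := by
  have h1 : HasDerivAt H (deriv H u) u :=
    ((hH u hu).differentiableAt (isOpen_ball.mem_nhds hu)).hasDerivAt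
  have h2 : HasDerivAt riemannZeta (deriv riemannZeta (H u)) (H u) :=
    (differentiableAt_riemannZeta (h u hu hu0).1).hasDerivAt
  have h3 := h2.comp u h1
  have h4 : HasDerivAt (fun z : ℂ => 1 + z ^ m) (m * u ^ (m - 1)) u := by
    have h5 := (hasDerivAt_pow m u).const_add 1
    simpa using h5
  have h5 : (riemannZeta ∘ H) =ᶠ[𝓝 u] fun z : ℂ => 1 + z ^ m := by
    filter_upwards [isOpen_ball.mem_nhds hu, isOpen_ne.mem_nhds hu0] with z hz1 hz2
    exact (h z hz1 hz2).2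
  exact h3.unique (h4.congr_of_eventuallyEq h5)

private theorem Puis_not (v : ℂ) (hv : v ≠ 1) : ¬ ∀ᶠ w in 𝓝 v, riemannZeta w - 1 = 0 := by
  intro h
  have h1 := fiber_finite 1 (‖v‖ + 1)
  have h2 : {w : ℂ | w ≠ 1 ∧ riemannZeta w = 1 ∧ ‖w‖ ≤ ‖v‖ + 1} ∈ 𝓝 v := by
    have h3 : ∀ᶠ w : ℂ in 𝓝 v, ‖w‖ < ‖v‖ + 1 :=
      continuous_norm.continuousAt.eventually_lt continuousAt_const (by simp)
    filter_upwards [h, isOpen_ne.mem_nhds hv, h3] with w hw1 hw2 hw3
    exact ⟨hw2, by linear_combination hw1, hw3.le⟩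
  exact infinite_of_mem_nhds v h2 h1

theorem puis (v : ℂ) (hv : v ≠ 1) (h1 : riemannZeta v = 1) (w : ℝ → ℂ) (hw : Tendsto w atTop (𝓝 v))
    (hne : ∀ᶠ x in atTop, riemannZeta (w x) ≠ 1) : ∀ᶠ x in atTop, RR (w x) := by
  have hza : AnalyticAt ℂ (fun w => riemannZeta w - 1) v := (zeta_analytic v hv).sub analyticAt_const
  obtain ⟨m, ψ, hm, hψ, hψ0, hψd, hev⟩ := Puis_normal _ v hza (by simp [h1]) (Puis_not v hv)
  set H : ℂ → ℂ := hψ.hasStrictDerivAt.localInverse _ _ _ hψd with hHdef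
  have hHa : AnalyticAt ℂ H 0 := by
    have h2 := hψ.analyticAt_localInverse hψd
    rw [hψ0] at h2
    exact h2
  have hHl : ∀ᶠ w in 𝓝 v, H (ψ w) = w := HasStrictDerivAt.eventually_left_inverse ..
  have hHr : ∀ᶠ u in 𝓝 (0 : ℂ), ψ (H u) = u := by
    have h2 : ∀ᶠ u in 𝓝 (ψ v), ψ (H u) = u := HasStrictDerivAt.eventually_right_inverse ..
    rwa [hψ0] at h2
  have hH0 : H 0 = v := by
    have h2 := hHl.self_of_nhds
    rwa [hψ0] at h2
  have hHt : Tendsto H (𝓝 0) (𝓝 v) := by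
    have h2 := hHa.continuousAt.tendsto
    rwa [hH0] at h2
  have hall : ∀ᶠ u in 𝓝 (0 : ℂ), AnalyticAt ℂ H u ∧ H u ≠ 1 ∧ riemannZeta (H u) = 1 + u ^ m := by
    filter_upwards [hHa.eventually_analyticAt, hHt.eventually (isOpen_ne.mem_nhds hv),
      hHt.eventually hev, hHr] with u hu1 hu2 hu3 hu4
    refine ⟨hu1, hu2, ?_⟩
    rw [hu4] at hu3
    linear_combination hu3
  obtain ⟨r, hr, hball⟩ := Metric.eventually_nhds_iff_ball.1 hall
  have hd : DifferentiableOn ℂ H (ball 0 r) := fun u hu =>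
    (hball u hu).1.differentiableAt.differentiableWithinAt
  have hEE : ∀ u ∈ ball (0 : ℂ) r, u ≠ 0 → H u ∈ EE ∧ riemannZeta (H u) = 1 + u ^ m := by
    intro u hu hu0
    refine ⟨⟨(hball u hu).2.1, fun h2 => ?_⟩, (hball u hu).2.2⟩
    have h3 := Puis_deriv m hm r H hd (fun z hz _ => (hball z hz).2) u hu hu0
    rw [h2, zero_mul] at h3
    have h4 : (m : ℂ) * u ^ (m - 1) ≠ 0 :=
      mul_ne_zero (by exact_mod_cast (by omega : m ≠ 0)) (pow_ne_zero _ hu0)
    exact h4 h3.symm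
  have hψt : Tendsto (fun x => ψ (w x)) atTop (𝓝 0) := by
    have h2 := hψ.continuousAt.tendsto.comp hw
    rwa [hψ0] at h2
  filter_upwards [hne, hw.eventually hHl, hψt.eventually (isOpen_ball.mem_nhds (mem_ball_self hr))]
    with x hx1 hx2 hx3
  refine ⟨m, r, H, ψ (w x), hm, hr, hd, hEE, hx3, fun h2 => ?_, hx2⟩
  rw [h2, hH0] at hx2
  exact hx1 (by rw [← hx2, h1])

theorem RR_open (w : ℂ) (h : RR w) : ∀ᶠ w' in 𝓝 w, RR w' := by
  obtain ⟨m, r, H, u₀, hm, hr, hd, hE, hu, hu0, hw⟩ := h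
  have h1 := Puis_deriv m hm r H hd (fun z hz hz0 => ⟨(hE z hz hz0).1.1, (hE z hz hz0).2⟩) u₀ hu hu0
  have h2 : deriv H u₀ ≠ 0 := by
    intro h3
    rw [h3, mul_zero] at h1
    have h4 : (m : ℂ) * u₀ ^ (m - 1) ≠ 0 :=
      mul_ne_zero (by exact_mod_cast (by omega : m ≠ 0)) (pow_ne_zero _ hu0)
    exact h4 h1.symm
  have h3 : AnalyticAt ℂ H u₀ := hd.analyticAt (isOpen_ball.mem_nhds hu)
  have h4 := h3.hasStrictDerivAt.map_nhds_eq h2
  rw [← hw, ← h4, eventually_map]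
  filter_upwards [isOpen_ball.mem_nhds hu, isOpen_ne.mem_nhds hu0] with z hz1 hz2
  exact ⟨m, r, H, z, hm, hr, hd, hE, hz1, hz2, rfl⟩

end Pool.Agent.Lib.MP_ec260d_ntA
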