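import Mathlib
import Pool.Agent.Lib.MP_ec260d_ntA.Defs
import Pool.Agent.Lib.MP_ec260d_ntA.EfCont

/-!
# JOB Shift: translation by a period (about 120 lines)

`chk k` is `CM` (`n^(-sh k) m^(-sh k) = (n m)^(-sh k)` for positive integers: `Complex.natCast_mul_natCast_cpow`; `2^(-sh k) = exp (-2 π i k) = 1`; the exponent is purely imaginary, so the modulus is `1` for `n ≥ 1`, `Complex.norm_natCast_cpow_of_pos`; for `n = 0` the value is `0`).
`ef_shift`: for `CM χ`: `ZZ χ (ξ + sh k + E) = ∑ χ n n^(-sh k) n^(-(ξ+E)) = ZZ (chk k * χ) (ξ + E)` (`Complex.cpow_add`) and `2^(-(ξ + sh k)) = 2^(-ξ)`.  So the two equations defining `ef χ (ξ + sh k)` and `ef (fun n => chk k n * χ n) ξ` coincide; use `ef_spec`, `ef_unique`.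
`sh_add`, `chk_add`: immediate.  `period`: if `2^(-ξ) = 2^(-ξ')` then `exp ((ξ' - ξ) log 2) = 1`, `Complex.exp_eq_one_iff`.
-/

namespace Pool.Agent.Lib.MP_ec260d_ntA

open Complex Set Filter Topology Metric MeasureTheory

private theorem Shift_log2 : (Real.log 2 : ℂ) ≠ 0 := by
  exact_mod_cast (Real.log_pos one_lt_two).ne'

private theorem Shift_sh_re (k : ℤ) : (sh k).re = 0 := by
  have h : sh k = ((2 * Real.pi * k / Real.log 2 : ℝ) : ℂ) * I := by
    unfold sh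
    push_cast
    ring
  rw [h, Complex.re_ofReal_mul, Complex.I_re, mul_zero]

private theorem Shift_log_two : Complex.log (2 : ℂ) = (Real.log 2 : ℂ) := by
  have := Complex.natCast_log (n := 2)
  push_cast at this
  rw [← this]

private theorem Shift_two (k : ℤ) : (2 : ℂ) ^ (-(sh k)) = 1 := by
  rw [Complex.cpow_def_of_ne_zero two_ne_zero, Shift_log_two]
  have h : (Real.log 2 : ℂ) * (-(sh k)) = ((-k : ℤ) : ℂ) * (2 * Real.pi * I) := by
    unfold sh
    have := Shift_log2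
    field_simp
    push_cast
    ring
  rw [h]
  exact Complex.exp_int_mul_two_pi_mul_I (-k)

private theorem Shift_norm (k : ℤ) (n : ℕ) (hn : n ≠ 0) : ‖chk k n‖ = 1 := by
  unfold chk
  rw [if_neg hn, Complex.norm_natCast_cpow_of_pos (Nat.pos_of_ne_zero hn)]
  simp [Shift_sh_re]

theorem chk_CM (k : ℤ) : CM (chk k) := by
  refine ⟨?_, ?_, ?_, ?_⟩
  · simp [chk]
  · have h : chk k 2 = (2 : ℂ) ^ (-(sh k)) := by
      unfold chk
      norm_num
    rw [h, Shift_two]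
  · intro m n hm hn
    unfold chk
    rw [if_neg hm, if_neg hn, if_neg (mul_ne_zero hm hn)]
    push_cast
    exact Complex.natCast_mul_natCast_cpow m n _
  · intro n
    rcases eq_or_ne n 0 with h | h
    · subst h
      simp [chk]
    · rw [Shift_norm k n h]

theorem chk_norm (k : ℤ) (n : ℕ) (hn : n ≠ 0) : ‖chk k n‖ = 1 := by
  exact Shift_norm k n hn

theorem CM_mul (χ χ' : ℕ → ℂ) (h : CM χ) (h' : CM χ') : CM (fun n => χ n * χ' n) := by
  obtain ⟨h1, h2, h3, h4⟩ := h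
  obtain ⟨g1, g2, g3, g4⟩ := h'
  refine ⟨?_, ?_, ?_, ?_⟩
  · simp [h1, g1]
  · simp [h2, g2]
  · intro m n hm hn
    simp only [h3 m n hm hn, g3 m n hm hn]
    ring
  · intro n
    simp only [norm_mul]
    calc ‖χ n‖ * ‖χ' n‖ ≤ 1 * 1 := mul_le_mul (h4 n) (g4 n) (norm_nonneg _) zero_le_one
      _ = 1 := one_mul 1

theorem sh_add (k l : ℤ) : sh (k + l) = sh k + sh l := by
  unfold sh
  push_cast
  ring

theorem chk_add (k l : ℤ) (n : ℕ) : chk (k + l) n = chk k n * chk l n := by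
  unfold chk
  rcases eq_or_ne n 0 with h | h
  · simp [h]
  · rw [if_neg h, if_neg h, if_neg h, sh_add, neg_add,
      Complex.cpow_add _ _ (Nat.cast_ne_zero.mpr h)]

theorem sh_re (k : ℤ) : (sh k).re = 0 := by
  exact Shift_sh_re k

theorem two_cpow_sh (ξ : ℂ) (k : ℤ) : (2 : ℂ) ^ (-(ξ + sh k)) = (2 : ℂ) ^ (-ξ) := by
  rw [neg_add, Complex.cpow_add _ _ two_ne_zero, Shift_two, mul_one]

theorem period (ξ ξ' : ℂ) (h : (2 : ℂ) ^ (-ξ) = (2 : ℂ) ^ (-ξ')) : ∃ k : ℤ, ξ' = ξ + sh k := by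
  rw [Complex.cpow_def_of_ne_zero two_ne_zero, Complex.cpow_def_of_ne_zero two_ne_zero,
    Shift_log_two, Complex.exp_eq_exp_iff_exists_int] at h
  obtain ⟨k, hk⟩ := h
  refine ⟨k, ?_⟩
  have h2 := Shift_log2
  have h3 : (Real.log 2 : ℂ) * ξ' = (Real.log 2 : ℂ) * ξ + k * (2 * Real.pi * I) := by
    linear_combination hk
  unfold sh
  have h4 : ξ' = ((Real.log 2 : ℂ) * ξ') / (Real.log 2 : ℂ) := by
    rw [mul_div_cancel_left₀ _ h2]
  rw [h4, h3]
  field_simp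

theorem ef_shift (χ : ℕ → ℂ) (hχ : CM χ) (ξ : ℂ) (hξ : 10 ≤ ξ.re) (k : ℤ) :
    ef χ (ξ + sh k) = ef (fun n => chk k n * χ n) ξ := by
  have hre : 10 ≤ (ξ + sh k).re := by
    rw [Complex.add_re, Shift_sh_re, add_zero]
    exact hξ
  obtain ⟨h1, h2⟩ := ef_spec χ hχ (ξ + sh k) hre
  refine ef_unique (fun n => chk k n * χ n) (CM_mul _ _ (chk_CM k) hχ) ξ hξ _ h1 ?_
  rw [two_cpow_sh] at h2
  rw [← h2]
  unfold ZZ
  refine tsum_congr fun n => ?_
  have hn : n + 2 ≠ 0 := by omega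
  have hc : ((n + 2 : ℕ) : ℂ) ≠ 0 := Nat.cast_ne_zero.mpr hn
  have h3 : chk k (n + 2) = ((n + 2 : ℕ) : ℂ) ^ (-(sh k)) := by
    unfold chk
    rw [if_neg hn]
  have h4 : -(ξ + sh k + ef χ (ξ + sh k)) = -(sh k) + -(ξ + ef χ (ξ + sh k)) := by ring
  rw [h4, Complex.cpow_add _ _ hc]
  show chk k (n + 2) * χ (n + 2) * _ = _
  rw [h3]
  ring

theorem SS_shift (ξ : ℂ) (hξ : 10 ≤ ξ.re) (k : ℤ) : SS (ξ + sh k) = ξ + sh k + ef (chk k) ξ := by
  have h1 : CM (fun _ : ℕ => (1 : ℂ)) := by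
    refine ⟨rfl, rfl, ?_, ?_⟩
    · intro m n _ _
      simp
    · intro n
      simp
  unfold SS
  rw [ef_shift _ h1 ξ hξ k]
  simp only [mul_one]

end Pool.Agent.Lib.MP_ec260d_ntA
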