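import Mathlib
import Pool.Agent.Lib.MP_ec260d_ntA.Defs
import Pool.Agent.Lib.MP_ec260d_ntA.RelA
import Pool.Agent.Lib.MP_ec260d_ntA.Shift
import Pool.Agent.Lib.MP_ec260d_ntA.Puis

/-!
# JOB Loop: loops around the value one (about 200 lines)

For `i ∉ I` take the data `m_i, r_i, H_i, u_i` of `RR (w i)`; `ζ (w i) = b` gives `u_i^(m_i) = b - 1`.  Let `M = ∏_{i ∉ I} m_i ≥ 1` (as an integer), `m ∈ ℕ`.  Path on `[0, X]`, `X = 2π M m`: `c(θ) = 1 + (b - 1) exp (-iθ)`;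
for `i ∈ I`: `w_i(θ) = SS (ξ_i + iθ / log 2)`: `ζ = 1 + 2^(-ξ_i) exp (-iθ) = c(θ)` (`zeta_SS`; `2^(-iθ/log 2) = exp (-iθ)`), real part of the argument is `Re ξ_i ≥ 10`, continuous (`SS_cont`), in `EE` (`SS_EE`); at the end the argument is `ξ_i + 2πi M m/log 2 = ξ_i + sh (M m)`.
for `i ∉ I`: `w_i(θ) = H_i (u_i exp (-iθ / m_i))`, `‖u_i exp(..)‖ = ‖u_i‖ < r_i`, not zero, so in `EE`, `ζ = 1 + u_i^(m_i) exp (-iθ) = c(θ)`; at `θ = 2π M m`: `exp (-2πi M m / m_i) = 1` since `m_i ∣ M`.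
At `θ = 0` the values are `SS ξ_i = w i`, `H_i u_i = w i`.  `rel_cont`.
-/

namespace Pool.Agent.Lib.MP_ec260d_ntA

open Complex Set Filter Topology Metric MeasureTheory

private theorem Loop_two (ξ : ℂ) (θ : ℝ) :
    (2 : ℂ) ^ (-(ξ + Complex.I * θ / Real.log 2)) =
      (2 : ℂ) ^ (-ξ) * Complex.exp (-(Complex.I * θ)) := by
  have h2 : (2 : ℂ) ≠ 0 := two_ne_zero
  have hl : ((Real.log 2 : ℝ) : ℂ) ≠ 0 := by
    exact_mod_cast (Real.log_pos one_lt_two).ne'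
  have hlog : Complex.log 2 = ((Real.log 2 : ℝ) : ℂ) := by
    rw [Complex.ofReal_log (by norm_num)]
    norm_num
  rw [Complex.cpow_def_of_ne_zero h2, Complex.cpow_def_of_ne_zero h2, ← Complex.exp_add, hlog]
  congr 1
  field_simp
  ring

private theorem Loop_re (ξ : ℂ) (θ : ℝ) : (ξ + Complex.I * θ / Real.log 2).re = ξ.re := by
  have h1 : Complex.I * (θ : ℂ) / ((Real.log 2 : ℝ) : ℂ) = ((θ / Real.log 2 : ℝ) : ℂ) * Complex.I := by
    push_cast
    ring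
  rw [Complex.add_re, h1, Complex.re_ofReal_mul, Complex.I_re, mul_zero, add_zero]

private theorem Loop_norm (u : ℂ) (m : ℕ) (θ : ℝ) :
    ‖u * Complex.exp (-(Complex.I * θ) / m)‖ = ‖u‖ := by
  have h1 : -(Complex.I * (θ : ℂ)) / (m : ℂ) = ((-(θ / m) : ℝ) : ℂ) * Complex.I := by
    push_cast
    ring
  rw [norm_mul, h1, Complex.norm_exp_ofReal_mul_I, mul_one]

private theorem Loop_pow (u : ℂ) (m : ℕ) (hm : 1 ≤ m) (θ : ℝ) :
    (u * Complex.exp (-(Complex.I * θ) / m)) ^ m = u ^ m * Complex.exp (-(Complex.I * θ)) := by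
  have h0 : (m : ℂ) ≠ 0 := by
    exact_mod_cast (Nat.one_le_iff_ne_zero.1 hm)
  rw [mul_pow, ← Complex.exp_nat_mul]
  congr 2
  field_simp

private theorem Loop_one (k : ℕ) : Complex.exp (-(Complex.I * ((2 * Real.pi * k : ℝ) : ℂ))) = 1 := by
  rw [Complex.exp_neg, inv_eq_one]
  have h1 : Complex.I * ((2 * Real.pi * k : ℝ) : ℂ) = ((k : ℤ) : ℂ) * (2 * Real.pi * Complex.I) := by
    push_cast
    ring
  rw [h1]
  exact Complex.exp_int_mul_two_pi_mul_I _

theorem loop {n : ℕ} (P : MvPolynomial (Option (Fin n)) ℂ) (b : ℂ) (w ξ : Fin n → ℂ)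
    (I : Finset (Fin n)) (hζ : ∀ i, riemannZeta (w i) = b) (hR : Rel P b w)
    (hI : ∀ i ∈ I, 10 ≤ (ξ i).re ∧ SS (ξ i) = w i ∧ b = 1 + (2 : ℂ) ^ (-(ξ i)))
    (hJ : ∀ i, i ∉ I → RR (w i)) :
    ∃ M : ℤ, M ≠ 0 ∧ ∀ m : ℕ, Rel P b (fun i => if i ∈ I then SS (ξ i + sh (M * m)) else w i) := by
  classical
  have h1 : ∀ i, ∃ (m : ℕ) (r : ℝ) (H : ℂ → ℂ) (u : ℂ), 1 ≤ m ∧ (i ∉ I → 0 < r ∧
      DifferentiableOn ℂ H (ball 0 r) ∧
      (∀ u ∈ ball (0 : ℂ) r, u ≠ 0 → H u ∈ EE ∧ riemannZeta (H u) = 1 + u ^ m) ∧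
      u ∈ ball (0 : ℂ) r ∧ u ≠ 0 ∧ H u = w i) := by
    intro i
    by_cases hi : i ∈ I
    · exact ⟨1, 1, fun _ => 0, 0, le_refl _, fun h => absurd hi h⟩
    · obtain ⟨m, r, H, u, hm, hr⟩ := hJ i hi
      exact ⟨m, r, H, u, hm, fun _ => hr⟩
  choose mi r H u hm hd using h1
  refine ⟨((∏ i, mi i : ℕ) : ℤ), ?_, ?_⟩
  · rw [Ne, Nat.cast_eq_zero, Finset.prod_eq_zero_iff]
    rintro ⟨i, -, hi⟩
    have := hm i
    omega
  intro m
  set M0 : ℕ := ∏ i, mi i with hM0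
  have hX : (0 : ℝ) ≤ 2 * Real.pi * ((M0 * m : ℕ) : ℝ) :=
    mul_nonneg (mul_nonneg zero_le_two Real.pi_pos.le) (Nat.cast_nonneg _)
  have hu : ∀ i, i ∉ I → (u i) ^ (mi i) = b - 1 := by
    intro i hi
    obtain ⟨hr, hD, hH, hu1, hu2, hu3⟩ := hd i hi
    have h2 := (hH _ hu1 hu2).2
    rw [hu3, hζ i] at h2
    rw [h2]
    ring
  have key := rel_cont P (2 * Real.pi * ((M0 * m : ℕ) : ℝ)) hX
    (fun θ : ℝ => 1 + (b - 1) * Complex.exp (-(Complex.I * θ)))
    (fun i θ => if i ∈ I then SS (ξ i + Complex.I * θ / Real.log 2) else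
      H i (u i * Complex.exp (-(Complex.I * θ) / (mi i)))) ?_ ?_ ?_ ?_
  · have h2 : (1 + (b - 1) * Complex.exp (-(Complex.I * ((2 * Real.pi * ((M0 * m : ℕ) : ℝ) : ℝ) : ℂ)))) = b := by
      rw [Loop_one]
      ring
    have h3 : (fun i => if i ∈ I then
        SS (ξ i + Complex.I * ((2 * Real.pi * ((M0 * m : ℕ) : ℝ) : ℝ) : ℂ) / Real.log 2) else
        H i (u i * Complex.exp (-(Complex.I * ((2 * Real.pi * ((M0 * m : ℕ) : ℝ) : ℝ) : ℂ)) / (mi i)))) =
        (fun i => if i ∈ I then SS (ξ i + sh ((M0 : ℤ) * m)) else w i) := by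
      funext i
      by_cases hi : i ∈ I
      · rw [if_pos hi, if_pos hi]
        congr 2
        rw [sh]
        push_cast
        ring
      · rw [if_neg hi, if_neg hi]
        obtain ⟨hr, hD, hH, hu1, hu2, hu3⟩ := hd i hi
        obtain ⟨q, hq⟩ : mi i ∣ M0 := Finset.dvd_prod_of_mem mi (Finset.mem_univ i)
        have h0 : (mi i : ℂ) ≠ 0 := by
          exact_mod_cast (Nat.one_le_iff_ne_zero.1 (hm i))
        have h4 : -(Complex.I * ((2 * Real.pi * ((M0 * m : ℕ) : ℝ) : ℝ) : ℂ)) / (mi i) =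
            -(Complex.I * ((2 * Real.pi * ((q * m : ℕ) : ℝ) : ℝ) : ℂ)) := by
          rw [hq]
          push_cast
          field_simp
        rw [h4, Loop_one, mul_one, hu3]
    rw [h2, h3] at key
    exact key
  · exact Continuous.continuousOn (by fun_prop)
  · intro i
    by_cases hi : i ∈ I
    · simp only [if_pos hi]
      refine ContinuousOn.comp (t := {ξ : ℂ | 10 ≤ ξ.re}) SS_cont
        (Continuous.continuousOn (by fun_prop)) ?_
      intro θ _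
      rw [mem_ofPred_eq, Loop_re]
      exact (hI i hi).1
    · simp only [if_neg hi]
      obtain ⟨hr, hD, hH, hu1, hu2, hu3⟩ := hd i hi
      refine ContinuousOn.comp (t := ball (0 : ℂ) (r i)) hD.continuousOn
        (Continuous.continuousOn (by fun_prop)) ?_
      intro θ _
      rw [mem_ball_zero_iff, Loop_norm]
      rw [mem_ball_zero_iff] at hu1
      exact hu1
  · intro i θ _
    by_cases hi : i ∈ I
    · simp only [if_pos hi]
      obtain ⟨h10, h11, h12⟩ := hI i hi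
      have h13 : 10 ≤ (ξ i + Complex.I * θ / Real.log 2).re := by
        rw [Loop_re]
        exact h10
      refine ⟨SS_EE _ h13, ?_⟩
      rw [zeta_SS _ h13, Loop_two, h12]
      ring
    · simp only [if_neg hi]
      obtain ⟨hr, hD, hH, hu1, hu2, hu3⟩ := hd i hi
      have h14 : u i * Complex.exp (-(Complex.I * θ) / (mi i)) ∈ ball (0 : ℂ) (r i) := by
        rw [mem_ball_zero_iff, Loop_norm]
        rw [mem_ball_zero_iff] at hu1
        exact hu1
      have h15 := hH _ h14 (mul_ne_zero hu2 (Complex.exp_ne_zero _))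
      refine ⟨h15.1, ?_⟩
      rw [h15.2, Loop_pow _ _ (hm i), hu i hi]
  · have h2 : (1 + (b - 1) * Complex.exp (-(Complex.I * ((0 : ℝ) : ℂ)))) = b := by
      rw [Complex.ofReal_zero, mul_zero, neg_zero, Complex.exp_zero]
      ring
    have h3 : (fun i => if i ∈ I then SS (ξ i + Complex.I * ((0 : ℝ) : ℂ) / Real.log 2) else
        H i (u i * Complex.exp (-(Complex.I * ((0 : ℝ) : ℂ)) / (mi i)))) = w := by
      funext i
      by_cases hi : i ∈ I
      · rw [if_pos hi, Complex.ofReal_zero, mul_zero, zero_div, add_zero]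
        exact (hI i hi).2.1
      · rw [if_neg hi, Complex.ofReal_zero, mul_zero, neg_zero, zero_div, Complex.exp_zero, mul_one]
        exact (hd i hi).2.2.2.2.2
    rw [h2, h3]
    exact hR

end Pool.Agent.Lib.MP_ec260d_ntA
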