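import Mathlib
import Pool.Agent.Lib.MP_ec260d_ntA.Defs

/-!
# JOB Split: a nonzero polynomial has a nonzero coefficient (about 100 lines)

`e : Fin r ⊕ Fin j ≃ Fin n`.  Regard `P ≠ 0` as a polynomial in the variables `x : Fin r → ℂ` with coefficients in `MvPolynomial (Option (Fin j)) ℂ` (rename the variables along `Option (Fin n) ≃ Fin r ⊕ Option (Fin j)` and use `MvPolynomial.sumAlgEquiv ℂ (Fin r) (Option (Fin j))`, an isomorphism, so the image is not zero); take `Q` a nonzero
coefficient.  For given `b, u` the polynomial in `x` obtained by evaluating the coefficients at `(b, u)` vanishes at all `x`, hence is zero (`MvPolynomial.funext`), so its coefficient `Q(b, u)` vanishes.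
-/

namespace Pool.Agent.Lib.MP_ec260d_ntA

open Complex Set Filter Topology Metric MeasureTheory

private theorem Split_eval (r j : ℕ) (x : Fin r → ℂ) (w : Option (Fin j) → ℂ)
    (P : MvPolynomial (Fin r ⊕ Option (Fin j)) ℂ) :
    MvPolynomial.eval x (MvPolynomial.map (MvPolynomial.eval w)
      (MvPolynomial.sumRingEquiv ℂ (Fin r) (Option (Fin j)) P)) =
      MvPolynomial.eval (Sum.elim x w) P := by
  have h : ((MvPolynomial.eval x).comp ((MvPolynomial.map (MvPolynomial.eval w)).comp
      (MvPolynomial.sumRingEquiv ℂ (Fin r) (Option (Fin j))).toRingHom)) =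
      MvPolynomial.eval (Sum.elim x w) := by
    apply MvPolynomial.ringHom_ext
    · intro a
      simp
    · rintro (i | o)
      · simp
      · simp
  exact RingHom.congr_fun h P

theorem split_poly (n r j : ℕ) (e : Fin r ⊕ Fin j ≃ Fin n) (P : MvPolynomial (Option (Fin n)) ℂ)
    (hP : P ≠ 0) : ∃ Q : MvPolynomial (Option (Fin j)) ℂ, Q ≠ 0 ∧ ∀ (b : ℂ) (u : Fin j → ℂ),
      (∀ x : Fin r → ℂ, MvPolynomial.eval
        (fun o : Option (Fin n) => o.elim b (fun i => Sum.elim x u (e.symm i))) P = 0) →
      MvPolynomial.eval (fun o : Option (Fin j) => o.elim b u) Q = 0 := by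
  classical
  let τ : Option (Fin n) → Fin r ⊕ Option (Fin j) := fun o =>
    o.elim (Sum.inr none) (fun i => Sum.elim (fun a => Sum.inl a) (fun b => Sum.inr (some b))
      (e.symm i))
  have hτ : Function.Injective τ := by
    intro o o' h
    rcases o with _ | i <;> rcases o' with _ | i'
    · rfl
    · simp only [τ, Option.elim_none, Option.elim_some] at h
      rcases h1 : e.symm i' with a | b <;> simp [h1] at h
    · simp only [τ, Option.elim_none, Option.elim_some] at h
      rcases h1 : e.symm i with a | b <;> simp [h1] at h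
    · simp only [τ, Option.elim_some] at h
      have h2 : e.symm i = e.symm i' := by
        rcases h1 : e.symm i with a | b <;> rcases h1' : e.symm i' with a' | b' <;>
          simp [h1, h1'] at h ⊢ <;> exact h
      rw [e.symm.injective h2]
  have h1 : MvPolynomial.rename τ P ≠ 0 := by
    intro h
    apply hP
    apply MvPolynomial.rename_injective τ hτ
    rw [h, map_zero]
  have h2 : MvPolynomial.sumRingEquiv ℂ (Fin r) (Option (Fin j)) (MvPolynomial.rename τ P) ≠ 0 := by
    intro h
    apply h1
    apply (MvPolynomial.sumRingEquiv ℂ (Fin r) (Option (Fin j))).injective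
    rw [h, map_zero]
  obtain ⟨m, hm⟩ := MvPolynomial.ne_zero_iff.1 h2
  refine ⟨_, hm, ?_⟩
  intro b u hx
  have h3 : MvPolynomial.map (MvPolynomial.eval (fun o : Option (Fin j) => o.elim b u))
      (MvPolynomial.sumRingEquiv ℂ (Fin r) (Option (Fin j)) (MvPolynomial.rename τ P)) = 0 := by
    apply MvPolynomial.funext
    intro x
    rw [Split_eval, MvPolynomial.eval_rename, map_zero]
    have h4 : (Sum.elim x (fun o : Option (Fin j) => o.elim b u)) ∘ τ =
        fun o : Option (Fin n) => o.elim b (fun i => Sum.elim x u (e.symm i)) := by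
      funext o
      rcases o with _ | i
      · rfl
      · simp only [τ, Function.comp_apply, Option.elim_some]
        rcases h1 : e.symm i with a | b' <;> simp
    rw [h4]
    exact hx x
  have h5 := congrArg (MvPolynomial.coeff m) h3
  rw [MvPolynomial.coeff_map, MvPolynomial.coeff_zero] at h5
  exact h5

end Pool.Agent.Lib.MP_ec260d_ntA
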