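import Mathlib
import Pool.Agent.Lib.MP_ec260d_ntA.Defs
import Pool.Agent.Lib.MP_ec260d_ntA.Ef

/-!
# JOB EfLam: holomorphic dependence on the scaling parameter (about 220 lines)

`A : ℕ → Prop` with `¬ A 2`; `lamx χ A u n = χ n u^(OmA A n)`, `OmA` is completely additive on nonzero integers (`Nat.perm_primeFactorsList_mul`, `List.filter_append`, lengths), `OmA A 1 = 0`, `OmA A 2 = 0`.  `lamx_CM`: for `‖u‖ ≤ 1` (`0 ^ 0 = 1`).
`ef_lam`: `u ↦ ef (lamx χ A u) ξ` is continuous on the closed unit disc and differentiable on the open one.  Proof: `E_0(u) = 0`, `E_{m+1}(u) = Phi (lamx χ A u) ξ (E_m(u))`.  All `‖E_m(u)‖ ≤ 1/10` (`Phi_small`), `‖E_m(u) - ef (lamx χ A u) ξ‖ ≤ 2^(-m)` (`Phi_lip`, `Phi_fix`, `ef_spec`):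
uniform convergence on the closed disc.  By induction every `E_m` is continuous on the closed disc and differentiable on the open disc: `ZZ (lamx χ A u) (ξ + E_m(u)) = ∑_n χ n u^(OmA A n) n^(-(ξ + E_m(u)))` is a uniformly convergent series (terms bounded by `n^(-9)`) of such functions
(`continuousOn_tsum`, `differentiableOn_tsum_of_summable_norm`), and `log` is differentiable at `2^(ξ+E) ZZ (ξ+E)` (`Phi_dom`: in the ball of radius `1/30` around `1`, in the slit plane).  Uniform limits: `TendstoUniformlyOn.continuousOn`, `TendstoLocallyUniformlyOn.differentiableOn`.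
-/

namespace Pool.Agent.Lib.MP_ec260d_ntA

open Complex Set Filter Topology Metric MeasureTheory

theorem OmA_mul (A : ℕ → Prop) (m n : ℕ) (hm : m ≠ 0) (hn : n ≠ 0) :
    OmA A (m * n) = OmA A m + OmA A n := by
  unfold OmA
  rw [← List.length_append, ← List.filter_append]
  exact ((Nat.perm_primeFactorsList_mul hm hn).filter _).length_eq

theorem OmA_one (A : ℕ → Prop) : OmA A 1 = 0 := by
  unfold OmA
  rw [Nat.primeFactorsList_one]
  rfl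

theorem OmA_prime (A : ℕ → Prop) (p : ℕ) (hp : p.Prime) : (A p → OmA A p = 1) ∧ (¬ A p → OmA A p = 0) := by
  constructor
  · intro h
    unfold OmA
    rw [Nat.primeFactorsList_prime hp]
    simp [h]
  · intro h
    unfold OmA
    rw [Nat.primeFactorsList_prime hp]
    simp [h]

theorem lamx_CM (χ : ℕ → ℂ) (hχ : CM χ) (A : ℕ → Prop) (hA : ¬ A 2) (u : ℂ) (hu : ‖u‖ ≤ 1) :
    CM (lamx χ A u) := by
  obtain ⟨h1, h2, hm, hn⟩ := hχ
  refine ⟨?_, ?_, ?_, ?_⟩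
  · unfold lamx
    rw [OmA_one, pow_zero, mul_one, h1]
  · unfold lamx
    rw [(OmA_prime A 2 Nat.prime_two).2 hA, pow_zero, mul_one, h2]
  · intro m n hm0 hn0
    unfold lamx
    rw [OmA_mul A m n hm0 hn0, hm m n hm0 hn0, pow_add]
    ring
  · intro n
    unfold lamx
    rw [norm_mul, norm_pow]
    exact mul_le_one₀ (hn n) (pow_nonneg (norm_nonneg _) _) (pow_le_one₀ (norm_nonneg _) hu)

/-- the iterates -/
private noncomputable def EfLam_E (χ : ℕ → ℂ) (A : ℕ → Prop) (ξ : ℂ) : ℕ → ℂ → ℂ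
  | 0, _ => 0
  | m + 1, u => Phi (lamx χ A u) ξ (EfLam_E χ A ξ m u)

private theorem EfLam_bd (χ : ℕ → ℂ) (hχ : CM χ) (A : ℕ → Prop) (hA : ¬ A 2) (ξ : ℂ) (hξ : 10 ≤ ξ.re) (m : ℕ)
    (u : ℂ) (hu : ‖u‖ ≤ 1) : ‖EfLam_E χ A ξ m u‖ ≤ 1 / 10 := by
  induction m with
  | zero =>
    show ‖(0 : ℂ)‖ ≤ 1 / 10
    rw [norm_zero]
    norm_num
  | succ m ih =>
    exact Phi_small _ (lamx_CM χ hχ A hA u hu) ξ hξ _ (ih.trans (by norm_num))

private theorem EfLam_conv (χ : ℕ → ℂ) (hχ : CM χ) (A : ℕ → Prop) (hA : ¬ A 2) (ξ : ℂ) (hξ : 10 ≤ ξ.re) (m : ℕ)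
    (u : ℂ) (hu : ‖u‖ ≤ 1) : ‖EfLam_E χ A ξ m u - ef (lamx χ A u) ξ‖ ≤ (1 / 2) ^ m := by
  have hcm := lamx_CM χ hχ A hA u hu
  obtain ⟨he, hz⟩ := ef_spec _ hcm ξ hξ
  induction m with
  | zero =>
    show ‖(0 : ℂ) - ef (lamx χ A u) ξ‖ ≤ (1 / 2) ^ 0
    rw [zero_sub, norm_neg, pow_zero]
    exact he.trans (by norm_num)
  | succ m ih =>
    have hfix : Phi (lamx χ A u) ξ (ef (lamx χ A u) ξ) = ef (lamx χ A u) ξ := (Phi_fix _ hcm ξ hξ _ he).1 hz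
    have hl := Phi_lip _ hcm ξ hξ _ _ (EfLam_bd χ hχ A hA ξ hξ m u hu) he
    rw [hfix] at hl
    show ‖Phi (lamx χ A u) ξ (EfLam_E χ A ξ m u) - ef (lamx χ A u) ξ‖ ≤ (1 / 2) ^ (m + 1)
    refine hl.trans ?_
    rw [pow_succ]
    linarith

private theorem EfLam_term (χ : ℕ → ℂ) (hχ : CM χ) (A : ℕ → Prop) (hA : ¬ A 2) (ξ : ℂ) (hξ : 10 ≤ ξ.re) (n : ℕ)
    (u e : ℂ) (hu : ‖u‖ ≤ 1) (he : ‖e‖ ≤ 1 / 10) :
    ‖lamx χ A u (n + 2) * ((n + 2 : ℕ) : ℂ) ^ (-(ξ + e))‖ ≤ ((n + 2 : ℕ) : ℝ) ^ (-(2 : ℝ)) := by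
  have h1 := (lamx_CM χ hχ A hA u hu).2.2.2 (n + 2)
  have hpos : 0 < n + 2 := by omega
  rw [norm_mul, Complex.norm_natCast_cpow_of_pos hpos]
  have hre : (-(ξ + e)).re ≤ -(2 : ℝ) := by
    rw [neg_re, add_re]
    have h2 : |e.re| ≤ 1 / 10 := (Complex.abs_re_le_norm e).trans he
    have h3 := (abs_le.1 h2).1
    linarith
  have hbase : (1 : ℝ) ≤ ((n + 2 : ℕ) : ℝ) := by
    exact_mod_cast hpos
  have h4 : ((n + 2 : ℕ) : ℝ) ^ (-(ξ + e)).re ≤ ((n + 2 : ℕ) : ℝ) ^ (-(2 : ℝ)) :=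
    Real.rpow_le_rpow_of_exponent_le hbase hre
  have h5 : 0 ≤ ((n + 2 : ℕ) : ℝ) ^ (-(ξ + e)).re := Real.rpow_nonneg (by positivity) _
  calc ‖lamx χ A u (n + 2)‖ * ((n + 2 : ℕ) : ℝ) ^ (-(ξ + e)).re
      ≤ 1 * ((n + 2 : ℕ) : ℝ) ^ (-(ξ + e)).re := mul_le_mul_of_nonneg_right h1 h5
    _ = ((n + 2 : ℕ) : ℝ) ^ (-(ξ + e)).re := one_mul _
    _ ≤ _ := h4

private theorem EfLam_sum : Summable (fun n : ℕ => ((n + 2 : ℕ) : ℝ) ^ (-(2 : ℝ))) := by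
  have h := (Real.summable_nat_rpow (p := -(2 : ℝ))).2 (by norm_num)
  exact (summable_nat_add_iff 2).2 h

private theorem EfLam_ne (n : ℕ) : ((n + 2 : ℕ) : ℂ) ≠ 0 := Nat.cast_ne_zero.2 (by omega)

private theorem EfLam_contZ (χ : ℕ → ℂ) (hχ : CM χ) (A : ℕ → Prop) (hA : ¬ A 2) (ξ : ℂ) (hξ : 10 ≤ ξ.re)
    (e : ℂ → ℂ) (he : ∀ u, ‖u‖ ≤ 1 → ‖e u‖ ≤ 1 / 10) (hc : ContinuousOn e (closedBall 0 1)) :
    ContinuousOn (fun u => ZZ (lamx χ A u) (ξ + e u)) (closedBall 0 1) := by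
  unfold ZZ
  refine continuousOn_tsum (u := fun n : ℕ => ((n + 2 : ℕ) : ℝ) ^ (-(2 : ℝ))) (fun n => ?_) EfLam_sum
    (fun n u hu => ?_)
  · unfold lamx
    exact (continuousOn_const.mul (continuousOn_id.pow _)).mul
      ((continuousOn_const.add hc).neg.const_cpow (Or.inl (EfLam_ne n)))
  · have hu' : ‖u‖ ≤ 1 := mem_closedBall_zero_iff.1 hu
    exact EfLam_term χ hχ A hA ξ hξ n u (e u) hu' (he u hu')

private theorem EfLam_diffZ (χ : ℕ → ℂ) (hχ : CM χ) (A : ℕ → Prop) (hA : ¬ A 2) (ξ : ℂ) (hξ : 10 ≤ ξ.re)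
    (e : ℂ → ℂ) (he : ∀ u, ‖u‖ ≤ 1 → ‖e u‖ ≤ 1 / 10) (hc : DifferentiableOn ℂ e (ball 0 1)) :
    DifferentiableOn ℂ (fun u => ZZ (lamx χ A u) (ξ + e u)) (ball 0 1) := by
  unfold ZZ
  refine differentiableOn_tsum_of_summable_norm (u := fun n : ℕ => ((n + 2 : ℕ) : ℝ) ^ (-(2 : ℝ))) EfLam_sum
    (fun n => ?_) isOpen_ball (fun n u hu => ?_)
  · unfold lamx
    exact ((differentiableOn_const _).mul (differentiableOn_id.pow _)).mul
      (((differentiableOn_const _).add hc).neg.const_cpow (Or.inl (EfLam_ne n)))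
  · have hu' : ‖u‖ ≤ 1 := (mem_ball_zero_iff.1 hu).le
    exact EfLam_term χ hχ A hA ξ hξ n u (e u) hu' (he u hu')

private theorem EfLam_slit (χ : ℕ → ℂ) (hχ : CM χ) (A : ℕ → Prop) (hA : ¬ A 2) (ξ : ℂ) (hξ : 10 ≤ ξ.re)
    (u e : ℂ) (hu : ‖u‖ ≤ 1) (he : ‖e‖ ≤ 1 / 10) :
    (2 : ℂ) ^ (ξ + e) * ZZ (lamx χ A u) (ξ + e) ∈ slitPlane := by
  have h := Phi_dom _ (lamx_CM χ hχ A hA u hu) ξ hξ e (he.trans (by norm_num))
  have h1 : ‖(2 : ℂ) ^ (ξ + e) * ZZ (lamx χ A u) (ξ + e) - 1‖ < 1 := h.trans_lt (by norm_num)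
  have h2 := Complex.mem_slitPlane_of_norm_lt_one h1
  rwa [add_sub_cancel] at h2

private theorem EfLam_step (χ : ℕ → ℂ) (hχ : CM χ) (A : ℕ → Prop) (hA : ¬ A 2) (ξ : ℂ) (hξ : 10 ≤ ξ.re) (m : ℕ) :
    ContinuousOn (EfLam_E χ A ξ m) (closedBall 0 1) ∧ DifferentiableOn ℂ (EfLam_E χ A ξ m) (ball 0 1) := by
  induction m with
  | zero => exact ⟨continuousOn_const, differentiableOn_const _⟩
  | succ m ih =>
    obtain ⟨ih1, ih2⟩ := ih
    have hb := EfLam_bd χ hχ A hA ξ hξ m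
    constructor
    · show ContinuousOn (fun u => Complex.log ((2 : ℂ) ^ (ξ + EfLam_E χ A ξ m u) *
        ZZ (lamx χ A u) (ξ + EfLam_E χ A ξ m u)) / Real.log 2) (closedBall 0 1)
      refine ContinuousOn.div_const (ContinuousOn.clog (((continuousOn_const.add ih1).const_cpow
        (Or.inl two_ne_zero)).mul (EfLam_contZ χ hχ A hA ξ hξ _ hb ih1)) fun u hu => ?_) _
      have hu' : ‖u‖ ≤ 1 := mem_closedBall_zero_iff.1 hu
      exact EfLam_slit χ hχ A hA ξ hξ u _ hu' (hb u hu')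
    · show DifferentiableOn ℂ (fun u => Complex.log ((2 : ℂ) ^ (ξ + EfLam_E χ A ξ m u) *
        ZZ (lamx χ A u) (ξ + EfLam_E χ A ξ m u)) / Real.log 2) (ball 0 1)
      refine DifferentiableOn.div_const (DifferentiableOn.clog ((((differentiableOn_const _).add ih2).const_cpow
        (Or.inl two_ne_zero)).mul (EfLam_diffZ χ hχ A hA ξ hξ _ hb ih2)) fun u hu => ?_) _
      have hu' : ‖u‖ ≤ 1 := (mem_ball_zero_iff.1 hu).le
      exact EfLam_slit χ hχ A hA ξ hξ u _ hu' (hb u hu')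

theorem ef_lam (χ : ℕ → ℂ) (hχ : CM χ) (A : ℕ → Prop) (hA : ¬ A 2) (ξ : ℂ) (hξ : 10 ≤ ξ.re) :
    DiffContOnCl ℂ (fun u => ef (lamx χ A u) ξ) (ball 0 1) := by
  have hunif : TendstoUniformlyOn (fun m u => EfLam_E χ A ξ m u) (fun u => ef (lamx χ A u) ξ) atTop
      (closedBall 0 1) := by
    rw [Metric.tendstoUniformlyOn_iff]
    intro ε hε
    have ht : Tendsto (fun m : ℕ => ((1 / 2 : ℝ)) ^ m) atTop (𝓝 0) :=
      tendsto_pow_atTop_nhds_zero_of_lt_one (by norm_num) (by norm_num)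
    filter_upwards [ht.eventually (gt_mem_nhds hε)] with m hm u hu
    rw [dist_comm, dist_eq_norm]
    exact (EfLam_conv χ hχ A hA ξ hξ m u (mem_closedBall_zero_iff.1 hu)).trans_lt hm
  refine ⟨?_, ?_⟩
  · have h1 := (hunif.mono ball_subset_closedBall).tendstoLocallyUniformlyOn
    exact h1.differentiableOn (Eventually.of_forall fun m => (EfLam_step χ hχ A hA ξ hξ m).2) isOpen_ball
  · rw [closure_ball (0 : ℂ) one_ne_zero]
    exact hunif.continuousOn (Frequently.of_forall fun m => (EfLam_step χ hχ A hA ξ hξ m).1)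

end Pool.Agent.Lib.MP_ec260d_ntA
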