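import Mathlib
import Pool.Agent.Lib.MP_ec260d_ntA.Defs
import Pool.Agent.Lib.MP_ec260d_ntA.EfLam

/-!
# JOB EfDer: the derivative at `u = 0`

Let `A` be a finite set of odd primes and `χ` a weight with `χ p = 0` for all odd primes `p ∉ A`; write `e(u) = ef (lamx χ A u) ξ`, `s(u) = ξ + e(u)`, `Re s ≥ 9.9`.
Finite Euler product: `1 + ZZ (lamx χ A u) s = (1 - 2^(-s))⁻¹ ∏_{p ∈ A} (1 - u χ p p^(-s))⁻¹` (`EulerProduct.summable_and_hasSum_factoredNumbers_prod_filter_prime_geometric`).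
So `(1 - 2^(-s(u))) ∏_{p ∈ A} (1 - u χ p p^(-s(u))) = (1 + 2^(-ξ))⁻¹` for `‖u‖ ≤ 1`.  At `u = 0`: `2^(-e(0)) = (1 + 2^(-ξ))⁻¹`, so `e(0) = log (1 + 2^(-ξ)) / log 2`.
Differentiate at `u = 0` (`ef_lam`): `log 2 · 2^(-s0) e'(0) = (1 - 2^(-s0)) ∑ χ p p^(-s0)`, `1 - 2^(-s0) = (1 + 2^(-ξ))⁻¹`.
-/

namespace Pool.Agent.Lib.MP_ec260d_ntA

open Complex Set Filter Topology Metric MeasureTheory

/-- the completely multiplicative function `n ↦ χ n n^(-s)` -/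
private noncomputable def EfDer_f (χ : ℕ → ℂ) (hχ : CM χ) (s : ℂ) : ℕ →* ℂ where
  toFun n := if n = 0 then 0 else χ n * (n : ℂ) ^ (-s)
  map_one' := by
    rw [if_neg one_ne_zero, hχ.1, Nat.cast_one, Complex.one_cpow, mul_one]
  map_mul' m n := by
    by_cases hm : m = 0
    · rw [hm, zero_mul, if_pos rfl, zero_mul]
    by_cases hn : n = 0
    · rw [hn, mul_zero, if_pos rfl, mul_zero]
    rw [if_neg hm, if_neg hn, if_neg (mul_ne_zero hm hn), hχ.2.2.1 m n hm hn, Nat.cast_mul,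
      Complex.natCast_mul_natCast_cpow]
    ring

private theorem EfDer_f_ne (χ : ℕ → ℂ) (hχ : CM χ) (s : ℂ) {n : ℕ} (hn : n ≠ 0) :
    EfDer_f χ hχ s n = χ n * (n : ℂ) ^ (-s) := if_neg hn

private theorem EfDer_f_zero (χ : ℕ → ℂ) (hχ : CM χ) (s : ℂ) : EfDer_f χ hχ s 0 = 0 := by
  show (if (0 : ℕ) = 0 then (0 : ℂ) else χ 0 * ((0 : ℕ) : ℂ) ^ (-s)) = 0
  rw [if_pos rfl]

private theorem EfDer_prod (χ : ℕ → ℂ) (hχ : CM χ) (s : ℂ) (hs : 1 < s.re) (A : Finset ℕ)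
    (hA : ∀ p ∈ A, p.Prime ∧ p ≠ 2) (h0 : ∀ p : ℕ, p.Prime → p ≠ 2 → p ∉ A → χ p = 0) :
    (1 - (2 : ℂ) ^ (-s)) * (∏ p ∈ A, (1 - χ p * (p : ℂ) ^ (-s))) * (1 + ZZ χ s) = 1 := by
  classical
  have hlt : ∀ {p : ℕ}, p.Prime → ‖EfDer_f χ hχ s p‖ < 1 := by
    intro p hp
    rw [EfDer_f_ne χ hχ s hp.ne_zero, norm_mul, Complex.norm_natCast_cpow_of_pos hp.pos]
    have h1 : (p : ℝ) ^ (-s).re < 1 := by
      apply Real.rpow_lt_one_of_one_lt_of_neg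
      · exact_mod_cast hp.one_lt
      · rw [Complex.neg_re]; linarith
    have h2 : 0 ≤ (p : ℝ) ^ (-s).re := Real.rpow_nonneg (Nat.cast_nonneg p) _
    have h3 := hχ.2.2.2 p
    calc ‖χ p‖ * (p : ℝ) ^ (-s).re ≤ 1 * (p : ℝ) ^ (-s).re := mul_le_mul_of_nonneg_right h3 h2
      _ < 1 := by rw [one_mul]; exact h1
  obtain ⟨-, hsum⟩ := EulerProduct.summable_and_hasSum_factoredNumbers_prod_filter_prime_geometric
    hlt (insert 2 A)
  have h2A : 2 ∉ A := fun h => (hA 2 h).2 rfl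
  have hfilter : (insert 2 A).filter Nat.Prime = insert 2 A := by
    apply Finset.filter_true_of_mem
    intro p hp
    rcases Finset.mem_insert.1 hp with h | h
    · rw [h]; exact Nat.prime_two
    · exact (hA p h).1
  rw [hfilter, Finset.prod_insert h2A] at hsum
  have hsupp : Function.support (EfDer_f χ hχ s) ⊆ Nat.factoredNumbers (insert 2 A) := by
    intro n hn
    have hn0 : n ≠ 0 := by
      rintro rfl
      exact hn (EfDer_f_zero χ hχ s)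
    rw [Nat.mem_factoredNumbers]
    refine ⟨hn0, fun p hp => ?_⟩
    have hpp := Nat.prime_of_mem_primeFactorsList hp
    by_contra hcon
    rw [Finset.mem_insert, not_or] at hcon
    obtain ⟨m, hm⟩ := Nat.dvd_of_mem_primeFactorsList hp
    apply hn
    rw [hm, map_mul, EfDer_f_ne χ hχ s hpp.ne_zero, h0 p hpp hcon.1 hcon.2, zero_mul, zero_mul]
  have hsum' : HasSum (EfDer_f χ hχ s) ((1 - EfDer_f χ hχ s 2)⁻¹ *
      ∏ p ∈ A, (1 - EfDer_f χ hχ s p)⁻¹) := (hasSum_subtype_iff_of_support_subset hsupp).1 hsum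
  have hsplit := hsum'.summable.sum_add_tsum_nat_add 2
  rw [hsum'.tsum_eq, Finset.sum_range_succ, Finset.sum_range_one, EfDer_f_zero, map_one, zero_add] at hsplit
  have hZ : (∑' n : ℕ, EfDer_f χ hχ s (n + 2)) = ZZ χ s := by
    unfold ZZ
    refine tsum_congr fun n => ?_
    rw [EfDer_f_ne χ hχ s (by omega)]
  rw [hZ] at hsplit
  rw [hsplit]
  have hne : ∀ {p : ℕ}, p.Prime → 1 - EfDer_f χ hχ s p ≠ 0 := by
    intro p hp h
    have h1 : EfDer_f χ hχ s p = 1 := (sub_eq_zero.1 h).symm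
    have h2 := hlt hp
    rw [h1, norm_one] at h2
    exact lt_irrefl _ h2
  have h2 : (2 : ℂ) ^ (-s) = EfDer_f χ hχ s 2 := by
    rw [EfDer_f_ne χ hχ s two_ne_zero, hχ.2.1, one_mul, Nat.cast_ofNat]
  have hP : (∏ p ∈ A, (1 - χ p * (p : ℂ) ^ (-s))) = ∏ p ∈ A, (1 - EfDer_f χ hχ s p) := by
    refine Finset.prod_congr rfl fun p hp => ?_
    rw [EfDer_f_ne χ hχ s (hA p hp).1.ne_zero]
  rw [h2, hP, Finset.prod_inv_distrib]
  have hP0 : (∏ p ∈ A, (1 - EfDer_f χ hχ s p)) ≠ 0 := Finset.prod_ne_zero_iff.2 fun p hp => hne (hA p hp).1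
  have h20 := hne Nat.prime_two
  field_simp

private theorem EfDer_ne (ξ : ℂ) (hξ : 10 ≤ ξ.re) : (1 + (2 : ℂ) ^ (-ξ)) ≠ 0 := by
  intro h
  have h1 : (2 : ℂ) ^ (-ξ) = -1 := by linear_combination h
  have h2 := congrArg norm h1
  rw [norm_neg, norm_one] at h2
  have h3 := Complex.norm_natCast_cpow_of_pos (n := 2) (by norm_num) (-ξ)
  rw [Nat.cast_ofNat, Nat.cast_ofNat, h2] at h3
  have h4 : (2 : ℝ) ^ (-ξ).re < 1 := by
    apply Real.rpow_lt_one_of_one_lt_of_neg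
    · norm_num
    · rw [Complex.neg_re]; linarith
  linarith

private theorem EfDer_eq (ξ : ℂ) (hξ : 10 ≤ ξ.re) (A : Finset ℕ) (hA : ∀ p ∈ A, p.Prime ∧ p ≠ 2)
    (χ : ℕ → ℂ) (hχ : CM χ) (h0 : ∀ p : ℕ, p.Prime → p ≠ 2 → p ∉ A → χ p = 0) (u : ℂ) (hu : ‖u‖ ≤ 1) :
    (1 - (2 : ℂ) ^ (-(ξ + ef (lamx χ (· ∈ A) u) ξ))) *
      (∏ p ∈ A, (1 - u * (χ p * (p : ℂ) ^ (-(ξ + ef (lamx χ (· ∈ A) u) ξ))))) =
      (1 + (2 : ℂ) ^ (-ξ))⁻¹ := by
  have h2A : ¬ (2 ∈ A) := fun h => (hA 2 h).2 rfl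
  have hCM := lamx_CM χ hχ (· ∈ A) h2A u hu
  obtain ⟨hsmall, hZ⟩ := ef_spec _ hCM ξ hξ
  have hre : 1 < (ξ + ef (lamx χ (· ∈ A) u) ξ).re := by
    have h1 := Complex.abs_re_le_norm (ef (lamx χ (· ∈ A) u) ξ)
    have h2 := abs_le.1 (h1.trans hsmall)
    rw [Complex.add_re]
    linarith [h2.1]
  have h1 := EfDer_prod _ hCM _ hre A hA (by
    intro p hp hp2 hpA
    unfold lamx
    rw [h0 p hp hp2 hpA, zero_mul])
  rw [hZ] at h1
  have hprod : (∏ p ∈ A, (1 - lamx χ (· ∈ A) u p * (p : ℂ) ^ (-(ξ + ef (lamx χ (· ∈ A) u) ξ)))) =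
      ∏ p ∈ A, (1 - u * (χ p * (p : ℂ) ^ (-(ξ + ef (lamx χ (· ∈ A) u) ξ)))) := by
    refine Finset.prod_congr rfl fun p hp => ?_
    have h3 : lamx χ (· ∈ A) u p = χ p * u := by
      unfold lamx
      rw [(OmA_prime (· ∈ A) p (hA p hp).1).1 hp, pow_one]
    rw [h3]
    ring
  rw [hprod] at h1
  exact eq_inv_of_mul_eq_one_left h1

theorem ef_der (ξ : ℂ) (hξ : 10 ≤ ξ.re) : ∃ E0 K : ℂ, K ≠ 0 ∧
    ∀ (A : Finset ℕ), (∀ p ∈ A, p.Prime ∧ p ≠ 2) → ∀ (χ : ℕ → ℂ), CM χ →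
      (∀ p : ℕ, p.Prime → p ≠ 2 → p ∉ A → χ p = 0) →
      ef (lamx χ (· ∈ A) 0) ξ = E0 ∧
      HasDerivAt (fun u => ef (lamx χ (· ∈ A) u) ξ)
        (K * ∑ p ∈ A, χ p * (p : ℂ) ^ (-(ξ + E0))) 0 := by
  have hne := EfDer_ne ξ hξ
  have hlog2 : (Real.log 2 : ℂ) ≠ 0 := by
    rw [Complex.ofReal_ne_zero]
    exact (Real.log_pos (by norm_num)).ne'
  have hlog2' : Complex.log 2 = (Real.log 2 : ℂ) := by
    have h := Complex.ofReal_log (x := 2) (by norm_num)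
    rw [Complex.ofReal_ofNat] at h
    exact h.symm
  obtain ⟨E0, hE0⟩ : ∃ E0 : ℂ, E0 = Complex.log (1 + (2 : ℂ) ^ (-ξ)) / (Real.log 2 : ℂ) := ⟨_, rfl⟩
  have h2ne : ∀ z : ℂ, (2 : ℂ) ^ z ≠ 0 := fun z => by
    rw [Complex.cpow_def_of_ne_zero two_ne_zero]
    exact Complex.exp_ne_zero _
  refine ⟨E0, (1 + (2 : ℂ) ^ (-ξ))⁻¹ / (Real.log 2 * (2 : ℂ) ^ (-(ξ + E0))), ?_, ?_⟩
  · exact div_ne_zero (inv_ne_zero hne) (mul_ne_zero hlog2 (h2ne _))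
  intro A hA χ hχ h0
  have h2A : ¬ (2 ∈ A) := fun h => (hA 2 h).2 rfl
  have heq := EfDer_eq ξ hξ A hA χ hχ h0
  -- the value at zero
  have hval : ef (lamx χ (· ∈ A) 0) ξ = E0 := by
    have hu0 : ‖(0 : ℂ)‖ ≤ 1 := by rw [norm_zero]; exact zero_le_one
    have h1 := heq 0 hu0
    obtain ⟨hsmall, -⟩ := ef_spec _ (lamx_CM χ hχ (· ∈ A) h2A 0 hu0) ξ hξ
    generalize ef (lamx χ (· ∈ A) 0) ξ = e at h1 hsmall
    have h2 : (∏ p ∈ A, (1 - (0 : ℂ) * (χ p * (p : ℂ) ^ (-(ξ + e))))) = 1 := by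
      apply Finset.prod_eq_one
      intro p _
      rw [zero_mul, sub_zero]
    rw [h2, mul_one, neg_add, Complex.cpow_add _ _ two_ne_zero] at h1
    have h3 : (2 : ℂ) ^ (-ξ) ≠ 0 := h2ne _
    have h4 : (2 : ℂ) ^ (-e) * (1 + (2 : ℂ) ^ (-ξ)) = 1 := by
      have h5 : (1 - (2 : ℂ) ^ (-ξ) * (2 : ℂ) ^ (-e)) * (1 + (2 : ℂ) ^ (-ξ)) = 1 := by
        rw [h1, inv_mul_cancel₀ hne]
      have h6 : (2 : ℂ) ^ (-ξ) * ((2 : ℂ) ^ (-e) * (1 + (2 : ℂ) ^ (-ξ)) - 1) = 0 := by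
        linear_combination -h5
      rcases mul_eq_zero.1 h6 with h7 | h7
      · exact absurd h7 h3
      · exact sub_eq_zero.1 h7
    have h5 : Complex.exp (e * (Real.log 2 : ℂ)) = 1 + (2 : ℂ) ^ (-ξ) := by
      rw [Complex.cpow_def_of_ne_zero two_ne_zero, hlog2'] at h4
      have h6 : Complex.exp (Real.log 2 * -e) = (Complex.exp (e * (Real.log 2 : ℂ)))⁻¹ := by
        rw [← Complex.exp_neg]
        congr 1
        ring
      rw [h6] at h4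
      have h7 := Complex.exp_ne_zero (e * (Real.log 2 : ℂ))
      field_simp at h4
      exact h4.symm
    have h6 : Complex.log (1 + (2 : ℂ) ^ (-ξ)) = e * (Real.log 2 : ℂ) := by
      rw [← h5]
      have h7 : |(e * (Real.log 2 : ℂ)).im| ≤ 1 := by
        refine (Complex.abs_im_le_norm _).trans ?_
        rw [norm_mul, Complex.norm_real, Real.norm_eq_abs, abs_of_pos (Real.log_pos (by norm_num))]
        have h8 := Real.log_two_lt_d9
        have h9 := Real.log_pos (show (1 : ℝ) < 2 by norm_num)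
        nlinarith [norm_nonneg e]
      have h8 := abs_le.1 h7
      have h9 := Real.pi_gt_three
      apply Complex.log_exp
      · linarith [h8.1]
      · linarith [h8.2]
    rw [hE0, h6, mul_div_assoc, div_self hlog2, mul_one]
  refine ⟨hval, ?_⟩
  -- differentiability
  obtain ⟨a, ha⟩ : ∃ a : ℂ → ℂ, a = fun u => ef (lamx χ (· ∈ A) u) ξ := ⟨_, rfl⟩
  have ha' : ∀ u, ef (lamx χ (· ∈ A) u) ξ = a u := fun u => by rw [ha]
  rw [← ha]
  have hdiff : DifferentiableAt ℂ a 0 := by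
    rw [ha]
    exact (ef_lam χ hχ (· ∈ A) h2A ξ hξ).differentiableOn.differentiableAt
      (isOpen_ball.mem_nhds (mem_ball_self one_pos))
  have hD := hdiff.hasDerivAt
  generalize deriv a 0 = a' at hD
  have ha0 : a 0 = E0 := by rw [← ha', hval]
  -- derivative of the first factor
  have hs : HasDerivAt (fun u => -(ξ + a u)) (-a') 0 := by
    have h := (hD.const_add ξ).neg
    exact h
  have hpow : ∀ c : ℂ, c ≠ 0 → HasDerivAt (fun u => c ^ (-(ξ + a u)))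
      (c ^ (-(ξ + a 0)) * Complex.log c * (-a')) 0 := fun c hc => hs.const_cpow (Or.inl hc)
  have h1 : HasDerivAt (fun u => 1 - (2 : ℂ) ^ (-(ξ + a u)))
      (-((2 : ℂ) ^ (-(ξ + a 0)) * Complex.log 2 * (-a'))) 0 := by
    have h := (hpow 2 two_ne_zero).const_sub 1
    exact h
  have h2 : ∀ p ∈ A, HasDerivAt (fun u => 1 - u * (χ p * (p : ℂ) ^ (-(ξ + a u))))
      (-(χ p * (p : ℂ) ^ (-(ξ + a 0)))) 0 := by
    intro p hp
    have hp0 : (p : ℂ) ≠ 0 := Nat.cast_ne_zero.2 (hA p hp).1.ne_zero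
    have h := ((hasDerivAt_id (0 : ℂ)).mul ((hpow p hp0).const_mul (χ p))).const_sub 1
    have h' : (-(1 * (χ p * (p : ℂ) ^ (-(ξ + a 0))) + id (0 : ℂ) *
        (χ p * ((p : ℂ) ^ (-(ξ + a 0)) * Complex.log p * (-a'))))) = -(χ p * (p : ℂ) ^ (-(ξ + a 0))) := by
      rw [id, zero_mul, add_zero, one_mul]
    rw [h'] at h
    exact h
  have h3 : HasDerivAt (fun u => ∏ p ∈ A, (1 - u * (χ p * (p : ℂ) ^ (-(ξ + a u)))))
      (-∑ p ∈ A, χ p * (p : ℂ) ^ (-(ξ + a 0))) 0 := by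
    classical
    have h := HasDerivAt.fun_finsetProd h2
    have h' : (∑ p ∈ A, (∏ j ∈ A.erase p, (1 - (0 : ℂ) * (χ j * (j : ℂ) ^ (-(ξ + a 0))))) •
        (-(χ p * (p : ℂ) ^ (-(ξ + a 0))))) = -∑ p ∈ A, χ p * (p : ℂ) ^ (-(ξ + a 0)) := by
      rw [← Finset.sum_neg_distrib]
      refine Finset.sum_congr rfl fun p _ => ?_
      have h4 : (∏ j ∈ A.erase p, (1 - (0 : ℂ) * (χ j * (j : ℂ) ^ (-(ξ + a 0))))) = 1 := by
        apply Finset.prod_eq_one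
        intro j _
        rw [zero_mul, sub_zero]
      rw [h4, one_smul]
    rw [h'] at h
    exact h
  have h4 := h1.mul h3
  have hconst : HasDerivAt (fun u => (1 - (2 : ℂ) ^ (-(ξ + a u))) *
      ∏ p ∈ A, (1 - u * (χ p * (p : ℂ) ^ (-(ξ + a u))))) 0 0 := by
    have h5 : (fun u => (1 - (2 : ℂ) ^ (-(ξ + a u))) *
        ∏ p ∈ A, (1 - u * (χ p * (p : ℂ) ^ (-(ξ + a u))))) =ᶠ[𝓝 0] fun _ => (1 + (2 : ℂ) ^ (-ξ))⁻¹ := by
      filter_upwards [ball_mem_nhds (0 : ℂ) one_pos] with u hu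
      rw [mem_ball_zero_iff] at hu
      rw [← ha']
      exact heq u hu.le
    exact (hasDerivAt_const (0 : ℂ) _).congr_of_eventuallyEq h5
  have h5 := h4.unique hconst
  have h6 : (∏ p ∈ A, (1 - (0 : ℂ) * (χ p * (p : ℂ) ^ (-(ξ + a 0))))) = 1 := by
    apply Finset.prod_eq_one
    intro j _
    rw [zero_mul, sub_zero]
  have h7 : 1 - (2 : ℂ) ^ (-(ξ + a 0)) = (1 + (2 : ℂ) ^ (-ξ))⁻¹ := by
    have h8 := heq 0 (by rw [norm_zero]; exact zero_le_one)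
    rw [ha', h6, mul_one] at h8
    exact h8
  rw [h6, h7, ha0, hlog2', mul_one] at h5
  have h8 : a' = (1 + (2 : ℂ) ^ (-ξ))⁻¹ / (Real.log 2 * (2 : ℂ) ^ (-(ξ + E0))) *
      ∑ p ∈ A, χ p * (p : ℂ) ^ (-(ξ + E0)) := by
    have h9 := h2ne (-(ξ + E0))
    rw [div_mul_eq_mul_div, eq_div_iff (mul_ne_zero hlog2 h9)]
    linear_combination h5
  rw [← h8]
  exact hD

end Pool.Agent.Lib.MP_ec260d_ntA
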