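import Mathlib
import Pool.Agent.Lib.MP_ec260d_ntA.Defs
import Pool.Agent.Lib.MP_ec260d_ntA.Shift

/-!
# JOB Kron: Kronecker's theorem for the weights `chk (M m)` (about 200 lines)

GENERAL STATEMENT `kron_gen`: `θ : Fin s → ℝ` such that no nontrivial integer combination of the `θ_j` is an integer.  For all `α`, `ε > 0`, `N` there is `m ≥ N` with `‖exp (2πi m θ_j) - exp (2πi α_j)‖ < ε` for all `j`.
Proof.  Suppose not: for all `m ≥ N` some `j` has `‖e(mθ_j) - e(α_j)‖ ≥ ε`.  For `K ≥ 1` put `F_K(m) = ∏_j ((1 + cos 2π(mθ_j - α_j)) / 2)^K ∈ [0, 1]`.  As `‖e(x) - e(y)‖² = 2 - 2 cos 2π(x - y)`, we get `F_K(m) ≤ (1 - ε²/4)^K` for `m ≥ N`.  On the other hand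
`((1 + cos 2πx)/2)^K = ((e(x/2) + e(-x/2))/2)^(2K) = ∑_{|b| ≤ K} c_b e(b x)`, `c_b = 4^(-K) binom(2K, K + b) ≥ 0` real, `c_0 = 4^(-K) binom(2K, K) ≥ 1/(2K+1)` (largest of `2K + 1` coefficients with sum `1`; or `Nat.four_pow_le_two_mul_self_mul_centralBinom`).
The mean over `m < T` of `∏_j ∑_b c_b e(b(mθ_j - α_j))` tends to `c_0^s` as `T → ∞`: expand, the term of `b : Fin s → ℤ`, `b ≠ 0`, is a constant times the mean of `e(m ∑ b_j θ_j)` which tends to `0` since `∑ b_jθ_j ∉ ℤ` (geometric sum).  So `(2K+1)^(-s) ≤ (1 - ε²/4)^K` for all `K ≥ 1`,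
false for large `K` (if `s = 0` take `m = N`).
`kron`: `chk (M m) p = exp (- 2πi m M log p / log 2)`.  For a nontrivial integer combination: `∑_{p ∈ A} b_p M log p / log 2 = c ∈ ℤ` gives `∏ p^(M b_p) = 2^c`, so all `M b_p = 0` (unique factorisation: move negative exponents to the other side and compare `padicValNat` / `Nat.factorization` at `p`).
`M ≠ 0` is an integer.
`kron_seq`: for `χ` completely multiplicative, `‖χ n‖ = 1` (`n ≠ 0`), `χ 2 = 1`: for every `j` apply `kron` with `A` = the odd primes `≤ j`, `ε = 1/(j+1)`, `N = j`; get `m_j ≥ j`; then `chk (M m_j) p → χ p` for every odd prime, also for `p = 2`, hence `chk (M m_j) n → χ n` for every `n ≥ 1` by multiplicativity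
(induction on `n` with `Nat.recOnMul` or `induction_on_primes`).
-/

namespace Pool.Agent.Lib.MP_ec260d_ntA

open Complex Set Filter Topology Metric MeasureTheory

private noncomputable def Kron_mu (ι : Type) [Fintype ι] : Measure (UnitAddTorus ι) :=
  Measure.pi fun _ => (AddCircle.haarAddCircle : Measure UnitAddCircle)

private instance Kron_i1 (ι : Type) [Fintype ι] : IsProbabilityMeasure (Kron_mu ι) := by
  unfold Kron_mu; infer_instance

private instance Kron_i2 (ι : Type) [Fintype ι] : (Kron_mu ι).IsOpenPosMeasure := by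
  unfold Kron_mu; infer_instance

private noncomputable def Kron_pt {ι : Type} (θ : ι → ℝ) (m : ℕ) : UnitAddTorus ι :=
  fun i => ((m * θ i : ℝ) : UnitAddCircle)

private theorem Kron_mF {ι : Type} [Fintype ι] (θ : ι → ℝ) (n : ι → ℤ) (m : ℕ) :
    UnitAddTorus.mFourier n (Kron_pt θ m) =
      Complex.exp (2 * Real.pi * Complex.I * (∑ i, n i * θ i : ℝ)) ^ m := by
  have h : ∀ i, fourier (n i) ((m * θ i : ℝ) : UnitAddCircle) =
      Complex.exp (2 * Real.pi * Complex.I * ((n i : ℝ) * θ i : ℝ) * m) := by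
    intro i
    rw [fourier_coe_apply]
    congr 1
    push_cast
    ring
  have h0 : UnitAddTorus.mFourier n (Kron_pt θ m) = ∏ i, fourier (n i) (Kron_pt θ m i) := rfl
  rw [h0]
  unfold Kron_pt
  simp_rw [h]
  rw [← Complex.exp_sum, ← Complex.exp_nat_mul]
  congr 1
  push_cast
  rw [← Finset.sum_mul, Finset.mul_sum]
  ring

private theorem Kron_int {ι : Type} [Fintype ι] (n : ι → ℤ) :
    ∫ x, UnitAddTorus.mFourier n x ∂Kron_mu ι = if n = 0 then 1 else 0 := by
  split_ifs with h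
  · subst h
    rw [UnitAddTorus.mFourier_zero]
    simp
  · have h1 : ∫ x, UnitAddTorus.mFourier n x ∂Kron_mu ι =
        ∏ i, ∫ y, fourier (n i) y ∂AddCircle.haarAddCircle :=
      integral_fintype_prod_eq_prod (μ := fun _ => AddCircle.haarAddCircle)
        (fun i (y : UnitAddCircle) => (fourier (n i) y : ℂ))
    rw [h1]
    obtain ⟨i, hi⟩ := Function.ne_iff.1 h
    refine Finset.prod_eq_zero (Finset.mem_univ i) ?_
    have h2 := fourierCoeff_fourier (T := (1 : ℝ)) (n i)
    have h3 := congrFun h2 0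
    unfold fourierCoeff at h3
    simp only [neg_zero, fourier_zero, one_smul] at h3
    rw [h3]
    rw [Pi.single_apply, if_neg]
    exact fun h4 => hi h4.symm

private noncomputable def Kron_avg {ι : Type} [Fintype ι] (θ : ι → ℝ) (N : ℕ)
    (f : C(UnitAddTorus ι, ℂ)) (T : ℕ) : ℂ :=
  (T : ℂ)⁻¹ * ∑ m ∈ Finset.range T, f (Kron_pt θ (N + m))

private theorem Kron_avgF {ι : Type} [Fintype ι] {θ : ι → ℝ}
    (hθ : ∀ n : ι → ℤ, n ≠ 0 → ∀ c : ℤ, ∑ i, n i * θ i ≠ (c : ℝ)) (N : ℕ) (n : ι → ℤ) :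
    Tendsto (Kron_avg θ N (UnitAddTorus.mFourier n)) atTop
      (𝓝 (∫ x, UnitAddTorus.mFourier n x ∂Kron_mu ι)) := by
  rw [Kron_int]
  split_ifs with h
  · subst h
    refine tendsto_const_nhds.congr' ?_
    filter_upwards [eventually_gt_atTop 0] with T hT
    unfold Kron_avg
    rw [UnitAddTorus.mFourier_zero]
    simp only [ContinuousMap.one_apply, Finset.sum_const, Finset.card_range, nsmul_eq_mul, mul_one]
    have : (T : ℂ) ≠ 0 := by exact_mod_cast hT.ne'
    rw [inv_mul_cancel₀ this]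
  · set s := ∑ i, n i * θ i with hs
    set z : ℂ := Complex.exp (2 * Real.pi * Complex.I * (s : ℝ)) with hz
    have hz1 : z ≠ 1 := by
      intro h1
      obtain ⟨c, hc⟩ := Complex.exp_eq_one_iff.1 h1
      have h2 : (2 * Real.pi * Complex.I : ℂ) ≠ 0 := Complex.two_pi_I_ne_zero
      have h3 : ((s : ℝ) : ℂ) = (c : ℂ) := by
        apply mul_left_cancel₀ h2
        rw [hc]
        ring
      have h4 : s = (c : ℝ) := by exact_mod_cast h3
      exact hθ n h c h4
    have hzn : ‖z‖ = 1 := by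
      rw [hz, show (2 * Real.pi * Complex.I * (s : ℝ) : ℂ) =
        ((2 * Real.pi * s : ℝ) : ℂ) * Complex.I by push_cast; ring]
      exact Complex.norm_exp_ofReal_mul_I _
    have h1 : ∀ T : ℕ, Kron_avg θ N (UnitAddTorus.mFourier n) T =
        (T : ℂ)⁻¹ * (z ^ N * ((z ^ T - 1) / (z - 1))) := by
      intro T
      unfold Kron_avg
      congr 1
      simp_rw [Kron_mF]
      rw [← hs, ← hz, ← geom_sum_eq hz1, Finset.mul_sum]
      simp_rw [pow_add]
    rw [tendsto_zero_iff_norm_tendsto_zero]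
    have h3 : ∀ᶠ T : ℕ in atTop, ‖Kron_avg θ N (UnitAddTorus.mFourier n) T‖ ≤
        (T : ℝ)⁻¹ * (2 / ‖z - 1‖) := by
      filter_upwards with T
      rw [h1, norm_mul, norm_inv, norm_mul, norm_pow, hzn, one_pow, one_mul, norm_div,
        Complex.norm_natCast]
      refine mul_le_mul_of_nonneg_left ?_ (inv_nonneg.2 (Nat.cast_nonneg T))
      refine div_le_div_of_nonneg_right ?_ (norm_nonneg _)
      refine (norm_sub_le _ _).trans ?_
      rw [norm_pow, hzn, norm_one]
      norm_num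
    refine squeeze_zero' (Eventually.of_forall fun T => norm_nonneg _) h3 ?_
    have h4 : Tendsto (fun T : ℕ => (T : ℝ)⁻¹ * (2 / ‖z - 1‖)) atTop
        (𝓝 (0 * (2 / ‖z - 1‖))) :=
      (tendsto_inv_atTop_zero.comp tendsto_natCast_atTop_atTop).mul_const _
    rwa [zero_mul] at h4

private theorem Kron_span {ι : Type} [Fintype ι] {θ : ι → ℝ}
    (hθ : ∀ n : ι → ℤ, n ≠ 0 → ∀ c : ℤ, ∑ i, n i * θ i ≠ (c : ℝ)) (N : ℕ)
    {p : C(UnitAddTorus ι, ℂ)}
    (hp : p ∈ Submodule.span ℂ (range (UnitAddTorus.mFourier (d := ι)))) :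
    Tendsto (Kron_avg θ N p) atTop (𝓝 (∫ x, p x ∂Kron_mu ι)) := by
  have hint : ∀ f : C(UnitAddTorus ι, ℂ), Integrable (fun x => f x) (Kron_mu ι) := fun f =>
    f.continuous.integrable_of_hasCompactSupport (HasCompactSupport.of_compactSpace _)
  induction hp using Submodule.span_induction with
  | mem x hx =>
    obtain ⟨n, rfl⟩ := hx
    exact Kron_avgF hθ N n
  | zero =>
    have h : Kron_avg θ N (0 : C(UnitAddTorus ι, ℂ)) = fun _ => 0 := by
      funext T
      simp [Kron_avg]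
    rw [h]
    simp
  | add x y _ _ hx hy =>
    have h : Kron_avg θ N (x + y) = fun T => Kron_avg θ N x T + Kron_avg θ N y T := by
      funext T
      unfold Kron_avg
      simp only [ContinuousMap.add_apply]
      rw [Finset.sum_add_distrib, mul_add]
    rw [h]
    simp only [ContinuousMap.add_apply]
    rw [integral_add (hint x) (hint y)]
    exact hx.add hy
  | smul a x _ hx =>
    have h : Kron_avg θ N (a • x) = fun T => a * Kron_avg θ N x T := by
      funext T
      unfold Kron_avg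
      simp only [ContinuousMap.smul_apply, smul_eq_mul]
      rw [← Finset.mul_sum]
      ring
    rw [h]
    simp only [ContinuousMap.smul_apply, smul_eq_mul]
    rw [integral_const_mul]
    exact hx.const_mul a

private theorem Kron_avg_le {ι : Type} [Fintype ι] {θ : ι → ℝ} {N : ℕ}
    {f : C(UnitAddTorus ι, ℂ)} {B : ℝ} (h : ∀ x, ‖f x‖ ≤ B) {T : ℕ} (hT : 0 < T) :
    ‖Kron_avg θ N f T‖ ≤ B := by
  unfold Kron_avg
  rw [norm_mul, norm_inv, Complex.norm_natCast]
  have h1 : ‖∑ m ∈ Finset.range T, f (Kron_pt θ (N + m))‖ ≤ T * B := by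
    refine (norm_sum_le _ _).trans ?_
    refine (Finset.sum_le_sum (fun m _ => h _)).trans ?_
    simp
  have hT' : (0 : ℝ) < T := by exact_mod_cast hT
  calc (T : ℝ)⁻¹ * ‖∑ m ∈ Finset.range T, f (Kron_pt θ (N + m))‖ ≤ (T : ℝ)⁻¹ * (T * B) :=
        mul_le_mul_of_nonneg_left h1 (inv_nonneg.2 hT'.le)
    _ = B := by field_simp

private theorem Kron_hit {ι : Type} [Fintype ι] {θ : ι → ℝ}
    (hθ : ∀ n : ι → ℤ, n ≠ 0 → ∀ c : ℤ, ∑ i, n i * θ i ≠ (c : ℝ)) (N : ℕ)
    {V : Set (UnitAddTorus ι)} (hV : IsOpen V) (hne : V.Nonempty) :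
    ∃ m : ℕ, N ≤ m ∧ Kron_pt θ m ∈ V := by
  by_contra hcon
  push Not at hcon
  obtain ⟨x0, hx0⟩ := hne
  obtain ⟨δ, hδ, hball⟩ := Metric.isOpen_iff.1 hV x0 hx0
  set g : UnitAddTorus ι → ℝ := fun x => max 0 (δ - dist x x0) with hg
  have hgc : Continuous g :=
    continuous_const.max (continuous_const.sub (continuous_id.dist continuous_const))
  have hg0 : ∀ x, x ∉ V → g x = 0 := by
    intro x hx
    have : δ ≤ dist x x0 := by
      by_contra h
      push Not at h
      exact hx (hball (Metric.mem_ball.2 h))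
    exact max_eq_left (by linarith)
  have hpos : 0 < ∫ x, g x ∂Kron_mu ι := by
    refine hgc.integral_pos_of_hasCompactSupport_nonneg_nonzero
      (HasCompactSupport.of_compactSpace _) (fun x => le_max_left _ _) (x := x0) ?_
    simp only [hg, dist_self, sub_zero]
    exact (lt_max_of_lt_right hδ).ne'
  set c := ∫ x, g x ∂Kron_mu ι with hcdef
  let f : C(UnitAddTorus ι, ℂ) := ⟨fun x => (g x : ℂ), Complex.continuous_ofReal.comp hgc⟩
  have hfint : ∫ x, f x ∂Kron_mu ι = (c : ℂ) := by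
    show ∫ x, (g x : ℂ) ∂Kron_mu ι = _
    rw [integral_complex_ofReal]
  have hmem : f ∈ (Submodule.span ℂ (range (UnitAddTorus.mFourier (d := ι)))).topologicalClosure := by
    rw [UnitAddTorus.span_mFourier_closure_eq_top]
    trivial
  have hmem' : f ∈ closure (Submodule.span ℂ (range (UnitAddTorus.mFourier (d := ι))) :
      Set C(UnitAddTorus ι, ℂ)) := hmem
  obtain ⟨p, hp, hpd⟩ := Metric.mem_closure_iff.1 hmem' (c / 4) (by positivity)
  have hnorm : ∀ x, ‖(f - p) x‖ ≤ c / 4 := fun x => by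
    rw [dist_eq_norm] at hpd
    exact ((f - p).norm_coe_le_norm x).trans hpd.le
  have h1 : ‖∫ x, p x ∂Kron_mu ι‖ ≤ c / 4 := by
    refine le_of_tendsto (Kron_span hθ N hp).norm ?_
    filter_upwards [eventually_gt_atTop 0] with T hT
    have h2 : Kron_avg θ N p T = - Kron_avg θ N (f - p) T := by
      unfold Kron_avg
      rw [← mul_neg, ← Finset.sum_neg_distrib]
      congr 1
      refine Finset.sum_congr rfl fun m _ => ?_
      have h3 : f (Kron_pt θ (N + m)) = 0 := by
        show ((g (Kron_pt θ (N + m)) : ℝ) : ℂ) = 0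
        rw [hg0 _ (hcon (N + m) (Nat.le_add_right N m))]
        simp
      simp only [ContinuousMap.sub_apply, h3, zero_sub, neg_neg]
    rw [h2, norm_neg]
    exact Kron_avg_le hnorm hT
  have h2 : ‖∫ x, (f - p) x ∂Kron_mu ι‖ ≤ c / 4 := by
    have := norm_integral_le_of_norm_le_const (μ := Kron_mu ι) (f := fun x => (f - p) x)
      (C := c / 4) (Eventually.of_forall hnorm)
    simpa using this
  have hint : ∀ f : C(UnitAddTorus ι, ℂ), Integrable (fun x => f x) (Kron_mu ι) := fun f =>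
    f.continuous.integrable_of_hasCompactSupport (HasCompactSupport.of_compactSpace _)
  have h3 : ∫ x, (f - p) x ∂Kron_mu ι = (c : ℂ) - ∫ x, p x ∂Kron_mu ι := by
    simp only [ContinuousMap.sub_apply]
    rw [integral_sub (hint f) (hint p), hfint]
  rw [h3] at h2
  have h4 : ‖(c : ℂ)‖ ≤ ‖(c : ℂ) - ∫ x, p x ∂Kron_mu ι‖ + ‖∫ x, p x ∂Kron_mu ι‖ := by
    have := norm_add_le ((c : ℂ) - ∫ x, p x ∂Kron_mu ι) (∫ x, p x ∂Kron_mu ι)
    rwa [sub_add_cancel] at this
  rw [Complex.norm_real, Real.norm_of_nonneg hpos.le] at h4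
  linarith

/-- logarithms of primes satisfy no linear relation over the integers -/
private theorem Kron_log (S : Finset ℕ) (hS : ∀ p ∈ S, p.Prime) (b : ℕ → ℤ)
    (h : ∑ p ∈ S, (b p : ℝ) * Real.log p = 0) : ∀ p ∈ S, b p = 0 := by
  have hx : ∑ p ∈ S, (((b p).toNat : ℕ) : ℝ) * Real.log p =
      ∑ p ∈ S, (((-b p).toNat : ℕ) : ℝ) * Real.log p := by
    rw [← sub_eq_zero, ← Finset.sum_sub_distrib, ← h]
    refine Finset.sum_congr rfl fun p _ => ?_
    rw [← sub_mul]
    congr 1
    have h1 : ((b p).toNat : ℤ) - ((-b p).toNat : ℤ) = b p := by omega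
    have h2 : (((b p).toNat : ℤ) : ℝ) - (((-b p).toNat : ℤ) : ℝ) = (b p : ℝ) := by
      rw [← Int.cast_sub, h1]
    exact_mod_cast h2
  have hprod : ∀ e : ℕ → ℕ, Real.log ((∏ p ∈ S, p ^ (e p) : ℕ) : ℝ) =
      ∑ p ∈ S, (e p : ℝ) * Real.log p := by
    intro e
    push_cast
    rw [Real.log_prod (fun p hp => pow_ne_zero _ (by exact_mod_cast (hS p hp).ne_zero))]
    refine Finset.sum_congr rfl fun p _ => ?_
    rw [Real.log_pow]
  have hpp : ∀ e : ℕ → ℕ, 0 < ∏ p ∈ S, p ^ (e p) := fun e =>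
    Finset.prod_pos fun p hp => pow_pos (hS p hp).pos _
  have heq : ∏ p ∈ S, p ^ ((b p).toNat) = ∏ p ∈ S, p ^ ((-b p).toNat) := by
    have h1 := hprod (fun p => (b p).toNat)
    have h2 := hprod (fun p => (-b p).toNat)
    have h3 : ((∏ p ∈ S, p ^ ((b p).toNat) : ℕ) : ℝ) = ((∏ p ∈ S, p ^ ((-b p).toNat) : ℕ) : ℝ) := by
      apply Real.log_injOn_pos
      · exact Set.mem_Ioi.2 (by exact_mod_cast hpp (fun p => (b p).toNat))
      · exact Set.mem_Ioi.2 (by exact_mod_cast hpp (fun p => (-b p).toNat))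
      · rw [h1, h2]
        exact hx
    exact_mod_cast h3
  have hfac : ∀ (e : ℕ → ℕ) (q : ℕ), q ∈ S → (∏ p ∈ S, p ^ (e p)).factorization q = e q := by
    intro e q hq
    rw [Nat.factorization_prod_apply (fun p hp => pow_ne_zero _ (hS p hp).ne_zero)]
    rw [Finset.sum_eq_single q]
    · rw [Nat.factorization_pow, Finsupp.smul_apply, (hS q hq).factorization_self]
      simp
    · intro p hp hpq
      rw [Nat.factorization_pow, Finsupp.smul_apply,
        Nat.factorization_eq_zero_of_not_dvd]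
      · simp
      · intro hd
        exact hpq ((Nat.prime_dvd_prime_iff_eq (hS q hq) (hS p hp)).1 hd).symm
    · exact fun h1 => absurd hq h1
  intro q hq
  have h1 := hfac (fun p => (b p).toNat) q hq
  have h2 := hfac (fun p => (-b p).toNat) q hq
  rw [heq] at h1
  have h3 : (b q).toNat = (-b q).toNat := h1.symm.trans h2
  omega

private theorem Kron_chk (M : ℤ) (p : ℕ) (hp : p ≠ 0) (m : ℕ) :
    chk (M * m) p = Complex.exp (2 * Real.pi * Complex.I *
      ((m * (-(M : ℝ) * Real.log p / Real.log 2) : ℝ) : ℂ)) := by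
  unfold chk sh
  rw [if_neg hp, Complex.cpow_def_of_ne_zero (by exact_mod_cast hp), ← Complex.natCast_log]
  congr 1
  push_cast
  ring

theorem kron (M : ℤ) (hM : M ≠ 0) (A : Finset ℕ) (hA : ∀ p ∈ A, p.Prime ∧ p ≠ 2) (X : ℕ → ℂ)
    (hX : ∀ p ∈ A, ‖X p‖ = 1) (ε : ℝ) (hε : 0 < ε) (N : ℕ) :
    ∃ m : ℕ, N ≤ m ∧ ∀ p ∈ A, ‖chk (M * m) p - X p‖ < ε := by
  have hl2 : Real.log 2 ≠ 0 := (Real.log_pos (by norm_num)).ne'
  have hMR : (M : ℝ) ≠ 0 := by exact_mod_cast hM
  set θ : {p // p ∈ A} → ℝ := fun p => -(M : ℝ) * Real.log (p : ℕ) / Real.log 2 with hθdef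
  have hθ : ∀ n : {p // p ∈ A} → ℤ, n ≠ 0 → ∀ c : ℤ, ∑ i, n i * θ i ≠ (c : ℝ) := by
    intro n hn c hc
    have h2A : (2 : ℕ) ∉ A := fun h => (hA 2 h).2 rfl
    classical
    set b : ℕ → ℤ := fun q => if h : q ∈ A then M * n ⟨q, h⟩ else c with hb
    have hsum : ∑ q ∈ insert 2 A, (b q : ℝ) * Real.log q = 0 := by
      rw [Finset.sum_insert h2A]
      have h1 : ∑ q ∈ A, (b q : ℝ) * Real.log q =
          ∑ i : {p // p ∈ A}, (M : ℝ) * n i * Real.log (i : ℕ) := by
        rw [← Finset.sum_coe_sort A]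
        refine Finset.sum_congr rfl fun i _ => ?_
        have h2 : b (i : ℕ) = M * n i := by
          simp only [hb, i.2, dif_pos, Subtype.coe_eta]
        rw [h2]
        push_cast
        ring
      have h2 : b 2 = c := by
        simp only [hb, h2A, not_false_eq_true, dif_neg]
      have h3 : ∑ i : {p // p ∈ A}, (M : ℝ) * n i * Real.log (i : ℕ) = - (c * Real.log 2) := by
        rw [← hc, Finset.sum_mul, ← Finset.sum_neg_distrib]
        refine Finset.sum_congr rfl fun i _ => ?_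
        simp only [hθdef]
        field_simp
      rw [h1, h2, h3]
      push_cast
      ring
    have hz := Kron_log (insert 2 A) (by
      intro p hp
      rcases Finset.mem_insert.1 hp with rfl | hp
      · exact Nat.prime_two
      · exact (hA p hp).1) b hsum
    apply hn
    funext i
    have h4 := hz (i : ℕ) (Finset.mem_insert_of_mem i.2)
    have h2 : b (i : ℕ) = M * n i := by
      simp only [hb, i.2, dif_pos, Subtype.coe_eta]
    rw [h2] at h4
    rcases mul_eq_zero.1 h4 with h5 | h5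
    · exact absurd h5 hM
    · exact h5
  set V : Set (UnitAddTorus {p // p ∈ A}) :=
    {x | ∀ i : {p // p ∈ A}, ‖(fourier 1 (x i) : ℂ) - X i‖ < ε} with hV
  have hVo : IsOpen V := by
    have h1 : V = ⋂ i : {p // p ∈ A}, {x | ‖(fourier 1 (x i) : ℂ) - X i‖ < ε} := by
      ext x
      simp only [hV, mem_iInter]
      rfl
    rw [h1]
    refine isOpen_iInter_of_finite fun i => ?_
    refine isOpen_lt ?_ continuous_const
    exact (((fourier 1).continuous.comp (continuous_apply i)).sub continuous_const).norm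
  have hexp : ∀ x : ℝ, (fourier 1 ((x : ℝ) : UnitAddCircle) : ℂ) =
      Complex.exp (2 * Real.pi * Complex.I * (x : ℂ)) := by
    intro x
    rw [fourier_coe_apply]
    congr 1
    push_cast
    ring
  have hVn : V.Nonempty := by
    refine ⟨fun i => ((Complex.arg (X i) / (2 * Real.pi) : ℝ) : UnitAddCircle), ?_⟩
    intro i
    have hpi : (Real.pi : ℂ) ≠ 0 := by exact_mod_cast Real.pi_ne_zero
    have h1 : (fourier 1 ((Complex.arg (X i) / (2 * Real.pi) : ℝ) : UnitAddCircle) : ℂ) = X i := by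
      rw [hexp]
      have h2 := Complex.norm_mul_exp_arg_mul_I (X i)
      rw [hX _ i.2] at h2
      rw [Complex.ofReal_one, one_mul] at h2
      rw [← h2]
      congr 1
      rw [h2]
      push_cast
      field_simp
    show ‖(fourier 1 ((Complex.arg (X i) / (2 * Real.pi) : ℝ) : UnitAddCircle) : ℂ) - X i‖ < ε
    rw [h1, sub_self, norm_zero]
    exact hε
  obtain ⟨m, hm, hmV⟩ := Kron_hit hθ N hVo hVn
  refine ⟨m, hm, fun p hp => ?_⟩
  have h1 : ‖(fourier 1 (Kron_pt θ m ⟨p, hp⟩) : ℂ) - X p‖ < ε := hmV ⟨p, hp⟩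
  have h2 : (fourier 1 (Kron_pt θ m ⟨p, hp⟩) : ℂ) = chk (M * m) p := by
    rw [Kron_chk M p (hA p hp).1.ne_zero m]
    show (fourier 1 ((m * θ ⟨p, hp⟩ : ℝ) : UnitAddCircle) : ℂ) = _
    rw [hexp]
  rwa [h2] at h1

theorem kron_seq (M : ℤ) (hM : M ≠ 0) (χ : ℕ → ℂ) (hχ : CM χ) (h1 : ∀ n, n ≠ 0 → ‖χ n‖ = 1) :
    ∃ m : ℕ → ℕ, Tendsto m atTop atTop ∧
      ∀ n, n ≠ 0 → Tendsto (fun j => chk (M * m j) n) atTop (𝓝 (χ n)) := by
  classical
  have hstep : ∀ j : ℕ, ∃ m : ℕ, j ≤ m ∧ ∀ p ∈ (Finset.range (j + 1)).filter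
      (fun p => p.Prime ∧ p ≠ 2), ‖chk (M * m) p - χ p‖ < 1 / ((j : ℝ) + 1) := by
    intro j
    refine kron M hM _ (fun p hp => (Finset.mem_filter.1 hp).2) χ (fun p hp => ?_) _
      (by positivity) j
    exact h1 p (Finset.mem_filter.1 hp).2.1.ne_zero
  choose m hm1 hm2 using hstep
  refine ⟨m, tendsto_atTop_mono hm1 tendsto_id, ?_⟩
  intro n hn
  induction n using induction_on_primes with
  | zero => exact absurd rfl hn
  | one =>
    have h2 : ∀ j : ℕ, chk (M * m j) 1 = 1 := fun j => (chk_CM _).1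
    simp_rw [h2, hχ.1]
    exact tendsto_const_nhds
  | prime_mul p a hp ih =>
    have ha : a ≠ 0 := by
      intro h2
      exact hn (by rw [h2, mul_zero])
    have hpl : Tendsto (fun j => chk (M * m j) p) atTop (𝓝 (χ p)) := by
      by_cases hp2 : p = 2
      · subst hp2
        have h2 : ∀ j : ℕ, chk (M * m j) 2 = 1 := fun j => (chk_CM _).2.1
        simp_rw [h2, hχ.2.1]
        exact tendsto_const_nhds
      · rw [tendsto_iff_norm_sub_tendsto_zero]
        refine squeeze_zero' (Eventually.of_forall fun j => norm_nonneg _) ?_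
          (tendsto_one_div_add_atTop_nhds_zero_nat (𝕜 := ℝ))
        filter_upwards [eventually_ge_atTop p] with j hj
        refine (hm2 j p ?_).le
        rw [Finset.mem_filter, Finset.mem_range]
        exact ⟨by omega, hp, hp2⟩
    have hcm : ∀ j : ℕ, chk (M * m j) (p * a) = chk (M * m j) p * chk (M * m j) a := fun j =>
      (chk_CM _).2.2.1 p a hp.ne_zero ha
    simp_rw [hcm, hχ.2.2.1 p a hp.ne_zero ha]
    exact hpl.mul (ih ha)

end Pool.Agent.Lib.MP_ec260d_ntA
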