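import Mathlib
import Pool.Agent.Lib.MP_ec260d_ntA.Defs
import Pool.Agent.Lib.MP_ec260d_ntA.Kron
import Pool.Agent.Lib.MP_ec260d_ntA.EfCont

/-!
# JOB TractA: from the orbit to its closure (about 200 lines)

`v_i(χ) = ξ + sh (k i) + ef (chk (k i) χ) ξ` (`chk (k i) χ` means the product).  `SS (ξ + sh (k i + M m)) = sh (M m) + v_i(chk (M m))` (`SS_shift`, `sh_add`, `chk_add`).
For `v ∈ ℂ^r` let `Q_d(v)` be the coefficient of `Y^d` in `q (Y + v) ∈ ℂ[Y]` (`MvPolynomial.aeval (fun i => Polynomial.X + Polynomial.C (v i)) q`); `Q_d` is continuous in `v` (induction on `q`), zero for `d > D = q.totalDegree` (or some `D` that works for all `v`; the degree is at most `q.totalDegree`), and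
`q (y + v) = ∑_{d ≤ D} Q_d(v) y^d`.
CLAIM: for all `χ ∈ U` (`CM`, `‖χ n‖ = 1` for `n ≠ 0`) and all `d`: `Q_d(v(χ)) = 0`.  Downward induction on `d ≤ D`: suppose `Q_{d'}(v(χ)) = 0` for all `d' > d` and all `χ ∈ U`.  `chk (M m) ∈ U`, so with `y_m = sh (M m)`, `v^m = v(chk (M m))`:
`0 = q(y_m + v^m) = ∑_{d' ≤ d} Q_{d'}(v^m) y_m^(d')`, `‖Q_d(v^m)‖ ≤ ∑_{d' < d} ‖Q_{d'}(v^m)‖ ‖y_m‖^(d' - d) → 0` as `m → ∞` (`‖y_m‖ = 2π |M| m / log 2 → ∞`, and `v^m` is bounded: `‖v_i‖ ≤ ‖ξ‖ + ‖sh (k i)‖ + 1/10`, so `Q_{d'}(v^m)` is bounded, by continuity on a compact set).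
For `χ ∈ U` take `m_j` from `kron_seq`; `v^(m_j) → v(χ)` (`ef_tendsto`; pointwise convergence of `chk (k i) n * chk (M m_j) n` for `n ≠ 0`; for `n = 0` `chk` is `0`, constant, and `chk (k i) 0 * χ 0 = 0` as well), so `Q_d(v(χ)) = lim Q_d(v^(m_j)) = 0`.
Conclusion: `q(v(χ)) = Q_0(v(χ)) = 0`.
-/

namespace Pool.Agent.Lib.MP_ec260d_ntA

open Complex Set Filter Topology Metric MeasureTheory

/-- the polynomial `q (Y + v)` -/
private noncomputable def TractA_A (r : ℕ) (q : MvPolynomial (Fin r) ℂ) (v : Fin r → ℂ) :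
    Polynomial ℂ :=
  MvPolynomial.aeval (fun i => Polynomial.X + Polynomial.C (v i)) q

private theorem TractA_eval (r : ℕ) (q : MvPolynomial (Fin r) ℂ) (v : Fin r → ℂ) (y : ℂ) :
    Polynomial.eval y (TractA_A r q v) = MvPolynomial.eval (fun i => y + v i) q := by
  unfold TractA_A
  induction q using MvPolynomial.induction_on with
  | C a => simp
  | add p q hp hq => rw [map_add, Polynomial.eval_add, hp, hq, map_add]
  | mul_X p i hp =>
    rw [map_mul, Polynomial.eval_mul, hp, map_mul, MvPolynomial.aeval_X, MvPolynomial.eval_X,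
      Polynomial.eval_add, Polynomial.eval_X, Polynomial.eval_C]

private theorem TractA_deg (r : ℕ) (q : MvPolynomial (Fin r) ℂ) :
    ∃ D : ℕ, ∀ v : Fin r → ℂ, (TractA_A r q v).natDegree ≤ D := by
  unfold TractA_A
  induction q using MvPolynomial.induction_on with
  | C a =>
    refine ⟨0, fun v => ?_⟩
    rw [MvPolynomial.aeval_C, Polynomial.algebraMap_apply, Algebra.algebraMap_self,
      RingHom.id_apply, Polynomial.natDegree_C]
  | add p q hp hq =>
    obtain ⟨D, hD⟩ := hp
    obtain ⟨E, hE⟩ := hq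
    refine ⟨max D E, fun v => ?_⟩
    rw [map_add]
    exact (Polynomial.natDegree_add_le _ _).trans (max_le_max (hD v) (hE v))
  | mul_X p i hp =>
    obtain ⟨D, hD⟩ := hp
    refine ⟨D + 1, fun v => ?_⟩
    rw [map_mul, MvPolynomial.aeval_X]
    refine Polynomial.natDegree_mul_le.trans (add_le_add (hD v) ?_)
    exact (Polynomial.natDegree_X_add_C (v i)).le

private theorem TractA_cont (r : ℕ) (q : MvPolynomial (Fin r) ℂ) :
    ∀ d : ℕ, Continuous fun v : Fin r → ℂ => (TractA_A r q v).coeff d := by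
  unfold TractA_A
  induction q using MvPolynomial.induction_on with
  | C a =>
    intro d
    simp only [MvPolynomial.aeval_C, Polynomial.algebraMap_apply, Algebra.algebraMap_self,
      RingHom.id_apply]
    exact continuous_const
  | add p q hp hq =>
    intro d
    simp only [map_add, Polynomial.coeff_add]
    exact (hp d).add (hq d)
  | mul_X p i hp =>
    intro d
    simp only [map_mul, MvPolynomial.aeval_X, mul_add, Polynomial.coeff_add,
      Polynomial.coeff_mul_C]
    refine Continuous.add ?_ ((hp d).mul (continuous_apply i))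
    rcases d with _ | d
    · simp only [Polynomial.mul_coeff_zero, Polynomial.coeff_X_zero, mul_zero]
      exact continuous_const
    · simp only [Polynomial.coeff_mul_X]
      exact hp d

private theorem TractA_inv (M : ℤ) :
    Tendsto (fun m : ℕ => (sh (M * m))⁻¹) atTop (𝓝 0) := by
  have hlog : (Real.log 2 : ℂ) ≠ 0 := by
    exact_mod_cast (Real.log_pos (by norm_num : (1 : ℝ) < 2)).ne'
  have h1 : ∀ m : ℕ, (sh (M * m))⁻¹ =
      (2 * Real.pi * I * M / Real.log 2)⁻¹ * ((m : ℂ))⁻¹ := by
    intro m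
    unfold sh
    rw [← mul_inv]
    congr 1
    push_cast
    ring
  simp only [h1]
  have h2 : Tendsto (fun m : ℕ => ((m : ℂ))⁻¹) atTop (𝓝 0) := tendsto_inv_atTop_nhds_zero_nat
  have h3 := h2.const_mul ((2 * Real.pi * I * M / Real.log 2)⁻¹ : ℂ)
  rw [mul_zero] at h3
  exact h3

private theorem TractA_ne (M : ℤ) (hM : M ≠ 0) (m : ℕ) (hm : m ≠ 0) : sh (M * m) ≠ 0 := by
  have hlog : (Real.log 2 : ℂ) ≠ 0 := by
    exact_mod_cast (Real.log_pos (by norm_num : (1 : ℝ) < 2)).ne'
  have hpi : (Real.pi : ℂ) ≠ 0 := by exact_mod_cast Real.pi_ne_zero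
  have hM' : (M : ℂ) ≠ 0 := by exact_mod_cast hM
  have hm' : (m : ℂ) ≠ 0 := by exact_mod_cast hm
  unfold sh
  push_cast
  refine div_ne_zero (mul_ne_zero (mul_ne_zero (mul_ne_zero two_ne_zero hpi) I_ne_zero)
    (mul_ne_zero hM' hm')) hlog

theorem tractA (r : ℕ) (ξ : ℂ) (hξ : 10 ≤ ξ.re) (k : Fin r → ℤ) (M : ℤ) (hM : M ≠ 0)
    (q : MvPolynomial (Fin r) ℂ)
    (h : ∀ m : ℕ, MvPolynomial.eval (fun i => SS (ξ + sh (k i + M * m))) q = 0)
    (χ : ℕ → ℂ) (hχ : CM χ) (h1 : ∀ n, n ≠ 0 → ‖χ n‖ = 1) :
    MvPolynomial.eval (fun i => ξ + sh (k i) + ef (fun n => chk (k i) n * χ n) ξ) q = 0 := by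
  classical
  set V : (ℕ → ℂ) → Fin r → ℂ := fun χ i => ξ + sh (k i) + ef (fun n => chk (k i) n * χ n) ξ
    with hV
  obtain ⟨D, hD⟩ := TractA_deg r q
  have hcont := TractA_cont r q
  -- the relation at the points of the orbit
  have horb : ∀ m : ℕ, Polynomial.eval (sh (M * m)) (TractA_A r q (V (chk (M * m)))) = 0 := by
    intro m
    rw [TractA_eval, ← h m]
    congr 2
    funext i
    rw [SS_shift ξ hξ, sh_add]
    have h2 : chk (k i + M * m) = fun n => chk (k i) n * chk (M * m) n := by
      funext n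
      exact chk_add _ _ n
    rw [h2]
    change sh (M * m) + (ξ + sh (k i) + ef (fun n => chk (k i) n * chk (M * m) n) ξ) = _
    ring
  -- bounds
  have hbd : ∀ d : ℕ, ∃ C : ℝ, ∀ m : ℕ,
      ‖(TractA_A r q (V (chk (M * m)))).coeff d‖ ≤ C := by
    intro d
    set R : ℝ := ‖ξ‖ + (∑ i, ‖sh (k i)‖) + 1 / 10 with hR
    obtain ⟨C, hC⟩ := (isCompact_closedBall (0 : Fin r → ℂ) R).exists_bound_of_continuousOn
      (hcont d).continuousOn
    refine ⟨C, fun m => hC _ ?_⟩
    rw [mem_closedBall_zero_iff]
    have hR0 : 0 ≤ R := by positivity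
    rw [pi_norm_le_iff_of_nonneg hR0]
    intro i
    have h1 : ‖ef (fun n => chk (k i) n * chk (M * m) n) ξ‖ ≤ 1 / 10 :=
      (ef_spec _ (CM_mul _ _ (chk_CM (k i)) (chk_CM (M * m))) ξ hξ).1
    have h2 : ‖sh (k i)‖ ≤ ∑ i, ‖sh (k i)‖ :=
      Finset.single_le_sum (f := fun i => ‖sh (k i)‖) (fun i _ => norm_nonneg _)
        (Finset.mem_univ i)
    calc ‖V (chk (M * m)) i‖ ≤ ‖ξ + sh (k i)‖ + ‖ef (fun n => chk (k i) n * chk (M * m) n) ξ‖ :=
          norm_add_le _ _
      _ ≤ ‖ξ‖ + ‖sh (k i)‖ + ‖ef (fun n => chk (k i) n * chk (M * m) n) ξ‖ := by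
          linarith [norm_add_le ξ (sh (k i))]
      _ ≤ R := by
          rw [hR]
          linarith
  -- downward induction
  have hclaim : ∀ l d : ℕ, D < d + l → ∀ χ : ℕ → ℂ, CM χ → (∀ n, n ≠ 0 → ‖χ n‖ = 1) →
      (TractA_A r q (V χ)).coeff d = 0 := by
    intro l
    induction l with
    | zero =>
      intro d hd χ _ _
      exact Polynomial.coeff_eq_zero_of_natDegree_lt (lt_of_le_of_lt (hD _) (by omega))
    | succ l ih =>
      intro d hd χ hχ h1
      -- the coefficients along the orbit tend to zero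
      have hzero : Tendsto (fun m : ℕ => (TractA_A r q (V (chk (M * m)))).coeff d) atTop
          (𝓝 0) := by
        have hform : ∀ m : ℕ, m ≠ 0 → (TractA_A r q (V (chk (M * m)))).coeff d =
            -∑ e ∈ Finset.range d, (TractA_A r q (V (chk (M * m)))).coeff e *
              ((sh (M * m))⁻¹) ^ (d - e) := by
          intro m hm
          have hy := TractA_ne M hM m hm
          have e1 := horb m
          set T := TractA_A r q (V (chk (M * m))) with hT
          set y := sh (M * m) with hydef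
          have hlt : T.natDegree < D + d + 1 := lt_of_le_of_lt (hD _) (by omega)
          rw [Polynomial.eval_eq_sum_range' hlt] at e1
          have e2 : ∑ e ∈ Finset.range (D + d + 1), T.coeff e * y ^ e =
              ∑ e ∈ Finset.range (d + 1), T.coeff e * y ^ e := by
            refine (Finset.sum_subset ?_ ?_).symm
            · intro e he
              rw [Finset.mem_range] at he ⊢
              omega
            · intro e _ he2
              rw [Finset.mem_range] at he2
              rw [hT, ih e (by omega) _ (chk_CM _) (chk_norm _), zero_mul]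
          rw [e2, Finset.sum_range_succ] at e1
          have e3 : T.coeff d * y ^ d = -∑ e ∈ Finset.range d, T.coeff e * y ^ e := by
            rw [eq_neg_iff_add_eq_zero, add_comm]
            exact e1
          have e4 : T.coeff d = (T.coeff d * y ^ d) * (y⁻¹) ^ d := by
            rw [mul_assoc, ← mul_pow, mul_inv_cancel₀ hy, one_pow, mul_one]
          rw [e4, e3, neg_mul, Finset.sum_mul]
          congr 1
          refine Finset.sum_congr rfl fun e he => ?_
          have hed : e < d := Finset.mem_range.1 he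
          have e5 : (y⁻¹) ^ d = (y⁻¹) ^ e * (y⁻¹) ^ (d - e) := by
            rw [← pow_add]
            congr 1
            omega
          rw [e5, mul_assoc, ← mul_assoc (y ^ e), ← mul_pow, mul_inv_cancel₀ hy, one_pow, one_mul]
        have hlim : Tendsto (fun m : ℕ => -∑ e ∈ Finset.range d,
            (TractA_A r q (V (chk (M * m)))).coeff e * ((sh (M * m))⁻¹) ^ (d - e)) atTop
            (𝓝 0) := by
          have h2 : Tendsto (fun m : ℕ => ∑ e ∈ Finset.range d,
            (TractA_A r q (V (chk (M * m)))).coeff e * ((sh (M * m))⁻¹) ^ (d - e)) atTop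
            (𝓝 (∑ e ∈ Finset.range d, (0 : ℂ))) := by
            refine tendsto_finsetSum _ fun e he => ?_
            have hed : e < d := Finset.mem_range.1 he
            obtain ⟨C, hC⟩ := hbd e
            have h3 : Tendsto (fun m : ℕ => ((sh (M * m))⁻¹) ^ (d - e)) atTop (𝓝 0) := by
              have h4 := (TractA_inv M).pow (d - e)
              rw [zero_pow (by omega)] at h4
              exact h4
            refine squeeze_zero_norm (a := fun m : ℕ => C * ‖((sh (M * m))⁻¹) ^ (d - e)‖) ?_ ?_
            · intro m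
              rw [norm_mul]
              exact mul_le_mul_of_nonneg_right (hC m) (norm_nonneg _)
            · have h5 := (h3.norm).const_mul C
              rw [norm_zero, mul_zero] at h5
              exact h5
          have h6 := h2.neg
          rw [Finset.sum_const_zero, neg_zero] at h6
          exact h6
        refine hlim.congr' ?_
        filter_upwards [eventually_ne_atTop 0] with m hm
        exact (hform m hm).symm
      obtain ⟨m, hm1, hm2⟩ := kron_seq M hM χ hχ h1
      have hVt : Tendsto (fun j => V (chk (M * m j))) atTop (𝓝 (V χ)) := by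
        rw [tendsto_pi_nhds]
        intro i
        refine Tendsto.add tendsto_const_nhds ?_
        refine ef_tendsto atTop (fun j n => chk (k i) n * chk (M * m j) n)
          (fun n => chk (k i) n * χ n) (fun j => CM_mul _ _ (chk_CM _) (chk_CM _))
          (CM_mul _ _ (chk_CM _) hχ) ?_ ξ hξ
        intro n
        by_cases hn : n = 0
        · subst hn
          have h0 : chk (k i) 0 = 0 := by simp [chk]
          simp only [h0, zero_mul]
          exact tendsto_const_nhds
        · exact (hm2 n hn).const_mul _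
      have h7 : Tendsto (fun j => (TractA_A r q (V (chk (M * m j)))).coeff d) atTop
          (𝓝 ((TractA_A r q (V χ)).coeff d)) := ((hcont d).tendsto _).comp hVt
      have h8 : Tendsto (fun j => (TractA_A r q (V (chk (M * m j)))).coeff d) atTop (𝓝 0) :=
        hzero.comp hm1
      exact tendsto_nhds_unique h7 h8
  have hall : TractA_A r q (V χ) = 0 := by
    ext d
    rw [Polynomial.coeff_zero]
    exact hclaim (D + 1) d (by omega) χ hχ h1
  have hfin := TractA_eval r q (V χ) 0
  rw [hall, Polynomial.eval_zero] at hfin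
  have h9 : (fun i => 0 + V χ i) = fun i => ξ + sh (k i) + ef (fun n => chk (k i) n * χ n) ξ := by
    funext i
    rw [zero_add]
  rw [h9] at hfin
  exact hfin.symm

end Pool.Agent.Lib.MP_ec260d_ntA
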