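import Mathlib
import Pool.Agent.Lib.MP_ec260d_ntA.Defs
import Pool.Agent.Lib.MP_ec260d_ntA.Shift

/-!
# JOB VdM: choice of primes (about 130 lines)

`chk k p = ω_p^k` with `ω_p = chk 1 p = exp (-2πi log p / log 2)`, `‖ω_p‖ = 1`.  For odd primes `p ≠ p'`: `ω_p ≠ ω_{p'}` (otherwise `log p - log p' = c log 2`, `c ∈ ℤ`, `p = 2^c p'`, impossible: parity / unique factorisation).
By induction on `r`: for injective `k : Fin r → ℤ` there are primes `p_j` with `det (chk (k i) (p j)) ≠ 0`.  Step `r → r + 1`: take `p_1..p_r` for the first `r` exponents; expand the `(r+1)`-determinant along the new column (prime `p`): it equals `∑_i c_i ω_p^(k_i)` with `c_{r+1} = ± det_r ≠ 0`; times `ω_p^N` (`N` large) it is a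
nonzero polynomial in `ω_p` (distinct exponents `k_i + N ≥ 0`), so it vanishes for finitely many values `ω_p` only; infinitely many odd primes give infinitely many values: choose `p` with nonzero value.  Injectivity of `p` is automatic since the determinant with two equal columns vanishes.
-/

namespace Pool.Agent.Lib.MP_ec260d_ntA

open Complex Set Filter Topology Metric MeasureTheory

private theorem VdM_zpow (k : ℤ) (p : ℕ) (hp : p ≠ 0) : chk k p = chk 1 p ^ k := by
  have h0 : chk 0 p = 1 := by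
    unfold chk sh
    rw [if_neg hp]
    simp
  have hne : chk 1 p ≠ 0 := by
    intro h
    have := chk_norm 1 p hp
    rw [h, norm_zero] at this
    exact zero_ne_one this
  induction k using Int.induction_on with
  | zero => rw [zpow_zero, h0]
  | succ n ih => rw [chk_add, ih, zpow_add_one₀ hne]
  | pred n ih =>
    have h1 := chk_add (-(n : ℤ) - 1) 1 p
    rw [sub_add_cancel, ih] at h1
    rw [zpow_sub_one₀ hne, h1, mul_assoc, mul_inv_cancel₀ hne, mul_one]

private theorem VdM_inj {p p' : ℕ} (hp : p.Prime) (hp' : p'.Prime) (h2 : p ≠ 2) (h2' : p' ≠ 2)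
    (h : chk 1 p = chk 1 p') : p = p' := by
  have hp0 : (p : ℂ) ≠ 0 := by exact_mod_cast hp.ne_zero
  have hp0' : (p' : ℂ) ≠ 0 := by exact_mod_cast hp'.ne_zero
  have hlog2 : (Real.log 2 : ℝ) ≠ 0 := (Real.log_pos one_lt_two).ne'
  have hlog2c : ((Real.log 2 : ℝ) : ℂ) ≠ 0 := by exact_mod_cast hlog2
  unfold chk at h
  rw [if_neg hp.ne_zero, if_neg hp'.ne_zero, Complex.cpow_def_of_ne_zero hp0,
    Complex.cpow_def_of_ne_zero hp0', Complex.exp_eq_exp_iff_exists_int] at h
  obtain ⟨n, hn⟩ := h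
  have e1 : Complex.log (p : ℂ) = ((Real.log p : ℝ) : ℂ) := Complex.natCast_log.symm
  have e2 : Complex.log (p' : ℂ) = ((Real.log p' : ℝ) : ℂ) := Complex.natCast_log.symm
  rw [e1, e2] at hn
  unfold sh at hn
  have hpi : (Real.pi : ℂ) ≠ 0 := by exact_mod_cast Real.pi_ne_zero
  have hn2 : ((Real.log p' : ℝ) : ℂ) = ((Real.log p : ℝ) : ℂ) + n * ((Real.log 2 : ℝ) : ℂ) := by
    have h3 : (2 * Real.pi * I) * ((Real.log p' : ℝ) : ℂ) =
        (2 * Real.pi * I) * (((Real.log p : ℝ) : ℂ) + n * ((Real.log 2 : ℝ) : ℂ)) := by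
      have h4 := hn
      field_simp at h4
      simp only [Int.cast_one] at h4
      linear_combination (2 * (Real.pi : ℂ) * I) * h4
    exact mul_left_cancel₀ (mul_ne_zero (mul_ne_zero two_ne_zero hpi) I_ne_zero) h3
  have hn3 : Real.log p' = Real.log p + n * Real.log 2 := by exact_mod_cast hn2
  have hpr : (0 : ℝ) < p := by exact_mod_cast hp.pos
  have hpr' : (0 : ℝ) < p' := by exact_mod_cast hp'.pos
  rcases le_total 0 n with h0 | h0
  · obtain ⟨m, rfl⟩ := Int.eq_ofNat_of_zero_le h0
    have h5 : (p' : ℝ) = p * 2 ^ m := by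
      apply Real.log_injOn_pos (Set.mem_Ioi.2 hpr') (Set.mem_Ioi.2 (by positivity))
      rw [Real.log_mul hpr.ne' (by positivity), Real.log_pow, hn3]
      push_cast
      ring
    have h6 : p' = p * 2 ^ m := by exact_mod_cast h5
    rcases Nat.eq_zero_or_pos m with hm | hm
    · rw [h6, hm, pow_zero, mul_one]
    · exfalso
      have h7 : 2 ∣ p' := by
        rw [h6]
        exact Dvd.dvd.mul_left (dvd_pow_self 2 (by omega)) p
      exact h2' ((Nat.prime_dvd_prime_iff_eq Nat.prime_two hp').1 h7).symm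
  · obtain ⟨m, hm0⟩ := Int.eq_ofNat_of_zero_le (neg_nonneg.2 h0)
    have hnm : n = -(m : ℤ) := by omega
    have h5 : (p : ℝ) = p' * 2 ^ m := by
      apply Real.log_injOn_pos (Set.mem_Ioi.2 hpr) (Set.mem_Ioi.2 (by positivity))
      rw [Real.log_mul hpr'.ne' (by positivity), Real.log_pow, hn3, hnm]
      push_cast
      ring
    have h6 : p = p' * 2 ^ m := by exact_mod_cast h5
    rcases Nat.eq_zero_or_pos m with hm | hm
    · rw [h6, hm, pow_zero, mul_one]
    · exfalso
      have h7 : 2 ∣ p := by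
        rw [h6]
        exact Dvd.dvd.mul_left (dvd_pow_self 2 (by omega)) p'
      exact h2 ((Nat.prime_dvd_prime_iff_eq Nat.prime_two hp).1 h7).symm

/-- a nonzero combination of different powers vanishes for finitely many primes only -/
private theorem VdM_avoid {r : ℕ} (k : Fin (r + 1) → ℤ) (hk : Function.Injective k)
    (c : Fin (r + 1) → ℂ) (hc : c 0 ≠ 0) :
    ∃ p : ℕ, p.Prime ∧ p ≠ 2 ∧ ∑ i, c i * chk (k i) p ≠ 0 := by
  classical
  obtain ⟨N, hN⟩ : ∃ N : ℕ, ∀ i, 0 ≤ (N : ℤ) + k i := by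
    refine ⟨∑ i, (k i).natAbs, fun i => ?_⟩
    have h1 : (k i).natAbs ≤ ∑ i, (k i).natAbs :=
      Finset.single_le_sum (f := fun i => (k i).natAbs) (fun _ _ => Nat.zero_le _) (Finset.mem_univ i)
    have h2 : ((k i).natAbs : ℤ) ≤ ((∑ i, (k i).natAbs : ℕ) : ℤ) := by exact_mod_cast h1
    omega
  let Q : Polynomial ℂ := ∑ i, Polynomial.C (c i) * Polynomial.X ^ ((N : ℤ) + k i).toNat
  have hQ : Q ≠ 0 := by
    intro h0
    have h1 : Q.coeff ((N : ℤ) + k 0).toNat = c 0 := by
      show (∑ i, Polynomial.C (c i) * Polynomial.X ^ ((N : ℤ) + k i).toNat).coeff _ = _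
      rw [Polynomial.finsetSum_coeff, Finset.sum_eq_single 0]
      · rw [Polynomial.coeff_C_mul, Polynomial.coeff_X_pow, if_pos rfl, mul_one]
      · intro i _ hi
        rw [Polynomial.coeff_C_mul, Polynomial.coeff_X_pow, if_neg, mul_zero]
        intro h2
        have h3 := hN i
        have h4 := hN 0
        exact hi (hk (by omega))
      · intro h
        exact absurd (Finset.mem_univ _) h
    rw [h0, Polynomial.coeff_zero] at h1
    exact hc h1.symm
  have hev : ∀ p : ℕ, p ≠ 0 → Q.eval (chk 1 p) = chk 1 p ^ N * ∑ i, c i * chk (k i) p := by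
    intro p hp
    have hne : chk 1 p ≠ 0 := by
      intro h
      have := chk_norm 1 p hp
      rw [h, norm_zero] at this
      exact zero_ne_one this
    show (∑ i, Polynomial.C (c i) * Polynomial.X ^ ((N : ℤ) + k i).toNat).eval _ = _
    rw [Polynomial.eval_finsetSum, Finset.mul_sum]
    refine Finset.sum_congr rfl fun i _ => ?_
    rw [Polynomial.eval_mul, Polynomial.eval_C, Polynomial.eval_pow, Polynomial.eval_X,
      VdM_zpow (k i) p hp, ← zpow_natCast (chk 1 p) N, ← zpow_natCast, Int.toNat_of_nonneg (hN i),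
      zpow_add₀ hne]
    ring
  have hinf : Set.Infinite ((fun p : ℕ => chk 1 p) '' {p : ℕ | p.Prime ∧ p ≠ 2}) := by
    refine Set.Infinite.image (fun p hp p' hp' h => VdM_inj hp.1 hp'.1 hp.2 hp'.2 h) ?_
    have h1 : {p : ℕ | p.Prime ∧ p ≠ 2} = {p : ℕ | p.Prime} \ {2} := by
      ext p
      simp
    rw [h1]
    exact Nat.infinite_setOfPred_prime.sdiff (Set.finite_singleton 2)
  by_contra hno
  push Not at hno
  refine hinf ((Q.roots.toFinset.finite_toSet).subset ?_)
  rintro _ ⟨p, hp, rfl⟩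
  simp only [Finset.mem_coe, Multiset.mem_toFinset, Polynomial.mem_roots hQ, Polynomial.IsRoot.def]
  rw [hev p hp.1.ne_zero, hno p hp.1 hp.2, mul_zero]

private theorem VdM_det (r : ℕ) : ∀ k : Fin r → ℤ, Function.Injective k →
    ∃ p : Fin r → ℕ, (∀ j, (p j).Prime ∧ p j ≠ 2) ∧
      (Matrix.of (fun i j : Fin r => chk (k i) (p j))).det ≠ 0 := by
  induction r with
  | zero =>
    intro k _
    exact ⟨fun _ => 3, fun j => j.elim0, by simp⟩
  | succ r ih =>
    intro k hk
    obtain ⟨p', hp', hdet⟩ := ih (fun i => k i.succ) (fun a b h => Fin.succ_injective r (hk h))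
    obtain ⟨p, hp, hp2, hsum⟩ := VdM_avoid k hk
      (fun i => (-1) ^ (i : ℕ) * (Matrix.of (fun (a : Fin r) (j : Fin r) => chk (k (i.succAbove a)) (p' j))).det)
      (by
        simp only [Fin.val_zero, pow_zero, one_mul, Fin.succAbove_zero]
        exact hdet)
    refine ⟨Fin.cons p p', ?_, ?_⟩
    · intro j
      refine Fin.cases ?_ (fun j => ?_) j
      · exact ⟨hp, hp2⟩
      · exact hp' j
    · rw [Matrix.det_succ_column_zero]
      intro h0
      apply hsum
      rw [← h0]
      refine Finset.sum_congr rfl fun i _ => ?_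
      have h1 : (Matrix.of (fun i j : Fin (r + 1) => chk (k i) ((Fin.cons p p' : Fin (r + 1) → ℕ) j))).submatrix
          i.succAbove Fin.succ = Matrix.of (fun (a : Fin r) (j : Fin r) => chk (k (i.succAbove a)) (p' j)) := by
        ext a b
        simp
      rw [h1]
      simp only [Matrix.of_apply, Fin.cons_zero]
      ring

theorem vdm (r : ℕ) (k : Fin r → ℤ) (hk : Function.Injective k) :
    ∃ p : Fin r → ℕ, (∀ j, (p j).Prime ∧ p j ≠ 2) ∧ Function.Injective p ∧
      (Matrix.of (fun i j : Fin r => chk (k i) (p j))).det ≠ 0 := by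
  obtain ⟨p, hp, hdet⟩ := VdM_det r k hk
  refine ⟨p, hp, fun a b hab => ?_, hdet⟩
  by_contra hne
  apply hdet
  refine Matrix.det_zero_of_column_eq hne fun i => ?_
  simp only [Matrix.of_apply, hab]

end Pool.Agent.Lib.MP_ec260d_ntA
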