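import Mathlib
import Pool.Agent.Lib.MP_ec260d_ntA.Defs
import Pool.Agent.Lib.MP_ec260d_ntA.TractA
import Pool.Agent.Lib.MP_ec260d_ntA.EfDer
import Pool.Agent.Lib.MP_ec260d_ntA.VdM
import Pool.Agent.Lib.MP_ec260d_ntA.AlgT

/-!
# JOB TractB: the tract lemma (about 250 lines)

Let `V(χ) = eval (fun i => ξ + sh (k i) + ef (chk (k i) χ) ξ) q`.  By `tractA`, `V(χ) = 0` for all unimodular `χ` (`CM`, `‖χ n‖ = 1` for `n ≠ 0`).  Primes `p_1..p_r` from `vdm`, `A = {p_j}` (image of `p`).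
`Fχ (X, μ)`: the completely multiplicative function with value `1` at `2`, `X_j` at `p_j`, `μ` at the other primes and `0` at `0` (define it e.g. by `n ↦ if n = 0 then 0 else μ^(OmA (fun q => q.Prime ∧ q ≠ 2 ∧ q ∉ A) n) * ∏ j, X j ^ (n.factorization (p j))`).
Stage A.  Fix `X` with `‖X_j‖ = 1`.  Let `χ¹ = Fχ (X, 1)`, `Ac` = the odd primes not in `A`.  `lamx χ¹ Ac μ = Fχ(X, μ)` for all `μ`, and `chk (k i) n * lamx χ¹ Ac μ n = lamx (chk (k i) χ¹) Ac μ n`.  By `ef_lam` the function `μ ↦ V(lamx χ¹ Ac μ)` is `DiffContOnCl` on the unit disc (polynomial in such functions), and it vanishes for `‖μ‖ = 1`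
(there `lamx χ¹ Ac μ` is unimodular and `CM`).  By the maximum principle (`Complex.eqOn_closure_of_eqOn_frontier` / `Complex.norm_le_of_forall_mem_frontier_norm_le`) it vanishes at `μ = 0`: `V(χ^X) = 0`, `χ^X = lamx χ¹ Ac 0`, `χ^X (p) = 0` for odd primes `p ∉ A`, `χ^X (p_j) = X_j`.
Stage B.  For `‖u‖ = 1`, `lamx χ^X A u = χ^(u X)` (both are `CM` with the same values at primes), so `V(lamx χ^X A u) = 0` for `‖u‖ = 1` (stage A for `u X`), hence for all `‖u‖ ≤ 1` by the same argument.  (Equality for all `n`: a `CM` function is determined on `n ≥ 1` by its values at primes; at `n = 0` multiply by `chk (k i) 0 = 0`; `ef χ ξ` only uses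
`n ≥ 2`.)
Conclusion.  `E0, K` from `ef_der`.  `e(X, u)_i = ef (lamx (chk (k i) χ^X) A u) ξ - E0`: `e(X, 0) = 0`, derivative at `0`: `K ∑_{p ∈ A} chk (k i) p χ^X(p) p^(-(ξ+E0)) = ∑_j B_ij X_j` with `B_ij = K chk (k i) (p_j) p_j^(-(ξ+E0))`, `det B = K^r ∏_j p_j^(-(ξ+E0)) det (chk (k i) (p_j)) ≠ 0`.  `algT` with `x0_i = ξ + sh (k i) + E0`.
-/

namespace Pool.Agent.Lib.MP_ec260d_ntA

open Complex Set Filter Topology Metric MeasureTheory

/-- the weight with values `X j` at `p j`, `μ` at the other odd primes and `1` at `2` -/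
private noncomputable def TractB_F {r : ℕ} (p : Fin r → ℕ) (X : Fin r → ℂ) (μ : ℂ) (n : ℕ) : ℂ :=
  if n = 0 then 0 else μ ^ (OmA (fun q => q ≠ 2 ∧ ∀ j, q ≠ p j) n) *
    ∏ j, X j ^ (n.factorization (p j))

private theorem TractB_F_ne {r : ℕ} (p : Fin r → ℕ) (X : Fin r → ℂ) (μ : ℂ) (n : ℕ) (hn : n ≠ 0) :
    TractB_F p X μ n = μ ^ (OmA (fun q => q ≠ 2 ∧ ∀ j, q ≠ p j) n) *
      ∏ j, X j ^ (n.factorization (p j)) := by
  rw [TractB_F, if_neg hn]

private theorem TractB_F_zero {r : ℕ} (p : Fin r → ℕ) (X : Fin r → ℂ) (μ : ℂ) :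
    TractB_F p X μ 0 = 0 := by
  rw [TractB_F, if_pos rfl]

private theorem TractB_F_two {r : ℕ} (p : Fin r → ℕ) (hp : ∀ j, (p j).Prime ∧ p j ≠ 2)
    (X : Fin r → ℂ) (μ : ℂ) : TractB_F p X μ 2 = 1 := by
  rw [TractB_F_ne p X μ 2 (by norm_num), (OmA_prime _ 2 Nat.prime_two).2 (fun h => h.1 rfl)]
  have : ∀ j, (2 : ℕ).factorization (p j) = 0 := fun j => by
    rw [Nat.prime_two.factorization, Finsupp.single_apply, if_neg (fun h => (hp j).2 h.symm)]
  simp [this]

private theorem TractB_F_CM {r : ℕ} (p : Fin r → ℕ) (hp : ∀ j, (p j).Prime ∧ p j ≠ 2)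
    (X : Fin r → ℂ) (hX : ∀ j, ‖X j‖ ≤ 1) (μ : ℂ) (hμ : ‖μ‖ ≤ 1) : CM (TractB_F p X μ) := by
  refine ⟨?_, TractB_F_two p hp X μ, ?_, ?_⟩
  · rw [TractB_F_ne p X μ 1 (by norm_num), OmA_one]
    simp
  · intro m n hm hn
    rw [TractB_F_ne p X μ _ (mul_ne_zero hm hn), TractB_F_ne p X μ m hm, TractB_F_ne p X μ n hn,
      OmA_mul _ m n hm hn, pow_add, Nat.factorization_mul hm hn]
    have : ∀ j, X j ^ ((m.factorization + n.factorization) (p j)) =
        X j ^ (m.factorization (p j)) * X j ^ (n.factorization (p j)) := fun j => by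
      rw [Finsupp.add_apply, pow_add]
    rw [Finset.prod_congr rfl (fun j _ => this j), Finset.prod_mul_distrib]
    ring
  · intro n
    rcases eq_or_ne n 0 with h | h
    · rw [h, TractB_F_zero, norm_zero]
      exact zero_le_one
    · rw [TractB_F_ne p X μ n h, norm_mul, norm_pow, norm_prod]
      refine mul_le_one₀ (pow_le_one₀ (norm_nonneg _) hμ)
        (Finset.prod_nonneg fun j _ => norm_nonneg _)
        (Finset.prod_le_one (fun j _ => norm_nonneg _) fun j _ => ?_)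
      rw [norm_pow]
      exact pow_le_one₀ (norm_nonneg _) (hX j)

private theorem TractB_F_norm {r : ℕ} (p : Fin r → ℕ)
    (X : Fin r → ℂ) (hX : ∀ j, ‖X j‖ = 1) (μ : ℂ) (hμ : ‖μ‖ = 1) (n : ℕ) (hn : n ≠ 0) :
    ‖TractB_F p X μ n‖ = 1 := by
  rw [TractB_F_ne p X μ n hn, norm_mul, norm_pow, norm_prod, hμ, one_pow, one_mul]
  refine Finset.prod_eq_one fun j _ => ?_
  rw [norm_pow, hX j, one_pow]

private theorem TractB_F_lam {r : ℕ} (p : Fin r → ℕ) (X : Fin r → ℂ) (μ : ℂ) (n : ℕ) :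
    lamx (TractB_F p X 1) (fun q => q ≠ 2 ∧ ∀ j, q ≠ p j) μ n = TractB_F p X μ n := by
  rw [lamx]
  rcases eq_or_ne n 0 with h | h
  · rw [h, TractB_F_zero, TractB_F_zero, zero_mul]
  · rw [TractB_F_ne p X μ n h, TractB_F_ne p X 1 n h, one_pow, one_mul, mul_comm]

private theorem TractB_count {r : ℕ} (p : Fin r → ℕ)
    (hi : Function.Injective p) (n : ℕ) (hn : n ≠ 0) :
    OmA (· ∈ Finset.univ.image p) n = ∑ j, n.factorization (p j) := by
  revert hn
  refine induction_on_primes (motive := fun n => n ≠ 0 →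
    OmA (· ∈ Finset.univ.image p) n = ∑ j, n.factorization (p j)) ?_ ?_ ?_ n
  · intro h
    exact absurd rfl h
  · intro _
    rw [OmA_one]
    simp
  · intro q a hq ih hqa
    have ha : a ≠ 0 := right_ne_zero_of_mul hqa
    rw [OmA_mul _ q a hq.ne_zero ha, ih ha, Nat.factorization_mul hq.ne_zero ha]
    have h1 : ∑ j, (q.factorization + a.factorization) (p j) =
        (∑ j, q.factorization (p j)) + ∑ j, a.factorization (p j) := by
      rw [← Finset.sum_add_distrib]
      exact Finset.sum_congr rfl fun j _ => Finsupp.add_apply _ _ _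
    rw [h1]
    congr 1
    have h2 : ∀ j, q.factorization (p j) = if q = p j then 1 else 0 := fun j => by
      rw [hq.factorization, Finsupp.single_apply]
    rw [Finset.sum_congr rfl fun j _ => h2 j]
    by_cases hA : q ∈ Finset.univ.image p
    · rw [(OmA_prime _ q hq).1 hA]
      obtain ⟨l, _, hl⟩ := Finset.mem_image.mp hA
      rw [Finset.sum_eq_single l, if_pos hl.symm]
      · intro j _ hj
        rw [if_neg]
        intro h
        exact hj (hi (by rw [← h, hl]))
      · intro h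
        exact absurd (Finset.mem_univ l) h
    · rw [(OmA_prime _ q hq).2 hA]
      refine (Finset.sum_eq_zero fun j _ => ?_).symm
      rw [if_neg]
      intro h
      exact hA (Finset.mem_image.mpr ⟨j, Finset.mem_univ j, h.symm⟩)

private theorem TractB_F_scale {r : ℕ} (p : Fin r → ℕ)
    (hi : Function.Injective p) (X : Fin r → ℂ) (u : ℂ) (n : ℕ) :
    lamx (TractB_F p X 0) (· ∈ Finset.univ.image p) u n =
      TractB_F p (fun j => u * X j) 0 n := by
  rw [lamx]
  rcases eq_or_ne n 0 with h | h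
  · rw [h, TractB_F_zero, TractB_F_zero, zero_mul]
  · rw [TractB_F_ne p (fun j => u * X j) 0 n h, TractB_F_ne p X 0 n h, TractB_count p hi n h,
      Finset.prod_congr rfl fun j _ => mul_pow u (X j) (n.factorization (p j)),
      Finset.prod_mul_distrib, Finset.prod_pow_eq_pow_sum]
    ring

private theorem TractB_F_prime {r : ℕ} (p : Fin r → ℕ) (hp : ∀ j, (p j).Prime ∧ p j ≠ 2)
    (hi : Function.Injective p) (X : Fin r → ℂ) (j : Fin r) : TractB_F p X 0 (p j) = X j := by
  rw [TractB_F_ne p X 0 _ (hp j).1.ne_zero,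
    (OmA_prime _ (p j) (hp j).1).2 (fun h => h.2 j rfl), pow_zero, one_mul,
    Finset.prod_eq_single j]
  · rw [(hp j).1.factorization, Finsupp.single_apply, if_pos rfl, pow_one]
  · intro l _ hl
    rw [(hp j).1.factorization, Finsupp.single_apply, if_neg, pow_zero]
    intro h
    exact hl (hi h.symm)
  · intro h
    exact absurd (Finset.mem_univ j) h

private theorem TractB_F_other {r : ℕ} (p : Fin r → ℕ) (X : Fin r → ℂ) (q : ℕ) (hq : q.Prime)
    (h2 : q ≠ 2) (hA : q ∉ Finset.univ.image p) : TractB_F p X 0 q = 0 := by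
  rw [TractB_F_ne p X 0 q hq.ne_zero, (OmA_prime _ q hq).1, pow_one, zero_mul]
  refine ⟨h2, fun j h => hA (Finset.mem_image.mpr ⟨j, Finset.mem_univ j, h.symm⟩)⟩

/-- a polynomial in functions holomorphic in the disc and continuous up to the boundary -/
private theorem TractB_poly {r : ℕ} (q : MvPolynomial (Fin r) ℂ) (c : Fin r → ℂ)
    (g : Fin r → ℂ → ℂ) (hg : ∀ i, DiffContOnCl ℂ (g i) (ball 0 1)) :
    DiffContOnCl ℂ (fun u => MvPolynomial.eval (fun i => c i + g i u) q) (ball 0 1) := by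
  induction q using MvPolynomial.induction_on with
  | C a =>
    simp only [MvPolynomial.eval_C]
    exact diffContOnCl_const
  | add f g' hf hg' =>
    simp only [map_add]
    exact hf.add hg'
  | mul_X f i hf =>
    simp only [map_mul, MvPolynomial.eval_X]
    exact hf.smul ((hg i).const_add (c i))

/-- a function vanishing on the unit circle vanishes in the unit disc -/
private theorem TractB_max (f : ℂ → ℂ) (hf : DiffContOnCl ℂ f (ball 0 1))
    (h : ∀ u : ℂ, ‖u‖ = 1 → f u = 0) (u : ℂ) (hu : ‖u‖ ≤ 1) : f u = 0 := by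
  have h1 : EqOn f (fun _ => (0 : ℂ)) (frontier (ball (0 : ℂ) 1)) := by
    intro x hx
    rw [frontier_ball (0 : ℂ) one_ne_zero, mem_sphere_zero_iff_norm] at hx
    exact h x hx
  have h2 := Complex.eqOn_closure_of_eqOn_frontier isBounded_ball hf diffContOnCl_const h1
  apply h2
  rw [closure_ball (0 : ℂ) one_ne_zero, mem_closedBall_zero_iff]
  exact hu

private theorem TractB_assoc (k : ℤ) (χ : ℕ → ℂ) (A : ℕ → Prop) (u : ℂ) :
    (fun n => chk k n * lamx χ A u n) = lamx (fun n => chk k n * χ n) A u := by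
  funext n
  rw [lamx, lamx, mul_assoc]

/-- a family `lamx χ A u` in which the values vanish for `|u| = 1` -/
private theorem TractB_ext {r : ℕ} (ξ : ℂ) (hξ : 10 ≤ ξ.re) (k : Fin r → ℤ)
    (q : MvPolynomial (Fin r) ℂ) (χ : ℕ → ℂ) (hχ : CM χ) (A : ℕ → Prop) (hA : ¬ A 2)
    (h : ∀ u : ℂ, ‖u‖ = 1 →
      MvPolynomial.eval (fun i => ξ + sh (k i) + ef (fun n => chk (k i) n * lamx χ A u n) ξ) q = 0)
    (u : ℂ) (hu : ‖u‖ ≤ 1) :
    MvPolynomial.eval (fun i => ξ + sh (k i) + ef (fun n => chk (k i) n * lamx χ A u n) ξ) q =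
      0 := by
  refine TractB_max (fun u => MvPolynomial.eval (fun i => ξ + sh (k i) +
    ef (fun n => chk (k i) n * lamx χ A u n) ξ) q) ?_ h u hu
  refine TractB_poly q (fun i => ξ + sh (k i))
    (fun i u => ef (fun n => chk (k i) n * lamx χ A u n) ξ) fun i => ?_
  have h1 := ef_lam (fun n => chk (k i) n * χ n) (CM_mul _ _ (chk_CM (k i)) hχ) A hA ξ hξ
  have h2 : (fun u => ef (fun n => chk (k i) n * lamx χ A u n) ξ) =
      fun u => ef (lamx (fun n => chk (k i) n * χ n) A u) ξ := by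
    funext u
    rw [TractB_assoc]
  rw [h2]
  exact h1

theorem tract_lemma (r : ℕ) (ξ : ℂ) (hξ : 10 ≤ ξ.re) (k : Fin r → ℤ) (hk : Function.Injective k)
    (M : ℤ) (hM : M ≠ 0) (q : MvPolynomial (Fin r) ℂ)
    (h : ∀ m : ℕ, MvPolynomial.eval (fun i => SS (ξ + sh (k i + M * m))) q = 0) : q = 0 := by
  classical
  obtain ⟨p, hp, hi, hdet⟩ := vdm r k hk
  have hV := fun (χ : ℕ → ℂ) (hχ : CM χ) (h1 : ∀ n, n ≠ 0 → ‖χ n‖ = 1) =>
    tractA r ξ hξ k M hM q h χ hχ h1
  -- stage A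
  have hA : ∀ X : Fin r → ℂ, (∀ j, ‖X j‖ = 1) → MvPolynomial.eval
      (fun i => ξ + sh (k i) + ef (fun n => chk (k i) n * TractB_F p X 0 n) ξ) q = 0 := by
    intro X hX
    have h1 := TractB_ext ξ hξ k q (TractB_F p X 1)
      (TractB_F_CM p hp X (fun j => (hX j).le) 1 norm_one.le)
      (fun q => q ≠ 2 ∧ ∀ j, q ≠ p j) (fun h => h.1 rfl) (fun u hu => ?_) 0
      (by rw [norm_zero]; exact zero_le_one)
    · simpa only [TractB_F_lam] using h1
    · simp only [TractB_F_lam]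
      exact hV _ (TractB_F_CM p hp X (fun j => (hX j).le) u hu.le)
        (TractB_F_norm p X hX u hu)
  have h2A : (2 : ℕ) ∉ Finset.univ.image p := by
    intro hmem
    obtain ⟨l, _, hl⟩ := Finset.mem_image.mp hmem
    exact (hp l).2 hl
  have hn1 : ∀ X : Fin r → ℂ, (∀ j, ‖X j‖ = 1) → CM (TractB_F p X 0) := fun X hX =>
    TractB_F_CM p hp X (fun j => (hX j).le) 0 (by rw [norm_zero]; exact zero_le_one)
  -- stage B
  have hB : ∀ X : Fin r → ℂ, (∀ j, ‖X j‖ = 1) → ∀ u : ℂ, ‖u‖ ≤ 1 → MvPolynomial.eval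
      (fun i => ξ + sh (k i) +
        ef (fun n => chk (k i) n * lamx (TractB_F p X 0) (· ∈ Finset.univ.image p) u n) ξ) q =
        0 := by
    intro X hX
    refine TractB_ext ξ hξ k q (TractB_F p X 0) (hn1 X hX) (· ∈ Finset.univ.image p) h2A ?_
    intro u hu
    simp only [TractB_F_scale p hi]
    refine hA (fun j => u * X j) fun j => ?_
    rw [norm_mul, hu, hX j, one_mul]
  obtain ⟨E0, K, hK, hder⟩ := ef_der ξ hξ
  have hCM : ∀ (X : Fin r → ℂ), (∀ j, ‖X j‖ = 1) → ∀ i,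
      CM (fun n => chk (k i) n * TractB_F p X 0 n) := fun X hX i =>
    CM_mul _ _ (chk_CM (k i)) (hn1 X hX)
  have hfin := fun (X : Fin r → ℂ) (hX : ∀ j, ‖X j‖ = 1) (i : Fin r) =>
    hder (Finset.univ.image p) (by
      intro q' hq'
      obtain ⟨l, _, hl⟩ := Finset.mem_image.mp hq'
      rw [← hl]
      exact hp l) (fun n => chk (k i) n * TractB_F p X 0 n) (hCM X hX i) (by
      intro q' h1 h2 h3
      rw [TractB_F_other p X q' h1 h2 h3, mul_zero])
  set v : Fin r → ℂ := fun j => K * ((p j : ℕ) : ℂ) ^ (-(ξ + E0)) with hv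
  have hv0 : ∀ j, v j ≠ 0 := fun j =>
    mul_ne_zero hK (by
      rw [Ne, Complex.cpow_eq_zero_iff, not_and_or]
      exact Or.inl (Nat.cast_ne_zero.mpr (hp j).1.ne_zero))
  refine algT r q (fun i => ξ + sh (k i) + E0)
    (Matrix.of fun i j => v j * (Matrix.of (fun i j : Fin r => chk (k i) (p j))) i j) ?_
    (fun X u i => ef (lamx (fun n => chk (k i) n * TractB_F p X 0 n)
      (· ∈ Finset.univ.image p) u) ξ - E0) ?_ ?_ ?_
  · rw [Matrix.det_mul_row]
    exact mul_ne_zero (Finset.prod_ne_zero_iff.mpr fun j _ => hv0 j) hdet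
  · intro X hX i
    change ef (lamx (fun n => chk (k i) n * TractB_F p X 0 n)
      (· ∈ Finset.univ.image p) 0) ξ - E0 = 0
    rw [(hfin X hX i).1, sub_self]
  · intro X hX i
    have h1 := (hfin X hX i).2.sub_const E0
    have h2 : K * ∑ q' ∈ Finset.univ.image p, (chk (k i) q' * TractB_F p X 0 q') *
        (q' : ℂ) ^ (-(ξ + E0)) = (Matrix.of fun i j => v j *
          (Matrix.of (fun i j : Fin r => chk (k i) (p j))) i j).mulVec X i := by
      rw [Finset.sum_image (fun a _ b _ hab => hi hab), Finset.mul_sum, Matrix.mulVec, dotProduct]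
      refine Finset.sum_congr rfl fun j _ => ?_
      rw [TractB_F_prime p hp hi X j, hv]
      simp only [Matrix.of_apply]
      ring
    rw [← h2]
    exact h1
  · intro X hX
    have h1 : ∀ᶠ u in 𝓝 (0 : ℂ), ‖u‖ ≤ 1 := by
      filter_upwards [ball_mem_nhds (0 : ℂ) one_pos] with u hu
      exact (mem_ball_zero_iff.mp hu).le
    filter_upwards [h1] with u hu
    have h2 := hB X hX u hu
    have h3 : (fun i => ξ + sh (k i) + E0 + (ef (lamx (fun n => chk (k i) n * TractB_F p X 0 n)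
        (· ∈ Finset.univ.image p) u) ξ - E0)) = fun i => ξ + sh (k i) +
        ef (fun n => chk (k i) n * lamx (TractB_F p X 0) (· ∈ Finset.univ.image p) u n) ξ := by
      funext i
      rw [TractB_assoc]
      ring
    rw [h3]
    exact h2

end Pool.Agent.Lib.MP_ec260d_ntA
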