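import Mathlib
import Pool.Agent.Lib.MP_ec260d_ntA.Defs
import Pool.Agent.Lib.MP_ec260d_ntA.Loop
import Pool.Agent.Lib.MP_ec260d_ntA.TractB
import Pool.Agent.Lib.MP_ec260d_ntA.Split

/-!
# JOB EndA: the end state (about 250 lines)

Given `Rel P a w` with all `w i ∈ EE` distinct, `ζ (w i) = a`; `I ≠ ∅` the set of `i` with `12 ≤ Re (w i)`; `RR (w i)` for `i ∉ I`.  We find a nonzero relation for the branches outside of `I`.
Let `g` be the germs from `rel_near`: for `b` in a neighbourhood of `a`: `Rel P b (g b)`, `g i b` pairwise distinct (continuity), `ζ (g i b) = b`, `Re (g i b) ≥ 11` for `i ∈ I`, `RR (g i b)` for `i ∉ I` (`RR_open`).  Fix such a `b`.  For `i ∈ I` let `ξ_i` with `SS ξ_i = g i b`, `10 ≤ Re ξ_i`, `b = 1 + 2^(-ξ_i)` (`tract_param`).  Fix `i0 ∈ I`, `ξ = ξ_{i0}`;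
`ξ_i = ξ + sh (k_i)` (`period`), the `k_i` are distinct (otherwise `g i b = g i' b`).  `loop` gives `M ≠ 0` with `Rel P b (...)` for all `m`, and `rel_eval` gives `P(b, SS (ξ + sh (k_i + M m)) (i ∈ I), g i b (i ∉ I)) = 0` (`sh_add`).  Let `e : Fin r ⊕ Fin j ≃ Fin n` map the first summand onto `I` and the second onto the complement
(`r = I.card`, `j = n - r`, e.g. from `Finset.equivFin` and `Equiv.Set.sumCompl`).  The polynomial `q_b ∈ MvPolynomial (Fin r) ℂ` obtained from `P` by substituting `b` and the `g i b`, `i ∉ I`, (a ring homomorphism `MvPolynomial.aeval`) satisfies the hypothesis of `tract_lemma`, so `q_b = 0`: `P(b, x, g b) = 0` for all `x`.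
By `split_poly` there is `Q ≠ 0` (depending on `P, e` only) with `Q(b, g_J(b)) = 0` for all `b` near `a`: `Rel Q a (w ∘ e ∘ inr)`.
-/

namespace Pool.Agent.Lib.MP_ec260d_ntA

open Complex Set Filter Topology Metric MeasureTheory

theorem endA (n : ℕ) (P : MvPolynomial (Option (Fin n)) ℂ) (hP : P ≠ 0) (a : ℂ) (w : Fin n → ℂ)
    (hE : ∀ i, w i ∈ EE) (hinj : Function.Injective w) (hζ : ∀ i, riemannZeta (w i) = a)
    (hR : Rel P a w) (I : Finset (Fin n)) (hne : I.Nonempty) (hI : ∀ i ∈ I, 12 ≤ (w i).re)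
    (hJ : ∀ i, i ∉ I → RR (w i)) :
    ∃ (j : ℕ) (f : Fin j → Fin n) (Q : MvPolynomial (Option (Fin j)) ℂ), j < n ∧
      Function.Injective f ∧ Q ≠ 0 ∧ Rel Q a (fun i => w (f i)) := by
  classical
  obtain ⟨g, hg, hgR⟩ := rel_near P a w hR
  obtain ⟨i0, hi0⟩ := hne
  have htend : ∀ i, Tendsto (g i) (𝓝 a) (𝓝 (w i)) := by
    intro i
    have h1 := (hg i).1.continuousAt.tendsto
    rwa [(hg i).2.1] at h1
  -- the good points
  have h2 : ∀ᶠ b in 𝓝 a, ∀ i, riemannZeta (g i b) = b :=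
    eventually_all.2 fun i => (hg i).2.2
  have h3 : ∀ᶠ b in 𝓝 a, ∀ i, i ∈ I → 11 ≤ (g i b).re := by
    refine eventually_all.2 fun i => ?_
    by_cases hi : i ∈ I
    · have h4 : ∀ᶠ z : ℂ in 𝓝 (w i), 11 < z.re :=
        Complex.continuous_re.continuousAt.eventually (lt_mem_nhds (by linarith [hI i hi]))
      filter_upwards [(htend i).eventually h4] with b hb _
      exact hb.le
    · exact Eventually.of_forall fun b h => absurd h hi
  have h4 : ∀ᶠ b in 𝓝 a, ∀ i, i ∉ I → RR (g i b) := by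
    refine eventually_all.2 fun i => ?_
    by_cases hi : i ∈ I
    · exact Eventually.of_forall fun b h => absurd hi h
    · filter_upwards [(htend i).eventually (RR_open (w i) (hJ i hi))] with b hb _
      exact hb
  have h5 : ∀ᶠ b in 𝓝 a, ∀ i i', i ≠ i' → g i b ≠ g i' b := by
    refine eventually_all.2 fun i => eventually_all.2 fun i' => ?_
    by_cases hi : i = i'
    · exact Eventually.of_forall fun b h => absurd hi h
    · have h6 : ∀ᶠ b in 𝓝 a, g i b - g i' b ≠ 0 :=
        ((htend i).sub (htend i')).eventually_ne (sub_ne_zero.2 fun h => hi (hinj h))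
      filter_upwards [h6] with b hb _
      exact sub_ne_zero.1 hb
  -- the splitting
  obtain ⟨r, j, e, hel, her, hjn⟩ : ∃ (r j : ℕ) (e : Fin r ⊕ Fin j ≃ Fin n),
      (∀ s, e (Sum.inl s) ∈ I) ∧ (∀ s, e (Sum.inr s) ∉ I) ∧ j < n := by
    refine ⟨Fintype.card {i // i ∈ I}, Fintype.card {i // ¬ i ∈ I},
      ((Fintype.equivFin {i // i ∈ I}).symm.sumCongr (Fintype.equivFin {i // ¬ i ∈ I}).symm).trans
        (Equiv.sumCompl (fun i => i ∈ I)), fun s => ?_, fun s => ?_, ?_⟩
    · exact ((Fintype.equivFin {i // i ∈ I}).symm s).2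
    · exact ((Fintype.equivFin {i // ¬ i ∈ I}).symm s).2
    · have h6 := Fintype.card_subtype_lt (p := fun i : Fin n => ¬ i ∈ I) (x := i0) (not_not.2 hi0)
      rwa [Fintype.card_fin] at h6
  obtain ⟨Q, hQ, hsplit⟩ := split_poly n r j e P hP
  refine ⟨j, fun s => e (Sum.inr s), Q, hjn, fun s s' h => Sum.inr_injective (e.injective h), hQ,
    fun s => g (e (Sum.inr s)), fun s => hg _, ?_⟩
  filter_upwards [hgR, h2, h3, h4, h5] with b hb1 hb2 hb3 hb4 hb5
  refine hsplit b (fun s => g (e (Sum.inr s)) b) ?_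
  have hpar : ∀ i, ∃ ξ : ℂ, i ∈ I → (10 ≤ ξ.re ∧ SS ξ = g i b ∧ b = 1 + (2 : ℂ) ^ (-ξ)) := by
    intro i
    by_cases hi : i ∈ I
    · obtain ⟨ξ, hξ1, hξ2, hξ3⟩ := tract_param (g i b) (hb3 i hi)
      exact ⟨ξ, fun _ => ⟨hξ1, hξ2, by rw [← hξ3, hb2 i]⟩⟩
    · exact ⟨0, fun h => absurd h hi⟩
  choose ξ hξ using hpar
  obtain ⟨M, hM, hloop⟩ := loop P b (fun i => g i b) ξ I hb2 hb1 hξ hb4
  have hk : ∀ s : Fin r, ∃ k : ℤ, ξ (e (Sum.inl s)) = ξ i0 + sh k := by
    intro s
    refine period _ _ ?_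
    have h6 := (hξ i0 hi0).2.2
    have h7 := (hξ _ (hel s)).2.2
    have h8 : 1 + (2 : ℂ) ^ (-(ξ i0)) = 1 + (2 : ℂ) ^ (-(ξ (e (Sum.inl s)))) := by rw [← h6, ← h7]
    exact add_left_cancel h8
  choose k hk using hk
  have hkinj : Function.Injective k := by
    intro s s' h
    by_contra hss
    refine hb5 (e (Sum.inl s)) (e (Sum.inl s'))
      (fun h' => hss (Sum.inl_injective (e.injective h'))) ?_
    rw [← (hξ _ (hel s)).2.1, ← (hξ _ (hel s')).2.1, hk s, hk s', h]
  let φ : Option (Fin n) → MvPolynomial (Fin r) ℂ := fun o =>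
    o.elim (MvPolynomial.C b) (fun i => Sum.elim (fun s => MvPolynomial.X s)
      (fun s => MvPolynomial.C (g (e (Sum.inr s)) b)) (e.symm i))
  have hval : ∀ x : Fin r → ℂ, MvPolynomial.eval x (MvPolynomial.bind₁ φ P) =
      MvPolynomial.eval (fun o : Option (Fin n) => o.elim b
        (fun i => Sum.elim x (fun s => g (e (Sum.inr s)) b) (e.symm i))) P := by
    intro x
    have h6 : MvPolynomial.eval x (MvPolynomial.bind₁ φ P) =
        MvPolynomial.eval (fun o => MvPolynomial.eval x (φ o)) P := MvPolynomial.aeval_bind₁ x φ P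
    refine h6.trans ?_
    refine congrArg (fun F => MvPolynomial.eval F P) ?_
    funext o
    cases o with
    | none => simp [φ]
    | some i =>
      rcases hs : e.symm i with s | s
      · simp [φ, hs]
      · simp [φ, hs]
  have hq : MvPolynomial.bind₁ φ P = 0 := by
    refine tract_lemma r (ξ i0) (hξ i0 hi0).1 k hkinj M hM _ fun m => ?_
    rw [hval, ← rel_eval P b _ (hloop m)]
    refine congrArg (fun F => MvPolynomial.eval F P) ?_
    funext o
    cases o with
    | none => rfl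
    | some i =>
      obtain ⟨t, rfl⟩ := e.surjective i
      rcases t with s | s
      · simp only [Option.elim_some, Equiv.symm_apply_apply, Sum.elim_inl, if_pos (hel s)]
        rw [hk s, sh_add, add_assoc]
      · simp only [Option.elim_some, Equiv.symm_apply_apply, Sum.elim_inr, if_neg (her s)]
  intro x
  rw [← hval x, hq, map_zero]

end Pool.Agent.Lib.MP_ec260d_ntA
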