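import Mathlib
import Pool.Agent.Lib.MP_ec260d_ntA.Defs
import Pool.Agent.Lib.MP_ec260d_ntA.Germ

/-!
# JOB LiftDom: the maximal lift of a family of horizontal paths (about 300 lines)

Write `J = Ioo y0 y1`, `φ ξ = ζ (z0 + ξ)`, continuous on the strip `Im ξ ∈ J` (`z0 + ξ ≠ 1` there).
For `y ∈ J`, `X ≥ 0` call `γ : ℝ → ℂ` a lift on `[0, X]` at `y` if `ContinuousOn γ (Icc 0 X)`, `γ 0 = w0 y`, and `γ x ∈ EE`, `ζ (γ x) = φ (x + i y)` for `x ∈ [0, X]`.  Two lifts on `[0, X]` at the same `y` agree on `[0, X]` (`lift_ne`, or connectedness and `zeta_locinj`).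
`Om = {x + i y : y ∈ J, x ≥ 0, there is a lift on [0, x] at y}`, `G (x + i y) = γ x` for such a lift (choice; independent of the lift); restricting a lift of `[0, X]` gives lifts of `[0, x]`, so `G (x + i y) = γ x` for all `x ≤ X`.
LOCAL CLAIM (*): if `t1 + i y1 ∈ Om` then there is `δ > 0` such that the set `R_δ = {x + i y : 0 ≤ x < t1 + δ, |y - y1| < δ}` is contained in `Om` and `G` is continuous on it.
Proof.  Let `T` be the set of `t ∈ [0, t1]` for which (*) holds with `t` instead of `t1`.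
 `0 ∈ T`: local inverse `h` of `ζ` at `w0 y1` (`germ_exists`), `h` continuous on a ball around `φ (i y1)`, values in `EE`, `ζ (h b) = b`, `h (ζ w) = w` for `w` near `w0 y1`; for `y` near `y1` and small `x ≥ 0` the path `x ↦ h (φ (x + i y))` is a lift at `y` (at `x = 0`: `h (φ (i y)) = h (ζ (w0 y)) = w0 y` as `w0` is continuous at `y1`).
 `T` is relatively open in `[0, t1]` (obvious from `x < t + δ`).
 `T` is closed: let `t` be the supremum of a part of `T`, `t ≤ t1`, `γ` the lift on `[0, t1]` at `y1`, `w = γ t`, `h` the local inverse at `w`, defined and continuous on a ball `B` around `φ (t + i y1)` with `ζ (h b) = b`, `h b ∈ EE`, and `h (ζ v) = v` for `v ∈ N` (a neighbourhood of `w`).  Choose `η > 0` with `φ (x + i y) ∈ B` for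
 `|x - t| < η, |y - y1| < η`, and `t' ∈ T`, `t' ≤ t`, `t - t' < η`, `γ t' = G (t' + i y1) ∈ N`.  By (*) at `t'`: for `y` close to `y1`, `t' + i y ∈ Om` and `G (t' + i y) ∈ N`.  For such `y` the function equal to the lift on `[0, t']` and to `h (φ (x + i y))` on `[t', t + η)` is continuous (`h (φ (t' + i y)) = h (ζ (G (t' + i y))) = G (t' + i y)`)
 and is a lift; so (*) holds at `t` (continuity: near points with `x < t'` by (*) at `t'` — which gives continuity on `x < t' + δ'` — and for `x > t' - small`... on the overlap both descriptions agree: `G (x + i y) = h (φ (x + i y))` for `x ≥ t'`; take the union of the two relatively open sets `x < t' + δ'` and `x > t'`).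
Hence `t1 ∈ T`.  Fields: `sub, st, star, val` clear; `opn` and `cont` from (*).  `max`: if `G (x + i y) → w ∈ EE` as `x → X-` extend the lift by the value `w` at `X`: it is continuous, `ζ w = lim ζ (G (x + i y)) = lim φ (x + i y) = φ (X + i y)`; so `X + i y ∈ Om`.
(For all `x < X` the point is in `Om`, and the lifts on the `[0, x]` are restrictions of `x ↦ G (x + i y)`.)
Mathlib: `IsLocalHomeomorph.exists_lift_nhds` (`Mathlib/Topology/Homotopy/Lifting.lean`) may help but the direct proof is fine.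
-/

namespace Pool.Agent.Lib.MP_ec260d_ntA

open Complex Set Filter Topology Metric MeasureTheory

/-- a lift of the horizontal path at height `y` on `[0, X]` -/
private def LiftDom_L (z0 : ℂ) (w0 : ℝ → ℂ) (y X : ℝ) (γ : ℝ → ℂ) : Prop :=
  ContinuousOn γ (Icc 0 X) ∧ γ 0 = w0 y ∧
    ∀ x ∈ Icc 0 X, γ x ∈ EE ∧ riemannZeta (γ x) = riemannZeta (z0 + ((x : ℂ) + y * I))

private theorem LiftDom_mono {z0 : ℂ} {w0 : ℝ → ℂ} {y X x : ℝ} {γ : ℝ → ℂ}
    (h : LiftDom_L z0 w0 y X γ) (hx : x ≤ X) : LiftDom_L z0 w0 y x γ :=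
  ⟨h.1.mono (Icc_subset_Icc_right hx), h.2.1, fun t ht => h.2.2 t ⟨ht.1, ht.2.trans hx⟩⟩

private theorem LiftDom_uniq {z0 : ℂ} {w0 : ℝ → ℂ} {y X : ℝ} {γ γ' : ℝ → ℂ} (hX : 0 ≤ X)
    (h : LiftDom_L z0 w0 y X γ) (h' : LiftDom_L z0 w0 y X γ') : γ X = γ' X := by
  by_contra hne
  have hm : MapsTo (fun x : ℝ => X - x) (Icc 0 X) (Icc 0 X) := fun x hx =>
    ⟨by linarith [hx.2], by linarith [hx.1]⟩
  have hc : ContinuousOn (fun x : ℝ => X - x) (Icc 0 X) := by fun_prop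
  have h1 := lift_ne X hX (fun x => γ (X - x)) (fun x => γ' (X - x)) (h.1.comp hc hm)
    (h'.1.comp hc hm) (fun x hx => (h.2.2 _ (hm hx)).1)
    (fun x hx => ((h.2.2 _ (hm hx)).2).trans ((h'.2.2 _ (hm hx)).2).symm)
    (by simpa using hne)
  apply h1
  show γ (X - X) = γ' (X - X)
  rw [sub_self, h.2.1, h'.2.1]

private theorem LiftDom_inv (w : ℂ) (hw : w ∈ EE) : ∃ (h : ℂ → ℂ) (r : ℝ), 0 < r ∧
    ContinuousOn h (ball (riemannZeta w) r) ∧
    (∀ b ∈ ball (riemannZeta w) r, h b ∈ EE ∧ riemannZeta (h b) = b) ∧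
    ∀ᶠ v in 𝓝 w, h (riemannZeta v) = v := by
  obtain ⟨g, hg, hg1, hg2, hg3⟩ := germ_exists w hw
  have h1 : ∀ᶠ b in 𝓝 (riemannZeta w), AnalyticAt ℂ g b := hg.eventually_analyticAt
  have h2 : ∀ᶠ b in 𝓝 (riemannZeta w), g b ∈ EE := by
    apply hg.continuousAt.eventually_mem
    rw [hg1]
    exact EE_open.mem_nhds hw
  obtain ⟨r, hr, hb⟩ := Metric.eventually_nhds_iff_ball.1 (h1.and (h2.and hg2))
  exact ⟨g, r, hr, fun b hbb => (hb b hbb).1.continuousAt.continuousWithinAt,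
    fun b hbb => (hb b hbb).2, hg3⟩

private theorem LiftDom_phi (z0 : ℂ) {ξ : ℂ} (h : z0.im + ξ.im ≠ 0) :
    ContinuousAt (fun η : ℂ => riemannZeta (z0 + η)) ξ := by
  have h1 : z0 + ξ ≠ 1 := by
    intro he
    apply h
    have h3 := congrArg Complex.im he
    simpa using h3
  have h2 := (differentiableAt_riemannZeta h1).continuousAt
  exact ContinuousAt.comp (f := fun η : ℂ => z0 + η) h2 (by fun_prop)

/-- a jointly continuous lift near `[0, t]` -/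
private def LiftDom_S (z0 : ℂ) (w0 : ℝ → ℂ) (y1 t : ℝ) : Prop :=
  ∃ δ : ℝ, 0 < δ ∧ ∃ F : ℂ → ℂ,
    ContinuousOn F {ξ : ℂ | 0 ≤ ξ.re ∧ ξ.re < t + δ ∧ |ξ.im - y1| < δ} ∧
    (∀ ξ : ℂ, 0 ≤ ξ.re → ξ.re < t + δ → |ξ.im - y1| < δ →
      F ξ ∈ EE ∧ riemannZeta (F ξ) = riemannZeta (z0 + ξ)) ∧
    ∀ y : ℝ, |y - y1| < δ → F (y * I) = w0 y

private theorem LiftDom_re (x y : ℝ) : ((x : ℂ) + y * I).re = x := by simp

private theorem LiftDom_im (x y : ℝ) : ((x : ℂ) + y * I).im = y := by simp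

private theorem LiftDom_path {z0 : ℂ} {w0 : ℝ → ℂ} {y1 t δ : ℝ} {F : ℂ → ℂ}
    (h1 : ContinuousOn F {ξ : ℂ | 0 ≤ ξ.re ∧ ξ.re < t + δ ∧ |ξ.im - y1| < δ})
    (h2 : ∀ ξ : ℂ, 0 ≤ ξ.re → ξ.re < t + δ → |ξ.im - y1| < δ →
      F ξ ∈ EE ∧ riemannZeta (F ξ) = riemannZeta (z0 + ξ))
    (h3 : ∀ y : ℝ, |y - y1| < δ → F (y * I) = w0 y) {y x : ℝ} (hy : |y - y1| < δ)
    (hx : x < t + δ) : LiftDom_L z0 w0 y x (fun s => F ((s : ℂ) + y * I)) := by
  refine ⟨?_, ?_, fun s hs => ?_⟩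
  · refine h1.comp (by fun_prop) fun s hs => ?_
    refine ⟨?_, ?_, ?_⟩
    · rw [LiftDom_re]; exact hs.1
    · rw [LiftDom_re]; exact hs.2.trans_lt hx
    · rw [LiftDom_im]; exact hy
  · show F (((0 : ℝ) : ℂ) + y * I) = w0 y
    rw [Complex.ofReal_zero, zero_add]
    exact h3 y hy
  · apply h2
    · rw [LiftDom_re]; exact hs.1
    · rw [LiftDom_re]; exact hs.2.trans_lt hx
    · rw [LiftDom_im]; exact hy

private theorem LiftDom_norm {ξ : ℂ} {x y η : ℝ} (h1 : |ξ.re - x| < η / 2)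
    (h2 : |ξ.im - y| < η / 2) : ‖ξ - ((x : ℂ) + y * I)‖ < η := by
  have h3 := Complex.norm_le_abs_re_add_abs_im (ξ - ((x : ℂ) + y * I))
  rw [Complex.sub_re, Complex.sub_im, LiftDom_re, LiftDom_im] at h3
  linarith

private theorem LiftDom_base {z0 : ℂ} {y0 y1 : ℝ} (hy : ∀ y ∈ Ioo y0 y1, z0.im + y ≠ 0)
    {w0 : ℝ → ℂ} (hw : ContinuousOn w0 (Ioo y0 y1))
    (hE : ∀ y ∈ Ioo y0 y1, w0 y ∈ EE ∧ riemannZeta (w0 y) = riemannZeta (z0 + y * I))
    {u : ℝ} (hu : u ∈ Ioo y0 y1) : LiftDom_S z0 w0 u 0 := by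
  obtain ⟨h, r, hr, hc, hb, hv⟩ := LiftDom_inv (w0 u) (hE u hu).1
  have hJ : Ioo y0 y1 ∈ 𝓝 u := isOpen_Ioo.mem_nhds hu
  have hcw : ContinuousAt w0 u := hw.continuousAt hJ
  have e1 : ∀ᶠ y in 𝓝 u, h (riemannZeta (w0 y)) = w0 y := hcw.eventually hv
  obtain ⟨a, ha, ha'⟩ := Metric.eventually_nhds_iff.1 (e1.and hJ)
  have hφ : ContinuousAt (fun η : ℂ => riemannZeta (z0 + η)) (((0 : ℝ) : ℂ) + u * I) := by
    apply LiftDom_phi
    rw [LiftDom_im]
    exact hy u hu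
  have e2 : ∀ᶠ ξ in 𝓝 (((0 : ℝ) : ℂ) + u * I), riemannZeta (z0 + ξ) ∈ ball (riemannZeta (w0 u)) r := by
    apply hφ.eventually_mem
    apply isOpen_ball.mem_nhds
    rw [(hE u hu).2, Complex.ofReal_zero, zero_add]
    exact mem_ball_self hr
  obtain ⟨b, hb0, hb'⟩ := Metric.eventually_nhds_iff.1 e2
  refine ⟨min a (b / 2), lt_min ha (half_pos hb0), fun ξ => h (riemannZeta (z0 + ξ)), ?_, ?_, ?_⟩
  · intro ξ hξ
    have hn : ‖ξ - (((0 : ℝ) : ℂ) + u * I)‖ < b := by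
      apply LiftDom_norm
      · rw [sub_zero, abs_of_nonneg hξ.1]
        have := hξ.2.1
        rw [zero_add] at this
        exact this.trans_le (min_le_right _ _)
      · exact hξ.2.2.trans_le (min_le_right _ _)
    have hin := hb' (by rwa [dist_eq_norm])
    have hj : ξ.im ∈ Ioo y0 y1 := (ha' (by
      rw [Real.dist_eq]
      exact hξ.2.2.trans_le (min_le_left _ _))).2
    have hc1 : ContinuousAt h (riemannZeta (z0 + ξ)) := hc.continuousAt (isOpen_ball.mem_nhds hin)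
    exact (ContinuousAt.comp (f := fun η : ℂ => riemannZeta (z0 + η)) hc1
      (LiftDom_phi z0 (hy _ hj))).continuousWithinAt
  · intro ξ h1 h2 h3
    have hn : ‖ξ - (((0 : ℝ) : ℂ) + u * I)‖ < b := by
      apply LiftDom_norm
      · rw [sub_zero, abs_of_nonneg h1]
        rw [zero_add] at h2
        exact h2.trans_le (min_le_right _ _)
      · exact h3.trans_le (min_le_right _ _)
    exact hb _ (hb' (by rwa [dist_eq_norm]))
  · intro y h1
    have h2 := ha' (y := y) (by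
      rw [Real.dist_eq]
      exact h1.trans_le (min_le_left _ _))
    show h (riemannZeta (z0 + y * I)) = w0 y
    rw [← (hE y h2.2).2]
    exact h2.1

private theorem LiftDom_step {z0 : ℂ} {y0 y1 : ℝ} (hy : ∀ y ∈ Ioo y0 y1, z0.im + y ≠ 0)
    {w0 : ℝ → ℂ} {u : ℝ} (hu : u ∈ Ioo y0 y1) {t : ℝ} (ht : 0 ≤ t) {γ : ℝ → ℂ}
    (hγ : LiftDom_L z0 w0 u t γ) :
    ∃ η : ℝ, 0 < η ∧ ∀ t' : ℝ, 0 ≤ t' → t' ≤ t → t - t' < η → LiftDom_S z0 w0 u t' →
      LiftDom_S z0 w0 u t := by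
  have htt : t ∈ Icc 0 t := ⟨ht, le_rfl⟩
  obtain ⟨h, r, hr, hc, hb, hv⟩ := LiftDom_inv (γ t) (hγ.2.2 t htt).1
  have hφ : ContinuousAt (fun η : ℂ => riemannZeta (z0 + η)) ((t : ℂ) + u * I) := by
    apply LiftDom_phi
    rw [LiftDom_im]
    exact hy u hu
  have e2 : ∀ᶠ ξ in 𝓝 ((t : ℂ) + u * I), riemannZeta (z0 + ξ) ∈ ball (riemannZeta (γ t)) r := by
    apply hφ.eventually_mem
    apply isOpen_ball.mem_nhds
    rw [(hγ.2.2 t htt).2]
    exact mem_ball_self hr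
  obtain ⟨b, hb0, hb'⟩ := Metric.eventually_nhds_iff.1 e2
  have e3 : ∀ᶠ x in 𝓝[Icc 0 t] t, ∀ᶠ v in 𝓝 (γ x), h (riemannZeta v) = v :=
    (hγ.1 t htt).eventually (eventually_eventually_nhds.2 hv)
  obtain ⟨a, ha0, ha'⟩ := Metric.eventually_nhds_iff.1 (eventually_nhdsWithin_iff.1 e3)
  have hJ : Ioo y0 y1 ∈ 𝓝 u := isOpen_Ioo.mem_nhds hu
  obtain ⟨j, hj0, hj'⟩ := Metric.eventually_nhds_iff.1 (hJ : ∀ᶠ y in 𝓝 u, y ∈ Ioo y0 y1)
  refine ⟨min a (b / 2), lt_min ha0 (half_pos hb0), fun t' h0 h1 h2 hS => ?_⟩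
  obtain ⟨δ', hδ', F', k1, k2, k3⟩ := hS
  have hF : F' ((t' : ℂ) + u * I) = γ t' := by
    have l1 := LiftDom_path k1 k2 k3 (y := u) (x := t') (by rw [sub_self, abs_zero]; exact hδ')
      (by linarith)
    exact LiftDom_uniq h0 l1 (LiftDom_mono hγ h1)
  have hva : ∀ᶠ v in 𝓝 (γ t'), h (riemannZeta v) = v := ha' (y := t') (by
    rw [Real.dist_eq, abs_sub_comm, abs_of_nonneg (by linarith)]
    exact h2.trans_le (min_le_left _ _)) ⟨h0, h1⟩
  -- the values on the vertical segment over `t'`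
  have hcv : ContinuousOn (fun y : ℝ => F' ((t' : ℂ) + y * I)) {y : ℝ | |y - u| < δ'} := by
    refine k1.comp (by fun_prop) fun y hyy => ⟨?_, ?_, ?_⟩
    · rw [LiftDom_re]; exact h0
    · rw [LiftDom_re]; linarith
    · rw [LiftDom_im]; exact hyy
  have hopen : {y : ℝ | |y - u| < δ'} ∈ 𝓝 u := by
    have : {y : ℝ | |y - u| < δ'} = ball u δ' := by
      ext y
      rw [mem_ball, Real.dist_eq]
      rfl
    rw [this]
    exact ball_mem_nhds u hδ'
  have hcu : ContinuousAt (fun y : ℝ => F' ((t' : ℂ) + y * I)) u := hcv.continuousAt hopen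
  have e4 : ∀ᶠ y : ℝ in 𝓝 u,
      h (riemannZeta (F' ((t' : ℂ) + y * I))) = F' ((t' : ℂ) + y * I) := by
    have hq : ∀ᶠ v in 𝓝 (F' ((t' : ℂ) + u * I)), h (riemannZeta v) = v := by
      rw [hF]
      exact hva
    exact hcu.eventually (p := fun v => h (riemannZeta v) = v) hq
  obtain ⟨c, hc0, hc'⟩ := Metric.eventually_nhds_iff.1 e4
  obtain ⟨δ, hδ⟩ : ∃ δ, δ = min (min δ' c) (min (b / 2) j) := ⟨_, rfl⟩
  have hδ0 : 0 < δ := by
    rw [hδ]
    exact lt_min (lt_min hδ' hc0) (lt_min (half_pos hb0) hj0)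
  have hδ1 : δ ≤ δ' := by rw [hδ]; exact (min_le_left _ _).trans (min_le_left _ _)
  have hδ2 : δ ≤ c := by rw [hδ]; exact (min_le_left _ _).trans (min_le_right _ _)
  have hδ3 : δ ≤ b / 2 := by rw [hδ]; exact (min_le_right _ _).trans (min_le_left _ _)
  have hδ4 : δ ≤ j := by rw [hδ]; exact (min_le_right _ _).trans (min_le_right _ _)
  have hR : ∀ ξ : ℂ, t' ≤ ξ.re → ξ.re < t + δ → |ξ.im - u| < δ →
      riemannZeta (z0 + ξ) ∈ ball (riemannZeta (γ t)) r := by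
    intro ξ g1 g2 g3
    apply hb'
    rw [dist_eq_norm]
    apply LiftDom_norm
    · rw [abs_lt]
      have := h2.trans_le (min_le_right _ _)
      constructor <;> linarith
    · exact g3.trans_le hδ3
  classical
  refine ⟨δ, hδ0, fun ξ => if ξ.re ≤ t' then F' ξ else h (riemannZeta (z0 + ξ)), ?_, ?_, ?_⟩
  · refine ContinuousOn.if ?_ ?_ ?_
    · rintro ξ ⟨⟨g1, g2, g3⟩, g4⟩
      have g5 : ξ.re = t' := frontier_le_subset_eq Complex.continuous_re continuous_const g4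
      have g6 : ((t' : ℂ) + ξ.im * I) = ξ := by
        rw [← g5]
        exact Complex.re_add_im ξ
      have g7 := hc' (y := ξ.im) (by rw [Real.dist_eq]; exact g3.trans_le hδ2)
      rw [g6, (k2 ξ g1 (by linarith) (g3.trans_le hδ1)).2] at g7
      exact g7.symm
    · refine k1.mono ?_
      rintro ξ ⟨⟨g1, g2, g3⟩, g4⟩
      have g5 : ξ.re ≤ t' := by
        rw [closure_le_eq Complex.continuous_re continuous_const] at g4
        exact g4
      exact ⟨g1, by linarith, g3.trans_le hδ1⟩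
    · rintro ξ ⟨⟨g1, g2, g3⟩, g4⟩
      have g5 : t' ≤ ξ.re := by
        simp only [not_le] at g4
        exact closure_lt_subset_le continuous_const Complex.continuous_re g4
      have hin := hR ξ g5 g2 g3
      have hc1 : ContinuousAt h (riemannZeta (z0 + ξ)) := hc.continuousAt (isOpen_ball.mem_nhds hin)
      have hjj : ξ.im ∈ Ioo y0 y1 := hj' (by rw [Real.dist_eq]; exact g3.trans_le hδ4)
      exact (ContinuousAt.comp (f := fun η : ℂ => riemannZeta (z0 + η)) hc1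
        (LiftDom_phi z0 (hy _ hjj))).continuousWithinAt
  · intro ξ g1 g2 g3
    show (if ξ.re ≤ t' then F' ξ else h (riemannZeta (z0 + ξ))) ∈ EE ∧ _
    by_cases g4 : ξ.re ≤ t'
    · simp only [if_pos g4]
      exact k2 ξ g1 (by linarith) (g3.trans_le hδ1)
    · simp only [if_neg g4]
      exact hb _ (hR ξ (not_le.1 g4).le g2 g3)
  · intro y g1
    have g2 : ((y : ℂ) * I).re ≤ t' := by simpa using h0
    show (if ((y : ℂ) * I).re ≤ t' then F' (y * I) else h (riemannZeta (z0 + y * I))) = w0 y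
    rw [if_pos g2]
    exact k3 y (g1.trans_le hδ1)

private theorem LiftDom_all {z0 : ℂ} {y0 y1 : ℝ} (hy : ∀ y ∈ Ioo y0 y1, z0.im + y ≠ 0)
    {w0 : ℝ → ℂ} (hw : ContinuousOn w0 (Ioo y0 y1))
    (hE : ∀ y ∈ Ioo y0 y1, w0 y ∈ EE ∧ riemannZeta (w0 y) = riemannZeta (z0 + y * I))
    {u : ℝ} (hu : u ∈ Ioo y0 y1) {X : ℝ} (hX : 0 ≤ X) {γ : ℝ → ℂ}
    (hγ : LiftDom_L z0 w0 u X γ) : LiftDom_S z0 w0 u X := by
  obtain ⟨s, hs⟩ : ∃ s : Set ℝ, s = {t | t ∈ Icc 0 X ∧ LiftDom_S z0 w0 u t} := ⟨_, rfl⟩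
  have h0 : (0 : ℝ) ∈ s := by
    rw [hs]
    exact ⟨⟨le_rfl, hX⟩, LiftDom_base hy hw hE hu⟩
  have hbd : BddAbove s := ⟨X, fun t ht => by
    rw [hs] at ht
    exact ht.1.2⟩
  have hτ1 : sSup s ≤ X := csSup_le ⟨0, h0⟩ fun t ht => by
    rw [hs] at ht
    exact ht.1.2
  have hτ0 : 0 ≤ sSup s := le_csSup hbd h0
  obtain ⟨η, hη, hstep⟩ := LiftDom_step hy hu hτ0 (LiftDom_mono hγ hτ1)
  obtain ⟨t', ht', ht''⟩ := exists_lt_of_lt_csSup ⟨0, h0⟩ (show sSup s - η < sSup s by linarith)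
  have ht3 : t' ≤ sSup s := le_csSup hbd ht'
  have ht4 : t' ∈ Icc 0 X ∧ LiftDom_S z0 w0 u t' := by
    rw [hs] at ht'
    exact ht'
  have hS := hstep t' ht4.1.1 ht3 (by linarith) ht4.2
  rcases hτ1.lt_or_eq with h | h
  · exfalso
    obtain ⟨δ, hδ, F, k1, k2, k3⟩ := hS
    obtain ⟨v, hv⟩ : ∃ v, v = min (sSup s + δ / 2) X := ⟨_, rfl⟩
    have hv1 : v ≤ sSup s + δ / 2 := by rw [hv]; exact min_le_left _ _
    have hv2 : v ≤ X := by rw [hv]; exact min_le_right _ _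
    have hv3 : sSup s < v := by rw [hv]; exact lt_min (by linarith) h
    have hvs : v ∈ s := by
      rw [hs]
      refine ⟨⟨by linarith, hv2⟩, δ / 2, half_pos hδ, F, k1.mono ?_, ?_, ?_⟩
      · rintro ξ ⟨g1, g2, g3⟩
        exact ⟨g1, by linarith, by linarith⟩
      · intro ξ g1 g2 g3
        exact k2 ξ g1 (by linarith) (by linarith)
      · intro y g1
        exact k3 y (by linarith)
    linarith [le_csSup hbd hvs]
  · rw [← h]
    exact hS

theorem lift_dom (z0 : ℂ) (y0 y1 : ℝ) (hy : ∀ y ∈ Ioo y0 y1, z0.im + y ≠ 0) (w0 : ℝ → ℂ)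
    (hw : ContinuousOn w0 (Ioo y0 y1))
    (hE : ∀ y ∈ Ioo y0 y1, w0 y ∈ EE ∧ riemannZeta (w0 y) = riemannZeta (z0 + y * I)) :
    ∃ (Om : Set ℂ) (G : ℂ → ℂ), LD z0 y0 y1 Om G ∧ ∀ y ∈ Ioo y0 y1, G ((y : ℂ) * I) = w0 y := by
  classical
  obtain ⟨G, hG⟩ : ∃ G : ℂ → ℂ, ∀ (y X : ℝ) (γ : ℝ → ℂ), 0 ≤ X → LiftDom_L z0 w0 y X γ →
      G ((X : ℂ) + y * I) = γ X := by
    refine ⟨fun ξ => if h : ∃ γ, LiftDom_L z0 w0 ξ.im ξ.re γ then h.choose ξ.re else 0,
      fun y X γ hX hγ => ?_⟩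
    have hex : ∃ γ, LiftDom_L z0 w0 ((X : ℂ) + y * I).im ((X : ℂ) + y * I).re γ := by
      rw [LiftDom_im, LiftDom_re]
      exact ⟨γ, hγ⟩
    show (if h : ∃ γ, LiftDom_L z0 w0 ((X : ℂ) + y * I).im ((X : ℂ) + y * I).re γ
      then h.choose ((X : ℂ) + y * I).re else 0) = γ X
    rw [dif_pos hex]
    have h1 := hex.choose_spec
    have h2 : LiftDom_L z0 w0 ((X : ℂ) + y * I).im ((X : ℂ) + y * I).re γ := by
      rw [LiftDom_im, LiftDom_re]
      exact hγ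
    have h3 := LiftDom_uniq (by rw [LiftDom_re]; exact hX) h1 h2
    rw [h3, LiftDom_re]
  obtain ⟨Om, hOm⟩ : ∃ Om : Set ℂ, Om = {ξ | ξ.im ∈ Ioo y0 y1 ∧ 0 ≤ ξ.re ∧
      ∃ γ, LiftDom_L z0 w0 ξ.im ξ.re γ} := ⟨_, rfl⟩
  have hmem : ∀ ξ : ℂ, ξ ∈ Om ↔ ξ.im ∈ Ioo y0 y1 ∧ 0 ≤ ξ.re ∧ ∃ γ, LiftDom_L z0 w0 ξ.im ξ.re γ := by
    intro ξ
    rw [hOm]
    rfl
  have hmem' : ∀ x y : ℝ, ((x : ℂ) + y * I) ∈ Om ↔
      y ∈ Ioo y0 y1 ∧ 0 ≤ x ∧ ∃ γ, LiftDom_L z0 w0 y x γ := by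
    intro x y
    rw [hmem, LiftDom_im, LiftDom_re]
  -- the local description
  have hloc : ∀ ξ ∈ Om, ∃ (δ : ℝ) (F : ℂ → ℂ), 0 < δ ∧
      ContinuousOn F {η : ℂ | 0 ≤ η.re ∧ η.re < ξ.re + δ ∧ |η.im - ξ.im| < δ} ∧
      ∀ η : ℂ, 0 ≤ η.re → η.re < ξ.re + δ → |η.im - ξ.im| < δ → η ∈ Om ∧ G η = F η := by
    intro ξ hξ
    obtain ⟨hu, hX, γ, hγ⟩ := (hmem ξ).1 hξ
    obtain ⟨δ, hδ, F, k1, k2, k3⟩ := LiftDom_all hy hw hE hu hX hγ
    obtain ⟨j, hj0, hj'⟩ := Metric.eventually_nhds_iff.1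
      (isOpen_Ioo.mem_nhds hu : ∀ᶠ y in 𝓝 ξ.im, y ∈ Ioo y0 y1)
    refine ⟨min δ j, F, lt_min hδ hj0, k1.mono ?_, ?_⟩
    · rintro η ⟨g1, g2, g3⟩
      exact ⟨g1, g2.trans_le (by linarith [min_le_left δ j]), g3.trans_le (min_le_left _ _)⟩
    · intro η g1 g2 g3
      have g4 : |η.im - ξ.im| < δ := g3.trans_le (min_le_left _ _)
      have g5 : η.re < ξ.re + δ := g2.trans_le (by linarith [min_le_left δ j])
      have l1 := LiftDom_path k1 k2 k3 g4 g5
      refine ⟨(hmem η).2 ⟨hj' (by rw [Real.dist_eq]; exact g3.trans_le (min_le_right _ _)), g1,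
        _, l1⟩, ?_⟩
      have h5 := hG η.im η.re _ g1 l1
      rw [Complex.re_add_im] at h5
      exact h5
  have hcont : ContinuousOn G Om := by
    intro ξ hξ
    obtain ⟨δ, F, hδ, k1, k2⟩ := hloc ξ hξ
    have h0 := ((hmem ξ).1 hξ).2.1
    have hR : ξ ∈ {η : ℂ | 0 ≤ η.re ∧ η.re < ξ.re + δ ∧ |η.im - ξ.im| < δ} :=
      ⟨h0, by linarith, by rw [sub_self, abs_zero]; exact hδ⟩
    have hc1 : ContinuousWithinAt G {η : ℂ | 0 ≤ η.re ∧ η.re < ξ.re + δ ∧ |η.im - ξ.im| < δ} ξ :=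
      (k1 ξ hR).congr (fun η hη => (k2 η hη.1 hη.2.1 hη.2.2).2) (k2 ξ hR.1 hR.2.1 hR.2.2).2
    refine hc1.mono_of_mem_nhdsWithin ?_
    rw [mem_nhdsWithin]
    refine ⟨{η : ℂ | η.re < ξ.re + δ} ∩ {η : ℂ | |η.im - ξ.im| < δ}, ?_, ⟨hR.2.1, hR.2.2⟩, ?_⟩
    · exact (isOpen_lt Complex.continuous_re continuous_const).inter
        (isOpen_lt (by fun_prop) continuous_const)
    · rintro η ⟨⟨g1, g2⟩, g3⟩
      exact ⟨((hmem η).1 g3).2.1, g1, g2⟩
  have hw0 : ∀ y ∈ Ioo y0 y1, LiftDom_L z0 w0 y 0 (fun _ => w0 y) := by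
    intro y hyy
    refine ⟨continuousOn_const, rfl, fun x hx => ?_⟩
    have hx0 : x = 0 := le_antisymm hx.2 hx.1
    rw [hx0, Complex.ofReal_zero, zero_add]
    exact hE y hyy
  have hG0 : ∀ y ∈ Ioo y0 y1, G ((y : ℂ) * I) = w0 y := by
    intro y hyy
    have h5 := hG y 0 _ le_rfl (hw0 y hyy)
    rw [Complex.ofReal_zero, zero_add] at h5
    exact h5
  have hval : ∀ ξ ∈ Om, G ξ ∈ EE ∧ riemannZeta (G ξ) = riemannZeta (z0 + ξ) := by
    intro ξ hξ
    obtain ⟨hu, hX, γ, hγ⟩ := (hmem ξ).1 hξ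
    have h5 := hG ξ.im ξ.re γ hX hγ
    have h6 := hγ.2.2 ξ.re ⟨hX, le_rfl⟩
    rw [Complex.re_add_im] at h5 h6
    rw [h5]
    exact h6
  refine ⟨Om, G, ⟨?_, ?_, ?_, ?_, hval, hcont, ?_⟩, hG0⟩
  · intro ξ hξ
    exact ⟨((hmem ξ).1 hξ).2.1, ((hmem ξ).1 hξ).1⟩
  · intro ξ hξ
    obtain ⟨δ, F, hδ, k1, k2⟩ := hloc ξ hξ
    refine ⟨δ, hδ, fun η h1 h2 => (k2 η h2 ?_ ?_).1⟩
    · have h3 := (Complex.abs_re_le_norm (η - ξ)).trans_lt h1
      rw [Complex.sub_re] at h3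
      linarith [(abs_lt.1 h3).2]
    · have h3 := (Complex.abs_im_le_norm (η - ξ)).trans_lt h1
      rw [Complex.sub_im] at h3
      exact h3
  · intro y hyy
    have h5 := (hmem' 0 y).2 ⟨hyy, le_rfl, _, hw0 y hyy⟩
    rw [Complex.ofReal_zero, zero_add] at h5
    exact h5
  · intro ξ hξ x h1 h2
    obtain ⟨hu, hX, γ, hγ⟩ := (hmem ξ).1 hξ
    exact (hmem' x ξ.im).2 ⟨hu, h1, γ, LiftDom_mono hγ h2⟩
  · intro y hyy X hX hx w hw' hlim
    have hpath : ContinuousOn (fun x : ℝ => G ((x : ℂ) + y * I)) (Ico 0 X) := by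
      refine hcont.comp (by fun_prop) fun x hxx => hx x hxx.1 hxx.2
    have hzw : riemannZeta w = riemannZeta (z0 + ((X : ℂ) + y * I)) := by
      have l1 : Tendsto (fun x : ℝ => riemannZeta (G ((x : ℂ) + y * I))) (𝓝[<] X)
          (𝓝 (riemannZeta w)) :=
        ((differentiableAt_riemannZeta hw'.1).continuousAt.tendsto).comp hlim
      have l2 : Tendsto (fun x : ℝ => riemannZeta (z0 + ((x : ℂ) + y * I))) (𝓝[<] X)
          (𝓝 (riemannZeta (z0 + ((X : ℂ) + y * I)))) := by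
        have l3 : ContinuousAt (fun x : ℝ => riemannZeta (z0 + ((x : ℂ) + y * I))) X := by
          have l4 : ContinuousAt (fun η : ℂ => riemannZeta (z0 + η)) ((X : ℂ) + y * I) := by
            apply LiftDom_phi
            rw [LiftDom_im]
            exact hy y hyy
          exact ContinuousAt.comp (f := fun x : ℝ => (x : ℂ) + y * I) l4 (by fun_prop)
        exact l3.tendsto.mono_left nhdsWithin_le_nhds
      have l5 : (fun x : ℝ => riemannZeta (G ((x : ℂ) + y * I))) =ᶠ[𝓝[<] X]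
          fun x : ℝ => riemannZeta (z0 + ((x : ℂ) + y * I)) := by
        have l6 : ∀ᶠ x in 𝓝[<] X, x ∈ Ioo 0 X := Ioo_mem_nhdsLT hX
        filter_upwards [l6] with x hxx
        exact (hval _ (hx x hxx.1.le hxx.2)).2
      exact tendsto_nhds_unique l1 (l2.congr' l5.symm)
    refine (hmem' X y).2 ⟨hyy, hX.le, fun x => if x < X then G ((x : ℂ) + y * I) else w, ?_, ?_, ?_⟩
    · intro x hxx
      rcases hxx.2.lt_or_eq with hlt | heq
      · have h1 : ContinuousWithinAt (fun x : ℝ => G ((x : ℂ) + y * I)) (Icc 0 X) x := by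
          refine (hpath x ⟨hxx.1, hlt⟩).mono_of_mem_nhdsWithin ?_
          rw [mem_nhdsWithin]
          exact ⟨Iio X, isOpen_Iio, hlt, fun z hz => ⟨hz.2.1, hz.1⟩⟩
        refine h1.congr_of_eventuallyEq ?_ ?_
        · have h2 : ∀ᶠ z in 𝓝[Icc 0 X] x, z ∈ Iio X :=
            mem_nhdsWithin_of_mem_nhds (isOpen_Iio.mem_nhds hlt)
          filter_upwards [h2] with z hz
          exact if_pos hz
        · exact if_pos hlt
      · subst heq
        have h1 : ContinuousWithinAt (fun z : ℝ => if z < x then G ((z : ℂ) + y * I) else w)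
            (Iio x) x := by
          show Tendsto _ _ (𝓝 (if x < x then _ else w))
          rw [if_neg (lt_irrefl x)]
          refine hlim.congr' ?_
          filter_upwards [self_mem_nhdsWithin] with z hz
          exact (if_pos hz).symm
        have h2 : ContinuousWithinAt (fun z : ℝ => if z < x then G ((z : ℂ) + y * I) else w)
            (Iic x) x := by
          rw [← Iio_insert]
          exact continuousWithinAt_insert_self.2 h1
        exact h2.mono fun z hz => hz.2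
    · show (if (0 : ℝ) < X then G (((0 : ℝ) : ℂ) + y * I) else w) = w0 y
      rw [if_pos hX, Complex.ofReal_zero, zero_add]
      exact hG0 y hyy
    · intro x hxx
      show (if x < X then G ((x : ℂ) + y * I) else w) ∈ EE ∧
        riemannZeta (if x < X then G ((x : ℂ) + y * I) else w) = _
      rcases hxx.2.lt_or_eq with hlt | heq
      · rw [if_pos hlt]
        exact hval _ (hx x hxx.1 hlt)
      · subst heq
        rw [if_neg (lt_irrefl x)]
        exact ⟨hw', hzw⟩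

end Pool.Agent.Lib.MP_ec260d_ntA
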