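import Mathlib
import Pool.Agent.Lib.MP_ec260d_ntA.Defs
import Pool.Agent.Lib.MP_ec260d_ntA.Barrier
import Pool.Agent.Lib.MP_ec260d_ntA.LiftHol
import Pool.Agent.Lib.MP_ec260d_ntA.AreaF

/-!
# JOB NullStrip: almost no lift goes to infinity in the strip
-/

namespace Pool.Agent.Lib.MP_ec260d_ntA

open Complex Set Filter Topology Metric MeasureTheory

/-- volume of a rectangle -/
private theorem nullStrip_rect (a b c d : ℝ) :
    volume {w : ℂ | (a < w.re ∧ w.re < b) ∧ (c < w.im ∧ w.im < d)} ≤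
      ENNReal.ofReal (b - a) * ENNReal.ofReal (d - c) := by
  have hm : MeasurableSet {w : ℂ | (a < w.re ∧ w.re < b) ∧ (c < w.im ∧ w.im < d)} := by
    apply IsOpen.measurableSet
    exact ((isOpen_lt continuous_const Complex.continuous_re).inter
      (isOpen_lt Complex.continuous_re continuous_const)).inter
      ((isOpen_lt continuous_const Complex.continuous_im).inter
      (isOpen_lt Complex.continuous_im continuous_const))
  set R := {w : ℂ | (a < w.re ∧ w.re < b) ∧ (c < w.im ∧ w.im < d)} with hR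
  have h1 : volume R = ∫⁻ ξ : ℂ, R.indicator (fun _ => (1 : ENNReal)) ξ := by
    rw [lintegral_indicator hm]; simp
  rw [h1, fubini_c _ ((measurable_const.indicator hm).aemeasurable)]
  have h2 : ∀ y : ℝ, (∫⁻ x : ℝ, R.indicator (fun _ => (1 : ENNReal)) ((x : ℂ) + y * I)) ≤
      (Ioo c d).indicator (fun _ => ENNReal.ofReal (b - a)) y := by
    intro y
    by_cases hy : y ∈ Ioo c d
    · rw [indicator_of_mem hy]
      have : ∀ x : ℝ, R.indicator (fun _ => (1 : ENNReal)) ((x : ℂ) + y * I) ≤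
          (Ioo a b).indicator (fun _ => (1 : ENNReal)) x := by
        intro x
        by_cases hx : x ∈ Ioo a b
        · rw [indicator_of_mem hx]
          exact indicator_le_self' (by intros; simp) _ |>.trans (by simp)
        · rw [indicator_of_notMem hx, indicator_of_notMem]
          intro hmem
          apply hx
          rw [hR] at hmem
          simp at hmem
          exact ⟨hmem.1.1, hmem.1.2⟩
      calc (∫⁻ x : ℝ, R.indicator (fun _ => (1 : ENNReal)) ((x : ℂ) + y * I))
          ≤ ∫⁻ x : ℝ, (Ioo a b).indicator (fun _ => (1 : ENNReal)) x := lintegral_mono this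
        _ = ENNReal.ofReal (b - a) := by
          rw [lintegral_indicator measurableSet_Ioo]; simp
    · rw [indicator_of_notMem hy]
      have : ∀ x : ℝ, R.indicator (fun _ => (1 : ENNReal)) ((x : ℂ) + y * I) = 0 := by
        intro x
        rw [indicator_of_notMem]
        intro hmem
        apply hy
        rw [hR] at hmem
        simp at hmem
        exact ⟨hmem.2.1, hmem.2.2⟩
      simp [this]
  calc (∫⁻ y : ℝ, ∫⁻ x : ℝ, R.indicator (fun _ => (1 : ENNReal)) ((x : ℂ) + y * I))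
      ≤ ∫⁻ y : ℝ, (Ioo c d).indicator (fun _ => ENNReal.ofReal (b - a)) y := lintegral_mono h2
    _ = ENNReal.ofReal (b - a) * ENNReal.ofReal (d - c) := by
      rw [lintegral_indicator measurableSet_Ioo]; simp

/-- the exceptional set with the parameters `N` and `K` -/
private def nullStripB (y0 y1 : ℝ) (Om : Set ℂ) (G : ℂ → ℂ) (N K : ℕ) : Set ℝ :=
  {y | y ∈ Ioo y0 y1 ∧ (∀ x : ℝ, 0 ≤ x → ((x : ℂ) + y * I) ∈ Om) ∧
    (∀ x : ℝ, (N : ℝ) ≤ x → -1 ≤ (G ((x : ℂ) + y * I)).re ∧ (G ((x : ℂ) + y * I)).re ≤ 11) ∧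
    |(G (((N : ℝ) : ℂ) + y * I)).im| ≤ K ∧
    Tendsto (fun x : ℝ => |(G ((x : ℂ) + y * I)).im|) atTop atTop}

private theorem nullStrip_key {z0 : ℂ} {y0 y1 : ℝ} {Om : Set ℂ} {G : ℂ → ℂ}
    (h : LD z0 y0 y1 Om G) (hy : ∀ y ∈ Ioo y0 y1, z0.im + y ≠ 0) (hlen : y1 - y0 ≤ 1)
    (N K : ℕ) (hN1 : 1 ≤ N) (hN : 11 ≤ z0.re + N) (ε : ℝ) (hε : 0 < ε) :
    ∃ T1 : ℝ, ∀ T : ℝ, T1 ≤ T → ∃ T' ∈ Icc T (T + 1), K < T' ∧
      volume (nullStripB y0 y1 Om G N K) ≤ ENNReal.ofReal (28 * T' *
        ((ε * T + |Real.log (31 / 30) - z0.re * Real.log 2|) / Real.log 2 + 1) / (T' - K) ^ 2) := by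
  obtain ⟨T0, hT0⟩ := barrier ε hε
  refine ⟨max T0 (K + 1), fun T hT => ?_⟩
  obtain ⟨T', hT', hbar⟩ := hT0 T (le_trans (le_max_left _ _) hT)
  have hKT : (K : ℝ) < T' := by
    have := le_trans (le_max_right T0 ((K : ℝ) + 1)) hT
    linarith [hT'.1]
  have hTpos : 0 < T := by
    have := le_trans (le_max_right T0 ((K : ℝ) + 1)) hT
    have h0 : (0 : ℝ) ≤ K := Nat.cast_nonneg K
    linarith
  refine ⟨T', hT', hKT, ?_⟩
  set c1 : ℝ := |Real.log (31 / 30) - z0.re * Real.log 2| with hc1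
  have hL : 0 < Real.log 2 := Real.log_pos (by norm_num)
  set X : ℝ := (ε * T + c1) / Real.log 2 + 1 with hX
  have hXpos : 0 < X := by
    have : 0 ≤ (ε * T + c1) / Real.log 2 := by positivity
    linarith
  have hN0 : (0 : ℝ) < N := by
    have : (1 : ℝ) ≤ N := by exact_mod_cast hN1
    linarith
  -- the open set
  set Op : Set ℂ := Om ∩ {ξ | 0 < ξ.re} with hOp
  have hOpo : IsOpen Op := h.open_pos
  have hcont : ContinuousOn G Op := h.cont.mono inter_subset_left
  set V : Set ℂ := {w : ℂ | (-2 < w.re ∧ w.re < 12) ∧ (-T' < w.im ∧ w.im < T')} with hV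
  have hVo : IsOpen V :=
    ((isOpen_lt continuous_const Complex.continuous_re).inter
      (isOpen_lt Complex.continuous_re continuous_const)).inter
      ((isOpen_lt continuous_const Complex.continuous_im).inter
      (isOpen_lt Complex.continuous_im continuous_const))
  set W : Set ℂ := (Op ∩ G ⁻¹' V) ∩ {ξ | (N : ℝ) < ξ.re} with hW
  have hWo : IsOpen W :=
    (hcont.isOpen_inter_preimage hOpo hVo).inter (isOpen_lt continuous_const Complex.continuous_re)
  have hinj : InjOn G W := by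
    intro ξ hξ ξ' hξ' heq
    have h1 := (h.val ξ hξ.1.1.1).2
    have h2 := (h.val ξ' hξ'.1.1.1).2
    have h3 : riemannZeta (z0 + ξ) = riemannZeta (z0 + ξ') := by rw [← h1, ← h2, heq]
    have hb1 := (h.sub ξ hξ.1.1.1).2
    have hb2 := (h.sub ξ' hξ'.1.1.1).2
    have hr1 : (N : ℝ) < ξ.re := hξ.2
    have hr2 : (N : ℝ) < ξ'.re := hξ'.2
    have h4 := tract_inj (z0 + ξ) (z0 + ξ') (by simp only [add_re]; linarith)
      (by simp only [add_re]; linarith)
      (by
        simp only [add_im]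
        rw [abs_le]
        constructor <;> linarith [hb1.1, hb1.2, hb2.1, hb2.2]) h3
    exact add_left_cancel h4
  have hdiff : ∀ ξ ∈ W, DifferentiableAt ℂ G ξ := fun ξ hξ =>
    (h.analytic hy ξ hξ.1.1.1 hξ.1.1.2).differentiableAt
  have harea : (∫⁻ ξ in W, ENNReal.ofReal (‖deriv G ξ‖ ^ 2)) ≤ ENNReal.ofReal (28 * T') := by
    have h1 := area_f W hWo G hdiff hinj (fun _ => 1)
    simp only [mul_one] at h1
    rw [← h1]
    have h2 : G '' W ⊆ V := by
      rintro _ ⟨ξ, hξ, rfl⟩
      exact hξ.1.2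
    have hT'pos : 0 < T' := by linarith [hT'.1]
    calc (∫⁻ w in G '' W, 1) = volume (G '' W) := by simp
      _ ≤ volume V := measure_mono h2
      _ ≤ ENNReal.ofReal (12 - (-2)) * ENNReal.ofReal (T' - (-T')) := nullStrip_rect _ _ _ _
      _ = ENNReal.ofReal (28 * T') := by
        rw [← ENNReal.ofReal_mul (by norm_num)]
        congr 1
        ring
  -- the function
  set F : ℂ → ENNReal := W.indicator (fun ξ => ENNReal.ofReal (‖deriv G ξ‖ ^ 2)) with hF
  have hFm : Measurable F := by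
    apply Measurable.indicator _ hWo.measurableSet
    exact ((measurable_deriv G).norm.pow_const 2).ennreal_ofReal
  have hFint : (∫⁻ y : ℝ, ∫⁻ x : ℝ, F ((x : ℂ) + y * I)) ≤ ENNReal.ofReal (28 * T') := by
    rw [← fubini_c F hFm.aemeasurable, hF, lintegral_indicator hWo.measurableSet]
    exact harea
  set Φ : ℝ → ENNReal := fun y => ∫⁻ x : ℝ, F ((x : ℂ) + y * I) with hΦ
  have hΦm : Measurable Φ := by
    have h1 : Measurable (fun p : ℝ × ℝ => F ((p.2 : ℂ) + p.1 * I)) := by
      apply hFm.comp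
      apply Continuous.measurable
      fun_prop
    exact h1.lintegral_prod_right'
  set c : ENNReal := ENNReal.ofReal ((T' - K) ^ 2 / X) with hc
  have hcpos : 0 < (T' - K) ^ 2 / X := by
    have : 0 < T' - K := by linarith
    positivity
  -- the main point
  have hmain : nullStripB y0 y1 Om G N K ⊆ {y | c ≤ Φ y} := by
    rintro y ⟨hyJ, hall, hre, hK, hlim⟩
    rw [mem_ofPred_eq]
    -- continuity of the path
    have hpc : ContinuousOn (fun x : ℝ => G ((x : ℂ) + y * I)) (Ici 0) := by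
      apply h.cont.comp (by fun_prop)
      intro x hx
      exact hall x hx
    have hgc : ContinuousOn (fun x : ℝ => |(G ((x : ℂ) + y * I)).im|) (Ici 0) :=
      (Complex.continuous_im.comp_continuousOn hpc).abs
    set g : ℝ → ℝ := fun x : ℝ => |(G ((x : ℂ) + y * I)).im| with hg
    set S : Set ℝ := Ici (N : ℝ) ∩ g ⁻¹' (Ici T') with hS
    have hScl : IsClosed S :=
      (hgc.mono (Ici_subset_Ici.2 hN0.le)).preimage_isClosed_of_isClosed isClosed_Ici isClosed_Ici
    have hSne : S.Nonempty := by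
      have h1 := (hlim.eventually_ge_atTop T').and (eventually_ge_atTop (N : ℝ))
      obtain ⟨x, hx1, hx2⟩ := h1.exists
      exact ⟨x, hx2, hx1⟩
    have hSbd : BddBelow S := ⟨N, fun x hx => hx.1⟩
    set xT := sInf S with hxT
    have hxS : xT ∈ S := hScl.csInf_mem hSne hSbd
    have hNx : (N : ℝ) ≤ xT := hxS.1
    have hlt : ∀ x, (N : ℝ) ≤ x → x < xT → g x < T' := by
      intro x hx1 hx2
      by_contra hcon
      exact absurd (csInf_le hSbd (show x ∈ S from ⟨hx1, not_lt.1 hcon⟩)) (not_le.2 hx2)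
    have hgN : g N ≤ K := hK
    have hgx : g xT = T' := by
      have h1 : T' ∈ Icc (g N) (g xT) := ⟨by linarith, hxS.2⟩
      have h2 := intermediate_value_Icc hNx
        (hgc.mono (fun x hx => le_trans hN0.le hx.1)) h1
      obtain ⟨x, hx, hgx⟩ := h2
      rcases lt_or_eq_of_le hx.2 with h3 | h3
      · exact absurd hgx (ne_of_lt (hlt x hx.1 h3))
      · rw [← h3]; exact hgx
    have hNlt : (N : ℝ) < xT := by
      rcases lt_or_eq_of_le hNx with h3 | h3
      · exact h3
      · exfalso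
        rw [← h3] at hgx
        linarith
    have hx0 : 0 < xT := hN0.trans hNlt
    -- the bound for xT
    have hxX : xT ≤ X := by
      have h1 := hbar (G ((xT : ℂ) + y * I)) hgx (hre xT hNx).1 (hre xT hNx).2
      rw [(h.val _ (hall xT hx0.le)).2] at h1
      have h2 := (tract_low (z0 + ((xT : ℂ) + y * I)) (by simp; linarith)).2
      have h3 : (z0 + ((xT : ℂ) + y * I)).re = z0.re + xT := by simp
      rw [h3] at h2
      have h4 := h1.trans h2
      have h5 := Real.log_le_log (Real.exp_pos _) h4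
      rw [Real.log_exp, Real.log_mul (by positivity) (by norm_num), Real.log_rpow (by norm_num)] at h5
      have h6 : xT * Real.log 2 ≤ ε * T + c1 := by
        have := le_abs_self (Real.log (31 / 30) - z0.re * Real.log 2)
        rw [← hc1] at this
        nlinarith
      have h7 : xT ≤ (ε * T + c1) / Real.log 2 := by
        rw [le_div_iff₀ hL]; exact h6
      linarith
    -- derivative along the path
    have han : ∀ x : ℝ, 0 < x → AnalyticAt ℂ G ((x : ℂ) + y * I) := fun x hx =>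
      h.analytic hy _ (hall x hx.le) (by simpa using hx)
    have hder : ∀ x : ℝ, 0 < x → HasDerivAt (fun t : ℝ => G ((t : ℂ) + y * I))
        (deriv G ((x : ℂ) + y * I)) x := by
      intro x hx
      have h1 : HasDerivAt (fun t : ℝ => ((t : ℂ) + y * I)) 1 x := by
        have := (Complex.ofRealCLM.hasDerivAt (x := x)).add_const ((y : ℂ) * I)
        simpa using this
      have h2 := (han x hx).differentiableAt.hasDerivAt.scomp x h1
      rw [one_smul] at h2
      exact h2
    have hdc : ContinuousOn (fun x : ℝ => deriv G ((x : ℂ) + y * I)) (Icc (N : ℝ) xT) := by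
      intro x hx
      have h1 := (han x (lt_of_lt_of_le hN0 hx.1)).deriv.continuousAt
      have h2 : ContinuousAt (fun t : ℝ => ((t : ℂ) + y * I)) x := by fun_prop
      have h3 : ContinuousAt (deriv G ∘ fun t : ℝ => ((t : ℂ) + y * I)) x :=
        ContinuousAt.comp (f := fun t : ℝ => ((t : ℂ) + y * I)) (g := deriv G) h1 h2
      exact h3.continuousWithinAt
    have hftc : (∫ x in (N : ℝ)..xT, deriv G ((x : ℂ) + y * I)) =
        G ((xT : ℂ) + y * I) - G (((N : ℝ) : ℂ) + y * I) := by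
      apply intervalIntegral.integral_eq_sub_of_hasDerivAt
        (f := fun t : ℝ => G ((t : ℂ) + y * I))
      · intro x hx
        rw [uIcc_of_le hNx] at hx
        exact hder x (lt_of_lt_of_le hN0 hx.1)
      · apply ContinuousOn.intervalIntegrable
        rw [uIcc_of_le hNx]
        exact hdc
    have hlen1 : T' - K ≤ ∫ x in (N : ℝ)..xT, ‖deriv G ((x : ℂ) + y * I)‖ := by
      have h1 : ‖∫ x in (N : ℝ)..xT, deriv G ((x : ℂ) + y * I)‖ ≤
          ∫ x in (N : ℝ)..xT, ‖deriv G ((x : ℂ) + y * I)‖ :=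
        intervalIntegral.norm_integral_le_integral_norm hNx
      rw [hftc] at h1
      have h2 : |(G ((xT : ℂ) + y * I)).im| - |(G (((N : ℝ) : ℂ) + y * I)).im| ≤
          ‖G ((xT : ℂ) + y * I) - G (((N : ℝ) : ℂ) + y * I)‖ := by
        refine (abs_sub_abs_le_abs_sub _ _).trans ?_
        rw [← sub_im]
        exact Complex.abs_im_le_norm _
      have h3 : |(G ((xT : ℂ) + y * I)).im| = T' := hgx
      have h4 : |(G (((N : ℝ) : ℂ) + y * I)).im| ≤ K := hK
      linarith
    have hlen2 : ENNReal.ofReal (T' - K) ≤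
        ∫⁻ x in Ioc (N : ℝ) xT, ENNReal.ofReal ‖deriv G ((x : ℂ) + y * I)‖ := by
      rw [intervalIntegral.integral_of_le hNx] at hlen1
      have hint : Integrable (fun x : ℝ => ‖deriv G ((x : ℂ) + y * I)‖)
          (volume.restrict (Ioc (N : ℝ) xT)) := by
        have h1 : IntegrableOn (fun x : ℝ => ‖deriv G ((x : ℂ) + y * I)‖) (Icc (N : ℝ) xT) :=
          hdc.norm.integrableOn_Icc
        exact h1.mono_set Ioc_subset_Icc_self
      rw [← ofReal_integral_eq_lintegral_ofReal hint (Eventually.of_forall fun x => norm_nonneg _)]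
      exact ENNReal.ofReal_le_ofReal hlen1
    -- remove the end point
    have hlen3 : ENNReal.ofReal (T' - K) ≤
        ∫⁻ x in Ioo (N : ℝ) xT, ENNReal.ofReal ‖deriv G ((x : ℂ) + y * I)‖ := by
      rw [setLIntegral_congr Ioo_ae_eq_Ioc]
      exact hlen2
    have hcs := cs_line (Ioo (N : ℝ) xT) measurableSet_Ioo
      (fun x : ℝ => ENNReal.ofReal ‖deriv G ((x : ℂ) + y * I)‖)
      (by
        apply Measurable.aemeasurable
        apply Measurable.ennreal_ofReal
        apply Measurable.norm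
        exact (measurable_deriv G).comp (Continuous.measurable (by fun_prop)))
    have hsq : (∫⁻ x in Ioo (N : ℝ) xT, ENNReal.ofReal ‖deriv G ((x : ℂ) + y * I)‖ ^ 2) ≤ Φ y := by
      rw [hΦ]
      simp only
      rw [← lintegral_indicator measurableSet_Ioo]
      apply lintegral_mono
      intro x
      by_cases hx : x ∈ Ioo (N : ℝ) xT
      · have hxW : ((x : ℂ) + y * I) ∈ W := by
          have hxp : 0 < x := hN0.trans hx.1
          have hr := hre x hx.1.le
          have hgl := hlt x hx.1.le hx.2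
          rw [hg] at hgl
          simp only at hgl
          rw [abs_lt] at hgl
          refine ⟨⟨⟨hall x hxp.le, by simpa using hxp⟩, ⟨⟨by linarith [hr.1], by linarith [hr.2]⟩,
            hgl.1, hgl.2⟩⟩, by simpa using hx.1⟩
        simp only [indicator_of_mem hx, hF, indicator_of_mem hxW]
        rw [ENNReal.ofReal_pow (norm_nonneg _)]
      · simp only [indicator_of_notMem hx]
        exact zero_le
    have hvol : volume (Ioo (N : ℝ) xT) ≤ ENNReal.ofReal X := by
      rw [Real.volume_Ioo]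
      exact ENNReal.ofReal_le_ofReal (by linarith)
    have hfin : ENNReal.ofReal ((T' - K) ^ 2) ≤ ENNReal.ofReal X * Φ y := by
      calc ENNReal.ofReal ((T' - K) ^ 2) = ENNReal.ofReal (T' - K) ^ 2 := by
            rw [ENNReal.ofReal_pow (by linarith)]
        _ ≤ (∫⁻ x in Ioo (N : ℝ) xT, ENNReal.ofReal ‖deriv G ((x : ℂ) + y * I)‖) ^ 2 := by
            gcongr
        _ ≤ volume (Ioo (N : ℝ) xT) *
            ∫⁻ x in Ioo (N : ℝ) xT, ENNReal.ofReal ‖deriv G ((x : ℂ) + y * I)‖ ^ 2 := hcs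
        _ ≤ ENNReal.ofReal X * Φ y := by gcongr
    rw [hc, ENNReal.ofReal_div_of_pos hXpos]
    exact ENNReal.div_le_of_le_mul' hfin
  -- Markov
  have hmk : c * volume (nullStripB y0 y1 Om G N K) ≤ ENNReal.ofReal (28 * T') :=
    calc c * volume (nullStripB y0 y1 Om G N K) ≤ c * volume {y | c ≤ Φ y} := by
          gcongr
      _ ≤ ∫⁻ y, Φ y := mul_meas_ge_le_lintegral hΦm c
      _ ≤ ENNReal.ofReal (28 * T') := hFint
  have hc0 : c ≠ 0 := by
    rw [hc]; simpa using hcpos
  have hct : c ≠ ⊤ := by rw [hc]; exact ENNReal.ofReal_ne_top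
  have h8 : volume (nullStripB y0 y1 Om G N K) ≤ ENNReal.ofReal (28 * T') / c := by
    rw [ENNReal.le_div_iff_mul_le (Or.inl hc0) (Or.inl hct), mul_comm]
    exact hmk
  refine h8.trans (le_of_eq ?_)
  rw [hc, ← ENNReal.ofReal_div_of_pos hcpos]
  congr 1
  field_simp

private theorem nullStrip_zero {z0 : ℂ} {y0 y1 : ℝ} {Om : Set ℂ} {G : ℂ → ℂ}
    (h : LD z0 y0 y1 Om G) (hy : ∀ y ∈ Ioo y0 y1, z0.im + y ≠ 0) (hlen : y1 - y0 ≤ 1)
    (N K : ℕ) (hN1 : 1 ≤ N) (hN : 11 ≤ z0.re + N) :
    volume (nullStripB y0 y1 Om G N K) = 0 := by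
  have hbd : ∀ ε : ℝ, 0 < ε → volume (nullStripB y0 y1 Om G N K) ≤ ENNReal.ofReal (400 * ε) := by
    intro ε hε
    obtain ⟨T1, hT1⟩ := nullStrip_key h hy hlen N K hN1 hN ε hε
    set c1 : ℝ := |Real.log (31 / 30) - z0.re * Real.log 2| with hc1
    have hc1n : 0 ≤ c1 := abs_nonneg _
    have hL : (1 : ℝ) / 2 ≤ Real.log 2 := by
      have := Real.log_two_gt_d9
      linarith
    set T : ℝ := max (max T1 1) (max (2 * K) ((2 * c1 + 1) / ε)) with hT
    have hTa : T1 ≤ T := (le_max_left _ _).trans (le_max_left _ _)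
    have hTb : 1 ≤ T := (le_max_right _ _).trans (le_max_left _ _)
    have hTc : 2 * K ≤ T := (le_max_left _ _).trans (le_max_right _ _)
    have hTd : (2 * c1 + 1) / ε ≤ T := (le_max_right _ _).trans (le_max_right _ _)
    have hTd' : 2 * c1 + 1 ≤ T * ε := by
      rwa [div_le_iff₀ hε] at hTd
    obtain ⟨T', hT', hKT, hv⟩ := hT1 T hTa
    refine hv.trans (ENNReal.ofReal_le_ofReal ?_)
    have hT'1 : T ≤ T' := hT'.1
    have hX : (ε * T + c1) / Real.log 2 + 1 ≤ 3 * (ε * T) := by
      have h1 : (ε * T + c1) / Real.log 2 ≤ 2 * (ε * T + c1) := by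
        rw [div_le_iff₀ (by linarith)]
        have : 0 ≤ ε * T + c1 := by positivity
        nlinarith
      linarith
    have hXn : 0 ≤ (ε * T + c1) / Real.log 2 + 1 := by
      have : 0 ≤ (ε * T + c1) / Real.log 2 := by positivity
      linarith
    have hd : T' / 2 ≤ T' - K := by linarith
    have hT'p : 0 < T' := by linarith
    rw [div_le_iff₀ (by
      have : 0 < T' - K := by linarith
      positivity)]
    have h2 : T' ^ 2 / 4 ≤ (T' - K) ^ 2 := by nlinarith
    have h3 : 28 * T' * ((ε * T + c1) / Real.log 2 + 1) ≤ 28 * T' * (3 * (ε * T')) := by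
      have : 3 * (ε * T) ≤ 3 * (ε * T') := by nlinarith
      have h4 : (ε * T + c1) / Real.log 2 + 1 ≤ 3 * (ε * T') := hX.trans this
      exact mul_le_mul_of_nonneg_left h4 (by positivity)
    have h5 : 400 * ε * (T' ^ 2 / 4) ≤ 400 * ε * (T' - K) ^ 2 :=
      mul_le_mul_of_nonneg_left h2 (by positivity)
    have h6 : 28 * T' * (3 * (ε * T')) ≤ 400 * ε * (T' ^ 2 / 4) := by
      have : 0 ≤ ε * T' ^ 2 := by positivity
      nlinarith
    linarith
  by_contra hne
  have hpos : 0 < volume (nullStripB y0 y1 Om G N K) := pos_iff_ne_zero.2 hne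
  have h1 := hbd 1 one_pos
  have hfin : volume (nullStripB y0 y1 Om G N K) ≠ ⊤ :=
    ne_top_of_le_ne_top ENNReal.ofReal_ne_top h1
  set v := (volume (nullStripB y0 y1 Om G N K)).toReal with hv
  have hvp : 0 < v := ENNReal.toReal_pos hne hfin
  have h2 := hbd (v / 800) (by positivity)
  have h3 : v ≤ 400 * (v / 800) := by
    rw [hv]
    have := ENNReal.toReal_mono ENNReal.ofReal_ne_top h2
    rwa [ENNReal.toReal_ofReal (by positivity)] at this
  linarith

theorem null_strip {z0 : ℂ} {y0 y1 : ℝ} {Om : Set ℂ} {G : ℂ → ℂ} (h : LD z0 y0 y1 Om G)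
    (hy : ∀ y ∈ Ioo y0 y1, z0.im + y ≠ 0) (hlen : y1 - y0 ≤ 1) :
    ∀ᵐ y : ℝ, y ∈ Ioo y0 y1 → (∀ x : ℝ, 0 ≤ x → ((x : ℂ) + y * I) ∈ Om) →
      ¬ ((∀ᶠ x : ℝ in atTop, -1 ≤ (G ((x : ℂ) + y * I)).re ∧ (G ((x : ℂ) + y * I)).re ≤ 11) ∧
        Tendsto (fun x : ℝ => |(G ((x : ℂ) + y * I)).im|) atTop atTop) := by
  obtain ⟨N0, hN0⟩ := exists_nat_ge (|z0.re| + 12)
  have hN0' : 11 ≤ z0.re + N0 := by
    have := neg_abs_le z0.re
    linarith
  have hN01 : 1 ≤ N0 := by
    have h1 : (1 : ℝ) ≤ N0 := by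
      have := abs_nonneg z0.re
      linarith
    exact_mod_cast h1
  have hz : volume (⋃ N : ℕ, ⋃ K : ℕ, nullStripB y0 y1 Om G (N0 + N) K) = 0 := by
    rw [measure_iUnion_null_iff]
    intro N
    rw [measure_iUnion_null_iff]
    intro K
    apply nullStrip_zero h hy hlen
    · omega
    · push_cast
      have : (0 : ℝ) ≤ N := Nat.cast_nonneg N
      linarith
  rw [ae_iff]
  refine measure_mono_null ?_ hz
  intro y hyc
  simp only [mem_ofPred_eq, Classical.not_imp, not_not] at hyc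
  obtain ⟨hyJ, hall, hev, hlim⟩ := hyc
  obtain ⟨x1, hx1⟩ := eventually_atTop.1 hev
  obtain ⟨N, hN⟩ := exists_nat_ge x1
  obtain ⟨K, hK⟩ := exists_nat_ge |(G ((((N0 + N : ℕ) : ℝ) : ℂ) + y * I)).im|
  refine mem_iUnion.2 ⟨N, mem_iUnion.2 ⟨K, hyJ, hall, ?_, hK, hlim⟩⟩
  intro x hx
  apply hx1
  push_cast at hx
  have : (0 : ℝ) ≤ N0 := Nat.cast_nonneg N0
  linarith

end Pool.Agent.Lib.MP_ec260d_ntA
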