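import Mathlib
import Pool.Agent.Lib.MP_ec260d_ntA.Defs
import Pool.Agent.Lib.MP_ec260d_ntA.LiftDom
import Pool.Agent.Lib.MP_ec260d_ntA.AllX
import Pool.Agent.Lib.MP_ec260d_ntA.Cluster
import Pool.Agent.Lib.MP_ec260d_ntA.Puis
import Pool.Agent.Lib.MP_ec260d_ntA.Alt
import Pool.Agent.Lib.MP_ec260d_ntA.NullStrip

/-!
# JOB Follow: a branch follows the horizontal path of another one (about 150 lines)

Choose `δ ≤ 1/2` such that for `|y| < δ`: `b = ζ (z0 + i y)` is in a ball around `ζ z0` where `g` is continuous, `ζ (g b) = b` and `g b ∈ EE` (`EE_open`, continuity of `ζ` at `z0 ≠ 1`; `EE` contains `z0 + i y`, in particular `z0 + i y ≠ 1`).  Put `w0 y = g (ζ (z0 + y * I))`; `lift_dom` gives `Om, G`.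
For almost every `y ∈ (y0, y1)`: `all_x` and the conclusion of `null_strip`.  For such `y`: `w x = G (x + i y)` is continuous on `[0, ∞)` (`cont`), `w x ∈ EE`, `ζ (w x) = ζ (z0 + x + i y)`, which tends to `1` as `x → ∞` (`tract_low`) and is different from `1` for `Re z0 + x ≥ 9`.  By `cluster`: either `w x → v`, `v ≠ 1`, `ζ v = 1`: then `RR (w x)` for large `x`
(`puis`); or `‖w x‖ → ∞`: by `alt` either `12 ≤ Re (w x)` for large `x`, or the case excluded by `null_strip`.
-/

namespace Pool.Agent.Lib.MP_ec260d_ntA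

open Complex Set Filter Topology Metric MeasureTheory

/-- zeta tends to one along a horizontal line -/
private theorem follow_tendsto (z0 : ℂ) (y : ℝ) :
    Tendsto (fun x : ℝ => riemannZeta (z0 + x + y * I)) atTop (𝓝 1) := by
  rw [tendsto_iff_norm_sub_tendsto_zero]
  have h2 : Tendsto (fun x : ℝ => (2 : ℝ) ^ (-(z0.re + x)) * (31 / 30)) atTop (𝓝 0) := by
    have h3 : Tendsto (fun x : ℝ => (2 : ℝ) ^ (-(z0.re + x))) atTop (𝓝 0) := by
      have h4 : Tendsto (fun x : ℝ => z0.re + x) atTop atTop := tendsto_atTop_add_const_left _ _ tendsto_id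
      have h5 : Tendsto (fun x : ℝ => -(z0.re + x)) atTop atBot := tendsto_neg_atTop_atBot.comp h4
      have h6 : Tendsto (fun x : ℝ => (2 : ℝ) ^ x) atBot (𝓝 0) := by
        have h7 : Tendsto (fun x : ℝ => Real.exp (Real.log 2 * x)) atBot (𝓝 0) := by
          apply Real.tendsto_exp_atBot.comp
          exact Tendsto.const_mul_atBot (Real.log_pos (by norm_num)) tendsto_id
        refine h7.congr (fun x => ?_)
        rw [Real.rpow_def_of_pos (by norm_num)]
      exact h6.comp h5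
    have h8 := h3.mul_const (31 / 30 : ℝ)
    rwa [zero_mul] at h8
  refine squeeze_zero' (Eventually.of_forall (fun x => norm_nonneg _)) ?_ h2
  filter_upwards [eventually_ge_atTop (9 - z0.re)] with x hx
  have hre : (z0 + x + y * I).re = z0.re + x := by simp
  have h := (tract_low (z0 + x + y * I) (by rw [hre]; linarith)).2
  rwa [hre] at h

private theorem follow_ne (z0 : ℂ) (y : ℝ) :
    ∀ᶠ x : ℝ in atTop, riemannZeta (z0 + x + y * I) ≠ 1 := by
  filter_upwards [eventually_ge_atTop (9 - z0.re)] with x hx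
  have hre : (z0 + x + y * I).re = z0.re + x := by simp
  have h := (tract_low (z0 + x + y * I) (by rw [hre]; linarith)).1
  intro h1
  rw [h1] at h
  have hpos : (0 : ℝ) < (2 : ℝ) ^ (-(z0 + x + y * I).re) := Real.rpow_pos_of_pos (by norm_num) _
  simp only [sub_self, norm_zero] at h
  nlinarith

theorem follow (z0 : ℂ) (hz0 : z0 ∈ EE) (g : ℂ → ℂ) (hg : AnalyticAt ℂ g (riemannZeta z0))
    (hgE : g (riemannZeta z0) ∈ EE) (hgz : ∀ᶠ b in 𝓝 (riemannZeta z0), riemannZeta (g b) = b) :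
    ∃ δ : ℝ, 0 < δ ∧ ∀ y0 y1 : ℝ, -δ < y0 → y1 < δ → (∀ y ∈ Ioo y0 y1, z0.im + y ≠ 0) →
      ∀ᵐ y : ℝ, y ∈ Ioo y0 y1 → ∃ w : ℝ → ℂ, ContinuousOn w (Ici 0) ∧
        w 0 = g (riemannZeta (z0 + y * I)) ∧
        (∀ x : ℝ, 0 ≤ x → w x ∈ EE ∧ riemannZeta (w x) = riemannZeta (z0 + x + y * I)) ∧
        ∀ᶠ x in atTop, 12 ≤ (w x).re ∨ RR (w x) := by
  have hline : ContinuousAt (fun y : ℝ => z0 + y * I) 0 := by fun_prop
  have hline1 : Tendsto (fun y : ℝ => z0 + y * I) (𝓝 0) (𝓝 z0) := by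
    have h2 := hline.tendsto
    simpa using h2
  have hzc : ∀ z : ℂ, z ≠ 1 → ContinuousAt riemannZeta z := fun z hz =>
    (differentiableAt_riemannZeta hz).continuousAt
  have hmap : Tendsto (fun y : ℝ => riemannZeta (z0 + y * I)) (𝓝 0) (𝓝 (riemannZeta z0)) := by
    exact (hzc z0 hz0.1).tendsto.comp hline1
  have hEV : ∀ᶠ b in 𝓝 (riemannZeta z0), ContinuousAt g b ∧ riemannZeta (g b) = b ∧ g b ∈ EE := by
    have h1 : ∀ᶠ b in 𝓝 (riemannZeta z0), AnalyticAt ℂ g b := hg.eventually_analyticAt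
    have h2 : ∀ᶠ b in 𝓝 (riemannZeta z0), g b ∈ EE :=
      hg.continuousAt.eventually (EE_open.mem_nhds hgE)
    filter_upwards [h1, hgz, h2] with b hb1 hb2 hb3
    exact ⟨hb1.continuousAt, hb2, hb3⟩
  have hEE : ∀ᶠ y : ℝ in 𝓝 0, z0 + y * I ∈ EE := by
    exact hline1.eventually (EE_open.mem_nhds hz0)
  have hall := (hmap.eventually hEV).and hEE
  obtain ⟨δ0, hδ0, hδ⟩ := Metric.eventually_nhds_iff.mp hall
  refine ⟨min δ0 (1 / 2), by positivity, ?_⟩
  intro y0 y1 hy0 hy1 hne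
  have hsmall : ∀ y ∈ Ioo y0 y1, dist y 0 < δ0 := by
    intro y hy
    rw [dist_zero_right, Real.norm_eq_abs, abs_lt]
    have := min_le_left δ0 (1 / 2)
    constructor <;> linarith [hy.1, hy.2]
  have hlen : y1 - y0 ≤ 1 := by
    have := min_le_right δ0 (1 / 2)
    linarith
  obtain ⟨Om, G, hLD, hG0⟩ := lift_dom z0 y0 y1 hne (fun y => g (riemannZeta (z0 + y * I)))
    (by
      intro y hy
      obtain ⟨⟨hc, -, -⟩, hE⟩ := hδ (hsmall y hy)
      have h1 : ContinuousAt (fun y : ℝ => z0 + y * I) y := by fun_prop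
      have h2 : ContinuousAt (fun y : ℝ => riemannZeta (z0 + y * I)) y :=
        ContinuousAt.comp (f := fun y : ℝ => z0 + y * I) (g := riemannZeta) (hzc _ hE.1) h1
      exact (ContinuousAt.comp (f := fun y : ℝ => riemannZeta (z0 + y * I)) (g := g) hc h2).continuousWithinAt)
    (by
      intro y hy
      obtain ⟨⟨-, hz, hE⟩, -⟩ := hδ (hsmall y hy)
      exact ⟨hE, hz⟩)
  filter_upwards [all_x hLD hne, null_strip hLD hne hlen] with y hax hns hyJ
  have hOm := hax hyJ
  have hNS := hns hyJ hOm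
  have hw : ContinuousOn (fun x : ℝ => G ((x : ℂ) + y * I)) (Ici 0) := by
    refine ContinuousOn.comp (t := Om) hLD.cont (by fun_prop) ?_
    intro x hx
    exact hOm x hx
  have hval : ∀ x : ℝ, 0 ≤ x → G ((x : ℂ) + y * I) ∈ EE ∧
      riemannZeta (G ((x : ℂ) + y * I)) = riemannZeta (z0 + x + y * I) := by
    intro x hx
    have h := hLD.val _ (hOm x hx)
    refine ⟨h.1, ?_⟩
    rw [h.2, add_assoc]
  have hten : Tendsto (fun x : ℝ => riemannZeta (G ((x : ℂ) + y * I))) atTop (𝓝 1) := by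
    refine (follow_tendsto z0 y).congr' ?_
    filter_upwards [eventually_ge_atTop 0] with x hx
    exact (hval x hx).2.symm
  refine ⟨fun x : ℝ => G ((x : ℂ) + y * I), hw, ?_, hval, ?_⟩
  · have h := hG0 y hyJ
    simpa using h
  · rcases cluster (fun x : ℝ => G ((x : ℂ) + y * I)) hw (fun x hx => (hval x hx).1.1) hten with
      ⟨v, hv1, hv2, hv3⟩ | hinf
    · have hnev : ∀ᶠ x : ℝ in atTop, riemannZeta (G ((x : ℂ) + y * I)) ≠ 1 := by
        filter_upwards [follow_ne z0 y, eventually_ge_atTop 0] with x hx hx0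
        rw [(hval x hx0).2]
        exact hx
      filter_upwards [puis v hv1 hv2 _ hv3 hnev] with x hx
      exact Or.inr hx
    · rcases alt (fun x : ℝ => G ((x : ℂ) + y * I)) hw hten hinf with h12 | hbad
      · filter_upwards [h12] with x hx
        exact Or.inl hx
      · exact absurd hbad hNS

end Pool.Agent.Lib.MP_ec260d_ntA
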