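import Mathlib
import Pool.Agent.Lib.MP_ec260d_ntA.Defs
import Pool.Agent.Lib.MP_ec260d_ntA.EndA
import Pool.Agent.Lib.MP_ec260d_ntA.Follow
import Pool.Agent.Lib.MP_ec260d_ntA.RelA
import Pool.Agent.Lib.MP_ec260d_ntA.ZetaCrit

/-!
# JOB Core: the branches of the inverse of zeta are algebraically independent (about 200 lines)

Strong induction on `n`.  `n = 0`: `rel_zero`.  Let `n ≥ 1` and suppose `P ≠ 0`.  Let `g` be the germs from `rel_near` at `a`, `z0 = z 0`.  For every `i ≠ 0` let `δ_i` be from `follow z0 (g i)`.  `germ_left` for `g 0`: `g 0 (ζ w) = w` for `w` near `z0`.  Let `δ > 0` be smaller than all `δ_i` and such that for `|y| < δ`: `b = ζ (z0 + i y)` satisfies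
`Rel P b (g · b)` , `g 0 b = z0 + i y`, and the `g i b` are pairwise distinct.  Choose `-δ < y0 < y1 < δ` with `Im z0 + y ≠ 0` on `(y0, y1)` (if `Im z0 ≠ 0` take `|y|` small, otherwise `0 < y0 < y1 < δ`).  Almost every `y ∈ (y0, y1)` is good for all `i ≠ 0` (`follow`) and `z0 + x + i y ∈ EE` for all `x` (`crit_countable`: countably many imaginary parts; the
imaginary part is not zero, so the point is not `1`).  Since `(y0, y1)` has positive measure there is such a `y`.  Let `w_i` be the paths, `w_0(x) = z0 + x + i y`, `c(x) = ζ (z0 + x + i y)`.  By `rel_cont` on `[0, X]`: `Rel P (c X) (w · X)` for all `X ≥ 0`; for `X` large: `12 ≤ Re` or `RR` for every `i`, and `Re (w_0 X) = Re z0 + X ≥ 12`.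
`w_i X` are pairwise distinct (`lift_ne`).  `endA` with `I = {i : 12 ≤ Re (w_i X)} ∋ 0` gives `j < n` and `Q ≠ 0` with `Rel Q (c X) (...)` for distinct points of `EE` over `c X`: by induction `Q = 0`, contradiction.
-/

namespace Pool.Agent.Lib.MP_ec260d_ntA

open Complex Set Filter Topology Metric MeasureTheory

private theorem Core_min {n : ℕ} (hn : 0 < n) (d : Fin n → ℝ) (hd : ∀ i, 0 < d i) :
    ∃ δ : ℝ, 0 < δ ∧ ∀ i, δ ≤ d i := by
  have : Nonempty (Fin n) := ⟨⟨0, hn⟩⟩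
  obtain ⟨i, hi⟩ := Finite.exists_min d
  exact ⟨d i, hd i, hi⟩

private theorem Core_im (t : ℝ) : ∃ r : ℝ, 0 < r ∧ ∀ y ∈ Ioo 0 r, t + y ≠ 0 := by
  by_cases ht : t = 0
  · refine ⟨1, one_pos, fun y hy => ?_⟩
    rw [ht, zero_add]
    exact hy.1.ne'
  · refine ⟨|t|, abs_pos.2 ht, fun y hy h => ?_⟩
    have h1 : t = -y := by linarith
    have h2 : |t| = y := by rw [h1, abs_neg, abs_of_pos hy.1]
    exact absurd hy.2 (by rw [h2]; exact lt_irrefl _)

private theorem Core_ae {y1 : ℝ} (h : 0 < y1) {Q : ℝ → Prop} (hQ : ∀ᵐ y : ℝ, Q y) :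
    ∃ y ∈ Ioo 0 y1, Q y := by
  have h1 : (volume.restrict (Ioo 0 y1) : Measure ℝ) ≠ 0 := by
    rw [Ne, Measure.restrict_eq_zero, Real.volume_Ioo, sub_zero, ENNReal.ofReal_eq_zero]
    exact not_le.2 h
  have h2 : (ae (volume.restrict (Ioo 0 y1) : Measure ℝ)).NeBot := ae_neBot.2 h1
  have h3 : ∀ᵐ y ∂(volume.restrict (Ioo 0 y1) : Measure ℝ), y ∈ Ioo 0 y1 ∧ Q y :=
    (ae_restrict_mem measurableSet_Ioo).and (ae_restrict_of_ae hQ)
  obtain ⟨y, hy1, hy2⟩ := h3.exists
  exact ⟨y, hy1, hy2⟩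

private theorem Core_bad (z0 : ℂ) : ∀ᵐ y : ℝ, ∀ x : ℝ, z0 + x + y * I ≠ 1 →
    deriv riemannZeta (z0 + x + y * I) ≠ 0 := by
  have h1 : ((fun w : ℂ => w.im - z0.im) '' {w : ℂ | w ≠ 1 ∧ deriv riemannZeta w = 0}).Countable :=
    crit_countable.image _
  filter_upwards [h1.ae_notMem volume] with y hy x hx h
  apply hy
  refine ⟨z0 + x + y * I, ⟨hx, h⟩, ?_⟩
  simp

theorem core (n : ℕ) : ∀ (P : MvPolynomial (Option (Fin n)) ℂ) (a : ℂ) (z : Fin n → ℂ),
    Function.Injective z → (∀ i, z i ∈ EE ∧ riemannZeta (z i) = a) → Rel P a z → P = 0 := by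
  induction n using Nat.strong_induction_on with
  | _ n ih =>
  intro P a z hinj hz hR
  by_contra hP
  rcases Nat.eq_zero_or_pos n with rfl | hn
  · exact hP (rel_zero P a z hR)
  obtain ⟨i0, hi0⟩ : ∃ i0 : Fin n, i0 = ⟨0, hn⟩ := ⟨_, rfl⟩
  obtain ⟨z0, hz0⟩ : ∃ z0 : ℂ, z0 = z i0 := ⟨_, rfl⟩
  have hzE : z0 ∈ EE := by rw [hz0]; exact (hz i0).1
  have hza : riemannZeta z0 = a := by rw [hz0]; exact (hz i0).2
  obtain ⟨g, hg, hnear⟩ := rel_near P a z hR
  have hleft : ∀ᶠ w in 𝓝 z0, g i0 (riemannZeta w) = w := by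
    have h1 := germ_left (g i0) a (hg i0).1.continuousAt (by rw [(hg i0).2.1]; exact (hz i0).1) (hg i0).2.2
    rw [(hg i0).2.1, ← hz0] at h1
    exact h1
  have hdist : ∀ᶠ b in 𝓝 a, ∀ i j, i ≠ j → g i b ≠ g j b := by
    refine eventually_all.2 fun i => eventually_all.2 fun j => ?_
    by_cases hij : i = j
    · exact Eventually.of_forall fun b h => absurd hij h
    · have h1 : Tendsto (g i) (𝓝 a) (𝓝 (z i)) := by
        rw [← (hg i).2.1]
        exact (hg i).1.continuousAt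
      have h2 : Tendsto (g j) (𝓝 a) (𝓝 (z j)) := by
        rw [← (hg j).2.1]
        exact (hg j).1.continuousAt
      have h3 : Tendsto (fun b => g i b - g j b) (𝓝 a) (𝓝 (z i - z j)) := h1.sub h2
      filter_upwards [h3.eventually_ne (sub_ne_zero.2 fun h => hij (hinj h))] with b hb _
      exact sub_ne_zero.1 hb
  -- the vertical segment
  have hcz : ContinuousAt riemannZeta z0 := (zeta_analytic z0 hzE.1).continuousAt
  have hpt : Tendsto (fun y : ℝ => z0 + (y : ℂ) * I) (𝓝 0) (𝓝 z0) := by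
    have h1 : Continuous fun y : ℝ => z0 + (y : ℂ) * I := by fun_prop
    have h2 := h1.tendsto 0
    rw [ofReal_zero, zero_mul, add_zero] at h2
    exact h2
  have hb : Tendsto (fun y : ℝ => riemannZeta (z0 + (y : ℂ) * I)) (𝓝 0) (𝓝 a) := by
    rw [← hza]
    exact hcz.tendsto.comp hpt
  have hev := ((hb.eventually hnear).and (hb.eventually hdist)).and (hpt.eventually hleft)
  obtain ⟨δ0, hδ0, hball⟩ := Metric.eventually_nhds_iff.1 hev
  -- the paths
  have hgE : ∀ i, g i (riemannZeta z0) ∈ EE := by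
    intro i
    rw [hza, (hg i).2.1]
    exact (hz i).1
  choose d hd hfol using fun i => follow z0 hzE (g i) (by rw [hza]; exact (hg i).1) (hgE i)
    (by rw [hza]; exact (hg i).2.2)
  obtain ⟨δ, hδ, hδd⟩ := Core_min hn d hd
  obtain ⟨r, hr, hrim⟩ := Core_im z0.im
  obtain ⟨y1, hy1⟩ : ∃ y1 : ℝ, y1 = min (min (δ / 2) (δ0 / 2)) r := ⟨_, rfl⟩
  have hy1pos : 0 < y1 := by
    rw [hy1]
    exact lt_min (lt_min (by linarith) (by linarith)) hr
  have hy1δ : y1 < δ := by
    rw [hy1]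
    exact lt_of_le_of_lt ((min_le_left _ _).trans (min_le_left _ _)) (by linarith)
  have hy1δ0 : y1 < δ0 := by
    rw [hy1]
    exact lt_of_le_of_lt ((min_le_left _ _).trans (min_le_right _ _)) (by linarith)
  have hy1r : y1 ≤ r := by
    rw [hy1]
    exact min_le_right _ _
  have hall : ∀ᵐ y : ℝ, ∀ i, y ∈ Ioo 0 y1 → ∃ w : ℝ → ℂ, ContinuousOn w (Ici 0) ∧
        w 0 = g i (riemannZeta (z0 + y * I)) ∧
        (∀ x : ℝ, 0 ≤ x → w x ∈ EE ∧ riemannZeta (w x) = riemannZeta (z0 + x + y * I)) ∧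
        ∀ᶠ x in atTop, 12 ≤ (w x).re ∨ RR (w x) := by
    refine ae_all_iff.2 fun i => ?_
    exact hfol i 0 y1 (by linarith [hd i]) (by linarith [hδd i])
      fun y hy => hrim y ⟨hy.1, lt_of_lt_of_le hy.2 hy1r⟩
  obtain ⟨y, hyI, hyw, hybad⟩ := Core_ae hy1pos (hall.and (Core_bad z0))
  have hyim : z0.im + y ≠ 0 := hrim y ⟨hyI.1, lt_of_lt_of_le hyI.2 hy1r⟩
  have hydist : dist y 0 < δ0 := by
    rw [Real.dist_eq, sub_zero, abs_of_pos hyI.1]
    exact hyI.2.trans hy1δ0
  obtain ⟨⟨hRb, hdb⟩, hlb⟩ := hball hydist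
  choose w hwc hw0 hwE hwev using fun i => hyw i hyI
  obtain ⟨p, hp⟩ : ∃ p : ℝ → ℂ, p = fun x : ℝ => z0 + x + y * I := ⟨_, rfl⟩
  have hpc : Continuous p := by
    rw [hp]
    fun_prop
  have hp1 : ∀ x, p x ≠ 1 := by
    intro x h
    apply hyim
    have h1 := congrArg Complex.im h
    rw [hp] at h1
    simpa using h1
  have hpE : ∀ x, p x ∈ EE := by
    intro x
    have h1 := hp1 x
    rw [hp] at h1 ⊢
    exact ⟨h1, hybad x h1⟩
  obtain ⟨c, hc⟩ : ∃ c : ℝ → ℂ, c = fun x => riemannZeta (p x) := ⟨_, rfl⟩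
  have hcc : Continuous c := by
    rw [hc, continuous_iff_continuousAt]
    intro x
    exact ContinuousAt.comp (g := riemannZeta) (f := p) (zeta_analytic _ (hp1 x)).continuousAt hpc.continuousAt
  obtain ⟨W, hW⟩ : ∃ W : Fin n → ℝ → ℂ, W = Function.update w i0 p := ⟨_, rfl⟩
  have hW0 : W i0 = p := by rw [hW, Function.update_self]
  have hWn : ∀ i, i ≠ i0 → W i = w i := by
    intro i hi
    rw [hW, Function.update_of_ne hi]
  have hWc : ∀ i, ContinuousOn (W i) (Ici 0) := by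
    intro i
    by_cases hi : i = i0
    · rw [hi, hW0]
      exact hpc.continuousOn
    · rw [hWn i hi]
      exact hwc i
  have hWE : ∀ i, ∀ x : ℝ, 0 ≤ x → W i x ∈ EE ∧ riemannZeta (W i x) = c x := by
    intro i x hx
    by_cases hi : i = i0
    · rw [hi, hW0, hc]
      exact ⟨hpE x, rfl⟩
    · rw [hWn i hi, hc, hp]
      exact hwE i x hx
  have hp0 : p 0 = z0 + y * I := by
    rw [hp]
    simp
  have hW00 : ∀ i, W i 0 = g i (riemannZeta (z0 + y * I)) := by
    intro i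
    by_cases hi : i = i0
    · rw [hi, hW0, hp0, hlb]
    · rw [hWn i hi]
      exact hw0 i
  have hWev : ∀ i, ∀ᶠ x in atTop, 12 ≤ (W i x).re ∨ RR (W i x) := by
    intro i
    by_cases hi : i = i0
    · rw [hi, hW0]
      filter_upwards [eventually_ge_atTop (12 - z0.re)] with x hx
      left
      rw [hp]
      simp
      linarith
    · rw [hWn i hi]
      exact hwev i
  obtain ⟨X, ⟨hXa, hX0⟩, hX12⟩ := (((eventually_all.2 hWev).and (eventually_ge_atTop (0 : ℝ))).and
    (eventually_ge_atTop (12 - z0.re))).exists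
  have hsub : Icc 0 X ⊆ Ici 0 := fun x hx => hx.1
  have hR0 : Rel P (c 0) (fun i => W i 0) := by
    have e1 : c 0 = riemannZeta (z0 + y * I) := by rw [hc]; show riemannZeta (p 0) = _; rw [hp0]
    have e2 : (fun i => W i 0) = fun i => g i (riemannZeta (z0 + y * I)) := funext hW00
    rw [e1, e2]
    exact hRb
  have hRX := rel_cont P X hX0 c W hcc.continuousOn (fun i => (hWc i).mono hsub)
    (fun i x hx => hWE i x hx.1) hR0
  have hinjX : Function.Injective fun i => W i X := by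
    intro i j hij
    by_contra hne
    refine lift_ne X hX0 (W i) (W j) ((hWc i).mono hsub) ((hWc j).mono hsub) (fun x hx => (hWE i x hx.1).1)
      (fun x hx => (hWE i x hx.1).2.trans (hWE j x hx.1).2.symm) ?_ hij
    rw [hW00, hW00]
    exact hdb i j hne
  obtain ⟨j, f, Q, hj, hf, hQ, hRQ⟩ := endA n P hP (c X) (fun i => W i X) (fun i => (hWE i X hX0).1) hinjX
    (fun i => (hWE i X hX0).2) hRX (Finset.univ.filter fun i => 12 ≤ (W i X).re)
    ⟨i0, by
      rw [Finset.mem_filter, hW0, hp]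
      refine ⟨Finset.mem_univ _, ?_⟩
      simp
      linarith⟩
    (fun i hi => (Finset.mem_filter.1 hi).2)
    (fun i hi => by
      rcases hXa i with h | h
      · exact absurd (Finset.mem_filter.2 ⟨Finset.mem_univ i, h⟩) hi
      · exact h)
  exact hQ (ih j hj Q (c X) (fun i => W (f i) X) (hinjX.comp hf) (fun i => hWE (f i) X hX0) hRQ)

end Pool.Agent.Lib.MP_ec260d_ntA
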