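import Mathlib
import Pool.Agent.Lib.MP_ec260d_ntA.Defs
import Pool.Agent.Lib.MP_ec260d_ntA.Core
import Pool.Agent.Lib.MP_ec260d_ntA.ZetaCrit

/-!
# JOB Count: for each polynomial the exceptional values are countable (about 250 lines)

Let `P ≠ 0`.  For `a` in the set in question the points `z i` satisfy `z i ≠ 1`, `ζ (z i) = a`, and `deriv ζ (z i) ≠ 0` (otherwise `a ∈ ζ '' crit`): `z i ∈ EE`.
Charts: for a centre `c ∈ ℂ` with rational coordinates, a rational radius `ρ > 0` and `u ∈ ℂ` let `Br(c, ρ, u)` be the set of `g` with `g` differentiable on `ball c ρ`, `ζ (g b) = b`, `g b ≠ 1` for `b ∈ ball c ρ`, and `g c = u`.  (i) If `g ∈ Br(c, ρ, u)` then `g b ∈ EE` on the ball (`ζ' (g b) g' b = 1`).  (ii) `g, g' ∈ Br(c, ρ, u)` agree on the ball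
(`germ_unique` at `c` and the identity theorem on the ball).  Choose `G_{c,ρ,u} ∈ Br(c, ρ, u)` when nonempty.  `u` ranges over the countable set `{u ≠ 1, ζ u = c}` (`fiber_countable`).
For `a` as above: the local inverses `g i` at `a` through `z i` (`germ_exists`) are defined on a ball `ball a ρ'`, differentiable there, `ζ (g i b) = b`, `g i b ≠ 1`; choose rational `c`, `ρ` with `a ∈ ball c ρ ⊆ ball a ρ'`; `u i = g i c`; then `g i = G_{c,ρ,u i}` on `ball c ρ`, `u` is injective (`u i = u i'` implies `g i = g i'` on the ball, so `z i = z i'`).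
So the exceptional set is contained in the countable union over `(c, ρ, u : Fin N → fibre, injective)` of `{b ∈ ball c ρ : P(b, G_{c,ρ,u}(b)) = 0}`, and each of these is countable: the function is analytic on the ball and not identically zero, because otherwise `Rel P c u`, and `core` would give `P = 0`.
(Zeros of a nonzero analytic function on a ball are countable: as in `ZetaCrit`.)
-/

namespace Pool.Agent.Lib.MP_ec260d_ntA

open Complex Set Filter Topology Metric MeasureTheory

/-- the pairs of a value and points over it which satisfy the relation -/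
private def CountT (N : ℕ) (P : MvPolynomial (Option (Fin N)) ℂ) : Set (ℂ × (Fin N → ℂ)) :=
  {p | Function.Injective p.2 ∧ (∀ i, p.2 i ∈ EE ∧ riemannZeta (p.2 i) = p.1) ∧
    MvPolynomial.eval (fun o : Option (Fin N) => o.elim p.1 p.2) P = 0}

private theorem Count_analytic (N : ℕ) (P : MvPolynomial (Option (Fin N)) ℂ) (a : ℂ) (g : Fin N → ℂ → ℂ)
    (hg : ∀ i, AnalyticAt ℂ (g i) a) :
    AnalyticAt ℂ (fun b => MvPolynomial.eval (fun o : Option (Fin N) => o.elim b (fun i => g i b)) P) a := by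
  have h := AnalyticAt.aeval_mvPolynomial (𝕜 := ℂ) (f := fun b (o : Option (Fin N)) => o.elim b (fun i => g i b))
    (z := a) (A := ℂ) (B := ℂ) (fun o => by
      cases o with
      | none => exact analyticAt_id
      | some i => exact hg i) P
  simpa only [MvPolynomial.aeval_eq_eval] using h

private theorem Count_discrete (N : ℕ) (P : MvPolynomial (Option (Fin N)) ℂ) (hP : P ≠ 0) :
    ∀ p ∈ CountT N P, ({p} : Set (ℂ × (Fin N → ℂ))) ∈ 𝓝[CountT N P] p := by
  rintro ⟨a, z⟩ ⟨hinj, hz, hPz⟩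
  simp only at hinj hz hPz
  have hex : ∀ i, ∃ g : ℂ → ℂ, AnalyticAt ℂ g a ∧ g a = z i ∧ (∀ᶠ b in 𝓝 a, riemannZeta (g b) = b) ∧
      ∀ᶠ w in 𝓝 (z i), g (riemannZeta w) = w := by
    intro i
    obtain ⟨g, h1, h2, h3, h4⟩ := germ_exists (z i) (hz i).1
    rw [(hz i).2] at h1 h2 h3
    exact ⟨g, h1, h2, h3, h4⟩
  choose g h1 h2 h3 h4 using hex
  have hF := Count_analytic N P a g h1
  rcases hF.eventually_eq_zero_or_eventually_ne_zero with h | h
  · exact absurd (core N P a z hinj hz ⟨g, fun i => ⟨h1 i, h2 i, h3 i⟩, h⟩) hP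
  · rw [eventually_nhdsWithin_iff] at h
    have e1 : ∀ᶠ p : ℂ × (Fin N → ℂ) in 𝓝 (a, z), p.1 ∈ ({a} : Set ℂ)ᶜ →
        MvPolynomial.eval (fun o : Option (Fin N) => o.elim p.1 (fun i => g i p.1)) P ≠ 0 :=
      (continuous_fst.tendsto (a, z)).eventually h
    have e2 : ∀ᶠ p : ℂ × (Fin N → ℂ) in 𝓝 (a, z), ∀ i, g i (riemannZeta (p.2 i)) = p.2 i := by
      rw [eventually_all]
      intro i
      have hc : Continuous (fun p : ℂ × (Fin N → ℂ) => p.2 i) := (continuous_apply i).comp continuous_snd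
      exact (hc.tendsto (a, z)).eventually (h4 i)
    have e3 : ∀ᶠ p : ℂ × (Fin N → ℂ) in 𝓝[CountT N P] (a, z), p ∈ CountT N P := eventually_mem_nhdsWithin
    filter_upwards [e3, mem_nhdsWithin_of_mem_nhds e1, mem_nhdsWithin_of_mem_nhds e2]
    rintro ⟨b, w⟩ ⟨_, hw, hPw⟩ k1 k2
    simp only at hw hPw k1 k2
    have hgw : ∀ i, g i b = w i := by
      intro i
      have := k2 i
      rwa [(hw i).2] at this
    have hb : b = a := by
      by_contra hne
      refine k1 hne ?_
      have : (fun i => g i b) = w := funext hgw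
      rw [this]
      exact hPw
    have hwz : w = z := by
      funext i
      rw [← hgw i, hb, h2 i]
    rw [mem_singleton_iff, hb, hwz]

private theorem Count_T (N : ℕ) (P : MvPolynomial (Option (Fin N)) ℂ) (hP : P ≠ 0) : (CountT N P).Countable := by
  obtain ⟨t, _, ht, hs⟩ := TopologicalSpace.countable_cover_nhdsWithin (Count_discrete N P hP)
  refine ht.mono (fun x hx => ?_)
  have := hs hx
  simp only [mem_iUnion, mem_singleton_iff] at this
  obtain ⟨y, hy, hxy⟩ := this
  rw [hxy]
  exact hy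

theorem count (N : ℕ) (P : MvPolynomial (Option (Fin N)) ℂ) (hP : P ≠ 0) :
    {a : ℂ | a ≠ riemannZeta 1 ∧ a ∉ riemannZeta '' {w : ℂ | w ≠ 1 ∧ deriv riemannZeta w = 0} ∧
      ∃ z : Fin N → ℂ, Function.Injective z ∧ (∀ i, riemannZeta (z i) = a) ∧
        MvPolynomial.eval (fun o : Option (Fin N) => o.elim a z) P = 0}.Countable := by
  refine ((Count_T N P hP).image Prod.fst).mono ?_
  rintro a ⟨ha1, ha2, z, hinj, hz, hPz⟩
  refine ⟨(a, z), ⟨hinj, fun i => ⟨⟨?_, ?_⟩, hz i⟩, hPz⟩, rfl⟩
  · intro h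
    have h5 : z i = 1 := h
    exact ha1 (by rw [← hz i, h5])
  · intro h
    refine ha2 ⟨z i, ⟨?_, h⟩, hz i⟩
    intro h'
    exact ha1 (by rw [← hz i, h'])

/-- the same for an arbitrary finite index type -/
theorem count_fin {ι : Type} [Fintype ι] (P : MvPolynomial (Option ι) ℂ) (hP : P ≠ 0) :
    {a : ℂ | a ≠ riemannZeta 1 ∧ a ∉ riemannZeta '' {w : ℂ | w ≠ 1 ∧ deriv riemannZeta w = 0} ∧
      ∃ z : ι → ℂ, Function.Injective z ∧ (∀ i, riemannZeta (z i) = a) ∧
        MvPolynomial.eval (fun o : Option ι => o.elim a z) P = 0}.Countable := by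
  classical
  obtain ⟨e⟩ : Nonempty (ι ≃ Fin (Fintype.card ι)) := ⟨Fintype.equivFin ι⟩
  have hP' : MvPolynomial.rename (Option.map e) P ≠ 0 := by
    intro h
    refine hP (MvPolynomial.rename_injective (Option.map e) (Option.map_injective e.injective) ?_)
    rw [h, map_zero]
  refine (count (Fintype.card ι) (MvPolynomial.rename (Option.map e) P) hP').mono ?_
  rintro a ⟨ha1, ha2, z, hinj, hz, hPz⟩
  refine ⟨ha1, ha2, z ∘ e.symm, hinj.comp e.symm.injective, fun i => hz _, ?_⟩
  rw [MvPolynomial.eval_rename]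
  have : ((fun o : Option (Fin (Fintype.card ι)) => o.elim a (z ∘ e.symm)) ∘ Option.map e) =
      fun o : Option ι => o.elim a z := by
    funext o
    cases o with
    | none => rfl
    | some i =>
      show (z ∘ e.symm) (e i) = z i
      rw [Function.comp_apply, Equiv.symm_apply_apply]
  rw [this]
  exact hPz

end Pool.Agent.Lib.MP_ec260d_ntA
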