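import Mathlib
import Pool.Agent.Lib.MP_ec260d_ntA.Defs
import Pool.Agent.Lib.MP_ec260d_ntA.Count

/-!
# JOB Final: real and imaginary parts (about 300 lines)

Let `K` be a countable subfield of `ℂ`.  For `n1, n2 : ℕ` and a nonzero `P ∈ MvPolynomial (Option (Fin n1 ⊕ (Fin n2 ⊕ Fin n2))) K` (variables: `a`, the real points `x_i`, the real parts `s_k`, the imaginary parts `t_k`) define `P~ ∈ MvPolynomial (Option (Fin n1 ⊕ (Fin n2 ⊕ Fin n2))) ℂ` by the substitution `a ↦ a`, `x_i ↦ x_i`,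
`s_k ↦ (z_k + z'_k)/2`, `t_k ↦ (z_k - z'_k)/(2i)` (`z_k = inr (inl k)`, `z'_k = inr (inr k)`).  `P~ ≠ 0` since the substitution is invertible over `ℂ` (inverse: `z_k ↦ s_k + i t_k`, `z'_k ↦ s_k - i t_k`) and `MvPolynomial.map` along `K → ℂ` is injective.  By `count_fin` the exceptional set of `P~` is countable; there are countably many
`(n1, n2, P)` (`MvPolynomial` over a countable ring in finitely many variables is countable).  `X` = the real `a` in one of these sets, or with `a = ζ 1` (the value of Mathlib at the pole) or `a ∈ ζ '' crit` (`crit_countable`).  `X` is countable (preimage under the injective map `ℝ → ℂ`).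
Let `a ∉ X` be real.  To prove `AlgebraicIndependent K v` where `v : Option (S1 ⊕ S2) → ℂ`, `S1 = {z | ζ z = a ∧ 0 ≤ z.im}`, `S2 = {z | ζ z = a ∧ 0 < z.im}`, `v none = a`, `v (inl z) = z.re`, `v (inr z) = z.im`.  Let `F ∈ MvPolynomial (Option (S1 ⊕ S2)) K`, `aeval v F = 0`, and suppose `F ≠ 0`.
`F` involves finitely many variables: let `R` be a finite set of real points `z` (`z.im = 0`) and `C` a finite set of points with `z.im > 0`, such that all the variables `inl z`, `inr z` of `F` have `z ∈ R ∪ C`, resp. `z ∈ C`.  Enumerate `R = {x_1..x_n1}`, `C = {z_1..z_n2}`.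
`F` is the image of a nonzero `P` under the injective renaming `none ↦ none`, `inl i ↦ inl x_i`, `inr (inl k) ↦ inl z_k`, `inr (inr k) ↦ inr z_k` (`MvPolynomial.exists_rename_eq_of_vars_subset_range` or `exists_finset_rename`).  Put `z : Fin n1 ⊕ (Fin n2 ⊕ Fin n2) → ℂ`, `x_i`, `z_k`, `conj z_k`: injective (imaginary parts `0`, `> 0`, `< 0`), all values `a`
(`riemannZeta_conj`, `a` real).  `P~(a, z) = P(a, x_i.re, z_k.re, z_k.im) = aeval v F = 0` since `x_i` is real, `(z_k + conj z_k)/2 = z_k.re`, `(z_k - conj z_k)/(2i) = z_k.im`.  So `a ∈ X`, contradiction.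
-/

namespace Pool.Agent.Lib.MP_ec260d_ntA

open Complex Set Filter Topology Metric MeasureTheory

/-- the substitution of the real and imaginary parts -/
private noncomputable def Final_h (n1 n2 : ℕ) : Option (Fin n1 ⊕ (Fin n2 ⊕ Fin n2)) →
    MvPolynomial (Option (Fin n1 ⊕ (Fin n2 ⊕ Fin n2))) ℂ
  | none => MvPolynomial.X none
  | some (Sum.inl i) => MvPolynomial.X (some (Sum.inl i))
  | some (Sum.inr (Sum.inl k)) => MvPolynomial.C (1 / 2) *
      (MvPolynomial.X (some (Sum.inr (Sum.inl k))) + MvPolynomial.X (some (Sum.inr (Sum.inr k))))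
  | some (Sum.inr (Sum.inr k)) => MvPolynomial.C (1 / (2 * I)) *
      (MvPolynomial.X (some (Sum.inr (Sum.inl k))) - MvPolynomial.X (some (Sum.inr (Sum.inr k))))

/-- the inverse substitution -/
private noncomputable def Final_k (n1 n2 : ℕ) : Option (Fin n1 ⊕ (Fin n2 ⊕ Fin n2)) →
    MvPolynomial (Option (Fin n1 ⊕ (Fin n2 ⊕ Fin n2))) ℂ
  | none => MvPolynomial.X none
  | some (Sum.inl i) => MvPolynomial.X (some (Sum.inl i))
  | some (Sum.inr (Sum.inl k)) =>
      MvPolynomial.X (some (Sum.inr (Sum.inl k))) + MvPolynomial.C I * MvPolynomial.X (some (Sum.inr (Sum.inr k)))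
  | some (Sum.inr (Sum.inr k)) =>
      MvPolynomial.X (some (Sum.inr (Sum.inl k))) - MvPolynomial.C I * MvPolynomial.X (some (Sum.inr (Sum.inr k)))

private theorem Final_inj (n1 n2 : ℕ) :
    Function.Injective (MvPolynomial.aeval (R := ℂ) (Final_h n1 n2)) := by
  refine Function.LeftInverse.injective (g := MvPolynomial.aeval (R := ℂ) (Final_k n1 n2)) fun Q => ?_
  have h : (MvPolynomial.aeval (R := ℂ) (Final_k n1 n2)).comp (MvPolynomial.aeval (R := ℂ) (Final_h n1 n2)) =
      AlgHom.id ℂ _ := by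
    refine MvPolynomial.algHom_ext fun o => ?_
    rw [AlgHom.comp_apply, MvPolynomial.aeval_X, AlgHom.id_apply]
    match o with
    | none => exact MvPolynomial.aeval_X _ _
    | some (Sum.inl i) => exact MvPolynomial.aeval_X _ _
    | some (Sum.inr (Sum.inl k)) =>
      show MvPolynomial.aeval (R := ℂ) (Final_k n1 n2) (MvPolynomial.C (1 / 2) *
        (MvPolynomial.X (some (Sum.inr (Sum.inl k))) + MvPolynomial.X (some (Sum.inr (Sum.inr k))))) = _
      rw [map_mul, map_add, MvPolynomial.aeval_X, MvPolynomial.aeval_X, MvPolynomial.aeval_C]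
      show MvPolynomial.C (1 / 2) *
        ((MvPolynomial.X (some (Sum.inr (Sum.inl k))) + MvPolynomial.C I * MvPolynomial.X (some (Sum.inr (Sum.inr k)))) +
        (MvPolynomial.X (some (Sum.inr (Sum.inl k))) - MvPolynomial.C I * MvPolynomial.X (some (Sum.inr (Sum.inr k))))) = _
      have h2 : (MvPolynomial.C (1 / 2) : MvPolynomial (Option (Fin n1 ⊕ (Fin n2 ⊕ Fin n2))) ℂ) * 2 = 1 := by
        rw [show (2 : MvPolynomial (Option (Fin n1 ⊕ (Fin n2 ⊕ Fin n2))) ℂ) = MvPolynomial.C 2 from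
          (map_ofNat MvPolynomial.C 2).symm, ← MvPolynomial.C_mul, ← MvPolynomial.C_1]
        norm_num
      linear_combination (MvPolynomial.X (some (Sum.inr (Sum.inl k)))) * h2
    | some (Sum.inr (Sum.inr k)) =>
      show MvPolynomial.aeval (R := ℂ) (Final_k n1 n2) (MvPolynomial.C (1 / (2 * I)) *
        (MvPolynomial.X (some (Sum.inr (Sum.inl k))) - MvPolynomial.X (some (Sum.inr (Sum.inr k))))) = _
      rw [map_mul, map_sub, MvPolynomial.aeval_X, MvPolynomial.aeval_X, MvPolynomial.aeval_C]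
      show MvPolynomial.C (1 / (2 * I)) *
        ((MvPolynomial.X (some (Sum.inr (Sum.inl k))) + MvPolynomial.C I * MvPolynomial.X (some (Sum.inr (Sum.inr k)))) -
        (MvPolynomial.X (some (Sum.inr (Sum.inl k))) - MvPolynomial.C I * MvPolynomial.X (some (Sum.inr (Sum.inr k))))) = _
      have h2 : (MvPolynomial.C (1 / (2 * I)) : MvPolynomial (Option (Fin n1 ⊕ (Fin n2 ⊕ Fin n2))) ℂ) *
          (2 * MvPolynomial.C I) = 1 := by
        rw [show (2 : MvPolynomial (Option (Fin n1 ⊕ (Fin n2 ⊕ Fin n2))) ℂ) = MvPolynomial.C 2 from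
          (map_ofNat MvPolynomial.C 2).symm, ← MvPolynomial.C_mul, ← MvPolynomial.C_mul, ← MvPolynomial.C_1]
        have h3 : (1 : ℂ) / (2 * I) * (2 * I) = 1 := by
          rw [div_mul_cancel₀]
          exact mul_ne_zero two_ne_zero I_ne_zero
        rw [h3]
      linear_combination (MvPolynomial.X (some (Sum.inr (Sum.inr k)))) * h2
  exact congrArg (fun f => f Q) h

/-- the complex polynomial -/
private noncomputable def Final_t (K : Subfield ℂ) (n1 n2 : ℕ)
    (P : MvPolynomial (Option (Fin n1 ⊕ (Fin n2 ⊕ Fin n2))) K) :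
    MvPolynomial (Option (Fin n1 ⊕ (Fin n2 ⊕ Fin n2))) ℂ :=
  MvPolynomial.aeval (R := ℂ) (Final_h n1 n2) (MvPolynomial.map (algebraMap K ℂ) P)

private theorem Final_t_ne (K : Subfield ℂ) (n1 n2 : ℕ)
    {P : MvPolynomial (Option (Fin n1 ⊕ (Fin n2 ⊕ Fin n2))) K} (hP : P ≠ 0) : Final_t K n1 n2 P ≠ 0 := by
  intro h
  unfold Final_t at h
  have h1 := (map_eq_zero_iff _ (Final_inj n1 n2)).1 h
  have h2 : Function.Injective (MvPolynomial.map (σ := Option (Fin n1 ⊕ (Fin n2 ⊕ Fin n2))) (algebraMap K ℂ)) :=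
    MvPolynomial.map_injective _ (algebraMap K ℂ).injective
  exact hP ((map_eq_zero_iff _ h2).1 h1)

private theorem Final_t_eval (K : Subfield ℂ) (n1 n2 : ℕ)
    (P : MvPolynomial (Option (Fin n1 ⊕ (Fin n2 ⊕ Fin n2))) K)
    (g u : Option (Fin n1 ⊕ (Fin n2 ⊕ Fin n2)) → ℂ)
    (h : ∀ o, MvPolynomial.eval g (Final_h n1 n2 o) = u o) :
    MvPolynomial.eval g (Final_t K n1 n2 P) = MvPolynomial.aeval u P := by
  unfold Final_t
  have h1 : (MvPolynomial.aeval (R := ℂ) g).comp (MvPolynomial.aeval (R := ℂ) (Final_h n1 n2)) =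
      MvPolynomial.aeval (R := ℂ) u := by
    refine MvPolynomial.algHom_ext fun o => ?_
    rw [AlgHom.comp_apply, MvPolynomial.aeval_X, MvPolynomial.aeval_X, ← h o]
    rfl
  have h2 := congrArg (fun f => f (MvPolynomial.map (algebraMap K ℂ) P)) h1
  have h3 : MvPolynomial.aeval (R := ℂ) u (MvPolynomial.map (algebraMap K ℂ) P) = MvPolynomial.aeval u P := by
    rw [MvPolynomial.aeval_map_algebraMap]
  exact h2.trans h3

private theorem Final_count (K : Subfield ℂ) (hK : (K : Set ℂ).Countable) (n1 n2 : ℕ) :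
    Countable (MvPolynomial (Option (Fin n1 ⊕ (Fin n2 ⊕ Fin n2))) K) := by
  have h1 : Countable K := hK.to_subtype
  rw [← Cardinal.mk_le_aleph0_iff]
  refine MvPolynomial.cardinalMk_le_max.trans ?_
  refine max_le (max_le ?_ ?_) le_rfl
  · exact Cardinal.mk_le_aleph0_iff.2 h1
  · exact Cardinal.mk_le_aleph0_iff.2 inferInstance

theorem finalA (K : Subfield ℂ) (hK : (K : Set ℂ).Countable) : ∃ X : Set ℝ, X.Countable ∧
    ∀ a : ℝ, a ∉ X → AlgebraicIndependent K
      (fun o : Option ({z : ℂ // riemannZeta z = a ∧ 0 ≤ z.im} ⊕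
          {z : ℂ // riemannZeta z = a ∧ 0 < z.im}) =>
        o.elim (a : ℂ) (Sum.elim (fun z => ((z.1.re : ℝ) : ℂ)) (fun z => ((z.1.im : ℝ) : ℂ)))) := by
  classical
  have hcnt := fun n1 n2 => Final_count K hK n1 n2
  let Bad : (n1 n2 : ℕ) → MvPolynomial (Option (Fin n1 ⊕ (Fin n2 ⊕ Fin n2))) K → Set ℂ := fun n1 n2 P =>
    {a : ℂ | a ≠ riemannZeta 1 ∧ a ∉ riemannZeta '' {w : ℂ | w ≠ 1 ∧ deriv riemannZeta w = 0} ∧
      ∃ z : (Fin n1 ⊕ (Fin n2 ⊕ Fin n2)) → ℂ, Function.Injective z ∧ (∀ i, riemannZeta (z i) = a) ∧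
        MvPolynomial.eval (fun o : Option (Fin n1 ⊕ (Fin n2 ⊕ Fin n2)) => o.elim a z) (Final_t K n1 n2 P) = 0}
  let Y : Set ℂ := {riemannZeta 1} ∪ riemannZeta '' {w : ℂ | w ≠ 1 ∧ deriv riemannZeta w = 0} ∪
    ⋃ (n1 : ℕ) (n2 : ℕ) (P : MvPolynomial (Option (Fin n1 ⊕ (Fin n2 ⊕ Fin n2))) K) (_ : P ≠ 0), Bad n1 n2 P
  have hY : Y.Countable := by
    refine ((Set.countable_singleton _).union (crit_countable.image _)).union ?_
    refine Set.countable_iUnion fun n1 => Set.countable_iUnion fun n2 => Set.countable_iUnion fun P =>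
      Set.countable_iUnion fun hP => ?_
    exact count_fin _ (Final_t_ne K n1 n2 hP)
  refine ⟨(fun a : ℝ => (a : ℂ)) ⁻¹' Y, hY.preimage Complex.ofReal_injective, fun a ha => ?_⟩
  have ha' : (a : ℂ) ∉ Y := ha
  rw [algebraicIndependent_iff]
  intro F hF
  by_contra hF0
  -- the points
  let pt : Option ({z : ℂ // riemannZeta z = a ∧ 0 ≤ z.im} ⊕ {z : ℂ // riemannZeta z = a ∧ 0 < z.im}) → ℂ :=
    fun o => o.elim 0 (Sum.elim (fun z => z.1) (fun z => z.1))
  let T : Finset ℂ := F.vars.image pt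
  let R : Finset ℂ := T.filter fun z => riemannZeta z = a ∧ z.im = 0
  let Cc : Finset ℂ := T.filter fun z => riemannZeta z = a ∧ 0 < z.im
  have hR : ∀ z ∈ R, riemannZeta z = a ∧ z.im = 0 := fun z hz => (Finset.mem_filter.1 hz).2
  have hC : ∀ z ∈ Cc, riemannZeta z = a ∧ 0 < z.im := fun z hz => (Finset.mem_filter.1 hz).2
  obtain ⟨n1, hn1⟩ : ∃ n1 : ℕ, R.card = n1 := ⟨_, rfl⟩
  obtain ⟨n2, hn2⟩ : ∃ n2 : ℕ, Cc.card = n2 := ⟨_, rfl⟩
  let ex : Fin n1 ≃ R := (R.equivFinOfCardEq hn1).symm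
  let ew : Fin n2 ≃ Cc := (Cc.equivFinOfCardEq hn2).symm
  let f : Option (Fin n1 ⊕ (Fin n2 ⊕ Fin n2)) →
      Option ({z : ℂ // riemannZeta z = a ∧ 0 ≤ z.im} ⊕ {z : ℂ // riemannZeta z = a ∧ 0 < z.im})
    | none => none
    | some (Sum.inl i) => some (Sum.inl ⟨ex i, (hR _ (ex i).2).1, (hR _ (ex i).2).2.ge⟩)
    | some (Sum.inr (Sum.inl k)) => some (Sum.inl ⟨ew k, (hC _ (ew k).2).1, (hC _ (ew k).2).2.le⟩)
    | some (Sum.inr (Sum.inr k)) => some (Sum.inr ⟨ew k, (hC _ (ew k).2).1, (hC _ (ew k).2).2⟩)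
  have hxw : ∀ i k, (ex i : ℂ) ≠ (ew k : ℂ) := by
    intro i k h
    have h1 := (hR _ (ex i).2).2
    have h2 := (hC _ (ew k).2).2
    rw [h] at h1
    exact absurd h1 h2.ne'
  have hex : ∀ i j, (ex i : ℂ) = (ex j : ℂ) → i = j := fun i j h => ex.injective (Subtype.ext h)
  have hew : ∀ i j, (ew i : ℂ) = (ew j : ℂ) → i = j := fun i j h => ew.injective (Subtype.ext h)
  have hf : Function.Injective f := by
    intro o o' h
    match o, o', h with
    | none, none, _ => rfl
    | none, some (Sum.inl i), h => exact absurd h (by simp [f])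
    | none, some (Sum.inr (Sum.inl k)), h => exact absurd h (by simp [f])
    | none, some (Sum.inr (Sum.inr k)), h => exact absurd h (by simp [f])
    | some (Sum.inl i), none, h => exact absurd h (by simp [f])
    | some (Sum.inr (Sum.inl k)), none, h => exact absurd h (by simp [f])
    | some (Sum.inr (Sum.inr k)), none, h => exact absurd h (by simp [f])
    | some (Sum.inl i), some (Sum.inl j), h =>
      have h0 := Sum.inl.inj (Option.some.inj h)
      have h1 := Subtype.ext_iff.1 h0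
      rw [hex i j h1]
    | some (Sum.inl i), some (Sum.inr (Sum.inl k)), h =>
      exact absurd (congrArg Subtype.val (Sum.inl.inj (Option.some.inj h))) (hxw i k)
    | some (Sum.inl i), some (Sum.inr (Sum.inr k)), h => exact absurd (Option.some.inj h) (by simp)
    | some (Sum.inr (Sum.inl k)), some (Sum.inl i), h =>
      exact absurd (congrArg Subtype.val (Sum.inl.inj (Option.some.inj h))).symm (hxw i k)
    | some (Sum.inr (Sum.inl k)), some (Sum.inr (Sum.inl l)), h =>
      have h0 := Sum.inl.inj (Option.some.inj h)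
      have h1 := Subtype.ext_iff.1 h0
      rw [hew k l h1]
    | some (Sum.inr (Sum.inl k)), some (Sum.inr (Sum.inr l)), h => exact absurd (Option.some.inj h) (by simp)
    | some (Sum.inr (Sum.inr k)), some (Sum.inl i), h => exact absurd (Option.some.inj h) (by simp)
    | some (Sum.inr (Sum.inr k)), some (Sum.inr (Sum.inl l)), h => exact absurd (Option.some.inj h) (by simp)
    | some (Sum.inr (Sum.inr k)), some (Sum.inr (Sum.inr l)), h =>
      have h0 := Sum.inr.inj (Option.some.inj h)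
      have h1 := Subtype.ext_iff.1 h0
      rw [hew k l h1]
  have hrange : (F.vars : Set _) ⊆ Set.range f := by
    intro o ho
    have hpt : pt o ∈ T := Finset.mem_image_of_mem pt (Finset.mem_coe.1 ho)
    match o, hpt with
    | none, _ => exact ⟨none, rfl⟩
    | some (Sum.inl z), hpt =>
      have hz : (z.1 : ℂ) ∈ T := hpt
      rcases z.2.2.eq_or_lt with h0 | h0
      · have hzR : z.1 ∈ R := Finset.mem_filter.2 ⟨hz, z.2.1, h0.symm⟩
        refine ⟨some (Sum.inl (ex.symm ⟨z.1, hzR⟩)), ?_⟩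
        show some (Sum.inl _) = some (Sum.inl z)
        refine congrArg some (congrArg Sum.inl (Subtype.ext ?_))
        show ((ex (ex.symm ⟨z.1, hzR⟩) : R) : ℂ) = z.1
        rw [Equiv.apply_symm_apply]
      · have hzC : z.1 ∈ Cc := Finset.mem_filter.2 ⟨hz, z.2.1, h0⟩
        refine ⟨some (Sum.inr (Sum.inl (ew.symm ⟨z.1, hzC⟩))), ?_⟩
        show some (Sum.inl _) = some (Sum.inl z)
        refine congrArg some (congrArg Sum.inl (Subtype.ext ?_))
        show ((ew (ew.symm ⟨z.1, hzC⟩) : Cc) : ℂ) = z.1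
        rw [Equiv.apply_symm_apply]
    | some (Sum.inr z), hpt =>
      have hz : (z.1 : ℂ) ∈ T := hpt
      have hzC : z.1 ∈ Cc := Finset.mem_filter.2 ⟨hz, z.2.1, z.2.2⟩
      refine ⟨some (Sum.inr (Sum.inr (ew.symm ⟨z.1, hzC⟩))), ?_⟩
      show some (Sum.inr _) = some (Sum.inr z)
      refine congrArg some (congrArg Sum.inr (Subtype.ext ?_))
      show ((ew (ew.symm ⟨z.1, hzC⟩) : Cc) : ℂ) = z.1
      rw [Equiv.apply_symm_apply]
  obtain ⟨P, hPF⟩ := MvPolynomial.exists_rename_eq_of_vars_subset_range F f hf hrange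
  have hP0 : P ≠ 0 := by
    rintro rfl
    rw [map_zero] at hPF
    exact hF0 hPF.symm
  -- the complex points
  let z : (Fin n1 ⊕ (Fin n2 ⊕ Fin n2)) → ℂ :=
    Sum.elim (fun i => (ex i : ℂ)) (Sum.elim (fun k => (ew k : ℂ)) (fun k => (starRingEnd ℂ) (ew k : ℂ)))
  have hzinj : Function.Injective z := by
    intro i j h
    have hneg : ∀ k, ((starRingEnd ℂ) (ew k : ℂ)).im < 0 := fun k => by
      rw [Complex.conj_im]
      linarith [(hC _ (ew k).2).2]
    match i, j, h with
    | Sum.inl i, Sum.inl j, h => rw [hex i j h]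
    | Sum.inl i, Sum.inr (Sum.inl k), h => exact absurd h (hxw i k)
    | Sum.inl i, Sum.inr (Sum.inr k), h =>
      have h1 : (ex i : ℂ).im = ((starRingEnd ℂ) (ew k : ℂ)).im := congrArg Complex.im h
      have h2 := hneg k
      rw [← h1, (hR _ (ex i).2).2] at h2
      exact absurd h2 (lt_irrefl _)
    | Sum.inr (Sum.inl k), Sum.inl i, h => exact absurd h.symm (hxw i k)
    | Sum.inr (Sum.inr k), Sum.inl i, h =>
      have h1 : ((starRingEnd ℂ) (ew k : ℂ)).im = (ex i : ℂ).im := congrArg Complex.im h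
      have h2 := hneg k
      rw [h1, (hR _ (ex i).2).2] at h2
      exact absurd h2 (lt_irrefl _)
    | Sum.inr (Sum.inl k), Sum.inr (Sum.inl l), h => rw [hew k l h]
    | Sum.inr (Sum.inl k), Sum.inr (Sum.inr l), h =>
      have h1 : (ew k : ℂ).im = ((starRingEnd ℂ) (ew l : ℂ)).im := congrArg Complex.im h
      have h2 := hneg l
      have h3 := (hC _ (ew k).2).2
      rw [← h1] at h2
      exact absurd h2 h3.not_gt
    | Sum.inr (Sum.inr k), Sum.inr (Sum.inl l), h =>
      have h1 : ((starRingEnd ℂ) (ew k : ℂ)).im = (ew l : ℂ).im := congrArg Complex.im h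
      have h2 := hneg k
      have h3 := (hC _ (ew l).2).2
      rw [h1] at h2
      exact absurd h2 h3.not_gt
    | Sum.inr (Sum.inr k), Sum.inr (Sum.inr l), h =>
      have h1 : (ew k : ℂ) = (ew l : ℂ) := (starRingEnd ℂ).injective h
      rw [hew k l h1]
  have hzval : ∀ i, riemannZeta (z i) = a := by
    intro i
    match i with
    | Sum.inl i => exact (hR _ (ex i).2).1
    | Sum.inr (Sum.inl k) => exact (hC _ (ew k).2).1
    | Sum.inr (Sum.inr k) =>
      show riemannZeta ((starRingEnd ℂ) (ew k : ℂ)) = a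
      rw [riemannZeta_conj, (hC _ (ew k).2).1, Complex.conj_ofReal]
  have hev : MvPolynomial.eval (fun o : Option (Fin n1 ⊕ (Fin n2 ⊕ Fin n2)) => o.elim (a : ℂ) z)
      (Final_t K n1 n2 P) = 0 := by
    rw [← hPF, MvPolynomial.aeval_rename] at hF
    rw [← hF]
    refine Final_t_eval K n1 n2 P _ _ fun o => ?_
    match o with
    | none =>
      show MvPolynomial.eval _ (MvPolynomial.X none) = _
      rw [MvPolynomial.eval_X]
      rfl
    | some (Sum.inl i) =>
      show MvPolynomial.eval _ (MvPolynomial.X (some (Sum.inl i))) = _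
      rw [MvPolynomial.eval_X]
      show (ex i : ℂ) = (((ex i : ℂ).re : ℝ) : ℂ)
      refine Complex.ext ?_ ?_
      · rw [Complex.ofReal_re]
      · rw [Complex.ofReal_im]
        exact (hR _ (ex i).2).2
    | some (Sum.inr (Sum.inl k)) =>
      show MvPolynomial.eval _ (MvPolynomial.C (1 / 2) *
        (MvPolynomial.X (some (Sum.inr (Sum.inl k))) + MvPolynomial.X (some (Sum.inr (Sum.inr k))))) = _
      rw [map_mul, map_add, MvPolynomial.eval_X, MvPolynomial.eval_X, MvPolynomial.eval_C]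
      show 1 / 2 * ((ew k : ℂ) + (starRingEnd ℂ) (ew k : ℂ)) = (((ew k : ℂ).re : ℝ) : ℂ)
      rw [Complex.add_conj]
      push_cast
      ring
    | some (Sum.inr (Sum.inr k)) =>
      show MvPolynomial.eval _ (MvPolynomial.C (1 / (2 * I)) *
        (MvPolynomial.X (some (Sum.inr (Sum.inl k))) - MvPolynomial.X (some (Sum.inr (Sum.inr k))))) = _
      rw [map_mul, map_sub, MvPolynomial.eval_X, MvPolynomial.eval_X, MvPolynomial.eval_C]
      show 1 / (2 * I) * ((ew k : ℂ) - (starRingEnd ℂ) (ew k : ℂ)) = (((ew k : ℂ).im : ℝ) : ℂ)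
      rw [Complex.sub_conj]
      push_cast
      have hI : (2 : ℂ) * I ≠ 0 := mul_ne_zero two_ne_zero I_ne_zero
      field_simp
  refine ha' ?_
  by_cases h1 : (a : ℂ) = riemannZeta 1
  · exact Or.inl (Or.inl h1)
  by_cases h2 : (a : ℂ) ∈ riemannZeta '' {w : ℂ | w ≠ 1 ∧ deriv riemannZeta w = 0}
  · exact Or.inl (Or.inr h2)
  refine Or.inr ?_
  rw [Set.mem_iUnion]
  refine ⟨n1, ?_⟩
  rw [Set.mem_iUnion]
  refine ⟨n2, ?_⟩
  rw [Set.mem_iUnion]
  refine ⟨P, ?_⟩
  rw [Set.mem_iUnion]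
  exact ⟨hP0, h1, h2, z, hzinj, hzval, hev⟩

end Pool.Agent.Lib.MP_ec260d_ntA
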